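import Pool.Agent.P.MP_7e6317_an.D.SDefs
import Pool.Agent.P.MP_7e6317_an.Base

/-!
Auxiliary definitions for the duality theorem (see the paper HD in the team store).
-/

namespace Pool.Agent.P.MP_7e6317_an

open Filter Topology Set MeasureTheory

/-- The constant of the Stieltjes representation of `u^(m-2)`. -/
noncomputable def kap (m : ℝ) : ℝ := 2 / Real.pi * Real.sin (Real.pi * m / 2)

/-- Positive increasing nodes with a convergent canonical product. -/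
def Nodes (y : ℕ → ℝ) : Prop :=
  0 < y 0 ∧ StrictMono y ∧ Summable (fun k => 1 / y k ^ 2)

lemma Adm.nodes {τ : ℝ} {y : ℕ → ℝ} (h : Adm τ y) : Nodes y := ⟨h.1, h.2.1, h.2.2.1⟩

lemma Nodes.pos {y : ℕ → ℝ} (h : Nodes y) (k : ℕ) : 0 < y k :=
  h.1.trans_le (h.2.1.monotone (Nat.zero_le k))

/-- The canonical product. -/
noncomputable def cprod (y : ℕ → ℝ) (z : ℂ) : ℂ := ∏' j, (1 - z ^ 2 / (y j : ℂ) ^ 2)

/-- The canonical product without the factor `k`. -/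
noncomputable def cprodk (y : ℕ → ℝ) (k : ℕ) (z : ℂ) : ℂ :=
  ∏' j, if j = k then 1 else (1 - z ^ 2 / (y j : ℂ) ^ 2)

/-- Even entire functions of exponential type at most one, `O((1+|u|)^σ)` on the real axis. -/
structure Cls (σ : ℝ) (D : ℂ → ℂ) : Prop where
  diff : Differentiable ℂ D
  expT : ∀ η : ℝ, 0 < η → ∃ C : ℝ, ∀ z : ℂ, ‖D z‖ ≤ C * Real.exp ((1 + η) * ‖z‖)
  even : ∀ z, D (-z) = D z
  bd : ∃ C : ℝ, ∀ u : ℝ, ‖D u‖ ≤ C * (1 + |u|) ^ σ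

/-- The Cauchy transform of the masses `ν_k D(y_k)` in the variable `z^2`. -/
noncomputable def cau (y ν : ℕ → ℝ) (D : ℂ → ℂ) (z : ℂ) : ℂ :=
  ∑' k, (ν k : ℂ) * D (y k) / (z ^ 2 - (y k : ℂ) ^ 2)

/-- An extreme annihilating measure of the class `Cls σ`, carried by the nodes `y`. -/
structure Ann (σ : ℝ) (y ν : ℕ → ℝ) : Prop where
  pos : 0 < y 0
  mono : StrictMono y
  lim : Tendsto y atTop atTop
  ne : ∀ k, ν k ≠ 0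
  sum : Summable fun k => ν k * (1 + y k) ^ σ
  ann : ∀ D, Cls σ D → ∑' k, (ν k : ℂ) * D (y k) = 0
  ext : ∀ h : ℕ → ℝ, (∃ M, ∀ k, |h k| ≤ M) →
    (∀ D, Cls σ D → ∑' k, ((h k * ν k : ℝ) : ℂ) * D (y k) = 0) → ∀ i j, h i = h j

/-- The entire function of de Branges attached to an extreme annihilating measure. -/
structure DeB (σ : ℝ) (y ν : ℕ → ℝ) (B : ℂ → ℂ) : Prop where
  diff : Differentiable ℂ B
  even : ∀ z, B (-z) = B z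
  real : ∀ x : ℝ, (B x).im = 0
  zero : ∀ z, B z = 0 ↔ ∃ k, z ^ 2 = (y k : ℂ) ^ 2
  der : ∀ k, deriv B (y k) = ((2 * y k / ν k : ℝ) : ℂ)
  rep : ∀ D, Cls σ D → ∀ z, (∀ k, z ^ 2 ≠ (y k : ℂ) ^ 2) → D z = B z * cau y ν D z

/-- The axioms of a corridor `L a < u^m < R a` of width about `u^τ`. -/
structure Cor (m τ : ℝ) (L R : ℝ → ℝ → ℝ) : Prop where
  m0 : 0 < m
  m2 : m < 2
  t0 : -2 < τ
  t1 : τ ≤ 1
  cuL : ∀ a, 0 < a → ContinuousOn (L a) (Ioi 0)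
  cuR : ∀ a, 0 < a → ContinuousOn (R a) (Ioi 0)
  caL : ∀ u, 0 < u → ContinuousOn (fun a => L a u) (Ioi 0)
  caR : ∀ u, 0 < u → ContinuousOn (fun a => R a u) (Ioi 0)
  monoL : ∀ u, 0 < u → StrictAntiOn (fun a => L a u) (Ioi 0)
  monoR : ∀ u, 0 < u → StrictMonoOn (fun a => R a u) (Ioi 0)
  insL : ∀ a, 0 < a → ∀ u, 0 < u → L a u < u ^ m
  insR : ∀ a, 0 < a → ∀ u, 0 < u → u ^ m < R a u
  width : ∀ a, 0 < a → ∃ η C U : ℝ, 0 < η ∧ 1 ≤ U ∧ ∀ u, U ≤ u →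
    η * u ^ τ ≤ u ^ m - L a u ∧ u ^ m - L a u ≤ C * u ^ τ ∧
      η * u ^ τ ≤ R a u - u ^ m ∧ R a u - u ^ m ≤ C * u ^ τ
  equi : ∀ c, 0 < c → ∀ ε, 0 < ε → ∃ a U : ℝ, 0 < a ∧ a < c ∧ ∀ u, U ≤ u →
    L a u - L c u ≤ ε * u ^ τ ∧ R c u - R a u ≤ ε * u ^ τ
  zeroL : ∀ a, 0 < a → Tendsto (fun u => L a u / u ^ 2) (𝓝[>] 0) atBot
  zeroR : ∀ a, 0 < a → Tendsto (fun u => R a u / u ^ 2) (𝓝[>] 0) atTop
  big : ∀ U M : ℝ, ∃ a, 0 < a ∧ ∀ u, 0 < u → u ≤ U → L a u ≤ -(M * u ^ 2) ∧ M * u ^ 2 ≤ R a u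
  small : ∀ u, 0 < u → ∀ ε, 0 < ε → ∃ a, 0 < a ∧ u ^ m - ε ≤ L a u
  bd : ∀ a, 0 < a → ∃ C : ℝ, ∀ u, 0 < u → -(C * (1 + u ^ 2)) ≤ L a u ∧ R a u ≤ C * (1 + u ^ 2)
  anR : ∀ a, 0 < a → AnalyticOnNhd ℝ (R a) (Ioi 0)
  anL : ∀ a, 0 < a → AnalyticOnNhd ℝ (L a) (Ioi 0) ∨ ∃ α, 0 < α ∧
    AnalyticOnNhd ℝ (L a) (Ioi 0 \ {α}) ∧
      Tendsto (fun u => (L a u - L a α) / (u - α)) (𝓝[>] α) atTop

/-- Feasible functions of the corridor problem at level `a`. -/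
def Feas (L R : ℝ → ℝ → ℝ) (a : ℝ) (F : ℂ → ℂ) : Prop :=
  TypeOne F ∧ (∀ z, F (-z) = F z) ∧ F 0 = 0 ∧
    ∀ u : ℝ, 0 < u → L a u ≤ (F u).re ∧ (F u).re ≤ R a u

/-- A good entire approximation of `|u|^m`. -/
def IsBase (m : ℝ) (F : ℂ → ℂ) : Prop :=
  TypeOne F ∧ (∀ z, F (-z) = F z) ∧ F 0 = 0 ∧
    ∀ u : ℝ, 1 ≤ u → |u ^ m - (F u).re| ≤ 12 ^ 4 / u ^ 2

/-- The deviation from `u^m` of the lower (even `k`) or upper (odd `k`) boundary curve. -/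
noncomputable def dev (m : ℝ) (L R : ℝ → ℝ → ℝ) (a : ℝ) (k : ℕ) (u : ℝ) : ℝ :=
  if Even k then u ^ m - L a u else R a u - u ^ m

end Pool.Agent.P.MP_7e6317_an
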