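import Pool.Agent.P.MP_7e6317_an.D.Cls

namespace Pool.Agent.P.MP_7e6317_an

open Filter Topology Set MeasureTheory Complex

lemma alt_slope {f : ℝ → ℝ} {a p : ℝ} (h : HasDerivAt f p a) (ha : f a = 0) (hp : p ≠ 0) :
    ∀ᶠ x in 𝓝[≠] a, 0 < p * f x * (x - a) := by
  have h1 := (hasDerivAt_iff_tendsto_slope.1 h).const_mul p
  filter_upwards [h1.eventually (lt_mem_nhds (mul_self_pos.2 hp)), self_mem_nhdsWithin]
    with x hx hx'
  have h2 : x - a ≠ 0 := sub_ne_zero.2 hx'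
  rw [slope_def_field, ha, sub_zero] at hx
  have h3 := mul_pos hx (mul_self_pos.2 h2)
  rwa [show p * (f x / (x - a)) * ((x - a) * (x - a)) = p * f x * (x - a) by field_simp] at h3

lemma alt_real {f : ℝ → ℝ} (hf : Continuous f) {a b p q : ℝ} (hab : a < b) (ha : f a = 0)
    (hb : f b = 0) (hp : HasDerivAt f p a) (hq : HasDerivAt f q b) (hp0 : p ≠ 0) (hq0 : q ≠ 0)
    (h : ∀ x ∈ Ioo a b, f x ≠ 0) : p * q < 0 := by
  obtain ⟨x, hx, hx'⟩ := (((alt_slope hp ha hp0).filter_mono (nhdsGT_le_nhdsNE a)).and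
    (Ioo_mem_nhdsGT hab)).exists
  obtain ⟨z, hz, hz'⟩ := (((alt_slope hq hb hq0).filter_mono (nhdsLT_le_nhdsNE b)).and
    (Ioo_mem_nhdsLT hab)).exists
  have h1 : 0 < p * f x := (mul_pos_iff_of_pos_right (sub_pos.2 hx'.1)).1 hx
  have h2 : q * f z < 0 := by
    by_contra! hc
    nlinarith [hz'.2]
  have h3 : 0 < f x * f z := by
    by_contra! hc
    have h4 : (0 : ℝ) ∈ uIcc (f x) (f z) := by
      rcases mul_nonpos_iff.1 hc with h5 | h5
      · exact mem_uIcc_of_ge h5.2 h5.1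
      · exact mem_uIcc_of_le h5.1 h5.2
    obtain ⟨c, hc, hc0⟩ := intermediate_value_uIcc hf.continuousOn h4
    exact h c (ordConnected_Ioo.uIcc_subset hx' hz' hc) hc0
  by_contra! hc
  nlinarith [mul_neg_of_pos_of_neg h1 h2, mul_nonneg hc h3.le]

/-- Simple real zeros force alternating signs. -/
theorem alt_stmt {σ : ℝ} {y ν : ℕ → ℝ} (h : Ann σ y ν) {B : ℂ → ℂ} (hB : DeB σ y ν B) (k : ℕ) :
    ν k * ν (k + 1) < 0 := by
  have hy : ∀ j, 0 < y j := fun j => h.pos.trans_le (h.mono.monotone (Nat.zero_le j))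
  have hd : ∀ j, HasDerivAt (fun x : ℝ => (B x).re) (2 * y j / ν j) (y j) := fun j => by
    simpa only [hB.der, ofReal_re] using (hB.diff (y j)).hasDerivAt.real_of_complex
  have hz : ∀ j, (B (y j)).re = 0 := fun j => by rw [(hB.zero _).2 ⟨j, rfl⟩, zero_re]
  have hn : ∀ j, 2 * y j / ν j ≠ 0 := fun j => div_ne_zero (by linarith [hy j]) (h.ne j)
  have h1 := alt_real (continuous_re.comp (hB.diff.continuous.comp continuous_ofReal))
    (h.mono k.lt_succ_self) (hz k) (hz (k + 1)) (hd k) (hd (k + 1)) (hn k) (hn (k + 1))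
    fun x hx h0 => by
      obtain ⟨j, hj⟩ := (hB.zero x).1 (Complex.ext h0 (hB.real x))
      have h2 : x ^ 2 = y j ^ 2 := by exact_mod_cast hj
      have h3 : x = y j := (pow_left_inj₀ ((hy k).trans hx.1).le (hy j).le two_ne_zero).1 h2
      rw [h3] at hx
      have h4 := h.mono.lt_iff_lt.1 hx.1
      have h5 := h.mono.lt_iff_lt.1 hx.2
      omega
  rw [div_mul_div_comm] at h1
  have h2 := mul_pos (hy k) (hy (k + 1))
  exact (div_neg_iff.1 h1).elim (fun h3 => h3.2) fun h3 => by nlinarith [h3.1]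

end Pool.Agent.P.MP_7e6317_an
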