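import Pool.Agent.P.MP_7e6317_an.D.Beta

namespace Pool.Agent.P.MP_7e6317_an

open Filter Topology Set MeasureTheory Complex

/-- The explicit base function (compare `exists_base` in Base.lean, which uses `quo`, `kerI`). -/
theorem baseF_stmt {m : ℝ} (h0 : 0 < m) (h2 : m < 2) :
    ∃ F : ℂ → ℂ, TypeOne F ∧ (∀ z, F (-z) = F z) ∧ F 0 = 0 ∧ ∀ u : ℝ, 0 < u →
      u ^ m - (F u).re = kap m * u ^ 2 * (ker u).re *
        ∫ s in Ioi (0 : ℝ), s ^ (m - 1) / ((u ^ 2 + s ^ 2) * kerI (s ^ 2)) := by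
  obtain ⟨hc0, hβ⟩ := beta_stmt h0 h2
  set μ : Measure ℝ := volume.restrict (Ioi 0) with hμ
  set F : ℂ → ℝ → ℂ := fun z s =>
    -(z ^ 2 * quo (s ^ 2) z) * ((s ^ (m - 1) / kerI (s ^ 2) : ℝ) : ℂ) with hF
  have hpos : ∀ᵐ s ∂μ, 0 < s := ae_restrict_mem measurableSet_Ioi
  have hgen : ∀ z : ℂ, ∀ᵐ s ∂μ, F z s =
      -(z ^ 2 * ((ker z - kerI (s ^ 2)) / (z ^ 2 + ((s ^ 2 : ℝ) : ℂ)))) *
        ((s ^ (m - 1) / kerI (s ^ 2) : ℝ) : ℂ) := by
    intro z
    have h1 : ∀ᵐ s ∂μ, s ≠ √((-z ^ 2).re) := ae_restrict_of_ae (by simp [ae_iff])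
    filter_upwards [hpos, h1] with s hs hs1
    have : z ^ 2 + ((s ^ 2 : ℝ) : ℂ) ≠ 0 := fun h => hs1 (by
      have : -z ^ 2 = ((s ^ 2 : ℝ) : ℂ) := by linear_combination -h
      rw [this, ofReal_re, Real.sqrt_sq hs.le])
    simp only [hF, quo_eq (pow_pos hs 2) this]
  have hm : ∀ z, AEStronglyMeasurable (F z) μ := by
    intro z
    refine AEStronglyMeasurable.congr (Measurable.aestronglyMeasurable ?_)
      (EventuallyEq.symm (hgen z))
    unfold kerI
    fun_prop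
  set B : ℝ → ℝ := fun r => max r 0 ^ 2 * ((4 * max r 0 ^ 2 + 4) * Real.exp (5 + r)) with hB
  have hBm : Monotone B := fun r r' h => by
    simp only [hB]
    gcongr
  have hb : Integrable (fun s : ℝ => s ^ (m - 1) / (1 ^ 2 + s ^ 2)) μ := (hβ 1 one_pos).1
  have hbound : ∀ᵐ s ∂μ, 0 ≤ s ^ (m - 1) / (1 ^ 2 + s ^ 2) ∧
      ∀ z, ‖F z s‖ ≤ B ‖z‖ * (s ^ (m - 1) / (1 ^ 2 + s ^ 2)) := by
    filter_upwards [hpos] with s hs
    refine ⟨by positivity, fun z => ?_⟩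
    have hk := one_le_kerI (pow_pos hs 2)
    have h1 := norm_quo_le (pow_pos hs 2) z
    simp only [hF, hB, norm_mul, norm_neg, norm_pow, Complex.norm_real, max_eq_left (norm_nonneg z)]
    rw [Real.norm_of_nonneg (by positivity)]
    calc ‖z‖ ^ 2 * ‖quo (s ^ 2) z‖ * (s ^ (m - 1) / kerI (s ^ 2))
        = ‖z‖ ^ 2 * (‖quo (s ^ 2) z‖ / kerI (s ^ 2)) * s ^ (m - 1) := by ring
      _ ≤ ‖z‖ ^ 2 * ((4 * ‖z‖ ^ 2 + 4) * Real.exp (5 + ‖z‖) / (1 + s ^ 2)) * s ^ (m - 1) := by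
          gcongr
      _ = _ := by ring
  have hdiff := differentiable_integral hm (Eventually.of_forall fun s => by
    have := quo_diff (s ^ 2)
    simp only [hF]
    fun_prop) hBm hb hbound
  set c := ∫ s, s ^ (m - 1) / (1 ^ 2 + s ^ 2) ∂μ with hc
  have hc1 : kap m * c = 1 := by
    rw [hc, (hβ 1 one_pos).2, Real.one_rpow]
  have hev : ∀ z, ∫ s, F (-z) s ∂μ = ∫ s, F z s ∂μ := by
    intro z
    refine integral_congr_ae ?_
    filter_upwards [hgen z, hgen (-z)] with s h1 h2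
    rw [h1, h2, ker_neg, neg_sq]
  have hzero : ∫ s, F 0 s ∂μ = 0 := by simp [hF]
  have hreal : ∀ u : ℝ, 0 < u → ((kap m : ℝ) : ℂ) * ∫ s, F u s ∂μ =
      ((u ^ m - kap m * u ^ 2 * (ker u).re *
        ∫ s, s ^ (m - 1) / ((u ^ 2 + s ^ 2) * kerI (s ^ 2)) ∂μ : ℝ) : ℂ) := by
    intro u hu
    obtain ⟨k, -, -, -, hk⟩ := ker_real hu.ne'
    have hi1 : Integrable (fun s : ℝ => s ^ (m - 1) / (u ^ 2 + s ^ 2)) μ := (hβ u hu).1
    have hi2 : Integrable (fun s : ℝ => s ^ (m - 1) / ((u ^ 2 + s ^ 2) * kerI (s ^ 2))) μ := by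
      refine hi1.mono' (Measurable.aestronglyMeasurable ?_) ?_
      · unfold kerI
        fun_prop
      · filter_upwards [hpos] with s hs
        have e2 := one_le_kerI (pow_pos hs 2)
        rw [Real.norm_of_nonneg (by positivity)]
        exact div_le_div_of_nonneg_left (by positivity) (by positivity)
          (le_mul_of_one_le_right (by positivity) e2)
    have hFu : ∫ s, F u s ∂μ = ((u ^ 2 * (∫ s, s ^ (m - 1) / (u ^ 2 + s ^ 2) ∂μ) -
        u ^ 2 * k * ∫ s, s ^ (m - 1) / ((u ^ 2 + s ^ 2) * kerI (s ^ 2)) ∂μ : ℝ) : ℂ) := by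
      rw [← integral_const_mul, ← integral_const_mul,
        ← integral_sub (hi1.const_mul _) (hi2.const_mul _), ← integral_complex_ofReal]
      refine integral_congr_ae ?_
      filter_upwards [hgen u, hpos] with s h1 hs
      have e2 := one_le_kerI (pow_pos hs 2)
      rw [h1, hk]
      have e3 : (-(u ^ 2 * ((k - kerI (s ^ 2)) / (u ^ 2 + s ^ 2))) *
          (s ^ (m - 1) / kerI (s ^ 2)) : ℝ) = u ^ 2 * (s ^ (m - 1) / (u ^ 2 + s ^ 2)) -
            u ^ 2 * k * (s ^ (m - 1) / ((u ^ 2 + s ^ 2) * kerI (s ^ 2))) := by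
        field_simp; ring
      rw [← e3]
      simp only [Complex.ofReal_mul, Complex.ofReal_neg, Complex.ofReal_div, Complex.ofReal_pow,
        Complex.ofReal_sub, Complex.ofReal_add]
    rw [hFu, ← Complex.ofReal_mul, hk, ofReal_re]
    congr 1
    have e4 : u ^ m = u ^ 2 * u ^ (m - 2) := by
      rw [← Real.rpow_two, ← Real.rpow_add hu]; congr 1; ring
    rw [e4, ← (hβ u hu).2]
    ring
  refine ⟨fun z => ((kap m : ℝ) : ℂ) * ∫ s, F z s ∂μ, ⟨hdiff.const_mul _, fun x => ?_, ?_⟩,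
    fun z => by simp only [hev], by simp only [hzero, mul_zero], fun u hu => ?_⟩
  · rcases lt_trichotomy x 0 with hx | rfl | hx
    · have := hreal (-x) (by linarith)
      rw [ofReal_neg, hev] at this
      simp only [this, ofReal_im]
    · simp only [ofReal_zero, hzero, mul_zero, zero_im]
    · simp only [hreal x hx, ofReal_im]
  · intro η hη
    obtain ⟨C, hC0, hC⟩ := sq_le_exp hη
    refine ⟨4 * Real.exp 5 * C, fun z => ?_⟩
    have h1 : ‖∫ s, F z s ∂μ‖ ≤ B ‖z‖ * c := by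
      rw [hc, ← integral_const_mul]
      exact norm_integral_le_of_norm_le (hb.const_mul _) (hbound.mono fun s hs => hs.2 z)
    have hz0 := norm_nonneg z
    rw [norm_mul, Complex.norm_real, Real.norm_of_nonneg hc0.le]
    calc kap m * ‖∫ s, F z s ∂μ‖ ≤ kap m * (B ‖z‖ * c) := by gcongr
      _ = B ‖z‖ * (kap m * c) := by ring
      _ = ‖z‖ ^ 2 * (‖z‖ ^ 2 + 1) * (4 * Real.exp (5 + ‖z‖)) := by
          simp only [hc1, hB, max_eq_left hz0]; ring
      _ ≤ (1 + ‖z‖) ^ 4 * (4 * Real.exp (5 + ‖z‖)) := by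
          gcongr; nlinarith [pow_nonneg hz0 3]
      _ ≤ C * Real.exp (η * ‖z‖) * (4 * Real.exp (5 + ‖z‖)) := by gcongr; exact hC _ hz0
      _ = _ := by rw [add_mul, one_mul, Real.exp_add, Real.exp_add]; ring
  · simp only [hreal u hu, ofReal_re]
    ring

end Pool.Agent.P.MP_7e6317_an
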