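import Pool.Agent.P.MP_7e6317_an.D.Cls

namespace Pool.Agent.P.MP_7e6317_an

open Filter Topology Set MeasureTheory Complex

lemma beta_aux {m : ℝ} (h0 : 0 < m) (h2 : m < 2) {x : ℝ} (hx : 0 < x) :
    IntegrableOn (fun s : ℝ => s ^ (m - 1) / (x + s ^ 2)) (Ioi 0) ∧
      ∫ s in Ioi (0 : ℝ), s ^ (m - 1) / (x + s ^ 2) =
        x ^ (m / 2 - 1) * (1 / 2) * (Real.Gamma (m / 2) * Real.Gamma (1 - m / 2)) := by
  obtain ⟨f, hf⟩ : ∃ f : ℝ → ℝ → ℝ, f = fun s r => s ^ (m - 1) * Real.exp (-(x + s ^ 2) * r) :=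
    ⟨_, rfl⟩
  have e0 : ∀ s r : ℝ, f s r = Real.exp (-x * r) * (s ^ (m - 1) * Real.exp (-r * s ^ (2 : ℝ))) := by
    intro s r
    rw [hf, Real.rpow_two]
    show s ^ (m - 1) * Real.exp (-(x + s ^ 2) * r) = _
    rw [show -(x + s ^ 2) * r = -x * r + -r * s ^ 2 by ring, Real.exp_add]
    ring
  have e1 : ∀ s : ℝ, ∫ r in Ioi (0 : ℝ), f s r = s ^ (m - 1) / (x + s ^ 2) := by
    intro s
    have hp : 0 < x + s ^ 2 := by positivity
    rw [hf]
    show ∫ r in Ioi (0 : ℝ), s ^ (m - 1) * Real.exp (-(x + s ^ 2) * r) = _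
    rw [integral_const_mul, integral_exp_mul_Ioi (neg_lt_zero.2 hp), mul_zero, Real.exp_zero,
      neg_div_neg_eq, mul_one_div]
  have e2 : ∀ r ∈ Ioi (0 : ℝ), ∫ s in Ioi (0 : ℝ), f s r =
      1 / 2 * Real.Gamma (m / 2) * (r ^ (-(m / 2)) * Real.exp (-x * r ^ (1 : ℝ))) := by
    intro r hr
    simp only [e0]
    rw [integral_const_mul, integral_rpow_mul_exp_neg_mul_rpow two_pos (by linarith) hr,
      Real.rpow_one, sub_add_cancel, neg_div]
    ring
  have hm : Measurable (Function.uncurry f) := by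
    rw [hf]
    show Measurable fun p : ℝ × ℝ => p.1 ^ (m - 1) * Real.exp (-(x + p.1 ^ 2) * p.2)
    fun_prop
  have hi : Integrable (Function.uncurry f)
      ((volume.restrict (Ioi (0 : ℝ))).prod (volume.restrict (Ioi (0 : ℝ)))) := by
    refine (integrable_prod_iff' hm.aestronglyMeasurable).2 ⟨?_, ?_⟩
    · filter_upwards [ae_restrict_mem measurableSet_Ioi] with r hr
      simp only [Function.uncurry_apply_pair, e0]
      exact (integrableOn_rpow_mul_exp_neg_mul_rpow (by linarith) two_pos hr).const_mul _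
    · have h3 : IntegrableOn (fun r : ℝ => 1 / 2 * Real.Gamma (m / 2) *
          (r ^ (-(m / 2)) * Real.exp (-x * r ^ (1 : ℝ)))) (Ioi 0) :=
        (integrableOn_rpow_mul_exp_neg_mul_rpow (by linarith) one_pos hx).const_mul _
      refine h3.congr_fun (fun r hr => ?_) measurableSet_Ioi
      refine (e2 r hr).symm.trans ?_
      refine setIntegral_congr_fun measurableSet_Ioi fun s hs => ?_
      have hs' : 0 < s := hs
      show f s r = ‖f s r‖
      rw [Real.norm_of_nonneg]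
      rw [e0]
      positivity
  refine ⟨?_, ?_⟩
  · have h4 := hi.integral_prod_left
    simp only [Function.uncurry_apply_pair, e1] at h4
    exact h4
  · simp only [← e1]
    rw [integral_integral_swap hi, setIntegral_congr_fun measurableSet_Ioi e2, integral_const_mul,
      integral_rpow_mul_exp_neg_mul_rpow one_pos (by linarith) hx, div_one, div_one, div_one,
      show -(-(m / 2) + 1) = m / 2 - 1 by ring, show -(m / 2) + 1 = 1 - m / 2 by ring]
    ring

/-- Stieltjes representation of `u^(m-2)`. -/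
theorem beta_stmt {m : ℝ} (h0 : 0 < m) (h2 : m < 2) :
    0 < kap m ∧ ∀ u : ℝ, 0 < u →
      IntegrableOn (fun s : ℝ => s ^ (m - 1) / (u ^ 2 + s ^ 2)) (Ioi 0) ∧
        kap m * ∫ s in Ioi (0 : ℝ), s ^ (m - 1) / (u ^ 2 + s ^ 2) = u ^ (m - 2) := by
  have hp := Real.pi_pos
  have hs : 0 < Real.sin (Real.pi * m / 2) :=
    Real.sin_pos_of_pos_of_lt_pi (by positivity) (by nlinarith)
  refine ⟨mul_pos (div_pos two_pos hp) hs, fun u hu => ?_⟩
  obtain ⟨a, b⟩ := beta_aux h0 h2 (pow_pos hu 2)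
  refine ⟨a, ?_⟩
  rw [b, Real.Gamma_mul_Gamma_one_sub, ← mul_div_assoc Real.pi, kap, ← Real.rpow_two,
    ← Real.rpow_mul hu.le, show 2 * (m / 2 - 1) = m - 2 by ring]
  field_simp

end Pool.Agent.P.MP_7e6317_an
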