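import Pool.Agent.P.MP_7e6317_an.D.ADefs

/-!
Closure properties of the classes `Cls σ`.
-/

namespace Pool.Agent.P.MP_7e6317_an

open Filter Topology Set Complex

variable {σ : ℝ} {D E : ℂ → ℂ}

lemma Cls.bd' (h : Cls σ D) : ∃ C : ℝ, 0 ≤ C ∧ ∀ u : ℝ, ‖D u‖ ≤ C * (1 + |u|) ^ σ := by
  obtain ⟨C, hC⟩ := h.bd
  refine ⟨max C 0, le_max_right _ _, fun u => (hC u).trans ?_⟩
  exact mul_le_mul_of_nonneg_right (le_max_left _ _) (by positivity)

lemma Cls.expT' (h : Cls σ D) {η : ℝ} (hη : 0 < η) :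
    ∃ C : ℝ, 0 ≤ C ∧ ∀ z : ℂ, ‖D z‖ ≤ C * Real.exp ((1 + η) * ‖z‖) := by
  obtain ⟨C, hC⟩ := h.expT η hη
  refine ⟨max C 0, le_max_right _ _, fun u => (hC u).trans ?_⟩
  exact mul_le_mul_of_nonneg_right (le_max_left _ _) (by positivity)

lemma Cls.add (h : Cls σ D) (h' : Cls σ E) : Cls σ fun z => D z + E z where
  diff := h.diff.add h'.diff
  expT η hη := by
    obtain ⟨C, hC⟩ := h.expT η hη
    obtain ⟨C', hC'⟩ := h'.expT η hη
    exact ⟨C + C', fun z => (norm_add_le _ _).trans (by rw [add_mul]; linarith [hC z, hC' z])⟩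
  even z := by rw [h.even, h'.even]
  bd := by
    obtain ⟨C, hC⟩ := h.bd
    obtain ⟨C', hC'⟩ := h'.bd
    exact ⟨C + C', fun z => (norm_add_le _ _).trans (by rw [add_mul]; linarith [hC z, hC' z])⟩

lemma Cls.const_mul (h : Cls σ D) (c : ℂ) : Cls σ fun z => c * D z where
  diff := h.diff.const_mul c
  expT η hη := by
    obtain ⟨C, hC⟩ := h.expT η hη
    refine ⟨‖c‖ * C, fun z => ?_⟩
    rw [norm_mul, mul_assoc]
    exact mul_le_mul_of_nonneg_left (hC z) (norm_nonneg _)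
  even z := by rw [h.even]
  bd := by
    obtain ⟨C, hC⟩ := h.bd
    refine ⟨‖c‖ * C, fun z => ?_⟩
    rw [norm_mul, mul_assoc]
    exact mul_le_mul_of_nonneg_left (hC z) (norm_nonneg _)

lemma Cls.sub (h : Cls σ D) (h' : Cls σ E) : Cls σ fun z => D z - E z := by
  have := h.add (h'.const_mul (-1))
  simpa only [neg_mul, one_mul, ← sub_eq_add_neg] using this

lemma Cls.zero : Cls σ fun _ => 0 where
  diff := differentiable_const _
  expT _ _ := ⟨0, fun _ => by simp⟩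
  even _ := rfl
  bd := ⟨0, fun _ => by simp⟩

lemma Cls.mono (h : Cls σ D) {σ' : ℝ} (hσ : σ ≤ σ') : Cls σ' D where
  diff := h.diff
  expT := h.expT
  even := h.even
  bd := by
    obtain ⟨C, h0, hC⟩ := h.bd'
    exact ⟨C, fun u => (hC u).trans (mul_le_mul_of_nonneg_left
      (Real.rpow_le_rpow_of_exponent_le (by linarith [abs_nonneg u]) hσ) h0)⟩

/-- The reflected function `conj (D (conj z))`. -/
lemma Cls.conj (h : Cls σ D) : Cls σ fun z => (starRingEnd ℂ) (D ((starRingEnd ℂ) z)) where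
  diff := fun z => by
    have := (h.diff ((starRingEnd ℂ) z)).conj_conj
    simpa [Function.comp_def] using this
  expT η hη := by
    obtain ⟨C, hC⟩ := h.expT η hη
    exact ⟨C, fun z => by simpa using hC ((starRingEnd ℂ) z)⟩
  even z := by rw [map_neg, h.even]
  bd := by
    obtain ⟨C, hC⟩ := h.bd
    exact ⟨C, fun u => by simpa using hC u⟩

/-- A bound for `u ≥ 1` is enough. -/
lemma Cls.of_large (hd : Differentiable ℂ D)
    (he : ∀ η : ℝ, 0 < η → ∃ C : ℝ, ∀ z : ℂ, ‖D z‖ ≤ C * Real.exp ((1 + η) * ‖z‖))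
    (hev : ∀ z, D (-z) = D z) {C U : ℝ} (hb : ∀ u : ℝ, U ≤ u → 1 ≤ u → ‖D u‖ ≤ C * u ^ σ) :
    Cls σ D := by
  refine ⟨hd, he, hev, ?_⟩
  set V := max U 1 with hV
  have hV1 : 1 ≤ V := le_max_right _ _
  have hc : ContinuousOn (fun u : ℝ => ‖D u‖ / (1 + u) ^ σ) (Icc 0 V) := by
    refine ContinuousOn.div (hd.continuous.comp continuous_ofReal).norm.continuousOn
      (ContinuousOn.rpow_const (by fun_prop) fun u hu => Or.inl (by linarith [hu.1])) ?_
    intro u hu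
    have := hu.1
    positivity
  obtain ⟨M, hM⟩ := isCompact_Icc.bddAbove_image hc
  have key : ∀ u : ℝ, 0 ≤ u → ‖D u‖ ≤ max M (max C 0 * 2 ^ |σ|) * (1 + u) ^ σ := by
    intro u hu
    have hp : 0 < (1 + u) ^ σ := by positivity
    rcases le_total u V with h1 | h1
    · have := hM (mem_image_of_mem _ (⟨hu, h1⟩ : u ∈ Icc 0 V))
      rw [div_le_iff₀ hp] at this
      exact this.trans (mul_le_mul_of_nonneg_right (le_max_left _ _) hp.le)
    · have hu1 : 1 ≤ u := hV1.trans h1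
      have h2 := hb u ((le_max_left _ _).trans h1) hu1
      have h3 : u ^ σ ≤ 2 ^ |σ| * (1 + u) ^ σ := by
        rcases le_total 0 σ with hs | hs
        · have e1 : u ^ σ ≤ (1 + u) ^ σ := Real.rpow_le_rpow hu (by linarith) hs
          have e2 : (1 : ℝ) ≤ 2 ^ |σ| := Real.one_le_rpow (by norm_num) (abs_nonneg _)
          nlinarith
        · have e1 : (2 * u) ^ σ ≤ (1 + u) ^ σ :=
            Real.rpow_le_rpow_of_nonpos (by linarith) (by linarith) hs
          rw [Real.mul_rpow (by norm_num) hu] at e1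
          have e2 : (2 : ℝ) ^ |σ| * 2 ^ σ = 1 := by
            rw [← Real.rpow_add (by norm_num), abs_of_nonpos hs]; simp
          have e3 : (0 : ℝ) < 2 ^ |σ| := by positivity
          calc u ^ σ = 2 ^ |σ| * (2 ^ σ * u ^ σ) := by rw [← mul_assoc, e2, one_mul]
            _ ≤ _ := mul_le_mul_of_nonneg_left e1 e3.le
      calc ‖D u‖ ≤ max C 0 * u ^ σ :=
            h2.trans (mul_le_mul_of_nonneg_right (le_max_left _ _) (by positivity))
        _ ≤ max C 0 * (2 ^ |σ| * (1 + u) ^ σ) :=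
            mul_le_mul_of_nonneg_left h3 (le_max_right _ _)
        _ = max C 0 * 2 ^ |σ| * (1 + u) ^ σ := by ring
        _ ≤ _ := mul_le_mul_of_nonneg_right (le_max_right _ _) hp.le
  refine ⟨max M (max C 0 * 2 ^ |σ|), fun u => ?_⟩
  rcases le_total 0 u with hu | hu
  · simpa [abs_of_nonneg hu] using key u hu
  · have := key (-u) (by linarith)
    rw [ofReal_neg, hev] at this
    simpa [abs_of_nonpos hu] using this

/-- Multiplication by `z^2`. -/
lemma Cls.mul_sq (h : Cls σ D) : Cls (σ + 2) fun z => z ^ 2 * D z where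
  diff := (differentiable_id.pow 2).mul h.diff
  expT η hη := by
    obtain ⟨C, h0, hC⟩ := h.expT' (half_pos hη)
    obtain ⟨K, k0, hK⟩ := sq_le_exp (half_pos hη)
    refine ⟨K * C, fun z => ?_⟩
    have hz := norm_nonneg z
    have e1 : ‖z‖ ^ 2 ≤ (1 + ‖z‖) ^ 4 := by nlinarith [sq_nonneg ‖z‖, pow_nonneg hz 3, pow_nonneg hz 4]
    rw [norm_mul, norm_pow]
    calc ‖z‖ ^ 2 * ‖D z‖ ≤ (K * Real.exp (η / 2 * ‖z‖)) * (C * Real.exp ((1 + η / 2) * ‖z‖)) :=
          mul_le_mul (e1.trans (hK _ hz)) (hC z) (norm_nonneg _) (by positivity)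
      _ = K * C * Real.exp ((1 + η) * ‖z‖) := by
          rw [show (1 + η) * ‖z‖ = η / 2 * ‖z‖ + (1 + η / 2) * ‖z‖ by ring, Real.exp_add]; ring
  even z := by rw [h.even, neg_sq]
  bd := by
    obtain ⟨C, h0, hC⟩ := h.bd'
    refine ⟨C, fun u => ?_⟩
    have hu := abs_nonneg u
    rw [norm_mul, norm_pow, Complex.norm_real, Real.norm_eq_abs, Real.rpow_add (by positivity),
      Real.rpow_two]
    calc |u| ^ 2 * ‖D u‖ ≤ (1 + |u|) ^ 2 * (C * (1 + |u|) ^ σ) :=
          mul_le_mul (by nlinarith) (hC u) (norm_nonneg _) (by positivity)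
      _ = _ := by ring

lemma ker_zero : ker 0 = 1 := by
  simp [ker]

lemma norm_ker_le' (z : ℂ) : ‖ker z‖ ≤ Real.exp 4 * Real.exp (‖z‖ / 3) := by
  rw [← Real.exp_add]; exact norm_ker_le z

lemma ker_im (u : ℝ) : (ker u).im = 0 := by
  rcases eq_or_ne u 0 with rfl | hu
  · simp [ker_zero]
  · obtain ⟨k, -, -, -, h⟩ := ker_real hu
    rw [h, ofReal_im]

lemma norm_ker_real_le (u : ℝ) : ‖ker u‖ ≤ 1 := by
  rcases eq_or_ne u 0 with rfl | hu
  · simp [ker_zero]
  · obtain ⟨k, k0, k1, -, h⟩ := ker_real hu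
    rw [h, Complex.norm_real, Real.norm_eq_abs, abs_of_nonneg k0]; exact k1

/-- The dilated kernels belong to `Cls (-4)`. -/
lemma cls_ker {θ : ℝ} (h0 : 0 < θ) (h3 : θ ≤ 3) : Cls (-4) fun z => ker (θ * z) := by
  refine Cls.of_large (ker_diff.comp (differentiable_id.const_mul _)) (fun η hη => ?_)
    (fun z => by rw [mul_neg, ker_neg]) (C := 12 ^ 4 / θ ^ 4) (U := 1) fun u _ hu => ?_
  · refine ⟨Real.exp 4, fun z => (norm_ker_le' _).trans ?_⟩
    refine mul_le_mul_of_nonneg_left (Real.exp_le_exp.2 ?_) (Real.exp_pos _).le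
    rw [norm_mul, Complex.norm_real, Real.norm_eq_abs, abs_of_pos h0]
    nlinarith [norm_nonneg z, mul_nonneg hη.le (norm_nonneg z)]
  · have hu0 : 0 < u := by linarith
    obtain ⟨k, k0, -, k2, h⟩ := ker_real (u := θ * u) (by positivity)
    rw [← ofReal_mul, h, Complex.norm_real, Real.norm_eq_abs, abs_of_nonneg k0,
      Real.rpow_neg hu0.le, show (4 : ℝ) = ((4 : ℕ) : ℝ) by norm_num, Real.rpow_natCast,
      ← div_eq_mul_inv, div_div, le_div_iff₀ (by positivity), ← mul_pow]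
    exact k2

/-- For every point some real dilated kernel does not vanish there. -/
lemma exists_ker_ne (w : ℂ) : ∃ θ : ℝ, 0 < θ ∧ θ ≤ 1 ∧ ker (θ * w) ≠ 0 := by
  have hc : Tendsto (fun θ : ℝ => ker (θ * w)) (𝓝 0) (𝓝 (ker ((0 : ℝ) * w))) :=
    (ker_diff.continuous.comp (continuous_ofReal.mul continuous_const)).tendsto 0
  rw [ofReal_zero, zero_mul, ker_zero] at hc
  have h1 : ∀ᶠ θ : ℝ in 𝓝[>] 0, ker (θ * w) ≠ 0 :=
    (hc.eventually_ne one_ne_zero).filter_mono nhdsWithin_le_nhds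
  have h2 : ∀ᶠ θ : ℝ in 𝓝[>] 0, θ ∈ Ioc (0 : ℝ) 1 := Ioc_mem_nhdsGT one_pos
  obtain ⟨θ, h3, h4⟩ := (h1.and h2).exists
  exact ⟨θ, h4.1, h4.2, h3⟩

lemma exists_isBase {m : ℝ} (h0 : 0 < m) (h2 : m < 2) : ∃ F, IsBase m F := by
  obtain ⟨G, g1, g2, g3, g4⟩ := exists_base h0 h2
  refine ⟨G, ⟨g1, fun x => ?_, g2⟩, g3, ?_, fun u hu => ?_⟩
  · obtain ⟨e, -, -, -, h⟩ := g4 x
    rw [h, ofReal_im]
  · obtain ⟨e, -, -, -, h⟩ := g4 0
    simpa [Real.zero_rpow h0.ne'] using h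
  · obtain ⟨e, e0, -, e2, h⟩ := g4 u
    have hu0 : 0 < u := by linarith
    have e3 : u ^ m ≤ u ^ 2 := by
      rw [← Real.rpow_two]; exact Real.rpow_le_rpow_of_exponent_le hu h2.le
    rw [h, ofReal_re, abs_of_pos hu0, show u ^ m - u ^ m * (1 - e) = u ^ m * e by ring,
      abs_of_nonneg (by positivity), le_div_iff₀ (by positivity)]
    calc u ^ m * e * u ^ 2 ≤ u ^ 2 * e * u ^ 2 := by gcongr
      _ = e * u ^ 4 := by ring
      _ ≤ _ := e2

/-- An even entire function vanishing at the origin is `O(u^2)` there. -/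
lemma exists_sq_bound {F : ℂ → ℂ} (hd : Differentiable ℂ F) (he : ∀ z, F (-z) = F z)
    (h0 : F 0 = 0) (U : ℝ) : ∃ M : ℝ, 0 ≤ M ∧ ∀ u : ℝ, |u| ≤ U → ‖F u‖ ≤ M * u ^ 2 := by
  have hd0 : deriv F 0 = 0 := by
    have h1 : deriv (fun z => F (-z)) 0 = -deriv F (-0) := deriv_comp_neg F 0
    rw [funext he, neg_zero] at h1
    linear_combination h1 / 2
  set G := dslope (dslope F 0) 0 with hG
  have hc : Continuous G := (differentiable_dslope (differentiable_dslope hd 0) 0).continuous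
  have hexp : ∀ z : ℂ, F z = z ^ 2 * G z := by
    intro z
    have e1 := sub_smul_dslope F 0 z
    have e2 := sub_smul_dslope (dslope F 0) 0 z
    simp only [sub_zero, smul_eq_mul, dslope_same, hd0, h0] at e1 e2
    rw [← e1, ← e2]; ring
  obtain ⟨M, hM⟩ := (isCompact_Icc (a := -U) (b := U)).exists_bound_of_continuousOn
    (hc.comp continuous_ofReal).continuousOn
  refine ⟨max M 0, le_max_right _ _, fun u hu => ?_⟩
  rw [hexp, norm_mul, norm_pow, Complex.norm_real, Real.norm_eq_abs, sq_abs, mul_comm]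
  exact mul_le_mul_of_nonneg_right ((hM u (abs_le.1 hu)).trans (le_max_left _ _)) (sq_nonneg _)

end Pool.Agent.P.MP_7e6317_an
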