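import Pool.Agent.P.MP_7e6317_an.D.DB1

namespace Pool.Agent.P.MP_7e6317_an

open Filter Topology Set MeasureTheory Complex

lemma db2_sep {y : ℕ → ℝ} (hy : Tendsto y atTop atTop) (z₀ : ℂ) : ∃ δ : ℝ, 0 < δ ∧
    ∀ᶠ z in 𝓝 z₀, ∀ k, z₀ ^ 2 ≠ (y k : ℂ) ^ 2 → δ ≤ ‖z ^ 2 - (y k : ℂ) ^ 2‖ := by
  obtain ⟨N, hN⟩ := eventually_atTop.1 (hy.eventually_ge_atTop (‖z₀ ^ 2‖ + 1))
  have h1 : ∀ᶠ δ : ℝ in 𝓝[>] 0, ∀ k ∈ Finset.range N, z₀ ^ 2 ≠ (y k : ℂ) ^ 2 →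
      δ ≤ ‖z₀ ^ 2 - (y k : ℂ) ^ 2‖ := by
    refine (eventually_all_finset _).2 fun k _ => ?_
    by_cases hk : z₀ ^ 2 = (y k : ℂ) ^ 2
    · exact Eventually.of_forall fun _ h => absurd hk h
    · filter_upwards [Ioc_mem_nhdsGT (norm_pos_iff.2 (sub_ne_zero.2 hk))] with δ hδ _
      exact hδ.2
  obtain ⟨δ, hδ, h0, hδ1⟩ := (h1.and (Ioc_mem_nhdsGT one_pos)).exists
  refine ⟨δ / 2, half_pos h0, ?_⟩
  have hc : ContinuousAt (fun z : ℂ => z ^ 2) z₀ := by fun_prop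
  filter_upwards [hc.eventually (Metric.ball_mem_nhds _ (half_pos h0))] with z hz k hk
  have h2 : δ ≤ ‖z₀ ^ 2 - (y k : ℂ) ^ 2‖ := by
    rcases lt_or_ge k N with hk' | hk'
    · exact hδ k (Finset.mem_range.2 hk') hk
    · have h3 := hN k hk'
      have h4 := norm_sub_norm_le ((y k : ℂ) ^ 2) (z₀ ^ 2)
      rw [norm_sub_rev, norm_pow (y k : ℂ), Complex.norm_real, Real.norm_eq_abs, sq_abs] at h4
      nlinarith [norm_nonneg (z₀ ^ 2)]
  have h5 := norm_sub_le_norm_sub_add_norm_sub (z₀ ^ 2) (z ^ 2) ((y k : ℂ) ^ 2)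
  rw [dist_eq_norm, norm_sub_rev] at hz
  linarith

lemma db2_dif {y : ℕ → ℝ} (hy : Tendsto y atTop atTop) {a : ℕ → ℂ}
    (ha : Summable fun k => ‖a k‖) {z₀ : ℂ} (h0 : ∀ k, z₀ ^ 2 = (y k : ℂ) ^ 2 → a k = 0) :
    DifferentiableAt ℂ (fun z => ∑' k, a k / (z ^ 2 - (y k : ℂ) ^ 2)) z₀ := by
  obtain ⟨δ, hδ, h⟩ := db2_sep hy z₀
  obtain ⟨U, hU, hUo, hz⟩ := eventually_nhds_iff.1 h
  refine (differentiableOn_tsum_of_summable_norm (ha.div_const δ) (fun k => ?_) hUo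
    fun k w hw => ?_).differentiableAt (hUo.mem_nhds hz)
  · by_cases hk : z₀ ^ 2 = (y k : ℂ) ^ 2
    · simp only [h0 k hk, zero_div]
      exact differentiableOn_const _
    · exact (differentiableOn_const _).div (by fun_prop) fun w hw =>
        norm_pos_iff.1 (hδ.trans_le (hU w hw k hk))
  · by_cases hk : z₀ ^ 2 = (y k : ℂ) ^ 2
    · simp [h0 k hk]
    · rw [norm_div]
      exact div_le_div_of_nonneg_left (norm_nonneg _) hδ (hU w hw k hk)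

lemma db2_sum {σ : ℝ} {y ν : ℕ → ℝ} (h : Ann σ y ν) {D : ℂ → ℂ} (hD : Cls σ D) :
    Summable fun k => ‖(ν k : ℂ) * D (y k)‖ := by
  obtain ⟨C, hC⟩ := hD.bd
  refine Summable.of_nonneg_of_le (fun _ => norm_nonneg _) (fun k => ?_) (h.sum.abs.mul_left C)
  have hk : 0 < y k := h.pos.trans_le (h.mono.monotone (Nat.zero_le k))
  have h1 := hC (y k)
  rw [abs_of_pos hk] at h1
  rw [norm_mul, Complex.norm_real, Real.norm_eq_abs, abs_mul,
    abs_of_nonneg (Real.rpow_nonneg (by linarith) σ), mul_left_comm]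
  exact mul_le_mul_of_nonneg_left h1 (abs_nonneg _)

/-- The entire function `B = D / F_D` of de Branges, and alternation of the masses (paper, 6). -/
theorem db2_stmt {σ : ℝ} (hσ : -4 ≤ σ) {y ν : ℕ → ℝ} (h : Ann σ y ν) :
    ∃ B : ℂ → ℂ, DeB σ y ν B := by
  classical
  obtain ⟨W, hW, hW0, hWr⟩ : ∃ W : ℂ → ℂ → ℂ, (∀ w, Cls σ (W w)) ∧ (∀ w, W w w ≠ 0) ∧
      ∀ w (u : ℝ), (W w u).im = 0 := by
    choose θ h0 h1 h2 using exists_ker_ne
    exact ⟨fun w z => ker (θ w * z), fun w => (cls_ker (h0 w) (by linarith [h1 w])).mono hσ, h2,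
      fun w u => by simpa using ker_im (θ w * u)⟩
  obtain ⟨B, hB0, hB1⟩ : ∃ B : ℂ → ℂ, (∀ z k, z ^ 2 = (y k : ℂ) ^ 2 → B z = 0) ∧
      ∀ z, (∀ k, z ^ 2 ≠ (y k : ℂ) ^ 2) → B z = W z z / cau y ν (W z) z :=
    ⟨fun z => if ∃ k, z ^ 2 = (y k : ℂ) ^ 2 then 0 else W z z / cau y ν (W z) z,
      fun z k hk => if_pos ⟨k, hk⟩, fun z hz => if_neg (not_exists.2 hz)⟩
  have hne : ∀ z, (∀ k, z ^ 2 ≠ (y k : ℂ) ^ 2) → cau y ν (W z) z ≠ 0 := fun z hz =>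
    (db1_stmt h hz).2.2 _ (hW z) (hW0 z)
  have rep : ∀ D, Cls σ D → ∀ z, (∀ k, z ^ 2 ≠ (y k : ℂ) ^ 2) → D z = B z * cau y ν D z := by
    intro D hD z hz
    rw [hB1 z hz, div_mul_eq_mul_div, eq_div_iff (hne z hz)]
    exact (db1_stmt h hz).2.1 _ _ (hW z) hD
  have hpos : ∀ k, 0 < y k := fun k => h.pos.trans_le (h.mono.monotone (Nat.zero_le k))
  have near : ∀ z₀ : ℂ, ∀ᶠ z in 𝓝 z₀, ∀ k, z₀ ^ 2 ≠ (y k : ℂ) ^ 2 → z ^ 2 ≠ (y k : ℂ) ^ 2 := by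
    intro z₀
    obtain ⟨δ, hδ, h1⟩ := db2_sep h.lim z₀
    filter_upwards [h1] with z hz k hk
    exact sub_ne_zero.1 (norm_pos_iff.1 (hδ.trans_le (hz k hk)))
  have node : ∀ (z₀ : ℂ) j, z₀ ^ 2 = (y j : ℂ) ^ 2 → HasDerivAt B (2 * z₀ / ν j) z₀ := by
    intro z₀ j hj
    have hu : ∀ k, z₀ ^ 2 = (y k : ℂ) ^ 2 → k = j := fun k hk => by
      have h1 : y k ^ 2 = y j ^ 2 := by exact_mod_cast hk.symm.trans hj
      exact h.mono.injective ((pow_left_inj₀ (hpos k).le (hpos j).le two_ne_zero).1 h1)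
    have hD : W z₀ (y j) = W z₀ z₀ := by
      rcases sq_eq_sq_iff_eq_or_eq_neg.1 hj with e | e
      · rw [← e]
      · rw [← (hW z₀).even, ← e]
    have hν : (ν j : ℂ) ≠ 0 := by exact_mod_cast h.ne j
    have ha : (ν j : ℂ) * W z₀ (y j) ≠ 0 := mul_ne_zero hν (hD ▸ hW0 z₀)
    obtain ⟨R, hR⟩ : ∃ R : ℂ → ℂ, R = fun z => ∑' k,
      (if k = j then 0 else (ν k : ℂ) * W z₀ (y k)) / (z ^ 2 - (y k : ℂ) ^ 2) := ⟨_, rfl⟩
    have dR : DifferentiableAt ℂ R z₀ := by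
      rw [hR]
      refine db2_dif h.lim (Summable.of_nonneg_of_le (fun _ => norm_nonneg _) (fun k => ?_)
        (db2_sum h (hW z₀))) fun k hk => if_pos (hu k hk)
      split_ifs
      · rw [norm_zero]
        exact norm_nonneg _
      · exact le_rfl
    have dE : DifferentiableAt ℂ
        (fun z => (ν j : ℂ) * W z₀ (y j) + (z ^ 2 - (y j : ℂ) ^ 2) * R z) z₀ := by fun_prop
    have e0 : (ν j : ℂ) * W z₀ (y j) + (z₀ ^ 2 - (y j : ℂ) ^ 2) * R z₀ ≠ 0 := by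
      rwa [hj, sub_self, zero_mul, add_zero]
    have dG := (((hW z₀).diff z₀).div dE e0).hasDerivAt
    have d2 : HasDerivAt (fun z : ℂ => z ^ 2 - (y j : ℂ) ^ 2) (2 * z₀) z₀ := by
      simpa using (hasDerivAt_pow 2 z₀).sub_const ((y j : ℂ) ^ 2)
    refine ((d2.mul dG).congr_of_eventuallyEq ?_).congr_deriv ?_
    · filter_upwards [near z₀, dE.continuousAt.eventually_ne e0] with z hz hE
      by_cases hzj : z ^ 2 = (y j : ℂ) ^ 2
      · simp [hB0 z j hzj, hzj]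
      have hz' : ∀ k, z ^ 2 ≠ (y k : ℂ) ^ 2 := fun k hk =>
        hz k (fun h' => hzj (hu k h' ▸ hk)) hk
      have e1 : cau y ν (W z₀) z = (ν j : ℂ) * W z₀ (y j) / (z ^ 2 - (y j : ℂ) ^ 2) + R z := by
        rw [cau, ((db1_stmt h hz').1 _ (hW z₀)).of_norm.tsum_eq_add_tsum_ite j, hR]
        simp only [ite_div, zero_div]
      have e2 := rep _ (hW z₀) z hz'
      have e3 := sub_ne_zero.2 hzj
      rw [Pi.mul_apply, Pi.div_apply, e2, e1]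
      field_simp
    · have := hW0 z₀
      rw [Pi.div_apply, hj, sub_self, zero_mul, zero_mul, add_zero, add_zero, hD]
      field_simp
  refine ⟨B, fun z₀ => ?_, fun z => ?_, fun x => ?_, fun z => ⟨fun hz => ?_, ?_⟩, fun k => ?_, rep⟩
  · by_cases hz : ∃ j, z₀ ^ 2 = (y j : ℂ) ^ 2
    · obtain ⟨j, hj⟩ := hz
      exact (node z₀ j hj).differentiableAt
    have hz' := not_exists.1 hz
    have dC : DifferentiableAt ℂ (cau y ν (W z₀)) z₀ :=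
      db2_dif h.lim (db2_sum h (hW z₀)) fun k hk => absurd hk (hz' k)
    refine (((hW z₀).diff z₀).div dC (hne z₀ hz')).congr_of_eventuallyEq ?_
    filter_upwards [near z₀, dC.continuousAt.eventually_ne (hne z₀ hz')] with z h1 h2
    rw [Pi.div_apply, eq_div_iff h2]
    exact (rep _ (hW z₀) z fun k => h1 k (hz' k)).symm
  · by_cases hz : ∃ j, z ^ 2 = (y j : ℂ) ^ 2
    · obtain ⟨j, hj⟩ := hz
      rw [hB0 z j hj, hB0 (-z) j ((neg_sq z).trans hj)]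
    have hz' := not_exists.1 hz
    have e := rep _ (hW z) (-z) fun k => by rw [neg_sq]; exact hz' k
    have e' : cau y ν (W z) (-z) = cau y ν (W z) z := by simp only [cau, neg_sq]
    rw [(hW z).even, e'] at e
    rw [hB1 z hz', eq_div_iff (hne z hz'), ← e]
  · by_cases hz : ∃ j, (x : ℂ) ^ 2 = (y j : ℂ) ^ 2
    · obtain ⟨j, hj⟩ := hz
      rw [hB0 _ j hj, zero_im]
    have e : ∀ u : ℝ, W x u = ((W x u).re : ℂ) := fun u =>
      Complex.ext (ofReal_re _).symm ((hWr x u).trans (ofReal_im _).symm)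
    have e' : cau y ν (W x) x =
        ((∑' k, ν k * (W x (y k)).re / (x ^ 2 - y k ^ 2) : ℝ) : ℂ) := by
      rw [cau, ofReal_tsum]
      refine tsum_congr fun k => ?_
      push_cast
      rw [← e]
    rw [hB1 _ (not_exists.1 hz), e', e x, ← ofReal_div, ofReal_im]
  · by_contra hn
    have hz' := not_exists.1 hn
    rw [hB1 z hz'] at hz
    exact div_ne_zero (hW0 z) (hne z hz') hz
  · rintro ⟨k, hk⟩
    exact hB0 z k hk
  · rw [(node (y k) k rfl).deriv]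
    push_cast
    rfl

end Pool.Agent.P.MP_7e6317_an
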