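import Pool.Agent.P.MP_7e6317_an.D.Cls

namespace Pool.Agent.P.MP_7e6317_an

open Filter Topology Set MeasureTheory Complex

lemma div_low {z w : ℂ} (h : 2 * ‖w‖ ≤ ‖z‖) : ‖z‖ ^ 2 / 2 ≤ ‖z ^ 2 - w ^ 2‖ := by
  have h1 := norm_sub_norm_le (z ^ 2) (w ^ 2)
  rw [norm_pow, norm_pow] at h1
  nlinarith [norm_nonneg w, norm_nonneg z]

lemma div_pow {u : ℝ} (hu : 1 ≤ u) (σ : ℝ) : (1 + u) ^ σ ≤ 2 ^ |σ| * u ^ σ := by
  have hu0 : 0 < u := by linarith
  rcases le_total 0 σ with hs | hs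
  · rw [abs_of_nonneg hs, ← Real.mul_rpow (by norm_num) hu0.le]
    exact Real.rpow_le_rpow (by linarith) (by linarith) hs
  · have e1 : (1 + u) ^ σ ≤ u ^ σ := Real.rpow_le_rpow_of_nonpos hu0 (by linarith) hs
    have e2 : (1 : ℝ) ≤ 2 ^ |σ| := Real.one_le_rpow (by norm_num) (abs_nonneg _)
    have e3 : 0 < u ^ σ := by positivity
    nlinarith

/-- Division by `z^2 - w^2` (use `dslope (dslope D w) (-w)`). -/
theorem div_stmt {σ : ℝ} {D : ℂ → ℂ} (h : Cls σ D) {w : ℂ} (hw : D w = 0) :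
    ∃ E : ℂ → ℂ, Cls (σ - 2) E ∧ ∀ z, D z = (z ^ 2 - w ^ 2) * E z := by
  have hd0 : dslope D w (-w) = 0 := by
    rcases eq_or_ne w 0 with rfl | h0
    · have h1 : deriv (fun z => D (-z)) 0 = -deriv D (-0) := deriv_comp_neg D 0
      rw [funext h.even, neg_zero] at h1
      rw [neg_zero, dslope_same]
      linear_combination h1 / 2
    · have e1 := sub_smul_dslope D w (-w)
      rw [h.even, sub_self, smul_eq_mul] at e1
      refine (mul_eq_zero.1 e1).resolve_left fun h1 => h0 ?_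
      linear_combination -h1 / 2
  set E := dslope (dslope D w) (-w) with hE
  have hd : Differentiable ℂ E := differentiable_dslope (differentiable_dslope h.diff w) (-w)
  have hexp : ∀ z, D z = (z ^ 2 - w ^ 2) * E z := by
    intro z
    have e1 := sub_smul_dslope D w z
    have e2 := sub_smul_dslope (dslope D w) (-w) z
    simp only [sub_zero, smul_eq_mul, hd0, hw] at e1 e2
    rw [← e1, ← e2]; ring
  have hev : ∀ z, E (-z) = E z := by
    have hs : Dense ({w, -w} : Set ℂ)ᶜ := (Set.toFinite _).countable.dense_compl ℂ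
    refine congrFun (Continuous.ext_on hs (hd.continuous.comp continuous_neg) hd.continuous
      fun z hz => ?_)
    simp only [mem_compl_iff, mem_insert_iff, mem_singleton_iff, not_or] at hz
    have h1 : z ^ 2 - w ^ 2 ≠ 0 := fun h1 => (sq_eq_sq_iff_eq_or_eq_neg.1 (sub_eq_zero.1 h1)).elim
      hz.1 hz.2
    have h2 := hexp (-z)
    rw [h.even, neg_sq, hexp z] at h2
    exact (mul_left_cancel₀ h1 h2).symm
  have hb : ∀ z : ℂ, 2 * ‖w‖ ≤ ‖z‖ → ‖z‖ ^ 2 / 2 * ‖E z‖ ≤ ‖D z‖ := fun z hz => by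
    rw [hexp, norm_mul]
    exact mul_le_mul_of_nonneg_right (div_low hz) (norm_nonneg _)
  obtain ⟨C, hC0, hC⟩ := h.bd'
  refine ⟨E, Cls.of_large hd (fun η hη => ?_) hev (C := 2 * C * 2 ^ |σ|) (U := 2 * ‖w‖)
    fun u hU hu => ?_, hexp⟩
  · obtain ⟨K, hK0, hK⟩ := h.expT' hη
    obtain ⟨M, hM⟩ := (isCompact_closedBall (0 : ℂ) (2 * ‖w‖ + 2)).exists_bound_of_continuousOn
      hd.continuous.continuousOn
    refine ⟨max M K, fun z => ?_⟩
    have he : 1 ≤ Real.exp ((1 + η) * ‖z‖) := Real.one_le_exp (by positivity)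
    rcases le_total ‖z‖ (2 * ‖w‖ + 2) with hz | hz
    · exact ((hM z (mem_closedBall_zero_iff.2 hz)).trans (le_max_left _ _)).trans
        (le_mul_of_one_le_right (hK0.trans (le_max_right _ _)) he)
    · have h1 := hb z (by linarith)
      have h2 : 1 ≤ ‖z‖ ^ 2 / 2 := by nlinarith [norm_nonneg w]
      exact (((le_mul_of_one_le_left (norm_nonneg _) h2).trans h1).trans (hK z)).trans
        (mul_le_mul_of_nonneg_right (le_max_right _ _) (by positivity))
  · have hu0 : 0 < u := by linarith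
    have h1 := hb u (by rwa [Complex.norm_real, Real.norm_of_nonneg hu0.le])
    have h2 := hC u
    rw [abs_of_pos hu0] at h2
    rw [Complex.norm_real, Real.norm_of_nonneg hu0.le] at h1
    have h3 := mul_le_mul_of_nonneg_left (div_pow hu σ) hC0
    rw [Real.rpow_sub hu0, Real.rpow_two, ← mul_div_assoc, le_div_iff₀ (by positivity)]
    nlinarith

end Pool.Agent.P.MP_7e6317_an
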