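import Pool.Agent.P.MP_7e6317_an.D.Cls

namespace Pool.Agent.P.MP_7e6317_an

open Filter Topology Set MeasureTheory Complex

lemma damp_scale (σ : ℝ) {t v : ℝ} (h1 : 1 / 2 ≤ t) (h2 : t ≤ 1) (hv : 0 ≤ v) :
    (1 + t * v) ^ σ ≤ 2 ^ |σ| * (1 + v) ^ σ := by
  have hp : 0 < (1 + v) ^ σ := by positivity
  have ht : 0 ≤ t * v := by positivity
  rcases le_total 0 σ with hs | hs
  · have e1 : (1 + t * v) ^ σ ≤ (1 + v) ^ σ :=
      Real.rpow_le_rpow (by linarith) (by nlinarith) hs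
    have e2 : (1 : ℝ) ≤ 2 ^ |σ| := Real.one_le_rpow (by norm_num) (abs_nonneg _)
    nlinarith
  · have e1 : (2 * (1 + t * v)) ^ σ ≤ (1 + v) ^ σ :=
      Real.rpow_le_rpow_of_nonpos (by linarith) (by nlinarith) hs
    rw [Real.mul_rpow (by norm_num) (by linarith)] at e1
    have e2 : (2 : ℝ) ^ |σ| * 2 ^ σ = 1 := by
      rw [← Real.rpow_add (by norm_num), abs_of_nonpos hs]; simp
    have e3 : (0 : ℝ) < 2 ^ |σ| := by positivity
    calc (1 + t * v) ^ σ = 2 ^ |σ| * (2 ^ σ * (1 + t * v) ^ σ) := by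
          rw [← mul_assoc, e2, one_mul]
      _ ≤ _ := mul_le_mul_of_nonneg_left e1 e3.le

lemma damp_bd {σ C : ℝ} {D : ℂ → ℂ} (h0 : 0 ≤ C)
    (hC : ∀ u : ℝ, ‖D u‖ ≤ C * (1 + |u|) ^ σ) {e : ℝ} (he0 : 0 < e) (he1 : e ≤ 1 / 2) (u : ℝ) :
    ‖D (((1 - e : ℝ) : ℂ) * u)‖ ≤ C * 2 ^ |σ| * (1 + |u|) ^ σ := by
  rw [← ofReal_mul]
  refine (hC _).trans ?_
  rw [abs_mul, abs_of_pos (by linarith : (0 : ℝ) < 1 - e), mul_assoc]
  exact mul_le_mul_of_nonneg_left
    (damp_scale σ (by linarith) (by linarith) (abs_nonneg u)) h0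

lemma damp_cls {σ : ℝ} {D : ℂ → ℂ} (hD : Cls σ D) {e : ℝ} (he0 : 0 < e) (he1 : e ≤ 1 / 2) :
    Cls (σ - 2) fun z => D (((1 - e : ℝ) : ℂ) * z) * ker (e * z) where
  diff := (hD.diff.comp (differentiable_id.const_mul _)).mul
    (ker_diff.comp (differentiable_id.const_mul _))
  expT η hη := by
    obtain ⟨C, h0, hC⟩ := hD.expT' hη
    refine ⟨C * Real.exp 4, fun z => ?_⟩
    have hz := norm_nonneg z
    have a1 := hC (((1 - e : ℝ) : ℂ) * z)
    have a2 := norm_ker_le' ((e : ℂ) * z)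
    rw [norm_mul, Complex.norm_real, Real.norm_eq_abs,
      abs_of_pos (by linarith : (0 : ℝ) < 1 - e)] at a1
    rw [norm_mul, Complex.norm_real, Real.norm_eq_abs, abs_of_pos he0] at a2
    rw [norm_mul]
    calc _ ≤ (C * Real.exp ((1 + η) * ((1 - e) * ‖z‖))) *
          (Real.exp 4 * Real.exp (e * ‖z‖ / 3)) :=
          mul_le_mul a1 a2 (norm_nonneg _) (by positivity)
      _ = C * Real.exp 4 * Real.exp ((1 + η) * ((1 - e) * ‖z‖) + e * ‖z‖ / 3) := by
          rw [Real.exp_add]; ring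
      _ ≤ _ := by
          refine mul_le_mul_of_nonneg_left (Real.exp_le_exp.2 ?_) (by positivity)
          have b1 : 0 ≤ e * ‖z‖ := by positivity
          have b2 : 0 ≤ η * (e * ‖z‖) := by positivity
          nlinarith
  even z := by rw [mul_neg, mul_neg, hD.even, ker_neg]
  bd := by
    obtain ⟨C, h0, hC⟩ := hD.bd'
    obtain ⟨K, k0, hK⟩ := ((cls_ker he0 (by linarith)).mono
      (by norm_num : (-4 : ℝ) ≤ -2)).bd'
    refine ⟨C * 2 ^ |σ| * K, fun u => ?_⟩
    have hu := abs_nonneg u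
    rw [norm_mul]
    calc _ ≤ (C * 2 ^ |σ| * (1 + |u|) ^ σ) * (K * (1 + |u|) ^ (-2 : ℝ)) :=
          mul_le_mul (damp_bd h0 hC he0 he1 u) (hK u) (norm_nonneg _) (by positivity)
      _ = _ := by
          rw [sub_eq_add_neg, Real.rpow_add (by positivity)]; ring

lemma damp_real {σ : ℝ} {ι : Type} (y ν : ι → ℝ) (hy : ∀ i, 0 < y i)
    (hs : Summable fun i => ν i * (1 + y i) ^ σ)
    (h : ∀ D, Cls (σ - 2) D → (∀ x : ℝ, (D x).im = 0) → ∑' i, ν i * (D (y i)).re = 0)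
    {D : ℂ → ℂ} (hD : Cls σ D) (hr : ∀ x : ℝ, (D x).im = 0) :
    ∑' i, ν i * (D (y i)).re = 0 := by
  obtain ⟨C, h0, hC⟩ := hD.bd'
  set e : ℕ → ℝ := fun n => 1 / ((n : ℝ) + 2) with he
  have he0 : ∀ n, 0 < e n := fun n => by simp only [he]; positivity
  have he1 : ∀ n, e n ≤ 1 / 2 := fun n =>
    one_div_le_one_div_of_le (by norm_num) (by linarith [(Nat.cast_nonneg n : (0 : ℝ) ≤ n)])
  have hlim : Tendsto e atTop (𝓝 0) :=
    tendsto_const_nhds.div_atTop (tendsto_atTop_add_const_right _ _ tendsto_natCast_atTop_atTop)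
  set f : ℕ → ι → ℝ := fun n i =>
    ν i * (D (((1 - e n : ℝ) : ℂ) * (y i : ℂ)) * ker (e n * (y i : ℂ))).re with hf
  have hz : ∀ n, ∑' i, f n i = 0 := fun n => by
    refine h _ (damp_cls hD (he0 n) (he1 n)) fun x => ?_
    rw [← ofReal_mul, ← ofReal_mul, mul_im, hr, ker_im]; simp
  have hT : Tendsto (fun n => ∑' i, f n i) atTop (𝓝 (∑' i, ν i * (D (y i)).re)) := by
    refine tendsto_tsum_of_dominated_convergence
      (bound := fun i => C * 2 ^ |σ| * |ν i * (1 + y i) ^ σ|) (hs.abs.mul_left _) ?_ ?_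
    · intro i
      have c1 : Continuous fun t : ℝ =>
          ν i * (D (((1 - t : ℝ) : ℂ) * (y i : ℂ)) * ker (t * (y i : ℂ))).re := by
        have := hD.diff.continuous
        have := ker_diff.continuous
        fun_prop
      have c2 := (c1.tendsto 0).comp hlim
      simpa [ker_zero, Function.comp_def, hf] using c2
    · refine Eventually.of_forall fun n i => ?_
      have hp : 0 < (1 + y i) ^ σ := by have := hy i; positivity
      have a1 := damp_bd h0 hC (he0 n) (he1 n) (y i)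
      rw [abs_of_pos (hy i)] at a1
      have a2 : ‖ker (e n * (y i : ℂ))‖ ≤ 1 := by
        rw [← ofReal_mul]; exact norm_ker_real_le _
      have a3 : |(D (((1 - e n : ℝ) : ℂ) * (y i : ℂ)) * ker (e n * (y i : ℂ))).re| ≤
          C * 2 ^ |σ| * (1 + y i) ^ σ := by
        refine (abs_re_le_norm _).trans ?_
        rw [norm_mul]
        calc _ ≤ (C * 2 ^ |σ| * (1 + y i) ^ σ) * 1 :=
              mul_le_mul a1 a2 (norm_nonneg _) (by positivity)
          _ = _ := mul_one _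
      rw [Real.norm_eq_abs, hf, abs_mul, abs_mul, abs_of_pos hp]
      calc _ ≤ |ν i| * (C * 2 ^ |σ| * (1 + y i) ^ σ) :=
            mul_le_mul_of_nonneg_left a3 (abs_nonneg _)
        _ = _ := by ring
  simp only [hz] at hT
  exact tendsto_nhds_unique hT tendsto_const_nhds

/-- Damping: `D((1-e) z) ker(e z)` and real and imaginary parts (paper, 5 DAMP). -/
theorem damp_stmt {σ : ℝ} {ι : Type} (y ν : ι → ℝ) (hy : ∀ i, 0 < y i)
    (hs : Summable fun i => ν i * (1 + y i) ^ σ)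
    (h : ∀ D, Cls (σ - 2) D → (∀ x : ℝ, (D x).im = 0) → ∑' i, ν i * (D (y i)).re = 0) :
    ∀ D, Cls σ D → ∑' i, (ν i : ℂ) * D (y i) = 0 := by
  intro D hD
  have v1 : ∀ x : ℝ, (1 / 2 : ℂ) * (D x + (starRingEnd ℂ) (D ((starRingEnd ℂ) x))) =
      ((D x).re : ℂ) := fun x => by
    rw [conj_ofReal, add_conj]; push_cast; ring
  have v2 : ∀ x : ℝ, (-I / 2 : ℂ) * (D x - (starRingEnd ℂ) (D ((starRingEnd ℂ) x))) =
      ((D x).im : ℂ) := fun x => by
    rw [conj_ofReal, sub_conj]; push_cast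
    linear_combination (-((D x).im : ℂ)) * I_mul_I
  have r1 := damp_real y ν hy hs h ((hD.add hD.conj).const_mul (1 / 2))
    (fun x => by rw [v1, ofReal_im])
  have r2 := damp_real y ν hy hs h ((hD.sub hD.conj).const_mul (-I / 2))
    (fun x => by rw [v2, ofReal_im])
  simp only [v1, v2, ofReal_re] at r1 r2
  obtain ⟨C, h0, hC⟩ := hD.bd'
  have hsum : Summable fun i => (ν i : ℂ) * D (y i) := by
    refine Summable.of_norm_bounded (g := fun i => C * |ν i * (1 + y i) ^ σ|)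
      (hs.abs.mul_left _) fun i => ?_
    have hp : 0 < (1 + y i) ^ σ := by have := hy i; positivity
    have a1 := hC (y i)
    rw [abs_of_pos (hy i)] at a1
    rw [norm_mul, Complex.norm_real, Real.norm_eq_abs, abs_mul, abs_of_pos hp]
    calc _ ≤ |ν i| * (C * (1 + y i) ^ σ) := mul_le_mul_of_nonneg_left a1 (abs_nonneg _)
      _ = _ := by ring
  apply Complex.ext
  · rw [re_tsum hsum]; simpa using r1
  · rw [im_tsum hsum]; simpa using r2

end Pool.Agent.P.MP_7e6317_an
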