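import Pool.Agent.P.MP_7e6317_an.D.Cls

namespace Pool.Agent.P.MP_7e6317_an

open Filter Topology Set MeasureTheory Complex

lemma fins_factor_le {ε : ℝ} (hε : 0 < ε) (s : ℝ) (z : ℂ) :
    ‖Complex.cos (ε * z) - Complex.cos (ε * s)‖ ≤ 2 * Real.exp (ε * |z.im|) := by
  have h1 := norm_cos_le (ε * z)
  have h2 := norm_cos_le (ε * s)
  have e1 : (ε * z : ℂ).im = ε * z.im := by simp
  have e2 : (ε * s : ℂ).im = 0 := by simp
  rw [e1, abs_mul, abs_of_pos hε] at h1
  rw [e2, abs_zero, Real.exp_zero] at h2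
  have h3 : 1 ≤ Real.exp (ε * |z.im|) := Real.one_le_exp (by positivity)
  calc _ ≤ ‖Complex.cos (ε * z)‖ + ‖Complex.cos (ε * s)‖ := norm_sub_le _ _
    _ ≤ _ := by linarith

lemma fins_prod_le {ε : ℝ} (hε : 0 < ε) (S : Finset ℝ) (z : ℂ) :
    ‖∏ s ∈ S, (Complex.cos (ε * z) - Complex.cos (ε * s))‖ ≤
      2 ^ S.card * Real.exp (S.card * ε * |z.im|) := by
  rw [norm_prod]
  calc _ ≤ ∏ _s ∈ S, (2 * Real.exp (ε * |z.im|)) :=
        Finset.prod_le_prod (fun _ _ => norm_nonneg _) fun s _ => fins_factor_le hε s z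
    _ = _ := by
        rw [Finset.prod_const, mul_pow, ← Real.exp_nat_mul, mul_assoc]

lemma fins_one (S : Finset ℝ) (p : ℝ) (hS : ∀ s ∈ S, 0 < s) (hp : 0 < p) (hpS : p ∉ S) :
    ∃ D : ℂ → ℂ, Cls (-4) D ∧ D p ≠ 0 ∧ ∀ s ∈ S, D s = 0 := by
  obtain ⟨θ, t0, t1, tn⟩ := exists_ker_ne p
  have hsum : 0 ≤ ∑ s ∈ S, s := Finset.sum_nonneg fun s hs => (hS s hs).le
  set M : ℝ := p + ∑ s ∈ S, s + 2 * S.card + 1 with hM
  have hM0 : 0 < M := by positivity
  set ε : ℝ := 1 / M with hε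
  have e0 : 0 < ε := by positivity
  have eM : ε * M = 1 := by rw [hε]; field_simp
  have hc : (0 : ℝ) ≤ S.card := by positivity
  have ec : S.card * ε ≤ 1 / 2 := by nlinarith
  have ep : ε * p ≤ 1 := by nlinarith
  have es : ∀ s ∈ S, ε * s ≤ 1 := by
    intro s hs
    have : s ≤ ∑ s ∈ S, s := Finset.single_le_sum (fun s hs => (hS s hs).le) hs
    nlinarith
  have hk := cls_ker t0 (by linarith : θ ≤ 3)
  refine ⟨fun z => ker (θ * z) * ∏ s ∈ S, (Complex.cos (ε * z) - Complex.cos (ε * s)),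
    ⟨?_, fun η hη => ?_, fun z => ?_, ?_⟩, ?_, fun s hs => ?_⟩
  · refine hk.diff.mul (Differentiable.fun_finsetProd fun s _ => ?_)
    fun_prop
  · refine ⟨Real.exp 4 * 2 ^ S.card, fun z => ?_⟩
    rw [norm_mul]
    have h1 := norm_ker_le' (θ * z)
    have h2 := fins_prod_le e0 S z
    have h3 : |z.im| ≤ ‖z‖ := Complex.abs_im_le_norm z
    have h4 : ‖(θ * z : ℂ)‖ ≤ ‖z‖ := by
      rw [norm_mul, Complex.norm_real, Real.norm_eq_abs, abs_of_pos t0]
      nlinarith [norm_nonneg z]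
    calc _ ≤ (Real.exp 4 * Real.exp (‖(θ * z : ℂ)‖ / 3)) *
          (2 ^ S.card * Real.exp (S.card * ε * |z.im|)) :=
          mul_le_mul h1 h2 (norm_nonneg _) (by positivity)
      _ = Real.exp 4 * 2 ^ S.card * Real.exp (‖(θ * z : ℂ)‖ / 3 + S.card * ε * |z.im|) := by
          rw [Real.exp_add]; ring
      _ ≤ _ := by
          refine mul_le_mul_of_nonneg_left (Real.exp_le_exp.2 ?_) (by positivity)
          have h5 : S.card * ε * |z.im| ≤ 1 / 2 * ‖z‖ :=
            mul_le_mul ec h3 (abs_nonneg _) (by norm_num)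
          nlinarith [norm_nonneg z, mul_nonneg hη.le (norm_nonneg z)]
  · simp only [mul_neg, ker_neg, Complex.cos_neg]
  · obtain ⟨C, hC0, hC⟩ := hk.bd'
    refine ⟨C * 2 ^ S.card, fun u => ?_⟩
    rw [norm_mul]
    have h2 := fins_prod_le e0 S u
    rw [Complex.ofReal_im, abs_zero, mul_zero, Real.exp_zero, mul_one] at h2
    calc _ ≤ (C * (1 + |u|) ^ (-4 : ℝ)) * 2 ^ S.card :=
          mul_le_mul (hC u) h2 (norm_nonneg _) (by positivity)
      _ = _ := by ring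
  · refine mul_ne_zero tn (Finset.prod_ne_zero_iff.2 fun s hs h => hpS ?_)
    rw [sub_eq_zero, ← Complex.ofReal_mul, ← Complex.ofReal_mul, ← Complex.ofReal_cos,
      ← Complex.ofReal_cos, Complex.ofReal_inj] at h
    have hs0 := hS s hs
    have h3 := Real.pi_gt_three
    have := Real.injOn_cos ⟨by positivity, by linarith⟩
      ⟨by positivity, by linarith [es s hs]⟩ h
    rw [mul_left_cancel₀ e0.ne' this]
    exact hs
  · exact mul_eq_zero_of_right _ (Finset.prod_eq_zero hs (sub_self _))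

lemma fins_two (S : Set ℝ) (hS : S.Infinite) (hU : ∀ U, (S ∩ Iic U).Finite) :
    ∃ y : ℕ → ℝ, StrictMono y ∧ range y = S ∧ Tendsto y atTop atTop := by
  classical
  have hfin : ∀ b : S, (Iic b).Finite := by
    intro b
    refine Set.Finite.of_finite_image ((hU b).subset ?_) Subtype.val_injective.injOn
    rintro _ ⟨x, hx, rfl⟩
    exact ⟨x.2, hx⟩
  let : LocallyFiniteOrder S :=
    LocallyFiniteOrder.ofFiniteIcc fun a b => (hfin b).subset Icc_subset_Iic_self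
  let := LinearLocallyFiniteOrder.succOrder S
  let := LinearLocallyFiniteOrder.predOrder S
  obtain ⟨s0, hs0⟩ := hS.nonempty
  obtain ⟨b, hb0, hb⟩ := (hfin ⟨s0, hs0⟩).exists_minimal ⟨⟨s0, hs0⟩, mem_Iic.2 le_rfl⟩
  have hb' : ∀ a : S, b ≤ a := by
    intro a
    rcases le_total b a with h | h
    · exact h
    · exact hb (mem_Iic.2 (h.trans hb0)) h
  let : OrderBot S := { bot := b, bot_le := hb' }
  have : NoMaxOrder S := by
    refine ⟨fun a => ?_⟩
    by_contra h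
    push Not at h
    exact hS ((hU a).subset fun x hx => ⟨hx, h ⟨x, hx⟩⟩)
  let e : S ≃o ℕ := orderIsoNatOfLinearSuccPredArch
  have hm : StrictMono fun n => (e.symm n : ℝ) := fun a c h => e.symm.strictMono h
  have hr : range (fun n => (e.symm n : ℝ)) = S := by
    ext x
    constructor
    · rintro ⟨n, rfl⟩
      exact (e.symm n).2
    · intro hx
      exact ⟨e ⟨x, hx⟩, by simp⟩
  refine ⟨_, hm, hr, hm.monotone.tendsto_atTop_atTop fun U => ?_⟩
  by_contra h
  push Not at h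
  refine hS ((hU U).subset fun x hx => ⟨hx, ?_⟩)
  rw [← hr] at hx
  obtain ⟨n, rfl⟩ := hx
  exact (h n).le

/-- Test functions for finite sets (`ker (θ z) ∏ (cos (ε z) - cos (ε s))`) and enumeration of locally finite sets. -/
theorem fins_stmt :
    (∀ (S : Finset ℝ) (p : ℝ), (∀ s ∈ S, 0 < s) → 0 < p → p ∉ S →
      ∃ D : ℂ → ℂ, Cls (-4) D ∧ D p ≠ 0 ∧ ∀ s ∈ S, D s = 0) ∧
    ∀ S : Set ℝ, S.Infinite → (∀ U, (S ∩ Iic U).Finite) →
      ∃ y : ℕ → ℝ, StrictMono y ∧ range y = S ∧ Tendsto y atTop atTop :=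
  ⟨fins_one, fins_two⟩

end Pool.Agent.P.MP_7e6317_an
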