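import Pool.Agent.P.MP_7e6317_an.D.Cls

namespace Pool.Agent.P.MP_7e6317_an

open Filter Topology Set MeasureTheory Complex

namespace KM

variable {ι : Type}

/-- The unit ball of the summable sequences. -/
def ball (ι : Type) : Set (ι → ℝ) := {ν | ∀ F : Finset ι, ∑ i ∈ F, |ν i| ≤ 1}

lemma summable_ball {ν : ι → ℝ} (h : ν ∈ ball ι) : Summable fun i => |ν i| :=
  summable_of_sum_le (fun _ => abs_nonneg _) h

lemma mem_ball {ν : ι → ℝ} {a : ℝ} (h : HasSum (fun i => |ν i|) a) (ha : a ≤ 1) : ν ∈ ball ι :=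
  fun F => (sum_le_hasSum F (fun _ _ => abs_nonneg _) h).trans ha

lemma isClosed_ball : IsClosed (ball ι) := by
  simp only [ball, ofPred_forall]
  exact isClosed_iInter fun F => isClosed_le (by fun_prop) continuous_const

lemma isCompact_ball : IsCompact (ball ι) :=
  (isCompact_univ_pi fun _ : ι => isCompact_Icc (a := (-1 : ℝ)) (b := 1)).of_isClosed_subset
    isClosed_ball fun ν h i _ => abs_le.1 (by simpa using h {i})

lemma summable_mul {ν v : ι → ℝ} (h : Summable fun i => |ν i|) (hv : Tendsto v cofinite (𝓝 0)) :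
    Summable fun i => ν i * v i := by
  refine h.of_norm_bounded_eventually ?_
  filter_upwards [hv.eventually (Icc_mem_nhds (a := -1) (b := 1) (by norm_num) (by norm_num))]
    with i hi
  rw [Real.norm_eq_abs, abs_mul]
  exact mul_le_of_le_one_right (abs_nonneg _) (abs_le.2 hi)

lemma summable_bdd {ν h : ι → ℝ} {M : ℝ} (hν : Summable ν) (hM : ∀ i, |h i| ≤ M) :
    Summable fun i => h i * ν i :=
  (hν.abs.mul_left M).of_norm_bounded fun i => by
    rw [Real.norm_eq_abs, abs_mul]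
    exact mul_le_mul_of_nonneg_right (hM i) (abs_nonneg _)

lemma tail {ν v : ι → ℝ} (h : ν ∈ ball ι) (hv : Tendsto v cofinite (𝓝 0)) {ε : ℝ} (hε : 0 ≤ ε)
    {F : Finset ι} (hF : ∀ i, i ∉ F → |v i| ≤ ε) :
    |∑' i, ν i * v i - ∑ i ∈ F, ν i * v i| ≤ ε := by
  classical
  have h1 := (summable_mul (summable_ball h) hv).hasSum
  refine le_of_tendsto ((Tendsto.sub_const h1 _).abs) ?_
  filter_upwards [eventually_ge_atTop F] with G hG
  rw [← Finset.sum_sdiff hG, add_sub_cancel_right]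
  calc |∑ i ∈ G \ F, ν i * v i| ≤ ∑ i ∈ G \ F, |ν i| * ε :=
        (Finset.abs_sum_le_sum_abs _ _).trans (Finset.sum_le_sum fun i hi => by
          rw [abs_mul]
          exact mul_le_mul_of_nonneg_left (hF i (Finset.mem_sdiff.1 hi).2) (abs_nonneg _))
    _ ≤ ε := by
        rw [← Finset.sum_mul]
        exact mul_le_of_le_one_left hε (h _)

lemma isClosed_ann {v : ι → ℝ} (hv : Tendsto v cofinite (𝓝 0)) :
    IsClosed {ν | ν ∈ ball ι ∧ ∑' i, ν i * v i = 0} := by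
  have e : {ν | ν ∈ ball ι ∧ ∑' i, ν i * v i = 0} = ball ι ∩ ⋂ (ε : ℝ) (_ : 0 < ε) (F : Finset ι)
      (_ : ∀ i, i ∉ F → |v i| ≤ ε), {ν | |∑ i ∈ F, ν i * v i| ≤ ε} := by
    ext ν
    simp only [mem_inter_iff, mem_iInter, mem_ofPred_eq]
    refine and_congr_right fun h => ⟨fun h0 ε hε F hF => ?_, fun h0 => ?_⟩
    · simpa [h0] using tail h hv hε.le hF
    · refine abs_nonpos_iff.1 (le_of_forall_pos_le_add fun ε hε => ?_)
      have h1 := hv.eventually (Icc_mem_nhds (a := -(ε / 2)) (b := ε / 2) (by linarith)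
        (by linarith))
      have h2 : ∀ i, i ∉ (eventually_cofinite.1 h1).toFinset → |v i| ≤ ε / 2 := fun i hi =>
        abs_le.2 (by simpa using hi)
      have h3 := abs_le.1 (tail h hv (by linarith) h2)
      have h4 := abs_le.1 (h0 _ (by linarith) _ h2)
      exact abs_le.2 ⟨by linarith [h3.1, h4.1], by linarith [h3.2, h4.2]⟩
  rw [e]
  exact isClosed_ball.inter (isClosed_iInter fun ε => isClosed_iInter fun _ =>
    isClosed_iInter fun F => isClosed_iInter fun _ => isClosed_le (by fun_prop) continuous_const)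

/-- The compact convex set of annihilating sequences. -/
def K (V : Set (ι → ℝ)) (s : ι → ℝ) : Set (ι → ℝ) :=
  {ν | ν ∈ ball ι ∧ (∀ i, 0 ≤ s i * ν i) ∧ ∀ v ∈ V, ∑' i, ν i * v i = 0}

variable {V : Set (ι → ℝ)} {s : ι → ℝ}

lemma isCompact_K (hV : ∀ v ∈ V, Tendsto v cofinite (𝓝 0)) : IsCompact (K V s) := by
  refine isCompact_ball.of_isClosed_subset ?_ fun ν h => h.1
  have e : K V s = (ball ι ∩ ⋂ i, {ν | 0 ≤ s i * ν i}) ∩
      ⋂ v ∈ V, {ν | ν ∈ ball ι ∧ ∑' i, ν i * v i = 0} := by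
    ext ν
    simp only [K, mem_inter_iff, mem_iInter, mem_ofPred_eq]
    exact ⟨fun h => ⟨⟨h.1, h.2.1⟩, fun v hv => ⟨h.1, h.2.2 v hv⟩⟩,
      fun h => ⟨h.1.1, h.1.2, fun v hv => (h.2 v hv).2⟩⟩
  rw [e]
  exact (isClosed_ball.inter (isClosed_iInter fun i =>
    isClosed_le continuous_const (by fun_prop))).inter
    (isClosed_biInter fun v hv => isClosed_ann (hV v hv))

lemma convex_K (hV : ∀ v ∈ V, Tendsto v cofinite (𝓝 0)) : Convex ℝ (K V s) := by
  intro ν hν μ hμ a b ha hb hab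
  refine ⟨fun F => ?_, fun i => ?_, fun v hv => ?_⟩
  · calc ∑ i ∈ F, |(a • ν + b • μ) i| ≤ ∑ i ∈ F, (a * |ν i| + b * |μ i|) :=
          Finset.sum_le_sum fun i _ => (abs_add_le _ _).trans (by
            simp [abs_mul, abs_of_nonneg ha, abs_of_nonneg hb])
      _ ≤ 1 := by
          rw [Finset.sum_add_distrib, ← Finset.mul_sum, ← Finset.mul_sum]
          nlinarith [hν.1 F, hμ.1 F]
  · have h1 := mul_nonneg ha (hν.2.1 i)
    have h2 := mul_nonneg hb (hμ.2.1 i)
    simp only [Pi.add_apply, Pi.smul_apply, smul_eq_mul]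
    linarith
  · have h1 := ((summable_mul (summable_ball hν.1) (hV v hv)).hasSum.mul_left a).add
      ((summable_mul (summable_ball hμ.1) (hV v hv)).hasSum.mul_left b)
    rw [hν.2.2 v hv, hμ.2.2 v hv, mul_zero, mul_zero, add_zero] at h1
    refine HasSum.tsum_eq (h1.congr_fun fun i => ?_)
    simp only [Pi.add_apply, Pi.smul_apply, smul_eq_mul]
    ring

lemma tsum_pos {ν : ι → ℝ} (h : Summable ν) (h0 : ν ≠ 0) : 0 < ∑' i, |ν i| := by
  obtain ⟨i, hi⟩ := Function.ne_iff.1 h0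
  exact h.abs.tsum_pos (fun _ => abs_nonneg _) i (abs_pos.2 hi)

lemma perturb (hV : ∀ v ∈ V, Tendsto v cofinite (𝓝 0)) {ν g : ι → ℝ} (hν : ν ∈ K V s)
    (hg : ∀ i, |g i| ≤ 1) (h1 : HasSum (fun i => g i * |ν i|) 0)
    (h2 : ∀ v ∈ V, HasSum (fun i => g i * (ν i * v i)) 0) :
    (fun i => ν i * (1 + g i)) ∈ K V s := by
  have h0 : ∀ i, 0 ≤ 1 + g i := fun i => by linarith [(abs_le.1 (hg i)).1]
  have hs := summable_ball hν.1
  refine ⟨mem_ball ((hs.hasSum.add h1).congr_fun fun i => ?_) ?_, fun i => ?_, fun v hv => ?_⟩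
  · rw [abs_mul, abs_of_nonneg (h0 i)]
    ring
  · rw [add_zero]
    exact hs.tsum_le_of_sum_le hν.1
  · rw [← mul_assoc]
    exact mul_nonneg (hν.2.1 i) (h0 i)
  · have h3 := (summable_mul hs (hV v hv)).hasSum.add (h2 v hv)
    rw [hν.2.2 v hv, add_zero] at h3
    exact HasSum.tsum_eq (h3.congr_fun fun i => by ring)

end KM

open KM in
/-- An extreme annihilating sequence, by Krein-Milman in the product topology (paper, 5 KM). -/
theorem km_stmt {ι : Type} (V : Set (ι → ℝ)) (hV : ∀ v ∈ V, Tendsto v cofinite (𝓝 0))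
    (s : ι → ℝ)
    (h0 : ∃ ν : ι → ℝ, ν ≠ 0 ∧ Summable ν ∧ (∀ i, 0 ≤ s i * ν i) ∧ ∀ v ∈ V, ∑' i, ν i * v i = 0) :
    ∃ ν : ι → ℝ, ν ≠ 0 ∧ Summable ν ∧ (∀ i, 0 ≤ s i * ν i) ∧ (∀ v ∈ V, ∑' i, ν i * v i = 0) ∧
      ∀ h : ι → ℝ, (∃ M, ∀ i, |h i| ≤ M) → (∀ v ∈ V, ∑' i, h i * ν i * v i = 0) →
        ∀ i j, ν i ≠ 0 → ν j ≠ 0 → h i = h j := by
  obtain ⟨μ, hμ0, hμ, hμs, hμV⟩ := h0
  have hN := KM.tsum_pos hμ hμ0
  have hK : (fun i => (∑' i, |μ i|)⁻¹ * μ i) ∈ K V s := by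
    refine ⟨mem_ball ((hμ.abs.hasSum.mul_left (∑' i, |μ i|)⁻¹).congr_fun fun i => ?_)
      (inv_mul_cancel₀ hN.ne').le, fun i => ?_, fun v hv => ?_⟩
    · rw [abs_mul, abs_of_pos (inv_pos.2 hN)]
    · rw [mul_left_comm]
      exact mul_nonneg (inv_pos.2 hN).le (hμs i)
    · simp only [mul_assoc]
      rw [tsum_mul_left, hμV v hv, mul_zero]
  obtain ⟨ν, hν, hν0⟩ : ∃ ν ∈ (K V s).extremePoints ℝ, ν ≠ 0 := by
    by_contra! hc
    rw [← closure_convexHull_extremePoints (isCompact_K hV) (convex_K hV)] at hK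
    have h1 := closure_minimal (convexHull_min (fun x hx => hc x hx) (convex_singleton 0))
      isClosed_singleton hK
    refine hμ0 (funext fun i => ?_)
    exact (mul_eq_zero.1 (congrFun h1 i)).resolve_left (inv_pos.2 hN).ne'
  have hs := summable_ball hν.1.1
  have hs' : Summable ν := hs.of_abs
  refine ⟨ν, hν0, hs', hν.1.2.1, hν.1.2.2, ?_⟩
  rintro h ⟨M, hM⟩ hh
  have hN' := KM.tsum_pos hs' hν0
  obtain ⟨β, hβ⟩ : ∃ β, β * ∑' i, |ν i| = ∑' i, h i * |ν i| := ⟨_, div_mul_cancel₀ _ hN'.ne'⟩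
  have key : ∀ ε : ℝ, |ε| * (M + |β|) ≤ 1 → (fun i => ν i * (1 + ε * (h i - β))) ∈ K V s := by
    intro ε hε
    refine perturb hV hν.1 (fun i => ?_) ?_ fun v hv => ?_
    · rw [abs_mul]
      exact (mul_le_mul_of_nonneg_left ((abs_sub _ _).trans (by linarith [hM i]))
        (abs_nonneg ε)).trans hε
    · have h1 := ((summable_bdd hs hM).hasSum.sub (hs.hasSum.mul_left β)).mul_left ε
      rw [hβ, sub_self, mul_zero] at h1
      exact h1.congr_fun fun i => by ring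
    · have h2 := summable_mul hs (hV v hv)
      have h1 := ((summable_bdd h2 hM).hasSum.sub (h2.hasSum.mul_left β)).mul_left ε
      have h3 := hh v hv
      simp only [mul_assoc] at h3
      rw [h3, hν.1.2.2 v hv, mul_zero, sub_self, mul_zero] at h1
      exact h1.congr_fun fun i => by ring
  have hc : ∀ i, ν i ≠ 0 → h i = β := fun i hi => by
    have hM0 : 0 < M + |β| + 1 := by linarith [abs_nonneg (h i), hM i, abs_nonneg β]
    have hε : |(M + |β| + 1)⁻¹| * (M + |β|) ≤ 1 := by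
      rw [abs_of_pos (inv_pos.2 hM0), inv_mul_le_iff₀ hM0]
      linarith
    have h1 := hν.2 (key _ hε) (key (-(M + |β| + 1)⁻¹) (by rwa [abs_neg]))
      ⟨1 / 2, 1 / 2, by norm_num, by norm_num, by norm_num, funext fun i => by
        simp only [Pi.add_apply, Pi.smul_apply, smul_eq_mul]
        ring⟩
    have h2 : ν i * ((M + |β| + 1)⁻¹ * (h i - β)) = 0 := by linear_combination congrFun h1 i
    exact sub_eq_zero.1 ((mul_eq_zero.1 ((mul_eq_zero.1 h2).resolve_left hi)).resolve_left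
      (inv_pos.2 hM0).ne')
  exact fun i j hi hj => (hc i hi).trans (hc j hj).symm

end Pool.Agent.P.MP_7e6317_an
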