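import Pool.Agent.P.MP_7e6317_an.D.HB
import Pool.Agent.P.MP_7e6317_an.D.KM
import Pool.Agent.P.MP_7e6317_an.D.Damp
import Pool.Agent.P.MP_7e6317_an.D.FinS

namespace Pool.Agent.P.MP_7e6317_an

open Filter Topology Set MeasureTheory Complex

/-- Weighted restrictions to `Z` of the real members of the class `Cls (σ - 2)`. -/
def dualV (σ : ℝ) (Z : Set ℝ) : Submodule ℝ (Z → ℝ) where
  carrier := {v | ∃ D, Cls (σ - 2) D ∧ (∀ x : ℝ, (D x).im = 0) ∧
    ∀ i : Z, v i = (D (i : ℝ)).re / (1 + (i : ℝ)) ^ σ}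
  add_mem' := by
    rintro v w ⟨D, hD, hr, hv⟩ ⟨E, hE, hr', hw⟩
    refine ⟨fun z => D z + E z, hD.add hE, fun x => by simp [hr x, hr' x], fun i => ?_⟩
    rw [Pi.add_apply, hv, hw, add_re, add_div]
  zero_mem' := ⟨fun _ => 0, Cls.zero, fun _ => rfl, fun _ => by simp⟩
  smul_mem' := by
    rintro c v ⟨D, hD, hr, hv⟩
    refine ⟨fun z => (c : ℂ) * D z, hD.const_mul c, fun x => by simp [hr x], fun i => ?_⟩
    rw [Pi.smul_apply, hv, smul_eq_mul, re_ofReal_mul, mul_div_assoc]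

lemma dual_tendsto {Z : Set ℝ} (hfin : ∀ U, (Z ∩ Iic U).Finite) :
    Tendsto (fun i : Z => (i : ℝ)) cofinite atTop := by
  rw [tendsto_atTop]
  intro U
  rw [eventually_cofinite]
  refine ((hfin U).preimage Subtype.val_injective.injOn).subset fun i hi => ?_
  exact ⟨i.2, (not_le.1 hi).le⟩

lemma dualV_tendsto {σ : ℝ} {Z : Set ℝ} (hZ : ∀ u ∈ Z, 0 < u) (hfin : ∀ U, (Z ∩ Iic U).Finite) :
    ∀ v ∈ dualV σ Z, Tendsto v cofinite (𝓝 0) := by
  rintro v ⟨D, hD, -, hv⟩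
  obtain ⟨C, -, hC⟩ := hD.bd'
  have h1 : Tendsto (fun i : Z => C * (1 + (i : ℝ)) ^ (-(2 : ℝ))) cofinite (𝓝 0) := by
    have h2 := (tendsto_rpow_neg_atTop (y := 2) (by norm_num)).comp
      (tendsto_atTop_add_const_left _ 1 (dual_tendsto hfin))
    simpa using h2.const_mul C
  refine squeeze_zero_norm (fun i => ?_) h1
  have hi := hZ i i.2
  have hp : 0 < 1 + (i : ℝ) := by linarith
  have h3 := hC i
  rw [abs_of_pos hi] at h3
  rw [hv, Real.norm_eq_abs, abs_div, abs_of_pos (Real.rpow_pos_of_pos hp σ),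
    div_le_iff₀ (Real.rpow_pos_of_pos hp σ), mul_assoc, ← Real.rpow_add hp,
    show -(2 : ℝ) + σ = σ - 2 by ring]
  exact (abs_re_le_norm _).trans h3

/-- From the failure of improvement to an extreme annihilating measure (paper, 5). -/
theorem dual_stmt {σ : ℝ} (hσ : -4 ≤ σ) {Z : Set ℝ} (hZ : ∀ u ∈ Z, 0 < u)
    (hfin : ∀ U, (Z ∩ Iic U).Finite) (s δ : ℝ → ℝ) (hs : ∀ u, s u = 1 ∨ s u = -1)
    {η U : ℝ} (hη : 0 < η) (hδ : ∀ u ∈ Z, U ≤ u → s u * δ u ≤ -(η * (1 + u) ^ σ))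
    (hno : ∀ D, Cls (σ - 2) D → (∀ x : ℝ, (D x).im = 0) →
      ∃ u ∈ Z, s u * ((D u).re - δ u) ≤ 0) :
    ∃ y ν : ℕ → ℝ, Ann σ y ν ∧ ∀ k, y k ∈ Z ∧ 0 < s (y k) * ν k := by
  classical
  have hw : ∀ i : Z, 0 < (1 + (i : ℝ)) ^ σ := fun i =>
    Real.rpow_pos_of_pos (by linarith [hZ i i.2]) σ
  have hV := dualV_tendsto (σ := σ) hZ hfin
  have hb := hb_stmt (dualV σ Z) hV (fun i => s i) (fun i => δ i / (1 + (i : ℝ)) ^ σ)
    (fun i => hs i) hη (by
      filter_upwards [(tendsto_atTop.1 (dual_tendsto hfin)) U] with i hi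
      rw [← mul_div_assoc, div_le_iff₀ (hw i), neg_mul]
      exact hδ i i.2 hi) (by
      rintro v ⟨D, hD, hr, hv⟩
      obtain ⟨u, hu, h⟩ := hno D hD hr
      refine ⟨⟨u, hu⟩, ?_⟩
      rw [hv, ← sub_div, ← mul_div_assoc]
      exact div_nonpos_of_nonpos_of_nonneg h (hw ⟨u, hu⟩).le)
  obtain ⟨m, hm0, hms, hmp, hma, hme⟩ := km_stmt (dualV σ Z : Set (Z → ℝ)) hV (fun i => s i) hb
  set μ : Z → ℝ := fun i => m i / (1 + (i : ℝ)) ^ σ with hμ
  have hμm : ∀ i, μ i * (1 + (i : ℝ)) ^ σ = m i := fun i => div_mul_cancel₀ _ (hw i).ne'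
  have hμ0 : ∀ i, μ i ≠ 0 ↔ m i ≠ 0 := fun i => by
    simp only [hμ, ne_eq, div_eq_zero_iff, (hw i).ne', or_false]
  have hann : ∀ D, Cls σ D → ∑' i, (μ i : ℂ) * D (i : ℝ) = 0 := by
    refine damp_stmt (fun i : Z => (i : ℝ)) μ (fun i => hZ i i.2) (by simpa only [hμm] using hms) ?_
    intro D hD hr
    rw [← hma (fun i => (D (i : ℝ)).re / (1 + (i : ℝ)) ^ σ) ⟨D, hD, hr, fun _ => rfl⟩]
    refine tsum_congr fun i => ?_
    simp only [hμ]
    ring
  set S : Set ℝ := Subtype.val '' {i : Z | m i ≠ 0} with hS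
  have hSZ : S ⊆ Z := by
    rintro _ ⟨i, -, rfl⟩
    exact i.2
  have hSinf : S.Infinite := by
    intro hf
    obtain ⟨p, hp⟩ := Function.ne_iff.1 hm0
    have hp' : m p ≠ 0 := hp
    obtain ⟨D, hD, hDp, hD0⟩ := fins_stmt.1 (hf.toFinset.erase p) p
      (fun t ht => hZ t (hSZ (hf.mem_toFinset.1 (Finset.mem_of_mem_erase ht)))) (hZ p p.2)
      (Finset.notMem_erase _ _)
    have h1 := hann D (hD.mono hσ)
    rw [tsum_eq_single p] at h1
    · rcases mul_eq_zero.1 h1 with h | h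
      · exact (hμ0 p).2 hp' (by exact_mod_cast h)
      · exact hDp h
    · intro i hi
      by_cases h : m i = 0
      · simp [hμ, h]
      · rw [hD0 i (Finset.mem_erase.2 ⟨fun e => hi (Subtype.ext e),
          hf.mem_toFinset.2 ⟨i, h, rfl⟩⟩), mul_zero]
  obtain ⟨y, hy, hyr, hyl⟩ := fins_stmt.2 S hSinf fun U =>
    (hfin U).subset (inter_subset_inter_left _ hSZ)
  have hyS : ∀ k, y k ∈ S := fun k => hyr ▸ mem_range_self k
  let e : ℕ → Z := fun k => ⟨y k, hSZ (hyS k)⟩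
  have he : Function.Injective e := fun i j h => hy.injective (congrArg Subtype.val h)
  have hem : ∀ k, m (e k) ≠ 0 := by
    intro k
    obtain ⟨i, hi, h⟩ := hyS k
    have : e k = i := Subtype.ext h.symm
    rw [this]
    exact hi
  have hsupp : ∀ i, m i ≠ 0 → i ∈ range e := by
    intro i hi
    have h1 : (i : ℝ) ∈ range y := hyr ▸ ⟨i, hi, rfl⟩
    obtain ⟨k, hk⟩ := h1
    exact ⟨k, Subtype.ext hk⟩
  refine ⟨y, fun k => μ (e k), ⟨hZ _ (hSZ (hyS 0)), hy, hyl, fun k => (hμ0 _).2 (hem k), ?_, ?_, ?_⟩,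
    fun k => ⟨hSZ (hyS k), ?_⟩⟩
  · exact (hms.comp_injective he).congr fun k => (hμm (e k)).symm
  · intro D hD
    rw [← hann D hD]
    refine he.tsum_eq (f := fun i : Z => (μ i : ℂ) * D (i : ℝ)) fun i hi => hsupp i ?_
    intro h
    exact hi (by simp [hμ, h])
  · rintro h ⟨M, hM⟩ ha i j
    have hb' : ∀ x, |Function.extend e h 0 x| ≤ M := by
      intro x
      by_cases hx : ∃ k, e k = x
      · obtain ⟨k, rfl⟩ := hx
        rw [he.extend_apply]
        exact hM k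
      · rw [Function.extend_apply' _ _ _ hx]
        simpa using (abs_nonneg _).trans (hM 0)
    have h1 := hme (Function.extend e h 0) ⟨M, hb'⟩ ?_ (e i) (e j) (hem i) (hem j)
    · rwa [he.extend_apply, he.extend_apply] at h1
    rintro v ⟨D, hD, hr, hv⟩
    rw [← he.tsum_eq (f := fun x : Z => Function.extend e h 0 x * m x * v x)
      (fun x hx => hsupp x fun h0 => hx (by simp [h0]))]
    have h2 := ha D (hD.mono (by linarith))
    apply ofReal_injective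
    rw [ofReal_tsum, ofReal_zero, ← h2]
    refine tsum_congr fun k => ?_
    have h3 : D (y k) = ((D (y k)).re : ℂ) := Complex.ext rfl (hr (y k))
    rw [he.extend_apply, hv, h3, ← ofReal_mul]
    congr 1
    simp only [hμ, e, ofReal_re]
    ring
  · have h1 := hmp (e k)
    have h2 : s (y k) * m (e k) ≠ 0 := by
      refine mul_ne_zero ?_ (hem k)
      rcases hs (y k) with h | h <;> rw [h] <;> norm_num
    have h3 : 0 < s (y k) * m (e k) := lt_of_le_of_ne h1 h2.symm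
    simp only [hμ]
    rw [← mul_div_assoc]
    exact div_pos h3 (hw (e k))

end Pool.Agent.P.MP_7e6317_an
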