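import Pool.Agent.P.MP_7e6317_an.D.Cls

namespace Pool.Agent.P.MP_7e6317_an

open Filter Topology Set MeasureTheory Complex

lemma Fin.re_analytic {F : ℂ → ℂ} (hd : Differentiable ℂ F) (s : Set ℝ) :
    AnalyticOnNhd ℝ (fun u : ℝ => (F u).re) s := by
  intro u _
  have h1 : AnalyticAt ℝ F (u : ℂ) := (hd.analyticAt (u : ℂ)).restrictScalars
  have h2 : AnalyticAt ℝ (fun u : ℝ => (u : ℂ)) u := Complex.ofRealCLM.analyticAt u
  have h3 : AnalyticAt ℝ (fun u : ℝ => F u) u := AnalyticAt.comp (g := F) h1 h2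
  exact AnalyticAt.comp (g := Complex.re) (Complex.reCLM.analyticAt (F u)) h3

lemma Fin.acc {f g : ℝ → ℝ} {δ U : ℝ} (hδ : ∀ u, 0 < u → u < δ → f u ≠ g u)
    (hinf : ({u : ℝ | 0 < u ∧ f u = g u} ∩ Iic U).Infinite) :
    ∃ u0, δ ≤ u0 ∧ ∃ᶠ u in 𝓝[≠] u0, f u = g u := by
  have hsub : ({u : ℝ | 0 < u ∧ f u = g u} ∩ Iic U) ⊆ Icc δ U := by
    rintro u ⟨⟨h0, he⟩, hU⟩
    refine ⟨?_, hU⟩
    by_contra hlt
    exact hδ u h0 (not_le.mp hlt) he
  obtain ⟨u0, hu0, hacc⟩ := hinf.exists_accPt_of_subset_isCompact isCompact_Icc hsub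
  refine ⟨u0, hu0.1, ?_⟩
  rw [accPt_iff_frequently_nhdsNE] at hacc
  exact hacc.mono fun u hu => hu.1.2

lemma Fin.near_zero {m τ : ℝ} {L R : ℝ → ℝ → ℝ} (h : Cor m τ L R) {a : ℝ} (ha : 0 < a)
    {F : ℂ → ℂ} (hF : Feas L R a F) :
    ∃ δ, 0 < δ ∧ ∀ u : ℝ, 0 < u → u < δ → L a u < (F u).re ∧ (F u).re < R a u := by
  obtain ⟨M, hM0, hM⟩ := exists_sq_bound hF.1.1 hF.2.1 hF.2.2.1 1
  have h1 : ∀ᶠ u in 𝓝[>] (0 : ℝ), L a u / u ^ 2 < -M := (h.zeroL a ha).eventually_lt_atBot _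
  have h2 : ∀ᶠ u in 𝓝[>] (0 : ℝ), M < R a u / u ^ 2 := (h.zeroR a ha).eventually_gt_atTop _
  obtain ⟨δ, hδ, hsub⟩ := (mem_nhdsGT_iff_exists_Ioo_subset).1 (h1.and h2)
  refine ⟨min δ 1, lt_min hδ one_pos, fun u hu hlt => ?_⟩
  have hu1 : |u| ≤ 1 := by
    rw [abs_of_pos hu]; exact (hlt.trans_le (min_le_right _ _)).le
  obtain ⟨k1, k2⟩ := hsub ⟨hu, hlt.trans_le (min_le_left _ _)⟩
  have hp : 0 < u ^ 2 := by positivity
  rw [div_lt_iff₀ hp] at k1
  rw [lt_div_iff₀ hp] at k2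
  have hb := (Complex.abs_re_le_norm (F u)).trans (hM u hu1)
  rw [abs_le] at hb
  constructor <;> nlinarith [hb.1, hb.2]

lemma Fin.cusp {f g : ℝ → ℝ} {α : ℝ} (hf : DifferentiableAt ℝ f α)
    (hle : ∀ u, α ≤ u → g u ≤ f u)
    (ht : Tendsto (fun u => (g u - g α) / (u - α)) (𝓝[>] α) atTop) : g α < f α := by
  refine lt_of_le_of_ne (hle α le_rfl) fun he => ?_
  have h1 : Tendsto (slope f α) (𝓝[>] α) (𝓝 (deriv f α)) :=
    (hasDerivAt_iff_tendsto_slope.1 hf.hasDerivAt).mono_left (nhdsGT_le_nhdsNE α)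
  have h2 : ∀ᶠ u in 𝓝[>] α, slope f α u < deriv f α + 1 :=
    h1.eventually (eventually_lt_nhds (lt_add_one _))
  have h3 : ∀ᶠ u in 𝓝[>] α, deriv f α + 1 < (g u - g α) / (u - α) := ht.eventually_gt_atTop _
  obtain ⟨u, ⟨k2, k3⟩, hu⟩ := ((h2.and h3).and self_mem_nhdsWithin).exists
  have hu' : 0 < u - α := sub_pos.2 hu
  rw [slope_def_field] at k2
  have : (g u - g α) / (u - α) ≤ (f u - f α) / (u - α) := by
    apply div_le_div_of_nonneg_right _ hu'.le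
    have := hle u (le_of_lt hu)
    linarith
  linarith

/-- The touch points are locally finite (identity theorem for real analytic functions; paper, 5). -/
theorem fin_stmt {m τ : ℝ} {L R : ℝ → ℝ → ℝ} (h : Cor m τ L R) {a : ℝ} (ha : 0 < a)
    {F : ℂ → ℂ} (hF : Feas L R a F) (U : ℝ) :
    ({u : ℝ | 0 < u ∧ ((F u).re = L a u ∨ (F u).re = R a u)} ∩ Iic U).Finite := by
  obtain ⟨δ, hδ, hnz⟩ := Fin.near_zero h ha hF
  have han := Fin.re_analytic hF.1.1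
  have key : ∀ g : ℝ → ℝ, AnalyticOnNhd ℝ g (Ioi 0) →
      (∀ u : ℝ, 0 < u → u < δ → (F u).re ≠ g u) →
      ({u : ℝ | 0 < u ∧ (F u).re = g u} ∩ Iic U).Finite := by
    intro g hg hne
    by_contra hinf
    obtain ⟨u0, hu0, hfr⟩ := Fin.acc (f := fun u : ℝ => (F u).re) hne hinf
    have := (han (Ioi 0)).eqOn_of_preconnected_of_frequently_eq hg isPreconnected_Ioi
      (hδ.trans_le hu0) hfr
    exact hne (δ / 2) (by linarith) (by linarith) (this (by simp only [mem_Ioi]; linarith))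
  have hR : ({u : ℝ | 0 < u ∧ (F u).re = R a u} ∩ Iic U).Finite :=
    key _ (h.anR a ha) fun u hu hlt => (hnz u hu hlt).2.ne
  have hL : ({u : ℝ | 0 < u ∧ (F u).re = L a u} ∩ Iic U).Finite := by
    rcases h.anL a ha with hg | ⟨α, hα, hg, ht⟩
    · exact key _ hg fun u hu hlt => (hnz u hu hlt).1.ne'
    · by_contra hinf
      obtain ⟨u0, hu0, hfr⟩ := Fin.acc (f := fun u : ℝ => (F u).re)
        (fun u hu hlt => (hnz u hu hlt).1.ne') hinf
      have hdf : DifferentiableAt ℝ (fun u : ℝ => (F u).re) α :=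
        (han univ α (mem_univ _)).differentiableAt
      have hlt : L a α < (F α).re := Fin.cusp (f := fun u : ℝ => (F u).re) hdf
        (fun u hu => (hF.2.2.2 u (hα.trans_le hu)).1) ht
      have hcL : ContinuousAt (L a) α := (h.cuL a ha).continuousAt (Ioi_mem_nhds hα)
      have hev : ∀ᶠ u in 𝓝 α, L a u < (F u).re := hcL.eventually_lt hdf.continuousAt hlt
      rcases lt_trichotomy u0 α with h0 | h0 | h0
      · have hg' : AnalyticOnNhd ℝ (L a) (Ioo 0 α) :=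
          hg.mono fun u hu => ⟨hu.1, hu.2.ne⟩
        have := (han (Ioo 0 α)).eqOn_of_preconnected_of_frequently_eq hg' isPreconnected_Ioo
          ⟨hδ.trans_le hu0, h0⟩ hfr
        exact (hnz (δ / 2) (by linarith) (by linarith)).1.ne'
          (this ⟨by linarith, by linarith⟩)
      · subst h0
        obtain ⟨u, k1, k2⟩ := (hfr.and_eventually (hev.filter_mono nhdsWithin_le_nhds)).exists
        exact k2.ne' k1
      · have hg' : AnalyticOnNhd ℝ (L a) (Ioi α) :=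
          hg.mono fun u hu => ⟨hα.trans hu, (ne_of_gt hu)⟩
        have := (han (Ioi α)).eqOn_of_preconnected_of_frequently_eq hg' isPreconnected_Ioi
          h0 hfr
        obtain ⟨u, k1, k2⟩ := ((hev.filter_mono (nhdsWithin_le_nhds (s := Ioi α))).and
          self_mem_nhdsWithin).exists
        exact k1.ne' (this k2)
  refine (hL.union hR).subset ?_
  rintro u ⟨⟨h0, h1 | h1⟩, hU⟩
  · exact Or.inl ⟨⟨h0, h1⟩, hU⟩
  · exact Or.inr ⟨⟨h0, h1⟩, hU⟩

end Pool.Agent.P.MP_7e6317_an
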