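import Pool.Agent.P.MP_7e6317_an.D.Div

namespace Pool.Agent.P.MP_7e6317_an

open Filter Topology Set MeasureTheory Complex

lemma db1_pos {σ : ℝ} {y ν : ℕ → ℝ} (h : Ann σ y ν) (k : ℕ) : 0 < y k :=
  h.pos.trans_le (h.mono.monotone (Nat.zero_le k))

lemma db1_bdd {σ : ℝ} {y ν : ℕ → ℝ} (h : Ann σ y ν) (w : ℂ) :
    ∃ M : ℝ, ∀ k, ‖(w ^ 2 - (y k : ℂ) ^ 2)⁻¹‖ ≤ M := by
  have h1 : Tendsto (fun k => y k ^ 2 - ‖w‖ ^ 2) atTop atTop :=
    tendsto_atTop_add_const_right _ (-‖w‖ ^ 2) ((tendsto_pow_atTop two_ne_zero).comp h.lim)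
  have h2 : Tendsto (fun k => ‖w ^ 2 - (y k : ℂ) ^ 2‖) atTop atTop := by
    refine tendsto_atTop_mono (fun k => ?_) h1
    have e1 := norm_sub_norm_le ((y k : ℂ) ^ 2) (w ^ 2)
    rw [norm_pow, norm_pow, Complex.norm_real, Real.norm_eq_abs, sq_abs, norm_sub_rev] at e1
    exact e1
  have h3 : Tendsto (fun k => ‖(w ^ 2 - (y k : ℂ) ^ 2)⁻¹‖) atTop (𝓝 0) := by
    simp only [norm_inv]
    exact h2.inv_tendsto_atTop
  obtain ⟨M, hM⟩ := h3.bddAbove_range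
  exact ⟨M, fun k => hM ⟨k, rfl⟩⟩

lemma db1_summ {σ : ℝ} {y ν : ℕ → ℝ} (h : Ann σ y ν) {D : ℂ → ℂ} (hD : Cls σ D) :
    Summable fun k => ‖(ν k : ℂ) * D (y k)‖ := by
  obtain ⟨C, -, hC⟩ := hD.bd'
  refine Summable.of_nonneg_of_le (fun k => norm_nonneg _) (fun k => ?_) (h.sum.abs.mul_left C)
  have hy := db1_pos h k
  have e1 := hC (y k)
  rw [abs_of_pos hy] at e1
  rw [norm_mul, Complex.norm_real, Real.norm_eq_abs, abs_mul,
    abs_of_pos (a := (1 + y k) ^ σ) (by positivity)]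
  calc |ν k| * ‖D (y k)‖ ≤ |ν k| * (C * (1 + y k) ^ σ) :=
        mul_le_mul_of_nonneg_left e1 (abs_nonneg _)
    _ = _ := by ring

lemma db1_summ_mul {σ : ℝ} {y ν : ℕ → ℝ} (h : Ann σ y ν) {D : ℂ → ℂ} (hD : Cls σ D)
    {g : ℕ → ℂ} {M : ℝ} (hg : ∀ k, ‖g k‖ ≤ M) :
    Summable fun k => ‖(ν k : ℂ) * D (y k) * g k‖ := by
  refine Summable.of_nonneg_of_le (fun k => norm_nonneg _) (fun k => ?_)
    ((db1_summ h hD).mul_right M)
  rw [norm_mul]
  exact mul_le_mul_of_nonneg_left (hg k) (norm_nonneg _)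

/-- A bounded complex multiplier that preserves annihilation is constant. -/
lemma db1_ext {σ : ℝ} {y ν : ℕ → ℝ} (h : Ann σ y ν) {g : ℕ → ℂ} {M : ℝ} (hg : ∀ k, ‖g k‖ ≤ M)
    (h0 : ∀ D, Cls σ D → ∑' k, (ν k : ℂ) * D (y k) * g k = 0) (i j : ℕ) : g i = g j := by
  have hg' : ∀ k, ‖(starRingEnd ℂ) (g k)‖ ≤ M := fun k => by simpa using hg k
  have h1 : ∀ D, Cls σ D → ∑' k, (ν k : ℂ) * D (y k) * (starRingEnd ℂ) (g k) = 0 := by
    intro D hD
    have e1 := congrArg (starRingEnd ℂ) (h0 _ hD.conj)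
    rw [Complex.conj_tsum, map_zero] at e1
    simpa using e1
  have hre : (g i).re = (g j).re := by
    refine h.ext (fun k => (g k).re) ⟨M, fun k => (Complex.abs_re_le_norm _).trans (hg k)⟩
      (fun D hD => ?_) i j
    have s1 := (db1_summ_mul h hD hg).of_norm
    have s2 := (db1_summ_mul h hD hg').of_norm
    have e1 := s1.tsum_add s2
    rw [h0 D hD, h1 D hD, add_zero] at e1
    have e2 : ∀ k, ((((g k).re * ν k : ℝ)) : ℂ) * D (y k) = (1 / 2 : ℂ) *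
        ((ν k : ℂ) * D (y k) * g k + (ν k : ℂ) * D (y k) * (starRingEnd ℂ) (g k)) := by
      intro k
      rw [← mul_add, Complex.add_conj]
      push_cast
      ring
    simp only [e2]
    rw [tsum_mul_left, e1, mul_zero]
  have him : (g i).im = (g j).im := by
    refine h.ext (fun k => (g k).im) ⟨M, fun k => (Complex.abs_im_le_norm _).trans (hg k)⟩
      (fun D hD => ?_) i j
    have s1 := (db1_summ_mul h hD hg).of_norm
    have s2 := (db1_summ_mul h hD hg').of_norm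
    have e1 := s1.tsum_sub s2
    rw [h0 D hD, h1 D hD, sub_zero] at e1
    have e2 : ∀ k, ((((g k).im * ν k : ℝ)) : ℂ) * D (y k) = (-I / 2 : ℂ) *
        ((ν k : ℂ) * D (y k) * g k - (ν k : ℂ) * D (y k) * (starRingEnd ℂ) (g k)) := by
      intro k
      rw [← mul_sub, Complex.sub_conj]
      push_cast
      linear_combination ((ν k : ℂ) * D (y k) * ((g k).im : ℂ)) * Complex.I_mul_I
    simp only [e2]
    rw [tsum_mul_left, e1, mul_zero]
  exact Complex.ext hre him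

/-- The identity (*) and the absence of zeros of the Cauchy transform (paper, 6). -/
theorem db1_stmt {σ : ℝ} {y ν : ℕ → ℝ} (h : Ann σ y ν) {w : ℂ}
    (hw : ∀ k, w ^ 2 ≠ (y k : ℂ) ^ 2) :
    (∀ D, Cls σ D → Summable fun k => ‖(ν k : ℂ) * D (y k) / (w ^ 2 - (y k : ℂ) ^ 2)‖) ∧
    (∀ D₁ D₂, Cls σ D₁ → Cls σ D₂ → D₂ w * cau y ν D₁ w = D₁ w * cau y ν D₂ w) ∧
    ∀ D, Cls σ D → D w ≠ 0 → cau y ν D w ≠ 0 := by
  obtain ⟨M, hM⟩ := db1_bdd h w
  have p1 : ∀ D, Cls σ D →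
      Summable fun k => ‖(ν k : ℂ) * D (y k) / (w ^ 2 - (y k : ℂ) ^ 2)‖ := by
    intro D hD
    simp only [div_eq_mul_inv]
    exact db1_summ_mul h hD hM
  have p2 : ∀ D₁ D₂, Cls σ D₁ → Cls σ D₂ → D₂ w * cau y ν D₁ w = D₁ w * cau y ν D₂ w := by
    intro D₁ D₂ h₁ h₂
    have hW := (h₁.const_mul (D₂ w)).sub (h₂.const_mul (D₁ w))
    obtain ⟨E, hE, hWE⟩ := div_stmt hW (w := w) (by ring)
    have e0 := h.ann E (hE.mono (by linarith))
    have s1 := (p1 D₁ h₁).of_norm.mul_left (D₂ w)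
    have s2 := (p1 D₂ h₂).of_norm.mul_left (D₁ w)
    have e1 := s1.tsum_sub s2
    rw [tsum_mul_left, tsum_mul_left] at e1
    have e2 : ∀ k, D₂ w * ((ν k : ℂ) * D₁ (y k) / (w ^ 2 - (y k : ℂ) ^ 2)) -
        D₁ w * ((ν k : ℂ) * D₂ (y k) / (w ^ 2 - (y k : ℂ) ^ 2)) = -((ν k : ℂ) * E (y k)) := by
      intro k
      have e3 := hWE (y k)
      have e4 : w ^ 2 - (y k : ℂ) ^ 2 ≠ 0 := sub_ne_zero.2 (hw k)
      field_simp
      linear_combination (ν k : ℂ) * e3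
    simp only [e2] at e1
    rw [tsum_neg, e0, neg_zero] at e1
    exact (sub_eq_zero.1 e1.symm)
  refine ⟨p1, p2, fun D hD hDw hc => ?_⟩
  have h0 : ∀ D₂, Cls σ D₂ →
      ∑' k, (ν k : ℂ) * D₂ (y k) * (w ^ 2 - (y k : ℂ) ^ 2)⁻¹ = 0 := by
    intro D₂ h₂
    have e1 := p2 D D₂ hD h₂
    rw [hc, mul_zero] at e1
    have e2 := (mul_eq_zero.1 e1.symm).resolve_left hDw
    simpa only [cau, div_eq_mul_inv] using e2
  have e1 := db1_ext h hM h0 0 1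
  have e2 : (y 0 : ℂ) ^ 2 = (y 1 : ℂ) ^ 2 := by
    have := inv_injective e1
    linear_combination -this
  have e3 : y 0 ^ 2 = y 1 ^ 2 := by exact_mod_cast e2
  have e4 : y 0 < y 1 := h.mono (by norm_num)
  nlinarith [h.pos]

end Pool.Agent.P.MP_7e6317_an
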