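import Pool.Agent.P.MP_7e6317_an.D.Cls

namespace Pool.Agent.P.MP_7e6317_an

open Filter Topology Set MeasureTheory Complex

/-- Quotient of entire functions when the denominator has simple zeros. -/
theorem quo_stmt {f g : ℂ → ℂ} (hf : Differentiable ℂ f) (hg : Differentiable ℂ g)
    (h : ∀ z, g z = 0 → deriv g z ≠ 0 ∧ f z = 0) :
    ∃ E : ℂ → ℂ, Differentiable ℂ E ∧ (∀ z, f z = E z * g z) ∧
      ∀ z, g z = 0 → deriv f z = E z * deriv g z := by
  classical
  have hd : ∀ {u : ℂ → ℂ}, Differentiable ℂ u → ∀ c, Differentiable ℂ (dslope u c) := by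
    intro u hu c
    exact differentiableOn_univ.1 ((differentiableOn_dslope univ_mem).2 hu.differentiableOn)
  refine ⟨fun z => if g z = 0 then deriv f z / deriv g z else f z / g z, fun c => ?_, fun z => ?_,
    fun z hz => ?_⟩
  · by_cases hc : g c = 0
    · obtain ⟨h1, h2⟩ := h c hc
      have h3 : dslope g c c ≠ 0 := by rwa [dslope_same]
      refine (((hd hf c) c).div ((hd hg c) c) h3).congr_of_eventuallyEq ?_
      filter_upwards [((hd hg c) c).continuousAt.eventually_ne h3] with z hz
      by_cases hzc : z = c
      · subst hzc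
        simp only [if_pos hc, Pi.div_apply, dslope_same]
      · have e1 := sub_smul_dslope_of_zero hc z
        have e2 := sub_smul_dslope_of_zero h2 z
        have h4 : z - c ≠ 0 := sub_ne_zero.2 hzc
        rw [smul_eq_mul] at e1 e2
        have h5 : g z ≠ 0 := by
          rw [← e1]
          exact mul_ne_zero h4 hz
        simp only [if_neg h5, Pi.div_apply]
        rw [← e1, ← e2, mul_div_mul_left _ _ h4]
    · refine ((hf c).div (hg c) hc).congr_of_eventuallyEq ?_
      filter_upwards [(hg c).continuousAt.eventually_ne hc] with z hz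
      simp only [if_neg hz, Pi.div_apply]
  · by_cases hz : g z = 0
    · simp only [hz, (h z hz).2, mul_zero]
    · simp only [if_neg hz]
      rw [div_mul_cancel₀ _ hz]
  · simp only [if_pos hz]
    rw [div_mul_cancel₀ _ (h z hz).1]

end Pool.Agent.P.MP_7e6317_an
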