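import Pool.Agent.P.MP_7e6317_an.D.Cls

namespace Pool.Agent.P.MP_7e6317_an

open Filter Topology Set MeasureTheory Complex

lemma sq_norm_sin_sq (w : ℂ) :
    ‖Complex.sin w‖ ^ 2 = Real.sin w.re ^ 2 + Real.sinh w.im ^ 2 := by
  have h : Complex.sin w = ((Real.sin w.re * Real.cosh w.im : ℝ) : ℂ) +
      ((Real.cos w.re * Real.sinh w.im : ℝ) : ℂ) * I := by
    rw [Complex.sin_eq]; push_cast; ring
  rw [h, Complex.sq_norm, Complex.normSq_add_mul_I]
  have h1 := Real.cosh_sq w.im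
  have h2 := Real.sin_sq_add_cos_sq w.re
  rw [mul_pow, mul_pow, h1]
  linear_combination (Real.sinh w.im ^ 2) * h2

lemma sq_norm_ker {w : ℂ} (hw : w ≠ 0) :
    ‖w‖ ^ 4 * ‖ker ((3 : ℝ) * w)‖ = 256 * ‖Complex.sin (w / 4)‖ ^ 4 := by
  have h3 : (((3 : ℝ) : ℂ) * w) ≠ 0 := mul_ne_zero (by norm_num) hw
  have e : (((3 : ℝ) : ℂ) * w) / 12 = w / 4 := by push_cast; ring
  have hn : ‖w‖ ≠ 0 := norm_ne_zero_iff.2 hw
  rw [ker_of_ne h3, e, norm_pow, norm_div, norm_div]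
  simp only [Complex.norm_ofNat]
  field_simp
  norm_num

lemma sq_sinh_ge {t : ℝ} (ht : 1 / 4 ≤ t) : Real.exp t / 8 ≤ Real.sinh t := by
  rw [Real.sinh_eq]
  have h1 : Real.exp (-t) * Real.exp (2 * t) = Real.exp t := by
    rw [← Real.exp_add]; congr 1; ring
  have h2 : 2 * t + 1 ≤ Real.exp (2 * t) := Real.add_one_le_exp _
  have h3 := Real.exp_pos (-t)
  nlinarith

lemma sq_part1 : ∃ c : ℝ, 0 < c ∧ ∀ s : ℝ, 1 ≤ s →
    c * Real.exp s ≤ s ^ 4 * ‖ker ((3 : ℝ) * (s * I))‖ := by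
  refine ⟨1 / 16, by norm_num, fun s hs => ?_⟩
  have hs0 : 0 < s := by linarith
  have hw : (s : ℂ) * I ≠ 0 := mul_ne_zero (by exact_mod_cast hs0.ne') I_ne_zero
  have h := sq_norm_ker hw
  have hn : ‖(s : ℂ) * I‖ = s := by simp [hs0.le]
  rw [hn] at h
  rw [h]
  have h2 := sq_norm_sin_sq ((s : ℂ) * I / 4)
  have e1 : ((s : ℂ) * I / 4).im = s / 4 := by simp
  rw [e1] at h2
  have h3 := sq_sinh_ge (t := s / 4) (by linarith)
  have h4 : (Real.exp (s / 4) / 8) ^ 2 ≤ ‖Complex.sin ((s : ℂ) * I / 4)‖ ^ 2 := by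
    rw [h2]
    have := pow_le_pow_left₀ (by positivity) h3 2
    nlinarith [sq_nonneg (Real.sin ((s : ℂ) * I / 4).re)]
  have h5 := pow_le_pow_left₀ (by positivity) h4 2
  have e2 : Real.exp (s / 4) ^ 4 = Real.exp s := by
    rw [← Real.exp_nat_mul]; congr 1; push_cast; ring
  have e3 : ((Real.exp (s / 4) / 8) ^ 2) ^ 2 = Real.exp s / 4096 := by
    rw [← e2]; ring
  rw [e3, ← pow_mul] at h5
  norm_num at h5 ⊢
  linarith

lemma sq_sin_ge_one (n : ℕ) {w : ℂ}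
    (hw : max |w.re| |w.im| = 4 * ((n + 1 / 2) * Real.pi)) : 1 ≤ ‖Complex.sin (w / 4)‖ := by
  have h2 := sq_norm_sin_sq (w / 4)
  have e1 : (w / 4).re = w.re / 4 := by simp
  have e2 : (w / 4).im = w.im / 4 := by simp
  rw [e1, e2] at h2
  have hpi := Real.pi_gt_three
  have hn : (0 : ℝ) ≤ n := Nat.cast_nonneg n
  have key : 1 ≤ ‖Complex.sin (w / 4)‖ ^ 2 := by
    rw [h2]
    rcases max_choice |w.re| |w.im| with h | h
    · rw [h] at hw
      have hc : Real.cos (|w.re| / 4) = 0 := by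
        rw [Real.cos_eq_zero_iff]
        exact ⟨n, by rw [hw]; push_cast; ring⟩
      have hc' : Real.cos (w.re / 4) = 0 := by
        rcases abs_choice w.re with h' | h'
        · rwa [h'] at hc
        · rwa [h', neg_div, Real.cos_neg] at hc
      have := Real.sin_sq_add_cos_sq (w.re / 4)
      rw [hc'] at this
      nlinarith [sq_nonneg (Real.sinh (w.im / 4))]
    · rw [h] at hw
      have h1 : 1 ≤ |w.im| / 4 := by rw [hw]; nlinarith
      have h3 : |w.im| / 4 ≤ Real.sinh (|w.im| / 4) := Real.self_le_sinh_iff.2 (by linarith)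
      have h4 : Real.sinh (|w.im| / 4) ^ 2 = Real.sinh (w.im / 4) ^ 2 := by
        rcases abs_choice w.im with h' | h'
        · rw [h']
        · rw [h', neg_div, Real.sinh_neg, neg_sq]
      nlinarith [sq_nonneg (Real.sin (w.re / 4))]
  nlinarith [norm_nonneg (Complex.sin (w / 4))]

lemma sq_part2 (Q : ℂ → ℂ) (C : ℝ) (hQ : Differentiable ℂ Q) (hC : 0 ≤ C)
    (h : ∀ z, ‖Q z‖ * ‖ker ((3 : ℝ) * z)‖ ≤ C * Real.exp (C * ‖z‖)) :
    ∃ C' : ℝ, ∀ z, ‖Q z‖ ≤ C' * Real.exp (C' * ‖z‖) := by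
  obtain ⟨K, hK0, hK⟩ := sq_le_exp one_pos
  set A := C * K * Real.exp ((2 * C + 2) * 24) with hA
  have hA0 : 0 ≤ A := by positivity
  refine ⟨max A ((2 * C + 2) * 16), fun z => ?_⟩
  have hz0 := norm_nonneg z
  set n := ⌈‖z‖⌉₊ with hn
  have hn1 : ‖z‖ ≤ n := Nat.le_ceil _
  have hn2 : (n : ℝ) < ‖z‖ + 1 := Nat.ceil_lt_add_one hz0
  set R : ℝ := 4 * ((n + 1 / 2) * Real.pi) with hR
  have hpi := Real.pi_gt_three
  have hpi4 := Real.pi_le_four
  have hR1 : ‖z‖ < R := by rw [hR]; nlinarith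
  have hR2 : R ≤ 16 * ‖z‖ + 24 := by rw [hR]; nlinarith
  have hR0 : 0 < R := lt_of_le_of_lt hz0 hR1
  set U : Set ℂ := {w | max |w.re| |w.im| < R} with hU
  have hb : Bornology.IsBounded U := by
    refine (Metric.isBounded_closedBall (x := (0 : ℂ)) (r := 2 * R)).subset fun w hw => ?_
    have h1 : |w.re| < R := lt_of_le_of_lt (le_max_left _ _) hw
    have h2 : |w.im| < R := lt_of_le_of_lt (le_max_right _ _) hw
    have := Complex.norm_le_abs_re_add_abs_im w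
    simp only [Metric.mem_closedBall, dist_zero_right]
    linarith
  have hzU : z ∈ closure U := subset_closure (max_lt
    ((Complex.abs_re_le_norm z).trans_lt hR1) ((Complex.abs_im_le_norm z).trans_lt hR1))
  have hfr : ∀ w ∈ frontier U, ‖Q w‖ ≤ C * K * Real.exp ((2 * C + 2) * R) := by
    intro w hw
    have hw' : max |w.re| |w.im| = R :=
      frontier_lt_subset_eq (f := fun w : ℂ => max |w.re| |w.im|) (g := fun _ => R)
        (by fun_prop) continuous_const hw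
    have h1 : |w.re| ≤ R := hw' ▸ le_max_left _ _
    have h2 : |w.im| ≤ R := hw' ▸ le_max_right _ _
    have hwn : ‖w‖ ≤ 2 * R := by linarith [Complex.norm_le_abs_re_add_abs_im w]
    have hw0 : w ≠ 0 := by
      rintro rfl
      simp at hw'
      linarith
    have h3 := sq_sin_ge_one n hw'
    have h4 := sq_norm_ker hw0
    have h5 : 1 ≤ ‖w‖ ^ 4 * ‖ker ((3 : ℝ) * w)‖ := by
      rw [h4]
      have := one_le_pow₀ (n := 4) h3
      linarith
    have h6 : ‖w‖ ^ 4 ≤ K * Real.exp (2 * R) := by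
      have e1 := hK (2 * R) (by linarith)
      rw [one_mul] at e1
      exact (pow_le_pow_left₀ (norm_nonneg _) (by linarith) 4).trans e1
    have h7 : Real.exp (C * ‖w‖) ≤ Real.exp (2 * C * R) :=
      Real.exp_le_exp.2 (by nlinarith)
    calc ‖Q w‖ ≤ ‖Q w‖ * (‖w‖ ^ 4 * ‖ker ((3 : ℝ) * w)‖) :=
          le_mul_of_one_le_right (norm_nonneg _) h5
      _ = ‖w‖ ^ 4 * (‖Q w‖ * ‖ker ((3 : ℝ) * w)‖) := by ring
      _ ≤ (K * Real.exp (2 * R)) * (C * Real.exp (2 * C * R)) :=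
          mul_le_mul h6 ((h w).trans (mul_le_mul_of_nonneg_left h7 hC)) (by positivity)
            (by positivity)
      _ = C * K * Real.exp ((2 * C + 2) * R) := by
          rw [show (2 * C + 2) * R = 2 * R + 2 * C * R by ring, Real.exp_add]; ring
  have hmax := Complex.norm_le_of_forall_mem_frontier_norm_le hb hQ.diffContOnCl hfr hzU
  refine hmax.trans ?_
  calc C * K * Real.exp ((2 * C + 2) * R)
      ≤ C * K * Real.exp ((2 * C + 2) * 24 + (2 * C + 2) * 16 * ‖z‖) := by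
        refine mul_le_mul_of_nonneg_left (Real.exp_le_exp.2 ?_) (by positivity)
        nlinarith
    _ = A * Real.exp ((2 * C + 2) * 16 * ‖z‖) := by rw [hA, Real.exp_add]; ring
    _ ≤ _ := by
        refine mul_le_mul (le_max_left _ _) (Real.exp_le_exp.2 ?_) (Real.exp_pos _).le
          (hA0.trans (le_max_left _ _))
        exact mul_le_mul_of_nonneg_right (le_max_right _ _) hz0

/-- Lower bounds for `ker (3 z) = (sin (z/4) / (z/4))^4` on squares and on the imaginary axis; exponential type of a quotient. -/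
theorem sq_stmt :
    (∃ c : ℝ, 0 < c ∧ ∀ s : ℝ, 1 ≤ s → c * Real.exp s ≤ s ^ 4 * ‖ker ((3 : ℝ) * (s * I))‖) ∧
    ∀ (Q : ℂ → ℂ) (C : ℝ), Differentiable ℂ Q → 0 ≤ C →
      (∀ z, ‖Q z‖ * ‖ker ((3 : ℝ) * z)‖ ≤ C * Real.exp (C * ‖z‖)) →
      ∃ C' : ℝ, ∀ z, ‖Q z‖ ≤ C' * Real.exp (C' * ‖z‖) :=
  ⟨sq_part1, sq_part2⟩

end Pool.Agent.P.MP_7e6317_an
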