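import Pool.Agent.P.MP_7e6317_an.D.Cls

namespace Pool.Agent.P.MP_7e6317_an

open Filter Topology Set MeasureTheory Complex

lemma zf_const {Q : ℂ → ℂ} {C : ℝ} (hd : Differentiable ℂ Q) (h0 : ∀ z, Q z ≠ 0)
    (he : ∀ z, Q (-z) = Q z) (hC : ∀ z, ‖Q z‖ ≤ C * Real.exp (C * ‖z‖)) (z : ℂ) : Q z = Q 0 := by
  have hq : Differentiable ℂ fun z => deriv Q z / Q z := hd.deriv.div hd h0
  obtain ⟨g, g0, hg⟩ := hq.isExactOn_univ.with_val_at 0 0
  replace hg := fun z => hg z (mem_univ z)
  have gd : Differentiable ℂ g := fun z => (hg z).differentiableAt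
  have e1 : ∀ z, Q z * exp (-g z) = Q 0 := fun z => by
    have h1 : ∀ w, HasDerivAt (fun z => Q z * exp (-g z)) 0 w := fun w => by
      refine ((hd w).hasDerivAt.mul (hg w).neg.cexp).congr_deriv ?_
      have := h0 w
      simp only [Pi.neg_apply]
      field_simp
      ring
    have := is_const_of_deriv_eq_zero (fun w => (h1 w).differentiableAt)
      (fun w => (h1 w).deriv) z 0
    simpa [g0] using this
  have hQ0 : 0 < ‖Q 0‖ := norm_pos_iff.2 (h0 0)
  have hC0 : 0 < C := by simpa using hQ0.trans_le (hC 0)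
  obtain ⟨A, hA0, hA⟩ : ∃ A : ℝ, 0 < A ∧ ∀ z, (g z).re ≤ A + C * ‖z‖ := by
    refine ⟨C / ‖Q 0‖, div_pos hC0 hQ0, fun z => Real.exp_le_exp.1 ?_⟩
    have h1 := congrArg norm (e1 z)
    rw [norm_mul, norm_exp, neg_re, Real.exp_neg, mul_inv_eq_iff_eq_mul₀ (Real.exp_ne_zero _)]
      at h1
    have h2 : Real.exp (g z).re ≤ C / ‖Q 0‖ * Real.exp (C * ‖z‖) := by
      rw [div_mul_eq_mul_div, le_div_iff₀' hQ0, ← h1]
      exact hC z
    rw [Real.exp_add]
    exact h2.trans (mul_le_mul_of_nonneg_right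
      (by linarith [Real.add_one_le_exp (C / ‖Q 0‖)]) (Real.exp_pos _).le)
  have e2 : ∀ z, ‖g z‖ ≤ 2 * (A + C * (2 * ‖z‖ + 1)) := fun z => by
    have hz := norm_nonneg z
    refine (borelCaratheodory_zero (M := A + C * (2 * ‖z‖ + 1)) (R := 2 * ‖z‖ + 1)
      (by positivity) gd.differentiableOn (fun w hw => (hA w).trans ?_) (by positivity)
      (mem_ball_zero_iff.2 (by linarith)) g0).trans ?_
    · have := mem_ball_zero_iff.1 hw
      gcongr
    · rw [div_le_iff₀ (by linarith)]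
      exact mul_le_mul_of_nonneg_left (by linarith) (by positivity)
  have e3 : ∀ c, ‖deriv Q c / Q c‖ ≤ 2 * A + 8 * C := fun c => by
    have hc := norm_nonneg c
    rw [← (hg c).deriv]
    refine (norm_deriv_le_of_forall_mem_sphere_norm_le (R := ‖c‖ + 1)
      (C := 2 * (A + C * (2 * (2 * ‖c‖ + 1) + 1))) (by positivity) gd.diffContOnCl
      fun w hw => (e2 w).trans ?_).trans ?_
    · have h1 := norm_le_of_mem_closedBall (Metric.sphere_subset_closedBall hw)
      gcongr
      linarith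
    · rw [div_le_iff₀ (by positivity)]
      nlinarith [mul_nonneg hA0.le hc, mul_nonneg hC0.le hc]
  have e4 : deriv Q 0 = 0 := by
    have h1 := deriv_comp_neg Q 0
    rw [funext he, neg_zero] at h1
    exact self_eq_neg.1 h1
  refine is_const_of_deriv_eq_zero hd (fun w => ?_) z 0
  have h1 := hq.apply_eq_apply_of_bounded (isBounded_iff_forall_norm_le.2
    ⟨_, forall_mem_range.2 e3⟩) w 0
  rw [e4, zero_div] at h1
  exact (div_eq_zero_iff.1 h1).resolve_right (h0 w)

lemma zf_euler (x : ℝ) : Tendsto (fun n : ℕ => Real.pi * x *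
    ∏ j ∈ Finset.range n, (1 + x ^ 2 / ((j : ℝ) + 1) ^ 2)) atTop (𝓝 (Real.sinh (Real.pi * x))) := by
  have h := (continuous_im.tendsto _).comp (Complex.tendsto_euler_sin_prod (x * I))
  rw [← mul_assoc, sin_mul_I, ← ofReal_mul, ← ofReal_sinh, mul_I_im, ofReal_re] at h
  refine h.congr fun n => ?_
  rw [← ofReal_re (Real.pi * x * _), ← mul_I_im]
  refine congrArg im ?_
  push_cast
  simp only [mul_pow, I_sq, mul_neg_one, neg_div, sub_neg_eq_add]
  ring

/-- A zero free even entire function of exponential type is constant (Borel-Caratheodory), and a bound for products with separated nodes. -/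
theorem zf_stmt :
    (∀ (Q : ℂ → ℂ) (C : ℝ), Differentiable ℂ Q → (∀ z, Q z ≠ 0) → (∀ z, Q (-z) = Q z) →
      (∀ z, ‖Q z‖ ≤ C * Real.exp (C * ‖z‖)) → ∀ z, Q z = Q 0) ∧
    ∀ (y : ℕ → ℝ) (g : ℝ), 0 < g → (∀ k : ℕ, g * (k + 1) ≤ y k) →
      (Summable fun k => 1 / y k ^ 2) ∧
        ∃ C : ℝ, 0 ≤ C ∧ ∀ r : ℝ, 0 ≤ r → iprod y r ≤ Real.exp (C * r) := by
  refine ⟨fun Q C => zf_const, fun y g hg hy => ?_⟩
  have hle : ∀ (r : ℝ) (k : ℕ), r ^ 2 / y k ^ 2 ≤ (r / g) ^ 2 / ((k : ℝ) + 1) ^ 2 := fun r k => by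
    rw [div_pow, div_div, ← mul_pow]
    exact div_le_div_of_nonneg_left (sq_nonneg r) (by positivity)
      (pow_le_pow_left₀ (by positivity) (hy k) 2)
  have hs : ∀ r : ℝ, Summable fun k => r ^ 2 / y k ^ 2 := fun r => by
    refine Summable.of_nonneg_of_le (fun k => by positivity) (hle r) ?_
    have := ((summable_nat_add_iff 1).2 (Real.summable_one_div_nat_pow.2 one_lt_two)).mul_left
      ((r / g) ^ 2)
    simpa [div_eq_mul_inv] using this
  refine ⟨by simpa using hs 1, Real.pi / g, by positivity, fun r hr => ?_⟩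
  rcases hr.eq_or_lt with rfl | hr
  · simp [iprod]
  have ht : 0 < Real.pi * (r / g) := by positivity
  have h1 := (Real.multipliable_one_add_of_summable (hs r)).hasProd.tendsto_prod_nat.const_mul
    (Real.pi * (r / g))
  have h2 := le_of_tendsto_of_tendsto' h1 (zf_euler (r / g)) fun n =>
    mul_le_mul_of_nonneg_left (Finset.prod_le_prod (fun k _ => by positivity)
      fun k _ => add_le_add_right (hle r k) 1) ht.le
  rw [show Real.pi / g * r = Real.pi * (r / g) by ring]
  refine le_of_mul_le_mul_left (h2.trans ?_) ht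
  generalize Real.pi * (r / g) = t
  have h3 := mul_le_mul_of_nonneg_left (Real.add_one_le_exp (-t + -t)) (Real.exp_pos t).le
  rw [← Real.exp_add, add_neg_cancel_left] at h3
  rw [Real.sinh_eq]
  linarith

end Pool.Agent.P.MP_7e6317_an
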