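import Pool.Agent.P.MP_7e6317_an.D.ProdB
import Pool.Agent.P.MP_7e6317_an.D.Quo
import Pool.Agent.P.MP_7e6317_an.D.ZF
import Pool.Agent.P.MP_7e6317_an.D.Sq
import Pool.Agent.P.MP_7e6317_an.D.DB1

namespace Pool.Agent.P.MP_7e6317_an

open Filter Topology Set MeasureTheory Complex

lemma ident_dense (y : ℕ → ℝ) : Dense {z : ℂ | ∀ k, z ^ 2 ≠ (y k : ℂ) ^ 2} := by
  have hc : (range (fun k => (y k : ℂ)) ∪ range (fun k => -(y k : ℂ))).Countable :=
    (countable_range _).union (countable_range _)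
  refine Dense.mono (fun z hz k hk => ?_) (hc.dense_compl ℂ)
  apply hz
  rcases sq_eq_sq_iff_eq_or_eq_neg.1 hk with h | h
  · exact Or.inl ⟨k, h.symm⟩
  · exact Or.inr ⟨k, h.symm⟩

lemma ident_der {y : ℕ → ℝ} (hN : Nodes y) {k : ℕ} {z : ℂ} (hz : z ^ 2 = (y k : ℂ) ^ 2) :
    deriv (cprod y) z = -(2 * z / (y k : ℂ) ^ 2) * cprodk y k z := by
  obtain ⟨-, -, hdk, hfac, -⟩ := prodA_stmt hN
  have hy : (y k : ℂ) ≠ 0 := ofReal_ne_zero.2 (hN.pos k).ne'
  have h1 : HasDerivAt (fun z : ℂ => 1 - z ^ 2 / (y k : ℂ) ^ 2) (-(2 * z / (y k : ℂ) ^ 2)) z := by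
    simpa using ((hasDerivAt_pow 2 z).div_const ((y k : ℂ) ^ 2)).const_sub 1
  have h2 := (h1.mul (hdk k z).hasDerivAt).deriv
  rw [show cprod y = (fun z : ℂ => 1 - z ^ 2 / (y k : ℂ) ^ 2) * cprodk y k from funext (hfac k),
    h2, hz, div_self (pow_ne_zero 2 hy), sub_self, zero_mul, add_zero]

lemma ident_rpow {y0 σ : ℝ} (h0 : 0 < y0) :
    ∃ C : ℝ, ∀ t, y0 ≤ t → t ^ σ ≤ C * (1 + t) ^ σ := by
  rcases le_total 0 σ with hσ | hσ
  · exact ⟨1, fun t ht => by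
      rw [one_mul]; exact Real.rpow_le_rpow (h0.le.trans ht) (by linarith) hσ⟩
  · refine ⟨(y0 / (1 + y0)) ^ σ, fun t ht => ?_⟩
    have ht0 : 0 < t := h0.trans_le ht
    rw [← Real.mul_rpow (by positivity) (by positivity)]
    refine Real.rpow_le_rpow_of_nonpos (by positivity) ?_ hσ
    rw [div_mul_eq_mul_div, div_le_iff₀ (by positivity)]
    nlinarith

/-- Identification of the de Branges function with the canonical product (paper, 6). -/
theorem ident_stmt {σ : ℝ} (hσ : -4 ≤ σ) {y ν : ℕ → ℝ} (h : Ann σ y ν) {B : ℂ → ℂ}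
    (hB : DeB σ y ν B) {g : ℝ} (hg : 0 < g) (hsep : ∀ k : ℕ, g * (k + 1) ≤ y k) :
    Adm (σ + 2) y ∧ ∃ β : ℝ, β ≠ 0 ∧ ∀ k, ν k = β * ((-1) ^ k * wt y k * y k ^ 2) := by
  obtain ⟨hsum, C, hC0, hC⟩ := zf_stmt.2 y g hg hsep
  have hN : Nodes y := ⟨h.pos, h.mono, hsum⟩
  obtain ⟨-, hd, -, hfac, hkb, -, hne, -, -, hev, hI, -, hk0⟩ := prodA_stmt hN
  obtain ⟨hwt, hck, -, -, -, hip, -⟩ := prodB_stmt hN
  have hy : ∀ k, (y k : ℂ) ≠ 0 := fun k => ofReal_ne_zero.2 (hN.pos k).ne'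
  have hy0 : ∀ k, y 0 ≤ y k := fun k => h.mono.monotone (Nat.zero_le k)
  have hip0 : ∀ s, 0 < iprod y s := fun s => lt_of_lt_of_le (by positivity) (hip s)
  have hBd : ∀ k, deriv B (y k) ≠ 0 := fun k => by
    rw [hB.der]
    exact ofReal_ne_zero.2 (div_ne_zero (mul_ne_zero two_ne_zero (hN.pos k).ne') (h.ne k))
  obtain ⟨E, hE, hEB, hEd⟩ := quo_stmt hd hB.diff (fun z hz => by
    obtain ⟨k, hk⟩ := (hB.zero z).1 hz
    refine ⟨?_, by rw [hfac k, hk, div_self (pow_ne_zero 2 (hy k)), sub_self, zero_mul]⟩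
    rcases sq_eq_sq_iff_eq_or_eq_neg.1 hk with rfl | rfl
    · exact hBd k
    · have h1 := deriv_comp_neg B (y k : ℂ)
      simp only [hB.even] at h1
      intro h2
      rw [h2, neg_zero] at h1
      exact hBd k h1)
  have hE0 : ∀ z, E z ≠ 0 := fun z hz => by
    by_cases hBz : B z = 0
    · obtain ⟨k, hk⟩ := (hB.zero z).1 hBz
      have h1 := hEd z hBz
      rw [hz, zero_mul, ident_der hN hk] at h1
      have hz0 : z ≠ 0 := fun h0 => pow_ne_zero 2 (hy k) (by rw [← hk, h0]; simp)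
      refine mul_ne_zero (neg_ne_zero.2 (div_ne_zero (mul_ne_zero two_ne_zero hz0)
        (pow_ne_zero 2 (hy k)))) (hne k z fun j hj h2 => hj ?_) h1
      rw [hk] at h2
      have h3 : y k ^ 2 = y j ^ 2 := by exact_mod_cast h2
      exact h.mono.injective ((pow_left_inj₀ (hN.pos j).le (hN.pos k).le two_ne_zero).1 h3.symm)
    · have h1 := hEB z
      have h2 : ∀ k, z ^ 2 ≠ (y k : ℂ) ^ 2 := fun k hk => hBz ((hB.zero z).2 ⟨k, hk⟩)
      rw [hz, zero_mul, hfac 0] at h1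
      refine mul_ne_zero (fun h3 => h2 0 ?_) (hne 0 z fun j _ => h2 j) h1
      rw [sub_eq_zero, eq_div_iff (pow_ne_zero 2 (hy 0)), one_mul] at h3
      exact h3.symm
  have hEe : ∀ z, E (-z) = E z := fun z => by
    refine (ident_dense y).induction (P := fun z => E (-z) = E z) (fun z hz => ?_)
      (isClosed_eq (hE.continuous.comp continuous_neg) hE.continuous) z
    have h1 := hEB (-z)
    rw [hev, hEB z, hB.even] at h1
    exact (mul_right_cancel₀ (fun h0 => by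
      obtain ⟨k, hk⟩ := (hB.zero z).1 h0
      exact hz k hk) h1).symm
  have hD : Cls σ fun z => ker ((3 : ℝ) * z) := (cls_ker (by norm_num) le_rfl).mono hσ
  have hS := db1_summ h hD
  obtain ⟨M, hM⟩ : ∃ M, M = ∑' k, ‖(ν k : ℂ) * ker ((3 : ℝ) * (y k : ℂ))‖ := ⟨_, rfl⟩
  have hM0 : 0 ≤ M := hM ▸ tsum_nonneg fun _ => norm_nonneg _
  have hp0 : 0 < y 0 ^ 2 := pow_pos h.pos 2
  have hbd : ∀ z, ‖E z‖ * ‖ker ((3 : ℝ) * z)‖ ≤
      (M / y 0 ^ 2 + C) * Real.exp ((M / y 0 ^ 2 + C) * ‖z‖) := fun z => by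
    refine (ident_dense y).induction (P := fun z => ‖E z‖ * ‖ker ((3 : ℝ) * z)‖ ≤
      (M / y 0 ^ 2 + C) * Real.exp ((M / y 0 ^ 2 + C) * ‖z‖)) (fun z hz => ?_)
      (isClosed_le (hE.continuous.norm.mul hD.diff.continuous.norm) (by fun_prop)) z
    have h1 : ‖E z * ker ((3 : ℝ) * z)‖ ≤ M * (iprod y ‖z‖ / y 0 ^ 2) := by
      rw [hB.rep _ hD z hz, ← mul_assoc, ← hEB, cau, ← tsum_mul_left, hM]
      refine tsum_of_norm_bounded (hS.hasSum.mul_right _) fun k => ?_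
      have h2 : cprod y z * ((ν k : ℂ) * ker ((3 : ℝ) * (y k : ℂ)) / (z ^ 2 - (y k : ℂ) ^ 2)) =
          -((ν k : ℂ) * ker ((3 : ℝ) * (y k : ℂ)) * (cprodk y k z / (y k : ℂ) ^ 2)) := by
        have h3 := sub_ne_zero.2 (hz k)
        have h4 := hy k
        rw [hfac k]
        field_simp
        ring
      rw [h2, norm_neg, norm_mul, norm_div, norm_pow, norm_real, Real.norm_eq_abs, sq_abs]
      exact mul_le_mul_of_nonneg_left (div_le_div₀ (hip0 _).le (hkb k z) hp0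
        (pow_le_pow_left₀ h.pos.le (hy0 k) 2)) (norm_nonneg _)
    have h2 : iprod y ‖z‖ ≤ Real.exp ((M / y 0 ^ 2 + C) * ‖z‖) :=
      (hC _ (norm_nonneg z)).trans (Real.exp_le_exp.2 (mul_le_mul_of_nonneg_right
        (le_add_of_nonneg_left (by positivity)) (norm_nonneg z)))
    rw [← norm_mul]
    refine h1.trans ?_
    rw [mul_div_left_comm, mul_comm]
    exact mul_le_mul (le_add_of_nonneg_right hC0) h2 (hip0 _).le (by positivity)
  obtain ⟨C', hC'⟩ := sq_stmt.2 E _ hE (by positivity) hbd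
  have hEc := zf_stmt.1 E C' hE hE0 hEe hC'
  obtain ⟨b, hb⟩ : ∃ b : ℝ, B 0 = b := ⟨(B 0).re, Complex.ext rfl (by simpa using hB.real 0)⟩
  have hb1 : E 0 * b = 1 := by rw [← hb, ← hEB, hfac 0, hk0]; simp
  have hb0 : (b : ℂ) ≠ 0 := right_ne_zero_of_mul_eq_one hb1
  have hb0' : b ≠ 0 := ofReal_ne_zero.1 hb0
  have hEb : ∀ z, E z = (b : ℂ)⁻¹ := fun z => (hEc z).trans (eq_inv_of_mul_eq_one_left hb1)
  have hν : ∀ k, ν k = -b⁻¹ * ((-1) ^ k * wt y k * y k ^ 2) := fun k => by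
    have h1 := hEd (y k) ((hB.zero _).2 ⟨k, rfl⟩)
    rw [ident_der hN rfl, hck, hEb, hB.der] at h1
    have h2 : -(2 * y k / y k ^ 2) * ((-1) ^ k / wt y k) = b⁻¹ * (2 * y k / ν k) := by
      exact_mod_cast h1
    have h3 := (hN.pos k).ne'
    have h4 := (hwt k).ne'
    have h5 := h.ne k
    rcases neg_one_pow_eq_or ℝ k with h6 | h6 <;> rw [h6] at h2 ⊢ <;> field_simp at h2 ⊢ <;>
      linarith
  refine ⟨⟨h.pos, h.mono, hsum, ?_, fun θ hθ => ?_⟩, -b⁻¹, neg_ne_zero.2 (inv_ne_zero hb0'), hν⟩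
  · obtain ⟨K, hK⟩ := ident_rpow (σ := σ) h.pos
    refine Summable.of_nonneg_of_le (fun k => mul_nonneg (hwt k).le (Real.rpow_nonneg (hN.pos k).le _))
      (fun k => ?_) (h.sum.abs.mul_left (|b| * K))
    have h1 : |b| * |ν k| = wt y k * y k ^ 2 := by
      rw [← abs_mul, hν k, ← mul_assoc, mul_neg, mul_inv_cancel₀ hb0', abs_mul, abs_mul, abs_mul,
        abs_pow, abs_neg, abs_one, one_pow, one_mul, one_mul, abs_of_pos (hwt k),
        abs_of_nonneg (sq_nonneg _)]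
    have h2 : 0 < 1 + y k := by linarith [hN.pos k]
    rw [Real.rpow_add (hN.pos k), Real.rpow_two, abs_mul,
      abs_of_nonneg (Real.rpow_nonneg h2.le _),
      show |b| * K * (|ν k| * (1 + y k) ^ σ) = |b| * |ν k| * (K * (1 + y k) ^ σ) by ring, h1,
      mul_comm (y k ^ σ), ← mul_assoc]
    exact mul_le_mul_of_nonneg_left (hK _ (hy0 k)) (mul_nonneg (hwt k).le (sq_nonneg _))
  · obtain ⟨c, hc, hcs⟩ := sq_stmt.1
    have ht := (tendsto_rpow_mul_exp_neg_mul_atTop_nhds_zero 4 (1 - θ) (by linarith)).const_mul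
      (|b| * (M / y 0 ^ 2) / c)
    rw [mul_zero] at ht
    refine squeeze_zero' (Eventually.of_forall fun s => div_nonneg (Real.exp_pos _).le (hip0 s).le)
      ?_ ht
    filter_upwards [eventually_ge_atTop 1] with s hs
    have hsq : ∀ k, ((s : ℂ) * I) ^ 2 - (y k : ℂ) ^ 2 = ((-(s ^ 2 + y k ^ 2) : ℝ) : ℂ) := fun k => by
      rw [mul_pow, I_sq]; push_cast; ring
    have hge : ∀ k, y 0 ^ 2 ≤ ‖((s : ℂ) * I) ^ 2 - (y k : ℂ) ^ 2‖ := fun k => by
      rw [hsq, norm_real, Real.norm_eq_abs, abs_neg, abs_of_nonneg (by positivity)]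
      nlinarith [pow_le_pow_left₀ h.pos.le (hy0 k) 2]
    have h1 : ‖cau y ν (fun z => ker ((3 : ℝ) * z)) (s * I)‖ ≤ M / y 0 ^ 2 := by
      rw [cau, hM]
      refine tsum_of_norm_bounded (hS.hasSum.div_const _) fun k => ?_
      rw [norm_div]
      exact div_le_div_of_nonneg_left (norm_nonneg _) hp0 (hge k)
    have h2 : ‖B (s * I)‖ = |b| * iprod y s := by
      have h3 := hEB (s * I)
      rw [hI, hEb, eq_inv_mul_iff_mul_eq₀ hb0] at h3
      rw [← h3, norm_mul, norm_real, norm_real, Real.norm_eq_abs, Real.norm_eq_abs,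
        abs_of_pos (hip0 s)]
    have h3 := hcs s hs
    rw [hB.rep _ hD _ (fun k hk => by
      have := hge k
      rw [hk, sub_self, norm_zero] at this
      linarith), norm_mul, h2] at h3
    have h4 : c * Real.exp s ≤ s ^ 4 * (|b| * iprod y s * (M / y 0 ^ 2)) :=
      h3.trans (mul_le_mul_of_nonneg_left (mul_le_mul_of_nonneg_left h1
        (mul_nonneg (abs_nonneg _) (hip0 s).le)) (by positivity))
    have h5 : Real.exp (θ * s) = Real.exp s * Real.exp (-(1 - θ) * s) := by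
      rw [← Real.exp_add]; congr 1; ring
    rw [div_le_iff₀ (hip0 s), h5, show (4 : ℝ) = (4 : ℕ) by norm_num, Real.rpow_natCast]
    have h6 := mul_le_mul_of_nonneg_right h4 (div_nonneg (Real.exp_pos (-(1 - θ) * s)).le hc.le)
    refine le_of_eq_of_le ?_ (h6.trans_eq ?_)
    · field_simp
    · field_simp

end Pool.Agent.P.MP_7e6317_an
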