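import Pool.Agent.P.MP_7e6317_an.D.Cls

namespace Pool.Agent.P.MP_7e6317_an

open Filter Topology Set MeasureTheory Complex

lemma imp_dini {K : Set ℝ} (hK : IsCompact K) {T : Set ℝ} (hT : T.Nonempty) (g : ℝ → ℝ → ℝ)
    (hg : ∀ t ∈ T, ContinuousOn (g t) K)
    (dir : ∀ s ∈ T, ∀ t ∈ T, ∃ r ∈ T, ∀ u ∈ K, (0 < g s u ∨ 0 < g t u) → 0 < g r u)
    (cov : ∀ u ∈ K, ∃ t ∈ T, 0 < g t u) : ∃ t ∈ T, ∀ u ∈ K, 0 < g t u := by
  have key : ∃ t ∈ T, ∀ u ∈ K, u ∈ K → 0 < g t u := by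
    refine hK.induction_on (p := fun s => ∃ t ∈ T, ∀ u ∈ s, u ∈ K → 0 < g t u) ?_ ?_ ?_ ?_
    · obtain ⟨t, ht⟩ := hT
      exact ⟨t, ht, fun u hu => absurd hu (notMem_empty u)⟩
    · rintro s t hst ⟨r, hr, h⟩
      exact ⟨r, hr, fun u hu => h u (hst hu)⟩
    · rintro s t ⟨r, hr, h⟩ ⟨r', hr', h'⟩
      obtain ⟨q, hq, hd⟩ := dir r hr r' hr'
      exact ⟨q, hq, fun u hu hk => hd u hk (hu.imp (fun a => h u a hk) fun a => h' u a hk)⟩
    · intro x hx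
      obtain ⟨t, ht, h⟩ := cov x hx
      exact ⟨{u | 0 < g t u}, (hg t ht x hx).eventually (lt_mem_nhds h), t, ht, fun u hu _ => hu⟩
  obtain ⟨t, ht, h⟩ := key
  exact ⟨t, ht, fun u hu => h u hu hu⟩

lemma imp_side {L : ℝ → ℝ → ℝ} {f k w : ℝ → ℝ} {c : ℝ} (hc : 0 < c)
    (cu : ∀ a, 0 < a → ContinuousOn (L a) (Ioi 0))
    (ca : ∀ u, 0 < u → ContinuousOn (fun a => L a u) (Ioi 0))
    (mono : ∀ u, 0 < u → AntitoneOn (fun a => L a u) (Ioi 0))
    (hf : Continuous f) (hk : Continuous k) (hw : ∀ u, 0 < u → 0 < w u)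
    (near : ∀ᶠ u in 𝓝[>] (0 : ℝ), L (c / 2) u ≤ f u ∧ L (c / 2) u ≤ k u)
    (far : ∃ η, 0 < η ∧ ∀ᶠ u in atTop, η * w u ≤ k u - L c u)
    (equi : ∀ ε, 0 < ε → ∃ a U : ℝ, 0 < a ∧ a < c ∧ ∀ u, U ≤ u → L a u - L c u ≤ ε * w u)
    (feas : ∀ u, 0 < u → L c u ≤ f u) (touch : ∀ u, 0 < u → f u = L c u → f u < k u) :
    ∃ θ₀, 0 < θ₀ ∧ ∀ θ, 0 < θ → θ ≤ θ₀ → θ ≤ 1 →
      ∃ a, 0 < a ∧ a < c ∧ ∀ u, 0 < u → L a u ≤ (1 - θ) * f u + θ * k u := by
  obtain ⟨δ, hδ, hnear⟩ := (nhdsGT_basis (0 : ℝ)).eventually_iff.1 near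
  obtain ⟨η, hη, hfar⟩ := far
  obtain ⟨U, hU⟩ := eventually_atTop.1 hfar
  have hsub : ∀ V : ℝ, Icc (δ / 2) V ⊆ Ioi 0 := fun V u hu =>
    lt_of_lt_of_le (half_pos hδ) hu.1
  have hconv : ∀ u, 0 < u → ∀ s t : ℝ, 0 < s → s ≤ t → 0 < f u - L c u + t * (k u - f u) →
      0 < f u - L c u + s * (k u - f u) := by
    intro u hu s t hs hst h
    have h0 := feas u hu
    rcases lt_trichotomy (k u) (f u) with h1 | h1 | h1
    · nlinarith
    · rw [h1] at h ⊢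
      linarith
    · nlinarith
  obtain ⟨θ₀, hθ₀, h0⟩ := imp_dini (isCompact_Icc (a := δ / 2) (b := U)) (T := Ioi 0)
    ⟨1, mem_Ioi.2 one_pos⟩ (fun t u => f u - L c u + t * (k u - f u))
    (fun t _ => (hf.continuousOn.sub ((cu c hc).mono (hsub U))).add
      (continuousOn_const.mul (hk.sub hf).continuousOn))
    (fun s hs t ht => ⟨min s t, mem_Ioi.2 (lt_min (mem_Ioi.1 hs) (mem_Ioi.1 ht)),
      fun u hu h => h.elim
      (hconv u (hsub U hu) _ _ (lt_min (mem_Ioi.1 hs) (mem_Ioi.1 ht)) (min_le_left _ _))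
      (hconv u (hsub U hu) _ _ (lt_min (mem_Ioi.1 hs) (mem_Ioi.1 ht)) (min_le_right _ _))⟩)
    (fun u hu => by
      rcases (feas u (hsub U hu)).eq_or_lt with h | h
      · have := touch u (hsub U hu) h.symm
        exact ⟨1, mem_Ioi.2 one_pos, by linarith⟩
      · have h1 : Tendsto (fun t : ℝ => f u - L c u + t * (k u - f u)) (𝓝 0)
            (𝓝 (f u - L c u + 0 * (k u - f u))) :=
          (continuous_const.add (continuous_id.mul continuous_const)).tendsto 0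
        have h2 : ∀ᶠ t in 𝓝[>] (0 : ℝ), 0 < f u - L c u + t * (k u - f u) :=
          (h1.eventually (lt_mem_nhds (by linarith))).filter_mono nhdsWithin_le_nhds
        obtain ⟨t, h3, h4⟩ := (h2.and self_mem_nhdsWithin).exists
        exact ⟨t, h4, h3⟩)
  refine ⟨θ₀, hθ₀, fun θ hθ hθ0 hθ1 => ?_⟩
  obtain ⟨a₁, U₁, ha₁, ha₁c, h1⟩ := equi (θ * η) (mul_pos hθ hη)
  have hbig : ∀ u, 0 < u → U ≤ u → L c u + θ * η * w u ≤ (1 - θ) * f u + θ * k u := by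
    intro u hu hUu
    have e1 := mul_le_mul_of_nonneg_left (hU u hUu) hθ.le
    have e2 := mul_le_mul_of_nonneg_left (feas u hu) (sub_nonneg.2 hθ1)
    nlinarith
  obtain ⟨a₂, ha₂, h2⟩ := imp_dini (isCompact_Icc (a := δ / 2) (b := max U U₁)) (T := Ioo 0 c)
    ⟨a₁, ha₁, ha₁c⟩ (fun a u => (1 - θ) * f u + θ * k u - L a u)
    (fun a ha => ((continuous_const.mul hf).add (continuous_const.mul hk)).continuousOn.sub
      ((cu a ha.1).mono (hsub _)))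
    (fun s hs t ht => ⟨max s t, ⟨lt_max_of_lt_left hs.1, max_lt hs.2 ht.2⟩, fun u hu h => by
      have e1 := mono u (hsub _ hu) hs.1 (lt_max_of_lt_left hs.1) (le_max_left s t)
      have e2 := mono u (hsub _ hu) ht.1 (lt_max_of_lt_left hs.1) (le_max_right s t)
      rcases h with h | h
      · exact lt_of_lt_of_le h (sub_le_sub_left e1 _)
      · exact lt_of_lt_of_le h (sub_le_sub_left e2 _)⟩)
    (fun u hu => by
      have hu0 : 0 < u := hsub _ hu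
      have hs : 0 < (1 - θ) * f u + θ * k u - L c u := by
        rcases le_total u U with h | h
        · have := hconv u hu0 θ θ₀ hθ hθ0 (h0 u ⟨hu.1, h⟩)
          linarith
        · have := hbig u hu0 h
          have := mul_pos (mul_pos hθ hη) (hw u hu0)
          linarith
      have h3 : ContinuousAt (fun a => (1 - θ) * f u + θ * k u - L a u) c :=
        continuousAt_const.sub ((ca u hu0).continuousAt (Ioi_mem_nhds hc))
      have h4 : ∀ᶠ a in 𝓝[<] c, 0 < (1 - θ) * f u + θ * k u - L a u :=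
        (h3.eventually (lt_mem_nhds hs)).filter_mono nhdsWithin_le_nhds
      obtain ⟨a, h5, h6⟩ := (h4.and (Ioo_mem_nhdsLT hc)).exists
      exact ⟨a, h6, h5⟩)
  have hp : 0 < max (c / 2) (max a₁ a₂) := lt_max_of_lt_left (half_pos hc)
  refine ⟨max (c / 2) (max a₁ a₂), hp, max_lt (half_lt_self hc) (max_lt ha₁c ha₂.2),
    fun u hu => ?_⟩
  rcases lt_or_ge u δ with h | h
  · have e1 := mono u hu (half_pos hc) hp (le_max_left _ _)
    obtain ⟨e2, e3⟩ := hnear ⟨hu, h⟩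
    have e4 := mul_le_mul_of_nonneg_left e2 (sub_nonneg.2 hθ1)
    have e5 := mul_le_mul_of_nonneg_left e3 hθ.le
    refine le_trans e1 ?_
    show L (c / 2) u ≤ _
    linarith
  · rcases le_total u (max U U₁) with h' | h'
    · have e1 := mono u hu ha₂.1 hp ((le_max_right _ _).trans (le_max_right _ _))
      have e2 := h2 u ⟨by linarith, h'⟩
      refine le_trans e1 ?_
      show L a₂ u ≤ _
      linarith
    · have e1 := mono u hu ha₁ hp ((le_max_left _ _).trans (le_max_right _ _))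
      have e2 := h1 u ((le_max_right _ _).trans h')
      have e3 := hbig u hu ((le_max_left _ _).trans h')
      refine le_trans e1 ?_
      show L a₁ u ≤ _
      linarith

lemma imp_near {G : ℂ → ℂ} (hd : Differentiable ℂ G) (he : ∀ z, G (-z) = G z) (h0 : G 0 = 0)
    {l : ℝ → ℝ} (hl : Tendsto (fun u => l u / u ^ 2) (𝓝[>] 0) atBot) :
    ∀ᶠ u in 𝓝[>] (0 : ℝ), l u ≤ -|(G u).re| := by
  obtain ⟨M, -, hM⟩ := exists_sq_bound hd he h0 1
  filter_upwards [hl.eventually (eventually_le_atBot (-M)), Ioc_mem_nhdsGT one_pos] with u h1 h2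
  rw [div_le_iff₀ (pow_pos h2.1 2)] at h1
  have e1 := hM u (by rw [abs_of_pos h2.1]; exact h2.2)
  have e2 := abs_re_le_norm (G u)
  linarith

lemma imp_far {m τ : ℝ} (t0 : -2 < τ) (t1 : τ ≤ 1) {F₁ : ℂ → ℂ} (h1 : IsBase m F₁) {D : ℂ → ℂ}
    (hD : Cls (τ - 4) D) {ε : ℝ} (hε : 0 < ε) :
    ∀ᶠ u : ℝ in atTop, |(F₁ u).re + u ^ 2 * (D u).re - u ^ m| ≤ ε * u ^ τ := by
  obtain ⟨C, hC0, hC⟩ := hD.bd'
  have l1 : Tendsto (fun u : ℝ => 12 ^ 4 * u ^ (-(τ + 2)) + C * u ^ (-(2 : ℝ))) atTop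
      (𝓝 (12 ^ 4 * 0 + C * 0)) :=
    ((tendsto_rpow_neg_atTop (by linarith)).const_mul _).add
      ((tendsto_rpow_neg_atTop two_pos).const_mul _)
  rw [mul_zero, mul_zero, add_zero] at l1
  filter_upwards [l1.eventually (ge_mem_nhds hε), eventually_ge_atTop 1] with u h2 h3
  have hu : 0 < u := by linarith
  have e1 := h1.2.2.2 u h3
  have e2 : |(D u).re| ≤ C * u ^ (τ - 4) := by
    refine (abs_re_le_norm _).trans ((hC u).trans (mul_le_mul_of_nonneg_left ?_ hC0))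
    rw [abs_of_pos hu]
    exact Real.rpow_le_rpow_of_nonpos hu (by linarith) (by linarith)
  have e3 : u ^ (-(τ + 2)) * u ^ τ = 1 / u ^ 2 := by
    rw [← Real.rpow_add hu, show -(τ + 2) + τ = -2 by ring, Real.rpow_neg hu.le, Real.rpow_two,
      one_div]
  have e4 : u ^ (-(2 : ℝ)) * u ^ τ = u ^ 2 * u ^ (τ - 4) := by
    rw [← Real.rpow_two, ← Real.rpow_add hu, ← Real.rpow_add hu]
    congr 1
    ring
  have e5 := mul_le_mul_of_nonneg_right h2 (Real.rpow_pos_of_pos hu τ).le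
  rw [add_mul, mul_assoc, mul_assoc, e3, e4] at e5
  have e6 : |u ^ 2 * (D u).re| ≤ C * (u ^ 2 * u ^ (τ - 4)) := by
    rw [abs_mul, abs_of_pos (pow_pos hu 2)]
    calc u ^ 2 * |(D u).re| ≤ u ^ 2 * (C * u ^ (τ - 4)) :=
          mul_le_mul_of_nonneg_left e2 (pow_pos hu 2).le
      _ = _ := by ring
  rw [mul_one_div] at e5
  have e7 : (F₁ u).re + u ^ 2 * (D u).re - u ^ m = u ^ 2 * (D u).re - (u ^ m - (F₁ u).re) := by
    ring
  rw [e7]
  exact (abs_sub _ _).trans (by linarith)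

/-- A minimiser cannot be improved at all touch points (paper, 5 IMPROVE). -/
theorem improve_stmt {m τ : ℝ} {L R : ℝ → ℝ → ℝ} (h : Cor m τ L R) {F₁ : ℂ → ℂ}
    (h1 : IsBase m F₁) {c : ℝ} (hc : 0 < c) {F : ℂ → ℂ} (hF : Feas L R c F)
    (hmin : ∀ a G, 0 < a → Feas L R a G → c ≤ a) {D : ℂ → ℂ} (hD : Cls (τ - 4) D)
    (hr : ∀ x : ℝ, (D x).im = 0) :
    ∃ u : ℝ, 0 < u ∧ (((F u).re = L c u ∧ (F₁ u).re + u ^ 2 * (D u).re ≤ (F u).re) ∨
      ((F u).re = R c u ∧ (F u).re ≤ (F₁ u).re + u ^ 2 * (D u).re)) := by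
  by_contra hcon
  have hL : ∀ u : ℝ, 0 < u → (F u).re = L c u → (F u).re < (F₁ u).re + u ^ 2 * (D u).re :=
    fun u hu e => lt_of_not_ge fun e' => hcon ⟨u, hu, Or.inl ⟨e, e'⟩⟩
  have hR : ∀ u : ℝ, 0 < u → (F u).re = R c u → (F₁ u).re + u ^ 2 * (D u).re < (F u).re :=
    fun u hu e => lt_of_not_ge fun e' => hcon ⟨u, hu, Or.inr ⟨e, e'⟩⟩
  obtain ⟨K, hK⟩ : ∃ K : ℂ → ℂ, K = fun z => F₁ z + z ^ 2 * D z := ⟨_, rfl⟩
  have hS := hD.mul_sq
  have Kd : Differentiable ℂ K := by rw [hK]; exact h1.1.1.add hS.diff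
  have Ke : ∀ z, K (-z) = K z := fun z => by
    rw [hK]
    show F₁ (-z) + (-z) ^ 2 * D (-z) = F₁ z + z ^ 2 * D z
    rw [h1.2.1, hD.even, neg_sq]
  have K0 : K 0 = 0 := by
    rw [hK]
    show F₁ 0 + 0 ^ 2 * D 0 = 0
    rw [h1.2.2.1]
    simp
  have Kre : ∀ u : ℝ, (K u).re = (F₁ u).re + u ^ 2 * (D u).re := fun u => by
    rw [hK]
    show (F₁ u + (u : ℂ) ^ 2 * D u).re = _
    rw [add_re, ← ofReal_pow, re_ofReal_mul]
  have Kim : ∀ u : ℝ, (K u).im = 0 := fun u => by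
    rw [hK]
    show (F₁ u + (u : ℂ) ^ 2 * D u).im = _
    rw [add_im, ← ofReal_pow, im_ofReal_mul, h1.1.2.1, hr, mul_zero, add_zero]
  have Kx : ∀ η : ℝ, 0 < η → ∃ C : ℝ, ∀ z : ℂ, ‖K z‖ ≤ C * Real.exp ((1 + η) * ‖z‖) := by
    intro η hη
    obtain ⟨C, hC⟩ := h1.1.2.2 η hη
    obtain ⟨C', hC'⟩ := hS.expT η hη
    refine ⟨C + C', fun z => ?_⟩
    rw [hK]
    exact (norm_add_le _ _).trans (by rw [add_mul]; linarith [hC z, hC' z])
  have cF : Continuous fun u : ℝ => (F u).re :=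
    continuous_re.comp (hF.1.1.continuous.comp continuous_ofReal)
  have cK : Continuous fun u : ℝ => (K u).re :=
    continuous_re.comp (Kd.continuous.comp continuous_ofReal)
  have hw : ∀ u : ℝ, 0 < u → 0 < u ^ τ := fun u hu => Real.rpow_pos_of_pos hu τ
  obtain ⟨η, C, U, hη, -, hW⟩ := h.width c hc
  have hfar := imp_far h.t0 h.t1 h1 hD (half_pos hη)
  have zR : Tendsto (fun u => -R (c / 2) u / u ^ 2) (𝓝[>] 0) atBot := by
    simpa only [neg_div, Function.comp_def] using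
      tendsto_neg_atTop_atBot.comp (h.zeroR _ (half_pos hc))
  obtain ⟨θ₁, p1, q1⟩ := imp_side (L := L) (f := fun u => (F u).re) (k := fun u => (K u).re)
    (w := fun u => u ^ τ) hc h.cuL h.caL (fun u hu => (h.monoL u hu).antitoneOn) cF cK hw
    (by
      filter_upwards [imp_near hF.1.1 hF.2.1 hF.2.2.1 (h.zeroL _ (half_pos hc)),
        imp_near Kd Ke K0 (h.zeroL _ (half_pos hc))] with u e1 e2
      exact ⟨e1.trans (neg_abs_le _), e2.trans (neg_abs_le _)⟩)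
    ⟨η / 2, half_pos hη, by
      filter_upwards [hfar, eventually_ge_atTop U] with u e1 e2
      have e3 := (hW u e2).1
      have e4 := (abs_le.1 e1).1
      rw [Kre]
      linarith⟩
    (fun ε hε => by
      obtain ⟨a, V, e1, e2, e3⟩ := h.equi c hc ε hε
      exact ⟨a, V, e1, e2, fun u hu => (e3 u hu).1⟩)
    (fun u hu => (hF.2.2.2 u hu).1) (fun u hu e => by rw [Kre]; exact hL u hu e)
  obtain ⟨θ₂, p2, q2⟩ := imp_side (L := fun a u => -R a u) (f := fun u => -(F u).re)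
    (k := fun u => -(K u).re) (w := fun u => u ^ τ) hc (fun a ha => (h.cuR a ha).neg)
    (fun u hu => (h.caR u hu).neg) (fun u hu => (h.monoR u hu).monotoneOn.neg) cF.neg cK.neg hw
    (by
      filter_upwards [imp_near hF.1.1 hF.2.1 hF.2.2.1 zR, imp_near Kd Ke K0 zR] with u e1 e2
      exact ⟨e1.trans (neg_le_neg (le_abs_self _)), e2.trans (neg_le_neg (le_abs_self _))⟩)
    ⟨η / 2, half_pos hη, by
      filter_upwards [hfar, eventually_ge_atTop U] with u e1 e2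
      have e3 := (hW u e2).2.2.1
      have e4 := (abs_le.1 e1).2
      rw [Kre]
      linarith⟩
    (fun ε hε => by
      obtain ⟨a, V, e1, e2, e3⟩ := h.equi c hc ε hε
      exact ⟨a, V, e1, e2, fun u hu => by linarith [(e3 u hu).2]⟩)
    (fun u hu => neg_le_neg (hF.2.2.2 u hu).2)
    (fun u hu e => by rw [Kre]; exact neg_lt_neg (hR u hu (neg_injective e)))
  obtain ⟨θ, t0, t1, t2, t3⟩ : ∃ θ : ℝ, 0 < θ ∧ θ ≤ θ₁ ∧ θ ≤ θ₂ ∧ θ ≤ 1 :=
    ⟨min θ₁ (min θ₂ 1), lt_min p1 (lt_min p2 one_pos), min_le_left _ _,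
      (min_le_right _ _).trans (min_le_left _ _), (min_le_right _ _).trans (min_le_right _ _)⟩
  obtain ⟨a₁, a0, ac, ha⟩ := q1 θ t0 t1 t3
  obtain ⟨a₂, b0, bc, hb⟩ := q2 θ t0 t2 t3
  have hp : 0 < max a₁ a₂ := lt_max_of_lt_left a0
  refine absurd (hmin (max a₁ a₂) (fun z => ((1 - θ : ℝ) : ℂ) * F z + (θ : ℂ) * K z) hp
    ⟨⟨(hF.1.1.const_mul _).add (Kd.const_mul _), fun x => ?_, fun ε hε => ?_⟩, fun z => ?_, ?_,
      fun u hu => ?_⟩) (not_le.2 (max_lt ac bc))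
  · rw [add_im, im_ofReal_mul, im_ofReal_mul, hF.1.2.1, Kim, mul_zero, mul_zero, add_zero]
  · obtain ⟨C₁, hC₁⟩ := hF.1.2.2 ε hε
    obtain ⟨C₂, hC₂⟩ := Kx ε hε
    refine ⟨(1 - θ) * C₁ + θ * C₂, fun z => (norm_add_le _ _).trans ?_⟩
    rw [norm_mul, norm_mul, Complex.norm_real, Complex.norm_real, Real.norm_eq_abs,
      Real.norm_eq_abs, abs_of_nonneg (sub_nonneg.2 t3), abs_of_pos t0, add_mul, mul_assoc,
      mul_assoc]
    exact add_le_add (mul_le_mul_of_nonneg_left (hC₁ z) (sub_nonneg.2 t3))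
      (mul_le_mul_of_nonneg_left (hC₂ z) t0.le)
  · show ((1 - θ : ℝ) : ℂ) * F (-z) + (θ : ℂ) * K (-z) = _
    rw [hF.2.1, Ke]
  · show ((1 - θ : ℝ) : ℂ) * F 0 + (θ : ℂ) * K 0 = _
    rw [hF.2.2.1, K0, mul_zero, mul_zero, add_zero]
  · have e1 := (h.monoL u hu).antitoneOn a0 hp (le_max_left a₁ a₂)
    have e2 := (h.monoR u hu).monotoneOn b0 hp (le_max_right a₁ a₂)
    have e3 := ha u hu
    have e4 := hb u hu
    have e5 : (((1 - θ : ℝ) : ℂ) * F u + (θ : ℂ) * K u).re = (1 - θ) * (F u).re + θ * (K u).re := by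
      rw [add_re, re_ofReal_mul, re_ofReal_mul]
    refine ⟨le_trans e1 ?_, le_trans ?_ e2⟩
    · show L a₁ u ≤ (((1 - θ : ℝ) : ℂ) * F u + (θ : ℂ) * K u).re
      rw [e5]
      exact e3
    · show (((1 - θ : ℝ) : ℂ) * F u + (θ : ℂ) * K u).re ≤ R a₂ u
      rw [e5]
      linarith

end Pool.Agent.P.MP_7e6317_an
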