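import Pool.Agent.P.MP_7e6317_an.D.ProdA

namespace Pool.Agent.P.MP_7e6317_an

open Filter Topology Set MeasureTheory Complex

lemma prodB_sum {y : ℕ → ℝ} (h : Nodes y) (c : ℝ) : Summable fun j => c / y j ^ 2 :=
  (h.2.2.mul_left c).congr fun j => by ring

lemma prodB_ofReal {f : ℕ → ℝ} (hf : Multipliable f) :
    ((∏' j, f j : ℝ) : ℂ) = ∏' j, (f j : ℂ) :=
  (hf.hasProd.map Complex.ofRealHom Complex.continuous_ofReal).tprod_eq.symm

lemma prodB_mult {f : ℕ → ℝ} (hf : Summable fun j => f j - 1) : Multipliable f := by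
  have := Real.multipliable_one_add_of_summable hf
  simpa using this

lemma prodB_pos {f : ℕ → ℝ} (hf : Summable fun j => f j - 1) (h0 : ∀ j, 0 < f j) :
    0 < ∏' j, f j := by
  have h1 := Real.summable_log_one_add_of_summable hf
  have h2 : Summable fun j => Real.log (f j) := by simpa using h1
  rw [← Real.rexp_tsum_eq_tprod h0 h2]
  exact Real.exp_pos _

lemma prodB_abs {f : ℕ → ℝ} (hf : Summable fun j => f j - 1) : Summable fun j => |f j| - 1 := by
  refine Summable.of_norm_bounded hf.abs fun j => ?_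
  have := abs_abs_sub_abs_le_abs_sub (f j) 1
  simpa [Real.norm_eq_abs] using this

lemma prodB_sumk {y : ℕ → ℝ} (h : Nodes y) (k : ℕ) (c : ℝ) :
    Summable fun j => (if j = k then (1 : ℝ) else 1 - c / y j ^ 2) - 1 := by
  refine Summable.of_norm_bounded (prodB_sum h c).abs fun j => ?_
  by_cases hj : j = k
  · rw [if_pos hj, sub_self, norm_zero]; exact abs_nonneg _
  · rw [if_neg hj, show (1 : ℝ) - c / y j ^ 2 - 1 = -(c / y j ^ 2) by ring, norm_neg,
      Real.norm_eq_abs]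

lemma prodB_absk (y : ℕ → ℝ) (k : ℕ) (c : ℝ) (j : ℕ) :
    |(if j = k then (1 : ℝ) else 1 - c / y j ^ 2)| =
      if j = k then (1 : ℝ) else |1 - c / y j ^ 2| := by
  by_cases hj : j = k <;> simp [hj]

lemma prodB_neg {y : ℕ → ℝ} (h : Nodes y) {j k : ℕ} (hjk : j < k) :
    1 - y k ^ 2 / y j ^ 2 < 0 := by
  have h1 := h.pos j
  have h2 := h.2.1 hjk
  have : 1 < y k ^ 2 / y j ^ 2 := by
    rw [one_lt_div (by positivity)]
    nlinarith
  linarith

lemma prodB_fac_pos {y : ℕ → ℝ} (h : Nodes y) {b : ℝ} {j : ℕ} (hb : |b| < y j) :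
    0 < 1 - b ^ 2 / y j ^ 2 := by
  have h1 := h.pos j
  have : b ^ 2 / y j ^ 2 < 1 := by
    rw [div_lt_one (by positivity), ← sq_abs b]
    have := abs_nonneg b
    nlinarith
  linarith

lemma prodB_posk {y : ℕ → ℝ} (h : Nodes y) {j k : ℕ} (hjk : k < j) :
    0 < 1 - y k ^ 2 / y j ^ 2 :=
  prodB_fac_pos h (by rw [abs_of_pos (h.pos k)]; exact h.2.1 hjk)

lemma prodB_wt_tprod_pos {y : ℕ → ℝ} (h : Nodes y) (k : ℕ) :
    0 < ∏' j, if j = k then (1 : ℝ) else |1 - y k ^ 2 / y j ^ 2| := by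
  refine prodB_pos ((prodB_abs (prodB_sumk h k (y k ^ 2))).congr fun j => by
    rw [prodB_absk]) fun j => ?_
  by_cases hj : j = k
  · simp [hj]
  · simp only [hj, if_false]
    rcases lt_or_gt_of_ne hj with h1 | h1
    · exact abs_pos.2 (prodB_neg h h1).ne
    · exact abs_pos.2 (prodB_posk h h1).ne'

lemma prodB_sign {y : ℕ → ℝ} (h : Nodes y) (k : ℕ) :
    (∏' j, if j = k then (1 : ℝ) else 1 - y k ^ 2 / y j ^ 2) =
      (-1) ^ k * ∏' j, if j = k then (1 : ℝ) else |1 - y k ^ 2 / y j ^ 2| := by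
  have m1 := prodB_mult (prodB_sumk h k (y k ^ 2))
  have m2 : Multipliable fun j => if j = k then (1 : ℝ) else |1 - y k ^ 2 / y j ^ 2| :=
    prodB_mult ((prodB_abs (prodB_sumk h k (y k ^ 2))).congr fun j => by rw [prodB_absk])
  have t1 := m1.hasProd.tendsto_prod_nat
  have t2 := m2.hasProd.tendsto_prod_nat.const_mul ((-1 : ℝ) ^ k)
  refine tendsto_nhds_unique t1 (t2.congr' ?_)
  filter_upwards [eventually_ge_atTop k] with n hn
  rw [← Finset.prod_range_mul_prod_Ico _ hn, ← Finset.prod_range_mul_prod_Ico _ hn, ← mul_assoc]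
  have e1 : (∏ j ∈ Finset.range k, if j = k then (1 : ℝ) else 1 - y k ^ 2 / y j ^ 2) =
      (-1) ^ k * ∏ j ∈ Finset.range k, if j = k then (1 : ℝ) else |1 - y k ^ 2 / y j ^ 2| := by
    have e0 : ((-1 : ℝ)) ^ k = ∏ _j ∈ Finset.range k, (-1 : ℝ) := by simp
    rw [e0, ← Finset.prod_mul_distrib]
    refine Finset.prod_congr rfl fun j hj => ?_
    have hj' := Finset.mem_range.1 hj
    rw [if_neg hj'.ne, if_neg hj'.ne, abs_of_neg (prodB_neg h hj')]
    ring
  have e2 : (∏ j ∈ Finset.Ico k n, if j = k then (1 : ℝ) else 1 - y k ^ 2 / y j ^ 2) =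
      ∏ j ∈ Finset.Ico k n, if j = k then (1 : ℝ) else |1 - y k ^ 2 / y j ^ 2| := by
    refine Finset.prod_congr rfl fun j hj => ?_
    have hj' := (Finset.mem_Ico.1 hj).1
    by_cases hjk : j = k
    · rw [if_pos hjk, if_pos hjk]
    · rw [if_neg hjk, if_neg hjk,
        abs_of_pos (prodB_posk h (lt_of_le_of_ne hj' (Ne.symm hjk)))]
  rw [e1, e2]

lemma prodB_cprodk {y : ℕ → ℝ} (h : Nodes y) (k : ℕ) (b : ℝ) :
    cprodk y k b = ((∏' j, if j = k then (1 : ℝ) else 1 - b ^ 2 / y j ^ 2 : ℝ) : ℂ) := by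
  rw [prodB_ofReal (prodB_mult (prodB_sumk h k (b ^ 2))), cprodk]
  refine tprod_congr fun j => ?_
  by_cases hj : j = k
  · rw [if_pos hj, if_pos hj]; simp
  · rw [if_neg hj, if_neg hj]; push_cast; rfl

lemma prodB_imult {y : ℕ → ℝ} (h : Nodes y) (s : ℝ) :
    Multipliable fun j => 1 + s ^ 2 / y j ^ 2 :=
  Real.multipliable_one_add_of_summable (prodB_sum h (s ^ 2))

lemma prodB_rsum {y : ℕ → ℝ} (h : Nodes y) (s : ℝ) :
    Summable fun j => (1 - s ^ 2 / y j ^ 2) - 1 :=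
  (prodB_sum h (s ^ 2)).neg.congr fun j => by ring

/-- Real facts on the canonical products and the weights. -/
theorem prodB_stmt {y : ℕ → ℝ} (h : Nodes y) :
    (∀ k, 0 < wt y k) ∧ (∀ k, cprodk y k (y k) = (((-1) ^ k / wt y k : ℝ) : ℂ)) ∧
    1 ≤ wt y 0 ∧
    (∀ k (b : ℝ), |b| < y 0 → ∃ p : ℝ, 0 < p ∧ cprodk y k b = p) ∧
    (∀ b : ℝ, |b| < y 0 → 0 < rprod y b ∧ rprod y b ≤ 1 - b ^ 2 / y 0 ^ 2) ∧
    (∀ s : ℝ, (1 + s ^ 2 / y 0 ^ 2) * (1 + s ^ 2 / y 1 ^ 2) ≤ iprod y s) ∧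
    Continuous (iprod y) ∧ MonotoneOn (iprod y) (Ici 0) := by
  have hmono : ∀ j, y 0 ≤ y j := fun j => h.2.1.monotone (Nat.zero_le j)
  refine ⟨fun k => inv_pos.2 (prodB_wt_tprod_pos h k), fun k => ?_, ?_, fun k b hb => ?_,
    fun b hb => ⟨?_, ?_⟩, fun s => ?_, ?_, ?_⟩
  · rw [prodB_cprodk h, prodB_sign h, wt, div_inv_eq_mul]
  · have m2 : Multipliable fun j => if j = 0 then (1 : ℝ) else |1 - y 0 ^ 2 / y j ^ 2| :=
      prodB_mult ((prodB_abs (prodB_sumk h 0 (y 0 ^ 2))).congr fun j => by rw [prodB_absk])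
    refine (one_le_inv₀ (prodB_wt_tprod_pos h 0)).2 ?_
    refine le_of_tendsto' m2.hasProd.tendsto_prod_nat fun n => ?_
    refine Finset.prod_le_one (fun j _ => ?_) fun j _ => ?_
    · by_cases hj : j = 0
      · rw [if_pos hj]; exact zero_le_one
      · rw [if_neg hj]; exact abs_nonneg _
    · by_cases hj : j = 0
      · rw [if_pos hj]
      · rw [if_neg hj, abs_of_pos (prodB_posk h (Nat.pos_of_ne_zero hj))]
        have : 0 ≤ y 0 ^ 2 / y j ^ 2 := by positivity
        linarith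
  · refine ⟨_, prodB_pos (prodB_sumk h k (b ^ 2)) fun j => ?_, prodB_cprodk h k b⟩
    by_cases hj : j = k
    · rw [if_pos hj]; exact zero_lt_one
    · rw [if_neg hj]; exact prodB_fac_pos h (hb.trans_le (hmono j))
  · exact prodB_pos (prodB_rsum h b) fun j => prodB_fac_pos h (hb.trans_le (hmono j))
  · have t := (prodB_mult (prodB_rsum h b)).hasProd.tendsto_prod_nat.comp
      (tendsto_add_atTop_nat 1)
    refine le_of_tendsto' t fun n => ?_
    simp only [Function.comp]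
    rw [Finset.prod_range_succ']
    have h0 := (prodB_fac_pos h hb).le
    refine mul_le_of_le_one_left h0 ?_
    refine Finset.prod_le_one (fun j _ => (prodB_fac_pos h (hb.trans_le (hmono _))).le)
      fun j _ => ?_
    have : 0 ≤ b ^ 2 / y (j + 1) ^ 2 := by positivity
    linarith
  · have t := (prodB_imult h s).hasProd.tendsto_prod_nat.comp (tendsto_add_atTop_nat 2)
    refine ge_of_tendsto' t fun n => ?_
    simp only [Function.comp]
    rw [Finset.prod_range_succ', Finset.prod_range_succ']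
    have h1 : (1 : ℝ) ≤ ∏ j ∈ Finset.range n, (1 + s ^ 2 / y (j + 1 + 1) ^ 2) := by
      have := Finset.prod_le_prod (s := Finset.range n) (f := fun _ => (1 : ℝ))
        (g := fun j => 1 + s ^ 2 / y (j + 1 + 1) ^ 2) (fun _ _ => zero_le_one) fun j _ => by
          have : 0 ≤ s ^ 2 / y (j + 1 + 1) ^ 2 := by positivity
          linarith
      simpa using this
    have p0 : 0 ≤ (1 + s ^ 2 / y 0 ^ 2) * (1 + s ^ 2 / y 1 ^ 2) := by positivity
    calc (1 + s ^ 2 / y 0 ^ 2) * (1 + s ^ 2 / y 1 ^ 2)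
        = 1 * ((1 + s ^ 2 / y 0 ^ 2) * (1 + s ^ 2 / y 1 ^ 2)) := (one_mul _).symm
      _ ≤ (∏ j ∈ Finset.range n, (1 + s ^ 2 / y (j + 1 + 1) ^ 2)) *
            ((1 + s ^ 2 / y 0 ^ 2) * (1 + s ^ 2 / y 1 ^ 2)) := mul_le_mul_of_nonneg_right h1 p0
      _ = _ := by rw [zero_add]; ring
  · obtain ⟨-, hd, -, -, -, -, -, -, -, -, hI, -⟩ := prodA_stmt h
    have e : iprod y = fun s : ℝ => (cprod y (s * I)).re := by
      funext s; rw [hI]; simp
    rw [e]
    exact Complex.continuous_re.comp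
      (hd.continuous.comp (Complex.continuous_ofReal.mul continuous_const))
  · intro s hs t _ hst
    refine le_of_tendsto_of_tendsto' (prodB_imult h s).hasProd.tendsto_prod_nat
      (prodB_imult h t).hasProd.tendsto_prod_nat fun n => ?_
    refine Finset.prod_le_prod (fun j _ => by positivity) fun j _ => ?_
    have hs' : (0 : ℝ) ≤ s := hs
    have : s ^ 2 / y j ^ 2 ≤ t ^ 2 / y j ^ 2 :=
      div_le_div_of_nonneg_right (pow_le_pow_left₀ hs' hst 2) (by positivity)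
    linarith

end Pool.Agent.P.MP_7e6317_an
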