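import Pool.Agent.P.MP_7e6317_an.D.Beta
import Pool.Agent.P.MP_7e6317_an.D.ProdB

namespace Pool.Agent.P.MP_7e6317_an

open Filter Topology Set MeasureTheory Complex

lemma pos_int_lt {f g : ℝ → ℝ} (hf : IntegrableOn f (Ioi 0)) (hg : IntegrableOn g (Ioi 0))
    (hlt : ∀ s, 0 < s → f s < g s) : ∫ s in Ioi (0 : ℝ), f s < ∫ s in Ioi (0 : ℝ), g s := by
  have hpos : 0 < ∫ s in Ioi (0 : ℝ), (g s - f s) := by
    have hi : IntegrableOn (fun s => g s - f s) (Ioi 0) := hg.sub hf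
    rw [setIntegral_pos_iff_support_of_nonneg_ae _ hi]
    · have hs : Function.support (fun s => g s - f s) ∩ Ioi (0 : ℝ) = Ioi 0 := by
        refine inter_eq_right.2 fun s hs => ?_
        exact (sub_pos.2 (hlt s hs)).ne'
      rw [hs]
      simp
    · filter_upwards [ae_restrict_mem measurableSet_Ioi] with s hs
      exact (sub_pos.2 (hlt s hs)).le
  rw [integral_sub hg hf] at hpos
  linarith

lemma pos_iprod_lt {y : ℕ → ℝ} (h : Nodes y) {s : ℝ} (hs : 0 < s) :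
    1 + s ^ 2 / y 0 ^ 2 < iprod y s := by
  obtain ⟨-, -, -, -, -, h6, -, -⟩ := prodB_stmt h
  have p0 := h.pos 0
  have p1 := h.pos 1
  refine lt_of_lt_of_le ?_ (h6 s)
  have a1 : 0 < 1 + s ^ 2 / y 0 ^ 2 := by positivity
  have a2 : 0 < s ^ 2 / y 1 ^ 2 := by positivity
  nlinarith

lemma pos_iprod_one {y : ℕ → ℝ} (h : Nodes y) {s : ℝ} (hs : 0 < s) : 1 < iprod y s := by
  have p0 := h.pos 0
  have a2 : 0 < s ^ 2 / y 0 ^ 2 := by positivity
  linarith [pos_iprod_lt h hs]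

lemma pos_cont_pow (m : ℝ) : ContinuousOn (fun s : ℝ => s ^ (m - 1)) (Ioi 0) :=
  continuousOn_id.rpow_const fun _ hs => Or.inl (ne_of_gt hs)

lemma pos_f_lt {m : ℝ} {y : ℕ → ℝ} (h : Nodes y) {s : ℝ} (hs : 0 < s) :
    s ^ (m - 1) / iprod y s < y 0 ^ 2 * (s ^ (m - 1) / (y 0 ^ 2 + s ^ 2)) := by
  have p0 := h.pos 0
  have hp : 0 < s ^ (m - 1) := Real.rpow_pos_of_pos hs _
  have e : y 0 ^ 2 * (s ^ (m - 1) / (y 0 ^ 2 + s ^ 2)) = s ^ (m - 1) / (1 + s ^ 2 / y 0 ^ 2) := by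
    field_simp
  rw [e]
  exact div_lt_div_of_pos_left hp (by positivity) (pos_iprod_lt h hs)

lemma pos_f_int {m : ℝ} (h0 : 0 < m) (h2 : m < 2) {y : ℕ → ℝ} (h : Nodes y) :
    IntegrableOn (fun s : ℝ => s ^ (m - 1) / iprod y s) (Ioi 0) := by
  obtain ⟨-, -, -, -, -, -, hc, -⟩ := prodB_stmt h
  have hb := ((beta_stmt h0 h2).2 (y 0) (h.pos 0)).1
  refine Integrable.mono' (hb.const_mul (y 0 ^ 2)) ?_ ?_
  · refine ContinuousOn.aestronglyMeasurable ?_ measurableSet_Ioi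
    exact (pos_cont_pow m).div hc.continuousOn fun s hs => by linarith [pos_iprod_one h hs]
  · filter_upwards [ae_restrict_mem measurableSet_Ioi] with s hs
    have hp : 0 < s ^ (m - 1) := Real.rpow_pos_of_pos hs _
    have hi : 0 < iprod y s := by linarith [pos_iprod_one h hs]
    rw [Real.norm_of_nonneg (by positivity)]
    exact (pos_f_lt h hs).le

lemma pos_g_int {m : ℝ} (h0 : 0 < m) (h2 : m < 2) {y : ℕ → ℝ} (h : Nodes y) {u : ℝ} (hu : 0 < u) :
    IntegrableOn (fun s : ℝ => s ^ (m - 1) / (iprod y s * (u ^ 2 + s ^ 2))) (Ioi 0) := by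
  obtain ⟨-, -, -, -, -, -, hc, -⟩ := prodB_stmt h
  have hb := ((beta_stmt h0 h2).2 u hu).1
  refine Integrable.mono' hb ?_ ?_
  · refine ContinuousOn.aestronglyMeasurable ?_ measurableSet_Ioi
    refine (pos_cont_pow m).div (hc.continuousOn.mul (by fun_prop)) fun s hs => ?_
    have hi : 0 < iprod y s := by linarith [pos_iprod_one h hs]
    positivity
  · filter_upwards [ae_restrict_mem measurableSet_Ioi] with s hs
    have hp : 0 < s ^ (m - 1) := Real.rpow_pos_of_pos hs _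
    have hi1 := pos_iprod_one h hs
    have hi : 0 < iprod y s := by linarith
    have hq : 0 < u ^ 2 + s ^ 2 := by positivity
    rw [Real.norm_of_nonneg (by positivity)]
    exact div_le_div_of_nonneg_left hp.le hq (by nlinarith)

lemma pos_mass_eq (m : ℝ) (y : ℕ → ℝ) :
    mass m y = kap m * ∫ s in Ioi (0 : ℝ), s ^ (m - 1) / iprod y s := rfl

lemma pos_mass_pos {m : ℝ} (h0 : 0 < m) (h2 : m < 2) {y : ℕ → ℝ} (h : Nodes y) :
    0 < mass m y := by
  rw [pos_mass_eq]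
  refine mul_pos (beta_stmt h0 h2).1 ?_
  have := pos_int_lt (f := fun _ => 0) integrableOn_zero (pos_f_int h0 h2 h) fun s hs => by
    have hp : 0 < s ^ (m - 1) := Real.rpow_pos_of_pos hs _
    have hi : 0 < iprod y s := by linarith [pos_iprod_one h hs]
    positivity
  simpa using this

lemma pos_mass_lt {m : ℝ} (h0 : 0 < m) (h2 : m < 2) {y : ℕ → ℝ} (h : Nodes y) :
    mass m y < y 0 ^ m := by
  have p0 := h.pos 0
  obtain ⟨hk, hb⟩ := beta_stmt h0 h2
  obtain ⟨hb1, hb2⟩ := hb (y 0) p0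
  have := pos_int_lt (pos_f_int h0 h2 h) (hb1.const_mul (y 0 ^ 2)) fun s hs => pos_f_lt h hs
  rw [integral_const_mul] at this
  have e : y 0 ^ m = y 0 ^ 2 * y 0 ^ (m - 2) := by
    rw [Real.rpow_sub p0, Real.rpow_two]
    field_simp
  rw [pos_mass_eq, e, ← hb2]
  nlinarith [mul_lt_mul_of_pos_left this hk]

/-- Positivity before the first node (paper, 3 POS). -/
theorem pos_stmt {m : ℝ} (h0 : 0 < m) (h2 : m < 2) {y : ℕ → ℝ} (h : Nodes y) :
    0 < mass m y ∧ ∀ d : ℕ → ℝ, (∀ k, 0 ≤ d k) → HasSum (fun k => wt y k * d k) (mass m y) →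
      d 0 < y 0 ^ m ∧ ∀ u : ℝ, 0 < u → u < y 0 → 0 < extr m y d u := by
  refine ⟨pos_mass_pos h0 h2 h, fun d hd hs => ?_⟩
  obtain ⟨hw, -, hw0, -, hr, -, -, -⟩ := prodB_stmt h
  have p0 := h.pos 0
  have hnn : ∀ k, 0 ≤ wt y k * d k := fun k => mul_nonneg (hw k).le (hd k)
  refine ⟨?_, fun u hu huy => ?_⟩
  · have a1 : wt y 0 * d 0 ≤ mass m y := le_hasSum hs 0 fun j _ => hnn j
    have a2 := pos_mass_lt h0 h2 h
    nlinarith [hd 0]
  · obtain ⟨hk, hb⟩ := beta_stmt h0 h2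
    obtain ⟨hb1, hb2⟩ := hb u hu
    obtain ⟨r0, r1⟩ := hr u (by rwa [abs_of_pos hu])
    have hD : 0 < y 0 ^ 2 - u ^ 2 := by nlinarith
    have hDk : ∀ k, y 0 ^ 2 - u ^ 2 ≤ y k ^ 2 - u ^ 2 := fun k => by
      have := h.2.1.monotone (Nat.zero_le k)
      nlinarith
    have hle : ∀ k, wt y k * d k / (y k ^ 2 - u ^ 2) ≤ wt y k * d k / (y 0 ^ 2 - u ^ 2) :=
      fun k => div_le_div_of_nonneg_left (hnn k) hD (hDk k)
    have hn2 : ∀ k, 0 ≤ wt y k * d k / (y k ^ 2 - u ^ 2) :=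
      fun k => div_nonneg (hnn k) (hD.le.trans (hDk k))
    have hs2 := hs.div_const (y 0 ^ 2 - u ^ 2)
    have hsum : Summable fun k => wt y k * d k / (y k ^ 2 - u ^ 2) :=
      Summable.of_nonneg_of_le hn2 hle hs2.summable
    have hS : ∑' k, wt y k * d k / (y k ^ 2 - u ^ 2) ≤ mass m y / (y 0 ^ 2 - u ^ 2) := by
      rw [← hs2.tsum_eq]
      exact hsum.tsum_le_tsum hle hs2.summable
    have hS0 : 0 ≤ ∑' k, wt y k * d k / (y k ^ 2 - u ^ 2) := tsum_nonneg hn2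
    have hf := pos_f_int h0 h2 h
    have hg := pos_g_int h0 h2 h hu
    have hJ0 : 0 ≤ ∫ s in Ioi (0 : ℝ), s ^ (m - 1) / (iprod y s * (u ^ 2 + s ^ 2)) := by
      refine setIntegral_nonneg measurableSet_Ioi fun s hs => ?_
      have hp : 0 < s ^ (m - 1) := Real.rpow_pos_of_pos hs _
      have hi : 0 < iprod y s := by linarith [pos_iprod_one h hs]
      positivity
    have key := pos_int_lt ((hf.const_mul (1 / y 0 ^ 2)).add
      (hg.const_mul ((y 0 ^ 2 - u ^ 2) / y 0 ^ 2))) hb1 fun s hs => by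
        have hs' : 0 < s := hs
        have hp : 0 < s ^ (m - 1) := Real.rpow_pos_of_pos hs _
        have hi : 0 < iprod y s := by linarith [pos_iprod_one h hs]
        have hq : 0 < u ^ 2 + s ^ 2 := by positivity
        have e : 1 / y 0 ^ 2 * (s ^ (m - 1) / iprod y s) + (y 0 ^ 2 - u ^ 2) / y 0 ^ 2 *
            (s ^ (m - 1) / (iprod y s * (u ^ 2 + s ^ 2))) =
            s ^ (m - 1) / (u ^ 2 + s ^ 2) * ((1 + s ^ 2 / y 0 ^ 2) / iprod y s) := by
          field_simp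
          ring
        simp only [Pi.add_apply]
        rw [e]
        have l1 : (1 + s ^ 2 / y 0 ^ 2) / iprod y s < 1 :=
          (div_lt_one hi).2 (pos_iprod_lt h hs)
        exact mul_lt_of_lt_one_right (by positivity) l1
    simp only [Pi.add_apply] at key
    rw [integral_add (hf.const_mul _) (hg.const_mul _), integral_const_mul,
      integral_const_mul] at key
    have e : u ^ m = u ^ 2 * u ^ (m - 2) := by
      rw [Real.rpow_sub hu, Real.rpow_two]
      field_simp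
    have hm := pos_mass_eq m y
    change 0 < u ^ m - u ^ 2 * rprod y u * (∑' k, wt y k * d k / (y k ^ 2 - u ^ 2) +
      kap m * ∫ s in Ioi (0 : ℝ), s ^ (m - 1) / (iprod y s * (u ^ 2 + s ^ 2)))
    set S := ∑' k, wt y k * d k / (y k ^ 2 - u ^ 2)
    set J := ∫ s in Ioi (0 : ℝ), s ^ (m - 1) / (iprod y s * (u ^ 2 + s ^ 2))
    set A := ∫ s in Ioi (0 : ℝ), s ^ (m - 1) / iprod y s
    set B := ∫ s in Ioi (0 : ℝ), s ^ (m - 1) / (u ^ 2 + s ^ 2)
    have r2 : rprod y u ≤ (y 0 ^ 2 - u ^ 2) / y 0 ^ 2 := by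
      rw [sub_div, div_self (by positivity)]
      exact r1
    have b1 : rprod y u * (S + kap m * J) ≤
        (y 0 ^ 2 - u ^ 2) / y 0 ^ 2 * (mass m y / (y 0 ^ 2 - u ^ 2) + kap m * J) :=
      mul_le_mul r2 (by linarith) (by positivity) (by positivity)
    have b2 : (y 0 ^ 2 - u ^ 2) / y 0 ^ 2 * (mass m y / (y 0 ^ 2 - u ^ 2) + kap m * J) =
        kap m * (1 / y 0 ^ 2 * A + (y 0 ^ 2 - u ^ 2) / y 0 ^ 2 * J) := by
      rw [hm]
      field_simp
    have b3 : rprod y u * (S + kap m * J) < u ^ (m - 2) := by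
      rw [← hb2]
      exact (b1.trans_eq b2).trans_lt (mul_lt_mul_of_pos_left key hk)
    rw [e, mul_assoc, ← mul_sub]
    exact mul_pos (by positivity) (sub_pos.2 b3)

end Pool.Agent.P.MP_7e6317_an
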