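import Pool.Agent.P.MP_7e6317_an.D.ELem

namespace Pool.Agent.P.MP_7e6317_an

open Filter Topology Set MeasureTheory Complex

/-- A bound for `(1 + t u)^τ` that is uniform in the dilation `t ∈ [1/2, 1]`. -/
lemma interp_dil_pow (τ : ℝ) {a : ℝ} (ha : 0 < a) :
    ∃ K : ℝ, 0 ≤ K ∧ ∀ t u : ℝ, 1 / 2 ≤ t → t ≤ 1 → a ≤ u → (1 + t * u) ^ τ ≤ K * u ^ τ := by
  refine ⟨max ((1 + 1 / a) ^ τ) ((1 / 2) ^ τ), le_max_of_le_left (by positivity),
    fun t u ht0 ht1 hu => ?_⟩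
  have hu0 : 0 < u := ha.trans_le hu
  have htu : 0 ≤ t * u := by positivity
  rcases le_total 0 τ with hs | hs
  · have e0 : 1 ≤ 1 / a * u := by
      rw [one_div, ← div_eq_inv_mul, le_div_iff₀ ha]; linarith
    have e1 : 1 + t * u ≤ (1 + 1 / a) * u := by nlinarith
    calc (1 + t * u) ^ τ ≤ ((1 + 1 / a) * u) ^ τ := Real.rpow_le_rpow (by positivity) e1 hs
      _ = (1 + 1 / a) ^ τ * u ^ τ := Real.mul_rpow (by positivity) hu0.le
      _ ≤ _ := mul_le_mul_of_nonneg_right (le_max_left _ _) (by positivity)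
  · have e1 : 1 / 2 * u ≤ 1 + t * u := by nlinarith
    calc (1 + t * u) ^ τ ≤ (1 / 2 * u) ^ τ :=
          Real.rpow_le_rpow_of_nonpos (by positivity) e1 hs
      _ = (1 / 2) ^ τ * u ^ τ := Real.mul_rpow (by positivity) hu0.le
      _ ≤ _ := mul_le_mul_of_nonneg_right (le_max_right _ _) (by positivity)

/-- Uniform bound of the dilates of a function of the class `Cls τ` away from the origin. -/
lemma interp_dil_bd {τ : ℝ} {D : ℂ → ℂ} (hD : Cls τ D) {a : ℝ} (ha : 0 < a) :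
    ∃ K : ℝ, 0 ≤ K ∧ ∀ t u : ℝ, 1 / 2 ≤ t → t ≤ 1 → a ≤ u →
      ‖D ((t : ℂ) * (u : ℂ))‖ ≤ K * u ^ τ := by
  obtain ⟨C, hC0, hC⟩ := hD.bd'
  obtain ⟨K, hK0, hK⟩ := interp_dil_pow τ ha
  refine ⟨C * K, mul_nonneg hC0 hK0, fun t u ht0 ht1 hu => ?_⟩
  have hu0 : 0 < u := ha.trans_le hu
  have htu : 0 ≤ t * u := by positivity
  have h1 := hC (t * u)
  rw [abs_of_nonneg htu, ofReal_mul] at h1
  rw [mul_assoc]
  exact h1.trans (mul_le_mul_of_nonneg_left (hK t u ht0 ht1 hu) hC0)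

/-- The dilates stay in the class. -/
lemma interp_dil_cls {τ : ℝ} {D : ℂ → ℂ} (hD : Cls τ D) {t : ℝ} (ht0 : 1 / 2 ≤ t) (ht1 : t ≤ 1) :
    Cls τ fun z => D ((t : ℂ) * z) := by
  obtain ⟨K, -, hK⟩ := interp_dil_bd hD one_pos
  refine Cls.of_large (hD.diff.comp (differentiable_id.const_mul _)) (fun η hη => ?_)
    (fun z => by rw [mul_neg, hD.even]) (C := K) (U := 1) fun u _ hu => hK t u ht0 ht1 hu
  obtain ⟨C, hC0, hC⟩ := hD.expT' hη
  refine ⟨C, fun z => (hC _).trans (mul_le_mul_of_nonneg_left (Real.exp_le_exp.2 ?_) hC0)⟩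
  rw [norm_mul, Complex.norm_real, Real.norm_eq_abs, abs_of_nonneg (by linarith)]
  have hz := norm_nonneg z
  have e1 : t * ‖z‖ ≤ ‖z‖ := by nlinarith
  exact mul_le_mul_of_nonneg_left e1 (by linarith)

/-- The Lagrange formula for the dilates. -/
lemma interp_dil_eq {τ : ℝ} {y : ℕ → ℝ} (h : Adm τ y) (h0 : -2 < τ) (h2 : τ ≤ 2) {D : ℂ → ℂ}
    (hD : Cls τ D) {t : ℝ} (ht0 : 1 / 2 ≤ t) (ht1 : t < 1) (z : ℂ) :
    D ((t : ℂ) * z) =
      ∑' k, (((-1) ^ k * wt y k : ℝ) : ℂ) * D ((t : ℂ) * (y k : ℂ)) * cprodk y k z := by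
  obtain ⟨C, hC0, hC⟩ := hD.expT' (η := 1 - t) (by linarith)
  refine elem_stmt h h0 h2 (interp_dil_cls hD ht0 ht1.le) (θ := (1 + (1 - t)) * t) (C := C)
    (by nlinarith) (by nlinarith) (fun w => (hC _).trans (le_of_eq ?_)) z
  rw [norm_mul, Complex.norm_real, Real.norm_eq_abs, abs_of_nonneg (by linarith), mul_assoc]

/-- Lagrange formula in the class `Cls τ` (dilate by `1 - e`, dominated convergence) and the comparison lemma CMP. -/
theorem interp_stmt {τ : ℝ} {y : ℕ → ℝ} (h : Adm τ y) (h0 : -2 < τ) (h2 : τ ≤ 2) {D : ℂ → ℂ}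
    (hD : Cls τ D) :
    (Summable fun k => wt y k * ‖D (y k)‖) ∧
    (∀ z, HasSum (fun k => (((-1) ^ k * wt y k : ℝ) : ℂ) * D (y k) * cprodk y k z) (D z)) ∧
    ((∀ k, D (y k) = 0) → ∀ z, D z = 0) ∧
    ((∀ x : ℝ, (D x).im = 0) → (∀ k, 0 ≤ (-1) ^ k * (D (y k)).re) →
      ∀ b : ℝ, |b| < y 0 → (D b).re ≤ 0 → ∀ z, D z = 0) := by
  have hN := h.nodes
  obtain ⟨-, -, -, -, hPk, -⟩ := prodA_stmt hN
  obtain ⟨hw, -, -, hP, -⟩ := prodB_stmt hN
  obtain ⟨K, hK0, hK⟩ := interp_dil_bd hD hN.1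
  have hy0 : ∀ k, y 0 ≤ y k := fun k => hN.2.1.monotone (Nat.zero_le k)
  have hsum : Summable fun k => wt y k * y k ^ τ := h.2.2.2.1
  have hD1 : ∀ k, ‖D (y k)‖ ≤ K * y k ^ τ := fun k => by
    simpa using hK 1 (y k) (by norm_num) le_rfl (hy0 k)
  have hcoef : ∀ k, ‖(((-1) ^ k * wt y k : ℝ) : ℂ)‖ = wt y k := fun k => by
    rw [Complex.norm_real, Real.norm_eq_abs, abs_mul, abs_pow, abs_neg, abs_one, one_pow, one_mul,
      abs_of_pos (hw k)]
  have hterm : ∀ (z : ℂ) (t : ℝ), 1 / 2 ≤ t → t ≤ 1 → ∀ k,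
      ‖(((-1) ^ k * wt y k : ℝ) : ℂ) * D ((t : ℂ) * (y k : ℂ)) * cprodk y k z‖ ≤
        K * iprod y ‖z‖ * (wt y k * y k ^ τ) := fun z t ht0 ht1 k => by
    rw [norm_mul, norm_mul, hcoef]
    have e1 := hK t (y k) ht0 ht1 (hy0 k)
    have e2 := hPk k z
    have e3 := (hw k).le
    have e4 : 0 ≤ K * y k ^ τ := (norm_nonneg _).trans e1
    calc wt y k * ‖D ((t : ℂ) * (y k : ℂ))‖ * ‖cprodk y k z‖
        ≤ wt y k * (K * y k ^ τ) * iprod y ‖z‖ :=
          mul_le_mul (mul_le_mul_of_nonneg_left e1 e3) e2 (norm_nonneg _) (mul_nonneg e3 e4)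
      _ = _ := by ring
  have s1 : Summable fun k => wt y k * ‖D (y k)‖ := by
    refine Summable.of_nonneg_of_le (fun k => mul_nonneg (hw k).le (norm_nonneg _))
      (fun k => ?_) (hsum.mul_left K)
    calc wt y k * ‖D (y k)‖ ≤ wt y k * (K * y k ^ τ) :=
          mul_le_mul_of_nonneg_left (hD1 k) (hw k).le
      _ = _ := by ring
  have s2 : ∀ z, HasSum (fun k => (((-1) ^ k * wt y k : ℝ) : ℂ) * D (y k) * cprodk y k z)
      (D z) := by
    intro z
    have hb : Summable fun k => K * iprod y ‖z‖ * (wt y k * y k ^ τ) := hsum.mul_left _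
    have hs : Summable fun k => (((-1) ^ k * wt y k : ℝ) : ℂ) * D (y k) * cprodk y k z := by
      refine Summable.of_norm_bounded hb fun k => ?_
      simpa only [ofReal_one, one_mul] using hterm z 1 (by norm_num) le_rfl k
    have hc : ∀ w : ℂ, Tendsto (fun t : ℝ => D ((t : ℂ) * w)) (𝓝[<] 1) (𝓝 (D w)) := fun w => by
      have hc : Continuous fun t : ℝ => D ((t : ℂ) * w) :=
        hD.diff.continuous.comp (continuous_ofReal.mul continuous_const)
      have := (hc.tendsto 1).mono_left (nhdsWithin_le_nhds (s := Iio 1))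
      simpa only [ofReal_one, one_mul] using this
    have hev : ∀ᶠ t : ℝ in 𝓝[<] 1, t ∈ Ico (1 / 2 : ℝ) 1 := Ico_mem_nhdsLT (by norm_num)
    have hlim : Tendsto (fun t : ℝ => ∑' k,
        (((-1) ^ k * wt y k : ℝ) : ℂ) * D ((t : ℂ) * (y k : ℂ)) * cprodk y k z) (𝓝[<] 1)
        (𝓝 (∑' k, (((-1) ^ k * wt y k : ℝ) : ℂ) * D (y k) * cprodk y k z)) := by
      refine tendsto_tsum_of_dominated_convergence hb (fun k => ?_) ?_
      · exact ((hc (y k)).const_mul _).mul_const _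
      · filter_upwards [hev] with t ht using hterm z t ht.1 ht.2.le
    have hlim' : Tendsto (fun t : ℝ => D ((t : ℂ) * z)) (𝓝[<] 1)
        (𝓝 (∑' k, (((-1) ^ k * wt y k : ℝ) : ℂ) * D (y k) * cprodk y k z)) := by
      refine hlim.congr' ?_
      filter_upwards [hev] with t ht using (interp_dil_eq h h0 h2 hD ht.1 ht.2 z).symm
    rw [tendsto_nhds_unique (hc z) hlim']
    exact hs.hasSum
  have s3 : (∀ k, D (y k) = 0) → ∀ z, D z = 0 := fun hz z => by
    have := s2 z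
    simp only [hz, mul_zero, zero_mul] at this
    exact this.unique hasSum_zero
  refine ⟨s1, s2, s3, fun hre hsg b hb hDb => s3 fun k => ?_⟩
  choose p hp0 hp using fun k => hP k b hb
  have e1 : ∀ j, ((((-1) ^ j * wt y j : ℝ) : ℂ) * D (y j) * cprodk y j b).re =
      wt y j * p j * ((-1) ^ j * (D (y j)).re) := fun j => by
    rw [hp j, mul_right_comm, ← ofReal_mul, re_ofReal_mul]; ring
  have e2 : HasSum (fun j => wt y j * p j * ((-1) ^ j * (D (y j)).re)) (D b).re := by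
    have := Complex.hasSum_re (s2 b)
    simpa only [e1] using this
  have e3 : ∀ j, 0 ≤ wt y j * p j * ((-1) ^ j * (D (y j)).re) := fun j =>
    mul_nonneg (mul_pos (hw j) (hp0 j)).le (hsg j)
  have e4 : wt y k * p k * ((-1) ^ k * (D (y k)).re) ≤ (D b).re :=
    le_hasSum e2 k fun j _ => e3 j
  have e5 : wt y k * p k * ((-1) ^ k * (D (y k)).re) = 0 := le_antisymm (e4.trans hDb) (e3 k)
  have e6 : (D (y k)).re = 0 := by
    rcases mul_eq_zero.1 e5 with h5 | h5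
    · exact absurd h5 (mul_pos (hw k) (hp0 k)).ne'
    · exact (mul_eq_zero.1 h5).resolve_left (pow_ne_zero _ (by norm_num))
  exact Complex.ext e6 (hre (y k))

end Pool.Agent.P.MP_7e6317_an
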