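import Pool.Agent.P.MP_7e6317_an.D.BaseF
import Pool.Agent.P.MP_7e6317_an.D.Interp

namespace Pool.Agent.P.MP_7e6317_an

open Filter Topology Set MeasureTheory Complex

namespace R12

lemma hs_congr {f g : ℕ → ℝ} {a b : ℝ} (h : HasSum f a) (hf : ∀ k, g k = f k) (hb : b = a) :
    HasSum g b := by
  rw [funext hf, hb]; exact h

/-- The real part of the Lagrange formula at a point where the products are real. -/
lemma interp_re {τ : ℝ} {y : ℕ → ℝ} (h : Adm τ y) (h0 : -2 < τ) (h2 : τ ≤ 2) {D : ℂ → ℂ}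
    (hD : Cls τ D) {z : ℂ} {p : ℕ → ℝ} (hp : ∀ k, cprodk y k z = p k) :
    HasSum (fun k => (-1) ^ k * wt y k * (D (y k)).re * p k) (D z).re := by
  have h1 := Complex.hasSum_re ((interp_stmt h h0 h2 hD).2.1 z)
  refine hs_congr h1 (fun k => ?_) rfl
  rw [hp, mul_assoc _ (D (y k)), re_ofReal_mul, re_mul_ofReal]
  ring

lemma cprodk_real {y : ℕ → ℝ} (h : Nodes y) {u : ℝ} (hu : 0 < u) (hn : ∀ k, u ≠ y k) (k : ℕ) :
    y k ^ 2 - u ^ 2 ≠ 0 ∧
      cprodk y k u = ((rprod y u * (y k ^ 2 / (y k ^ 2 - u ^ 2)) : ℝ) : ℂ) := by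
  have hk := h.pos k
  have hne : y k ^ 2 - u ^ 2 ≠ 0 := by
    intro h0
    have : (y k - u) * (y k + u) = 0 := by linear_combination h0
    rcases mul_eq_zero.1 this with h1 | h1
    · exact hn k (by linarith)
    · linarith
  refine ⟨hne, ?_⟩
  obtain ⟨-, -, -, p4, -, -, -, -, -, -, -, p12, -⟩ := prodA_stmt h
  have h1 := p4 k u
  rw [p12] at h1
  have hk' : (y k : ℂ) ≠ 0 := by exact_mod_cast hk.ne'
  have hne' : (y k : ℂ) ^ 2 - (u : ℂ) ^ 2 ≠ 0 := by exact_mod_cast hne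
  push_cast
  rw [h1]
  field_simp

lemma cprodk_imag {y : ℕ → ℝ} (h : Nodes y) (s : ℝ) (k : ℕ) :
    cprodk y k (s * I) = ((iprod y s * (y k ^ 2 / (y k ^ 2 + s ^ 2)) : ℝ) : ℂ) := by
  have hk := h.pos k
  have hne : y k ^ 2 + s ^ 2 ≠ 0 := by positivity
  obtain ⟨-, -, -, p4, -, -, -, -, -, -, p11, -, -⟩ := prodA_stmt h
  have h1 := p4 k (s * I)
  rw [p11, mul_pow, I_sq] at h1
  have hk' : (y k : ℂ) ≠ 0 := by exact_mod_cast hk.ne'
  have hne' : (y k : ℂ) ^ 2 + (s : ℂ) ^ 2 ≠ 0 := by exact_mod_cast hne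
  push_cast
  rw [h1]
  field_simp
  ring

/-- The integrand of the base function. -/
noncomputable def gi (m v s : ℝ) : ℝ := s ^ (m - 1) / ((v ^ 2 + s ^ 2) * kerI (s ^ 2))

lemma gi_nonneg (m v : ℝ) {s : ℝ} (hs : 0 < s) : 0 ≤ gi m v s := by
  have := one_le_kerI (pow_pos hs 2)
  unfold gi
  positivity

lemma gi_le (m : ℝ) {v w : ℝ} (hw : 0 < w) (hv : w ≤ v) {s : ℝ} (hs : 0 < s) :
    gi m v s ≤ s ^ (m - 1) / (w ^ 2 + s ^ 2) := by
  have h1 := one_le_kerI (pow_pos hs 2)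
  have h2 : w ^ 2 ≤ v ^ 2 := pow_le_pow_left₀ hw.le hv 2
  refine div_le_div_of_nonneg_left (by positivity) (by positivity) ?_
  have h3 : 0 < v ^ 2 + s ^ 2 := by positivity
  nlinarith

lemma gi_meas (m v : ℝ) : Measurable (gi m v) := by
  unfold gi kerI
  fun_prop

lemma gi_int {m : ℝ} (h0 : 0 < m) (h2 : m < 2) {v : ℝ} (hv : 0 < v) :
    IntegrableOn (gi m v) (Ioi 0) := by
  refine Integrable.mono' ((beta_stmt h0 h2).2 v hv).1 (gi_meas m v).aestronglyMeasurable ?_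
  refine (ae_restrict_mem measurableSet_Ioi).mono fun s hs => ?_
  rw [Real.norm_eq_abs, abs_of_nonneg (gi_nonneg m v hs)]
  exact gi_le m hv le_rfl hs

lemma int_gi_nonneg (m v : ℝ) : 0 ≤ ∫ s in Ioi (0 : ℝ), gi m v s :=
  setIntegral_nonneg measurableSet_Ioi fun _ hs => gi_nonneg m v hs

lemma int_gi_le {m : ℝ} (h0 : 0 < m) (h2 : m < 2) {v w : ℝ} (hw : 0 < w) (hv : w ≤ v) :
    ∫ s in Ioi (0 : ℝ), gi m v s ≤ ∫ s in Ioi (0 : ℝ), s ^ (m - 1) / (w ^ 2 + s ^ 2) :=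
  setIntegral_mono_on (gi_int h0 h2 (hw.trans_le hv)) ((beta_stmt h0 h2).2 w hw).1
    measurableSet_Ioi fun _ hs => gi_le m hw hv hs

/-- Exchange of sum and integral. -/
lemma exch {m : ℝ} (h0 : 0 < m) (h2 : m < 2) {y : ℕ → ℝ} (h : Nodes y) {c : ℕ → ℝ}
    (hc : Summable c) {φ : ℝ → ℝ} (hφ : ∀ s, 0 < s → HasSum (fun k => c k * gi m (y k) s) (φ s)) :
    HasSum (fun k => c k * ∫ s in Ioi (0 : ℝ), gi m (y k) s) (∫ s in Ioi (0 : ℝ), φ s) := by
  have hi : ∀ k, Integrable (fun s => c k * gi m (y k) s) (volume.restrict (Ioi 0)) :=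
    fun k => (gi_int h0 h2 (h.pos k)).const_mul _
  have hs : Summable fun k => ∫ s in Ioi (0 : ℝ), ‖c k * gi m (y k) s‖ := by
    refine Summable.of_nonneg_of_le (fun k => integral_nonneg fun s => norm_nonneg _)
      (fun k => ?_)
      (hc.abs.mul_right (∫ s in Ioi (0 : ℝ), s ^ (m - 1) / (y 0 ^ 2 + s ^ 2)))
    have e : ∫ s in Ioi (0 : ℝ), ‖c k * gi m (y k) s‖ =
        |c k| * ∫ s in Ioi (0 : ℝ), gi m (y k) s := by
      rw [← integral_const_mul]
      refine setIntegral_congr_fun measurableSet_Ioi fun s hs => ?_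
      simp only [norm_mul, Real.norm_eq_abs, abs_of_nonneg (gi_nonneg m _ hs)]
    rw [e]
    exact mul_le_mul_of_nonneg_left (int_gi_le h0 h2 h.1 (h.2.1.monotone (Nat.zero_le k)))
      (abs_nonneg _)
  have h3 := hasSum_integral_of_summable_integral_norm hi hs
  have e2 : ∫ s in Ioi (0 : ℝ), ∑' k, c k * gi m (y k) s = ∫ s in Ioi (0 : ℝ), φ s :=
    setIntegral_congr_fun measurableSet_Ioi fun s hs => (hφ s hs).tsum_eq
  rw [e2] at h3
  simpa only [integral_const_mul] using h3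

lemma cls_ker' {τ : ℝ} (ht0 : -2 < τ) : Cls τ ker ∧ Cls τ fun z => z ^ 2 * ker z := by
  have h1 : Cls (-4) ker := by
    simpa using cls_ker (θ := 1) one_pos (by norm_num)
  exact ⟨h1.mono (by linarith), h1.mul_sq.mono (by linarith)⟩

lemma one_le_iprod {y : ℕ → ℝ} (h : Nodes y) (s : ℝ) : 1 ≤ iprod y s := by
  obtain ⟨-, -, -, -, -, p6, -⟩ := prodB_stmt h
  refine le_trans ?_ (p6 s)
  have h1 : 0 ≤ s ^ 2 / y 0 ^ 2 := by positivity
  have h2 : 0 ≤ s ^ 2 / y 1 ^ 2 := by positivity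
  nlinarith [mul_nonneg h1 h2]

/-- The Lagrange formula for `ker` on the imaginary axis. -/
lemma ker_imag {τ : ℝ} {y : ℕ → ℝ} (h : Adm τ y) (ht0 : -2 < τ) (ht2 : τ ≤ 2) {s : ℝ}
    (hs : 0 < s) :
    HasSum (fun k => (-1) ^ k * wt y k * (ker (y k)).re * (y k ^ 2 / (y k ^ 2 + s ^ 2)))
      (kerI (s ^ 2) / iprod y s) := by
  have h1 := interp_re h ht0 ht2 (cls_ker' ht0).1 (cprodk_imag h.nodes s)
  have h2 := ker_I (pow_pos hs 2)
  rw [Real.sqrt_sq hs.le] at h2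
  rw [h2, ofReal_re] at h1
  have h3 : iprod y s ≠ 0 := (one_pos.trans_le (one_le_iprod h.nodes s)).ne'
  refine hs_congr (h1.div_const (iprod y s)) (fun k => ?_) rfl
  field_simp

/-- Mass balance for the base function. -/
lemma base_mass {m τ : ℝ} (h0 : 0 < m) (h2 : m < 2) (ht0 : -2 < τ) (ht2 : τ ≤ 2) {y : ℕ → ℝ}
    (h : Adm τ y) :
    HasSum (fun k => (-1) ^ k * wt y k * (ker (y k)).re * y k ^ 2 *
      ∫ s in Ioi (0 : ℝ), gi m (y k) s) (∫ s in Ioi (0 : ℝ), s ^ (m - 1) / iprod y s) := by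
  refine exch h0 h2 h.nodes ?_ fun s hs => ?_
  · obtain ⟨-, -, -, -, -, -, -, -, -, -, -, -, p13⟩ := prodA_stmt h.nodes
    have h1 := (interp_re h ht0 ht2 (cls_ker' ht0).2 (z := 0) (p := fun _ => 1)
      (fun k => by simpa using p13 k)).summable
    refine h1.congr fun k => ?_
    rw [← ofReal_pow, re_ofReal_mul]
    ring
  · have h1 := (ker_imag h ht0 ht2 hs).mul_right (s ^ (m - 1) / kerI (s ^ 2))
    have h3 : iprod y s ≠ 0 := (one_pos.trans_le (one_le_iprod h.nodes s)).ne'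
    have h4 : kerI (s ^ 2) ≠ 0 := (one_pos.trans_le (one_le_kerI (pow_pos hs 2))).ne'
    refine hs_congr h1 (fun k => ?_) ?_
    · have : y k ^ 2 + s ^ 2 ≠ 0 := by positivity
      unfold gi
      field_simp
    · field_simp

lemma int_ip {m : ℝ} (h0 : 0 < m) (h2 : m < 2) {y : ℕ → ℝ} (h : Nodes y) {u : ℝ} (hu : 0 < u) :
    IntegrableOn (fun s : ℝ => s ^ (m - 1) / (iprod y s * (u ^ 2 + s ^ 2))) (Ioi 0) := by
  obtain ⟨-, -, -, -, -, -, p7, -⟩ := prodB_stmt h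
  have hm : Measurable (iprod y) := p7.measurable
  refine Integrable.mono' ((beta_stmt h0 h2).2 u hu).1
    (Measurable.aestronglyMeasurable (by fun_prop)) ?_
  refine (ae_restrict_mem measurableSet_Ioi).mono fun s hs => ?_
  have hs' : (0 : ℝ) < s := hs
  have h1 := one_le_iprod h s
  rw [Real.norm_eq_abs, abs_of_nonneg (by positivity)]
  refine div_le_div_of_nonneg_left (by positivity) (by positivity) ?_
  have h3 : 0 < u ^ 2 + s ^ 2 := by positivity
  nlinarith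

/-- The explicit formula for the base function. -/
lemma base_extr {m τ : ℝ} (h0 : 0 < m) (h2 : m < 2) (ht0 : -2 < τ) (ht2 : τ ≤ 2) {y : ℕ → ℝ}
    (h : Adm τ y) {u : ℝ} (hu : 0 < u) (hn : ∀ k, u ≠ y k) :
    HasSum (fun k => (-1) ^ k * wt y k * (ker (y k)).re *
      (rprod y u * (y k ^ 2 / (y k ^ 2 - u ^ 2))) * ∫ s in Ioi (0 : ℝ), gi m (y k) s)
      ((ker u).re * (∫ s in Ioi (0 : ℝ), gi m u s) -
        rprod y u * ∫ s in Ioi (0 : ℝ), s ^ (m - 1) / (iprod y s * (u ^ 2 + s ^ 2))) := by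
  have hb := interp_re h ht0 ht2 (cls_ker' ht0).1 fun k => (cprodk_real h.nodes hu hn k).2
  rw [← integral_const_mul, ← integral_const_mul, ← integral_sub
    ((gi_int h0 h2 hu).const_mul _) ((int_ip h0 h2 h.nodes hu).const_mul _)]
  refine exch h0 h2 h.nodes hb.summable fun s hs => ?_
  have h1 := (hb.sub ((ker_imag h ht0 ht2 hs).mul_left (rprod y u))).mul_right (gi m u s)
  have h3 : iprod y s ≠ 0 := (one_pos.trans_le (one_le_iprod h.nodes s)).ne'
  have h4 : kerI (s ^ 2) ≠ 0 := (one_pos.trans_le (one_le_kerI (pow_pos hs 2))).ne'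
  have h5 : u ^ 2 + s ^ 2 ≠ 0 := by positivity
  refine hs_congr h1 (fun k => ?_) ?_
  · have h6 : y k ^ 2 + s ^ 2 ≠ 0 := by positivity
    have h7 := (cprodk_real h.nodes hu hn k).1
    unfold gi
    field_simp
    ring
  · unfold gi
    field_simp

end R12

open R12 in
/-- Mass balance (R1) and the explicit formula (R2) (paper, 3). -/
theorem r12_stmt {m τ : ℝ} (h0 : 0 < m) (h2 : m < 2) (ht0 : -2 < τ) (ht2 : τ ≤ 2) {y : ℕ → ℝ}
    (h : Adm τ y) {F : ℂ → ℂ} (hF : TypeOne F) (he : ∀ z, F (-z) = F z) (hz : F 0 = 0)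
    {C U : ℝ} (hb : ∀ u : ℝ, U ≤ u → 1 ≤ u → |u ^ m - (F u).re| ≤ C * u ^ τ) :
    HasSum (fun k => wt y k * ((-1) ^ k * (y k ^ m - (F (y k)).re))) (mass m y) ∧
    ∀ u : ℝ, 0 < u → (∀ k, u ≠ y k) →
      (F u).re = extr m y (fun k => (-1) ^ k * (y k ^ m - (F (y k)).re)) u := by
  obtain ⟨G, hG, hGe, hG0, hGf⟩ := baseF_stmt h0 h2
  have hGf' : ∀ u : ℝ, 0 < u → u ^ m - (G u).re =
      kap m * u ^ 2 * (ker u).re * ∫ s in Ioi (0 : ℝ), gi m u s := hGf
  have hκ := (beta_stmt h0 h2).1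
  have hD : Cls τ fun z => F z - G z := by
    refine Cls.of_large (hF.1.sub hG.1) (fun η hη => ?_) (fun z => by rw [he, hGe])
      (C := C + 12 ^ 4) (U := U) fun u hU hu => ?_
    · obtain ⟨A, hA⟩ := hF.2.2 η hη
      obtain ⟨B, hB⟩ := hG.2.2 η hη
      exact ⟨A + B, fun z => (norm_sub_le _ _).trans (by rw [add_mul]; linarith [hA z, hB z])⟩
    · have hu0 : 0 < u := one_pos.trans_le hu
      have e1 : F u - G u = (((F u).re - (G u).re : ℝ) : ℂ) := by
        apply Complex.ext <;> simp [hF.2.1 u, hG.2.1 u]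
      obtain ⟨k, k0, -, k4, hk⟩ := ker_real hu0.ne'
      have e2 := hGf' u hu0
      rw [hk, ofReal_re] at e2
      have e3 := ((beta_stmt h0 h2).2 u hu0).2
      have e4 := mul_le_mul_of_nonneg_left (int_gi_le h0 h2 hu0 le_rfl) hκ.le
      rw [e3] at e4
      have e5 := int_gi_nonneg m u
      have e6 : u ^ (m - 2) ≤ u ^ (τ + 2) := Real.rpow_le_rpow_of_exponent_le hu (by linarith)
      have e7 : u ^ (τ + 2) = u ^ τ * u ^ 2 := by
        rw [Real.rpow_add hu0, Real.rpow_two]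
      have e8 : 0 < u ^ τ := Real.rpow_pos_of_pos hu0 _
      have e9 : 0 ≤ u ^ m - (G u).re := by rw [e2]; positivity
      have e10 : u ^ m - (G u).re ≤ 12 ^ 4 * u ^ τ := by
        rw [e2]
        calc kap m * u ^ 2 * k * ∫ s in Ioi (0 : ℝ), gi m u s
            = u ^ 2 * k * (kap m * ∫ s in Ioi (0 : ℝ), gi m u s) := by ring
          _ ≤ u ^ 2 * k * (u ^ τ * u ^ 2) :=
            mul_le_mul_of_nonneg_left (by linarith) (by positivity)
          _ = k * u ^ 4 * u ^ τ := by ring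
          _ ≤ 12 ^ 4 * u ^ τ := mul_le_mul_of_nonneg_right k4 e8.le
      have e11 := abs_le.1 (hb u hU hu)
      rw [e1, Complex.norm_real, Real.norm_eq_abs, abs_le]
      constructor <;> nlinarith
  obtain ⟨-, -, -, -, -, -, -, -, -, -, -, -, p13⟩ := prodA_stmt h.nodes
  have hD0 := interp_re h ht0 ht2 hD (z := 0) (p := fun _ => 1) fun k => by simpa using p13 k
  simp only [hz, hG0, sub_zero, zero_re, mul_one, sub_re] at hD0
  have hy : ∀ k, y k ^ m - (F (y k)).re =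
      kap m * y k ^ 2 * (ker (y k)).re * (∫ s in Ioi (0 : ℝ), gi m (y k) s) -
        ((F (y k)).re - (G (y k)).re) := fun k => by
    rw [← hGf' _ (h.nodes.pos k)]; ring
  refine ⟨?_, fun u hu hn => ?_⟩
  · have h1 := ((base_mass h0 h2 ht0 ht2 h).mul_left (kap m)).sub hD0
    rw [sub_zero] at h1
    refine hs_congr h1 (fun k => ?_) rfl
    rw [hy]; ring
  · have hDu := interp_re h ht0 ht2 hD fun k => (cprodk_real h.nodes hu hn k).2
    simp only [sub_re] at hDu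
    have h1 := ((base_extr h0 h2 ht0 ht2 h hu hn).mul_left (kap m * u ^ 2)).sub
      (hDu.sub (hD0.mul_left (rprod y u)))
    have h3 := hs_congr h1 (g := fun k => u ^ 2 * rprod y u *
        (wt y k * ((-1) ^ k * (y k ^ m - (F (y k)).re)) / (y k ^ 2 - u ^ 2))) (fun k => by
      have h7 := (cprodk_real h.nodes hu hn k).1
      rw [hy]
      field_simp
      ring) rfl
    have h4 := h3.tsum_eq
    rw [tsum_mul_left] at h4
    have h5 := hGf' u hu
    unfold extr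
    rw [mul_add, h4]
    unfold kap at h5 ⊢
    linarith

end Pool.Agent.P.MP_7e6317_an
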