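import Pool.Agent.P.MP_7e6317_an.D.Cls

namespace Pool.Agent.P.MP_7e6317_an

open Filter Topology Set MeasureTheory Complex

namespace RSep

theorem lip {σ : ℝ} (h4 : -4 ≤ σ) (h0 : σ ≤ 0) {D : ℂ → ℂ} (hD : Cls σ D) :
    ∃ L : ℝ, 0 < L ∧ ∀ u : ℝ, 0 ≤ u → ∀ v : ℝ, |v| ≤ 1 →
      ‖D (u + v) * ker v - D u‖ ≤ L * (1 + u) ^ σ * |v| := by
  obtain ⟨C, hC0, hC⟩ := hD.bd'
  obtain ⟨C1, hC10, hC1⟩ := hD.expT' one_pos
  obtain ⟨C2, hC20, hC2⟩ := ((cls_ker one_pos (by norm_num)).mono h4).bd'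
  simp only [ofReal_one, one_mul] at hC2
  refine ⟨(C * C2 + 1) * Real.exp 10, by positivity, fun u hu v hv => ?_⟩
  have hd : Differentiable ℂ fun z : ℂ => D (u + z) * ker z :=
    (hD.diff.comp ((differentiable_const _).add differentiable_id)).mul ker_diff
  set M := (C * C2 + 1) * (1 + u) ^ σ with hM
  have hM0 : 0 ≤ M := by positivity
  have e1 : ∀ z : ℂ, ‖D (u + z) * ker z‖ ≤
      (C1 * Real.exp (2 * u) * Real.exp 4) * Real.exp (3 * ‖z‖) := fun z => by
    have a1 : ‖(u : ℂ) + z‖ ≤ u + ‖z‖ := (norm_add_le _ _).trans (by simp [abs_of_nonneg hu])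
    have a2 : ‖D (u + z)‖ ≤ C1 * (Real.exp (2 * u) * Real.exp (2 * ‖z‖)) := by
      rw [← Real.exp_add]
      exact (hC1 _).trans (mul_le_mul_of_nonneg_left (Real.exp_le_exp.2 (by linarith)) hC10)
    have a3 : ‖ker z‖ ≤ Real.exp 4 * Real.exp ‖z‖ := (norm_ker_le' z).trans
      (mul_le_mul_of_nonneg_left (Real.exp_le_exp.2 (by linarith [norm_nonneg z]))
        (Real.exp_pos _).le)
    rw [norm_mul, show 3 * ‖z‖ = 2 * ‖z‖ + ‖z‖ by ring, Real.exp_add]
    refine (mul_le_mul a2 a3 (norm_nonneg _) (by positivity)).trans (le_of_eq (by ring))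
  have e2 : ∀ x : ℝ, ‖D (u + x) * ker x‖ ≤ M * (1 + x ^ 2) := fun x => by
    have a1 := hC (u + x)
    rw [ofReal_add] at a1
    have a2 : ((1 + |u + x|) * (1 + |x|)) ^ σ ≤ (1 + u) ^ σ := by
      refine Real.rpow_le_rpow_of_nonpos (by positivity) ?_ h0
      have := abs_add_le (u + x) (-x)
      rw [add_neg_cancel_right, abs_neg, abs_of_nonneg hu] at this
      nlinarith [abs_nonneg x, abs_nonneg (u + x), mul_nonneg (abs_nonneg x) (abs_nonneg (u + x))]
    rw [Real.mul_rpow (by positivity) (by positivity)] at a2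
    have a3 : 0 ≤ (1 + u) ^ σ := by positivity
    calc ‖D (u + x) * ker x‖ ≤ (C * (1 + |u + x|) ^ σ) * (C2 * (1 + |x|) ^ σ) := by
          rw [norm_mul]
          exact mul_le_mul a1 (hC2 x) (norm_nonneg _) (by positivity)
      _ = C * C2 * ((1 + |u + x|) ^ σ * (1 + |x|) ^ σ) := by ring
      _ ≤ C * C2 * (1 + u) ^ σ := mul_le_mul_of_nonneg_left a2 (by positivity)
      _ ≤ M := by rw [hM]; nlinarith
      _ ≤ M * (1 + x ^ 2) := le_mul_of_one_le_right hM0 (by nlinarith [sq_nonneg x])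
  have e3 : ∀ z : ℂ, ‖D (u + z) * ker z‖ ≤ M * Real.exp (5 * ‖z‖) := fun z => by
    refine (pl_bound hd (by norm_num) e1 e2 z).trans ?_
    have a1 : (1 + ‖z‖) ^ 2 ≤ Real.exp (2 * ‖z‖) := by
      rw [two_mul, Real.exp_add, ← sq]
      exact pow_le_pow_left₀ (by positivity) (by linarith [Real.add_one_le_exp ‖z‖]) 2
    have a2 : Real.exp (3 * |z.im|) ≤ Real.exp (3 * ‖z‖) :=
      Real.exp_le_exp.2 (by linarith [abs_im_le_norm z])
    rw [show 5 * ‖z‖ = 2 * ‖z‖ + 3 * ‖z‖ by ring, Real.exp_add, mul_assoc]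
    exact mul_le_mul_of_nonneg_left (mul_le_mul a1 a2 (by positivity) (by positivity)) hM0
  have e4 := lipschitz_of_bound hd (B := fun r => M * Real.exp (5 * r))
    (fun a b hab => mul_le_mul_of_nonneg_left (Real.exp_le_exp.2 (by linarith)) hM0) e3
    (R := 1) (z := v) (w := 0) (by simpa using hv) (by simp)
  simp only [add_zero, ker_zero, mul_one, sub_zero, norm_real, Real.norm_eq_abs] at e4
  refine e4.trans (le_of_eq ?_)
  rw [hM, show (5 : ℝ) * (1 + 1) = 10 by norm_num]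
  ring

end RSep

/-- Weighted uniform continuity (apply `pl_bound` to `D (u + z) ker z / (1+u)^σ`) and separation of alternation points. -/
theorem sep_stmt {σ : ℝ} (h4 : -4 ≤ σ) (h0 : σ ≤ 0) {D : ℂ → ℂ} (hD : Cls σ D) {y : ℕ → ℝ}
    (hy0 : 0 < y 0) (hy : StrictMono y) {η : ℝ} (hη : 0 < η) {K : ℕ}
    (h1 : ∀ k, K ≤ k → η * (1 + y k) ^ σ ≤ |(D (y k)).re|)
    (h2 : ∀ k, K ≤ k → (D (y k)).re * (D (y (k + 1))).re < 0) :
    ∃ g : ℝ, 0 < g ∧ ∀ k : ℕ, g * (k + 1) ≤ y k := by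
  obtain ⟨L, hL, hlip⟩ := RSep.lip h4 h0 hD
  have hpos : ∀ k, y 0 ≤ y k := fun k => hy.monotone (Nat.zero_le k)
  have gap : ∀ k, K ≤ k → min 1 (η / L) ≤ y (k + 1) - y k := fun k hk => by
    have hv : 0 < y (k + 1) - y k := sub_pos.2 (hy (Nat.lt_succ_self k))
    rcases le_total 1 (y (k + 1) - y k) with h | h
    · exact (min_le_left _ _).trans h
    refine (min_le_right _ _).trans ?_
    have a1 := hlip (y k) (hy0.le.trans (hpos k)) (y (k + 1) - y k) (by rwa [abs_of_pos hv])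
    obtain ⟨c, c0, -, -, hc⟩ := ker_real hv.ne'
    rw [hc, ← ofReal_add, add_sub_cancel, abs_of_pos hv] at a1
    have a2 := (abs_re_le_norm _).trans a1
    simp only [sub_re, mul_re, ofReal_re, ofReal_im, mul_zero, sub_zero] at a2
    have a3 : |(D (y k)).re| ≤ |(D (y (k + 1))).re * c - (D (y k)).re| := by
      refine sq_le_sq.1 ?_
      nlinarith [mul_nonneg c0 (neg_nonneg.2 (h2 k hk).le), sq_nonneg ((D (y (k + 1))).re * c)]
    have a4 : 0 < (1 + y k) ^ σ := Real.rpow_pos_of_pos (by linarith [hpos k]) _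
    have a5 := ((h1 k hk).trans a3).trans a2
    rw [div_le_iff₀ hL]
    refine le_of_mul_le_mul_right ?_ a4
    linarith
  set m := min (y 0) (min 1 (η / L)) with hm
  have m0 : 0 < m := by positivity
  have step : ∀ j : ℕ, m * (j + 1) ≤ y (K + j) := fun j => by
    induction j with
    | zero =>
      rw [Nat.cast_zero, zero_add, mul_one]
      exact (min_le_left _ _).trans (hpos K)
    | succ j ih =>
      have := (min_le_right (y 0) _).trans (gap (K + j) (Nat.le_add_right _ _))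
      rw [← add_assoc]
      push_cast
      linarith
  have hK : (0 : ℝ) < K + 1 := by positivity
  refine ⟨m / (K + 1), by positivity, fun k => ?_⟩
  rw [div_mul_eq_mul_div, div_le_iff₀ hK]
  rcases le_total k K with h | h
  · have a1 : (k : ℝ) ≤ K := by exact_mod_cast h
    exact mul_le_mul ((min_le_left _ _).trans (hpos k)) (by linarith) (by positivity)
      (hy0.le.trans (hpos k))
  · obtain ⟨j, rfl⟩ := Nat.exists_eq_add_of_le h
    refine le_trans ?_ (mul_le_mul_of_nonneg_right (step j) hK.le)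
    rw [mul_assoc]
    refine mul_le_mul_of_nonneg_left ?_ m0.le
    push_cast
    nlinarith [mul_nonneg (Nat.cast_nonneg (α := ℝ) j) (Nat.cast_nonneg (α := ℝ) K)]

end Pool.Agent.P.MP_7e6317_an
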