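import Pool.Agent.P.MP_7e6317_an.D.Exist
import Pool.Agent.P.MP_7e6317_an.D.Fin
import Pool.Agent.P.MP_7e6317_an.D.Improve
import Pool.Agent.P.MP_7e6317_an.D.Dual
import Pool.Agent.P.MP_7e6317_an.D.DB2
import Pool.Agent.P.MP_7e6317_an.D.Alt
import Pool.Agent.P.MP_7e6317_an.D.Ident
import Pool.Agent.P.MP_7e6317_an.D.Sep
import Pool.Agent.P.MP_7e6317_an.D.R12
import Pool.Agent.P.MP_7e6317_an.D.Pos
import Pool.Agent.P.MP_7e6317_an.D.Div

namespace Pool.Agent.P.MP_7e6317_an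

open Filter Topology Set MeasureTheory Complex

lemma typeOne_norm {F : ℂ → ℂ} (hF : TypeOne F) (u : ℝ) : ‖F u‖ = |(F u).re| := by
  have : F u = ((F u).re : ℂ) := Complex.ext (by simp) (by simp [hF.2.1 u])
  rw [this, Complex.norm_real, Real.norm_eq_abs, ofReal_re]

lemma small_tail {τ η : ℝ} (hτ : -2 < τ) (hη : 0 < η) :
    ∃ U : ℝ, ∀ u : ℝ, U ≤ u → 1 ≤ u → 12 ^ 4 / u ^ 2 ≤ η * u ^ τ := by
  have h1 : Tendsto (fun u : ℝ => u ^ (τ + 2)) atTop atTop := tendsto_rpow_atTop (by linarith)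
  obtain ⟨U, hU⟩ := eventually_atTop.1 (h1.eventually_ge_atTop (12 ^ 4 / η))
  refine ⟨U, fun u hu h1u => ?_⟩
  have h0 : 0 < u := by linarith
  have h2 := hU u hu
  rw [Real.rpow_add h0, Real.rpow_two, div_le_iff₀ hη] at h2
  rw [div_le_iff₀ (by positivity)]
  linarith

lemma Cor.feas_bound {m τ : ℝ} {L R : ℝ → ℝ → ℝ} (h : Cor m τ L R) {a : ℝ} (ha : 0 < a)
    {F : ℂ → ℂ} (hF : Feas L R a F) :
    ∃ C U : ℝ, ∀ u : ℝ, U ≤ u → 1 ≤ u → |u ^ m - (F u).re| ≤ C * u ^ τ := by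
  obtain ⟨η, C, U, -, -, hw⟩ := h.width a ha
  refine ⟨C, U, fun u hu h1 => ?_⟩
  obtain ⟨-, e1, -, e2⟩ := hw u hu
  obtain ⟨e3, e4⟩ := hF.2.2.2 u (by linarith)
  rw [abs_le]
  constructor <;> linarith

lemma Cor.dev_pos {m τ : ℝ} {L R : ℝ → ℝ → ℝ} (h : Cor m τ L R) {a : ℝ} (ha : 0 < a) (k : ℕ)
    {u : ℝ} (hu : 0 < u) : 0 < dev m L R a k u := by
  unfold dev
  split_ifs
  · linarith [h.insL a ha u hu]
  · linarith [h.insR a ha u hu]

lemma Cor.summable_dev {m τ : ℝ} {L R : ℝ → ℝ → ℝ} (h : Cor m τ L R) {a : ℝ} (ha : 0 < a)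
    {x : ℕ → ℝ} (hx : Adm τ x) : Summable fun k => wt x k * dev m L R a k (x k) := by
  obtain ⟨η, C, U, -, -, hw⟩ := h.width a ha
  have hwt := (prodB_stmt hx.nodes).1
  refine Summable.of_norm_bounded_eventually_nat (hx.2.2.2.1.mul_left C) ?_
  filter_upwards [(prodA_stmt hx.nodes).1.eventually_ge_atTop U] with k hk
  obtain ⟨-, e1, -, e2⟩ := hw _ hk
  rw [Real.norm_eq_abs, abs_of_pos (mul_pos (hwt k) (h.dev_pos ha k (hx.nodes.pos k))),
    mul_left_comm]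
  refine mul_le_mul_of_nonneg_left ?_ (hwt k).le
  unfold dev
  split_ifs
  · exact e1
  · exact e2

/-- Weak duality. -/
lemma Cor.weak {m τ : ℝ} {L R : ℝ → ℝ → ℝ} (h : Cor m τ L R) {c : ℝ} (hc : 0 < c)
    {F : ℂ → ℂ} (hF : Feas L R c F) {a : ℝ} {x : ℕ → ℝ} (ha : 0 < a) (hx : Adm τ x)
    (hle : ∑' k, wt x k * dev m L R a k (x k) ≤ mass m x) : a ≤ c := by
  by_contra hca
  push Not at hca
  obtain ⟨C, U, hb⟩ := h.feas_bound hc hF
  have h1 := (r12_stmt h.m0 h.m2 h.t0 (by linarith [h.t1]) hx hF.1 hF.2.1 hF.2.2.1 hb).1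
  have hwt := (prodB_stmt hx.nodes).1
  have h2 : ∀ k, wt x k * ((-1) ^ k * (x k ^ m - (F (x k)).re)) <
      wt x k * dev m L R a k (x k) := by
    intro k
    refine mul_lt_mul_of_pos_left ?_ (hwt k)
    have hp := hx.nodes.pos k
    obtain ⟨e1, e2⟩ := hF.2.2.2 _ hp
    unfold dev
    rcases Nat.even_or_odd k with hk | hk
    · rw [if_pos hk, hk.neg_one_pow]
      have := h.monoL _ hp hc ha hca
      simp only at this
      linarith
    · rw [if_neg (Nat.not_even_iff_odd.2 hk), hk.neg_one_pow]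
      have := h.monoR _ hp hc ha hca
      simp only at this
      linarith
  have h3 := hasSum_lt (i := 0) (fun k => (h2 k).le) (h2 0) h1 (h.summable_dev ha hx).hasSum
  linarith

/-- The alternation points of a minimiser. -/
lemma Cor.alternation {m τ : ℝ} {L R : ℝ → ℝ → ℝ} (h : Cor m τ L R) {c : ℝ} (hc : 0 < c)
    {F : ℂ → ℂ} (hF : Feas L R c F) (hmin : ∀ a G, 0 < a → Feas L R a G → c ≤ a) :
    ∃ y : ℕ → ℝ, Adm τ y ∧ ∀ k, (F (y k)).re = if Even k then L c (y k) else R c (y k) := by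
  classical
  obtain ⟨F₁, h1⟩ := exists_isBase h.m0 h.m2
  obtain ⟨η, C, U, hη, hU, hw⟩ := h.width c hc
  obtain ⟨U₁, hU₁⟩ := small_tail h.t0 (half_pos hη)
  have ht0 := h.t0
  have ht1 := h.t1
  set Z : Set ℝ := {u : ℝ | 0 < u ∧ ((F u).re = L c u ∨ (F u).re = R c u)} with hZ
  set s : ℝ → ℝ := fun u => if (F u).re = L c u then 1 else -1 with hs
  set δ : ℝ → ℝ := fun u => ((F u).re - (F₁ u).re) / u ^ 2 with hδ
  have hs1 : ∀ u, s u = 1 ∨ s u = -1 := fun u => by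
    simp only [hs]; split_ifs <;> simp
  have hsgn : ∀ u ∈ Z, (s u = 1 ∧ (F u).re = L c u) ∨ (s u = -1 ∧ (F u).re = R c u) := by
    intro u hu
    by_cases hL : (F u).re = L c u
    · exact Or.inl ⟨if_pos hL, hL⟩
    · exact Or.inr ⟨if_neg hL, hu.2.resolve_left hL⟩
  have hδ1 : ∀ u ∈ Z, max U U₁ ≤ u → s u * δ u ≤ -(η / 2 * (1 + u) ^ (τ - 2)) := by
    intro u hu huU
    have hu0 : 0 < u := hu.1
    have hu1 : 1 ≤ u := hU.trans ((le_max_left _ _).trans huU)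
    obtain ⟨e1, -, e2, -⟩ := hw u ((le_max_left _ _).trans huU)
    have e3 := hU₁ u ((le_max_right _ _).trans huU) hu1
    have e4 := abs_le.1 (h1.2.2.2 u hu1)
    have e5 : (1 + u) ^ (τ - 2) ≤ u ^ τ / u ^ 2 := by
      rw [← Real.rpow_two, ← Real.rpow_sub hu0]
      exact Real.rpow_le_rpow_of_nonpos hu0 (by linarith) (by linarith)
    have e6 : s u * ((F u).re - (F₁ u).re) ≤ -(η / 2 * u ^ τ) := by
      rcases hsgn u hu with ⟨p, q⟩ | ⟨p, q⟩ <;> rw [p, q] <;> linarith [e4.1, e4.2]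
    calc s u * δ u = s u * ((F u).re - (F₁ u).re) / u ^ 2 := by simp only [hδ]; ring
      _ ≤ -(η / 2 * u ^ τ) / u ^ 2 := div_le_div_of_nonneg_right e6 (by positivity)
      _ = -(η / 2 * (u ^ τ / u ^ 2)) := by ring
      _ ≤ _ := neg_le_neg (mul_le_mul_of_nonneg_left e5 (half_pos hη).le)
  have hno : ∀ D, Cls (τ - 2 - 2) D → (∀ x : ℝ, (D x).im = 0) →
      ∃ u ∈ Z, s u * ((D u).re - δ u) ≤ 0 := by
    intro D hD hr
    obtain ⟨u, hu, hc'⟩ := improve_stmt h h1 hc hF hmin (D := D)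
      (by rwa [show τ - 4 = τ - 2 - 2 by ring]) hr
    have hu2 : 0 < u ^ 2 := by positivity
    rcases hc' with ⟨p, q⟩ | ⟨p, q⟩
    · refine ⟨u, ⟨hu, Or.inl p⟩, ?_⟩
      have : s u = 1 := if_pos p
      rw [this, one_mul, sub_nonpos, hδ, le_div_iff₀ hu2]
      linarith
    · refine ⟨u, ⟨hu, Or.inr p⟩, ?_⟩
      have : s u = -1 := if_neg (by
        rw [p]; exact ((h.insL c hc u hu).trans (h.insR c hc u hu)).ne')
      rw [this, neg_one_mul, neg_nonpos, sub_nonneg, hδ, div_le_iff₀ hu2]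
      linarith
  obtain ⟨y, ν, hA, hy⟩ := dual_stmt (σ := τ - 2) (by linarith) (Z := Z) (fun u hu => hu.1)
    (fin_stmt h hc hF) s δ hs1 (half_pos hη) hδ1 hno
  obtain ⟨B, hB⟩ := db2_stmt (by linarith) hA
  have hss : ∀ k, s (y k) * s (y (k + 1)) = -1 := by
    intro k
    have e1 := alt_stmt hA hB k
    have e2 := mul_pos (hy k).2 (hy (k + 1)).2
    rcases hs1 (y k) with p | p <;> rcases hs1 (y (k + 1)) with q | q <;>
      rw [p, q] at e2 ⊢ <;> first | (norm_num; done) | (exfalso; nlinarith)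
  obtain ⟨C', U', hb⟩ := h.feas_bound hc hF
  have hW : Cls τ fun z => F z - F₁ z := by
    refine Cls.of_large (hF.1.1.sub h1.1.1) (fun e he => ?_)
      (fun z => by rw [hF.2.1, h1.2.1]) (C := C' + η / 2) (U := max U' U₁) fun u hu hu1 => ?_
    · obtain ⟨A, hA⟩ := hF.1.2.2 e he
      obtain ⟨A', hA'⟩ := h1.1.2.2 e he
      exact ⟨A + A', fun z => (norm_sub_le _ _).trans (by
        rw [add_mul]; linarith [hA z, hA' z])⟩
    · have e0 : F u - F₁ u = (((F u).re - (F₁ u).re : ℝ) : ℂ) :=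
        Complex.ext (by simp) (by simp [hF.1.2.1 u, h1.1.2.1 u])
      have e1 := abs_le.1 (hb u ((le_max_left _ _).trans hu) hu1)
      have e2 := abs_le.1 (h1.2.2.2 u hu1)
      have e3 := hU₁ u ((le_max_right _ _).trans hu) hu1
      rw [e0, Complex.norm_real, Real.norm_eq_abs, abs_le, add_mul]
      constructor <;> linarith [e1.1, e1.2, e2.1, e2.2]
  obtain ⟨E, hE, hWE⟩ := div_stmt hW (w := 0) (by simp [hF.2.2.1, h1.2.2.1])
  have hEδ : ∀ u : ℝ, 0 < u → (E u).re = δ u := by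
    intro u hu
    have e1 := congrArg Complex.re (hWE u)
    rw [show ((u : ℂ) ^ 2 - 0 ^ 2) = ((u ^ 2 : ℝ) : ℂ) by push_cast; ring, re_ofReal_mul,
      sub_re] at e1
    rw [hδ, eq_div_iff (by positivity)]
    linarith
  obtain ⟨K, hK⟩ := eventually_atTop.1 (hA.lim.eventually_ge_atTop (max U U₁))
  have hneg : ∀ k, K ≤ k → s (y k) * δ (y k) < 0 := fun k hk =>
    (hδ1 _ (hy k).1 (hK k hk)).trans_lt (by
      have := (hy k).1.1
      rw [neg_lt_zero]; positivity)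
  obtain ⟨g, hg, hsep⟩ := sep_stmt (σ := τ - 2) (by linarith) (by linarith) hE hA.pos hA.mono
    (half_pos hη) (K := K) (fun k hk => by
      rw [hEδ _ (hy k).1.1]
      have e1 := hδ1 _ (hy k).1 (hK k hk)
      rcases hs1 (y k) with p | p <;> rw [p] at e1
      · linarith [neg_abs_le (δ (y k))]
      · linarith [le_abs_self (δ (y k))])
    (fun k hk => by
      rw [hEδ _ (hy k).1.1, hEδ _ (hy (k + 1)).1.1]
      have e1 := mul_pos_of_neg_of_neg (hneg k hk) (hneg (k + 1) (by omega))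
      rw [mul_mul_mul_comm, hss k] at e1
      linarith)
  obtain ⟨hadm, β, hβ, hν⟩ := ident_stmt (by linarith) hA hB hg hsep
  rw [sub_add_cancel] at hadm
  have hwt := (prodB_stmt hadm.nodes).1
  have hr := (r12_stmt h.m0 h.m2 h.t0 (by linarith) hadm hF.1 hF.2.1 hF.2.2.1 hb).1
  have hmass := (pos_stmt h.m0 h.m2 hadm.nodes).1
  have hsβ : ∀ k, 0 < β * (s (y k) * (-1) ^ k) := by
    intro k
    have e1 := (hy k).2
    have e2 : 0 < wt y k * y k ^ 2 := mul_pos (hwt k) (pow_pos (hy k).1.1 2)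
    rw [hν k, show s (y k) * (β * ((-1) ^ k * wt y k * y k ^ 2)) =
      β * (s (y k) * (-1) ^ k) * (wt y k * y k ^ 2) by ring] at e1
    exact (mul_pos_iff_of_pos_right e2).1 e1
  have hβ0 : 0 < β := by
    by_contra hneg'
    have hβ1 : β < 0 := lt_of_le_of_ne (not_lt.1 hneg') hβ
    have : mass m y ≤ 0 := hr.nonpos fun k => by
      refine mul_nonpos_of_nonneg_of_nonpos (hwt k).le ?_
      have e1 := neg_of_mul_pos_left (mul_comm β _ ▸ hsβ k) hβ1.le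
      have e2 := h.insL c hc _ (hy k).1.1
      have e3 := h.insR c hc _ (hy k).1.1
      rcases hsgn _ (hy k).1 with ⟨p, q⟩ | ⟨p, q⟩ <;> rw [p] at e1 <;> rw [q] <;> nlinarith
    linarith
  refine ⟨y, hadm, fun k => ?_⟩
  have e1 := (mul_pos_iff_of_pos_left hβ0).1 (hsβ k)
  rcases Nat.even_or_odd k with hk | hk
  · rw [if_pos hk]
    rw [hk.neg_one_pow] at e1
    rcases hsgn _ (hy k).1 with ⟨-, q⟩ | ⟨p, -⟩
    · exact q
    · rw [p] at e1; linarith
  · rw [if_neg (Nat.not_even_iff_odd.2 hk)]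
    rw [hk.neg_one_pow] at e1
    rcases hsgn _ (hy k).1 with ⟨p, -⟩ | ⟨-, q⟩
    · rw [p] at e1; linarith
    · exact q

/-- The structure theorem for the corridor problem. -/
theorem cor_main {m τ : ℝ} {L R : ℝ → ℝ → ℝ} (h : Cor m τ L R) :
    ∃ (c : ℝ) (F : ℂ → ℂ) (y : ℕ → ℝ), 0 < c ∧ Feas L R c F ∧ Adm τ y ∧
      (∀ k, (F (y k)).re = if Even k then L c (y k) else R c (y k)) ∧
      HasSum (fun k => wt y k * dev m L R c k (y k)) (mass m y) ∧
      (∀ u : ℝ, 0 < u → u ≤ y 0 → 0 < (F u).re) ∧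
      (∀ u : ℝ, 0 < u → (∀ k, u ≠ y k) →
        (F u).re = extr m y (fun k => dev m L R c k (y k)) u) ∧
      ∀ (a : ℝ) (x : ℕ → ℝ), 0 < a → Adm τ x →
        ∑' k, wt x k * dev m L R a k (x k) ≤ mass m x → a ≤ c := by
  obtain ⟨c, F, hc, hF, hmin⟩ := exist_stmt h
  obtain ⟨y, hy, halt⟩ := h.alternation hc hF hmin
  obtain ⟨C, U, hb⟩ := h.feas_bound hc hF
  obtain ⟨r1, r2⟩ := r12_stmt h.m0 h.m2 h.t0 (by linarith [h.t1]) hy hF.1 hF.2.1 hF.2.2.1 hb
  have hd : ∀ k, (-1) ^ k * (y k ^ m - (F (y k)).re) = dev m L R c k (y k) := by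
    intro k
    rw [halt k, dev]
    rcases Nat.even_or_odd k with hk | hk
    · rw [if_pos hk, if_pos hk, hk.neg_one_pow, one_mul]
    · rw [if_neg (Nat.not_even_iff_odd.2 hk), if_neg (Nat.not_even_iff_odd.2 hk), hk.neg_one_pow]
      ring
  simp only [hd] at r1 r2
  obtain ⟨p1, p2⟩ := (pos_stmt h.m0 h.m2 hy.nodes).2 _
    (fun k => (h.dev_pos hc k (hy.nodes.pos k)).le) r1
  refine ⟨c, F, y, hc, hF, hy, halt, r1, fun u hu hu' => ?_, r2,
    fun a x ha hx hle => h.weak hc hF ha hx hle⟩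
  rcases hu'.eq_or_lt with rfl | hlt
  · rw [← hd 0] at p1
    simp only [pow_zero, one_mul] at p1
    linarith
  · rw [r2 u hu fun k => (hlt.trans_le (hy.2.1.monotone (Nat.zero_le k))).ne]
    exact p2 u hu hlt

end Pool.Agent.P.MP_7e6317_an
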