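import Pool.Agent.P.MP_7e6317_an.D.Cls
import Pool.Agent.P.MP_7e6317_an.Main

namespace Pool.Agent.P.MP_7e6317_an

open Filter Topology Set MeasureTheory Complex

namespace CorPhiA

variable {l : ℝ}

lemma psi_pos (h0 : 0 < l) {x : ℝ} (hx : 0 ≤ x) : psi l x = x ^ l := by
  rw [psi_eq h0, max_eq_left hx, max_eq_right (by linarith), Real.zero_rpow h0.ne', sub_zero]

lemma psi_neg (h0 : 0 < l) {x : ℝ} (hx : 0 ≤ x) : psi l (-x) = -x ^ l := by
  rw [psi_eq h0, neg_neg, max_eq_left hx, max_eq_right (by linarith), Real.zero_rpow h0.ne',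
    zero_sub]

lemma psi_mono (h0 : 0 < l) : StrictMono (psi l) := by
  intro x y h
  rcases le_or_gt 0 x with hx | hx
  · rw [psi_pos h0 hx, psi_pos h0 (by linarith)]
    exact Real.rpow_lt_rpow hx h h0
  · rw [← neg_neg x, psi_neg h0 (by linarith)]
    rcases le_or_gt 0 y with hy | hy
    · rw [psi_pos h0 hy]
      linarith [Real.rpow_pos_of_pos (neg_pos.2 hx) l, Real.rpow_nonneg hy l]
    · rw [← neg_neg y, psi_neg h0 (by linarith), neg_lt_neg_iff]
      exact Real.rpow_lt_rpow (by linarith) (by linarith) h0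

lemma mv (h0 : 0 < l) (h1 : l < 1) {u x y : ℝ} (hu : 0 < u) (hx : u / 2 ≤ x) (hxy : x < y)
    (hy : y ≤ 2 * u) :
    l / 2 * (y - x) * u ^ (l - 1) ≤ y ^ l - x ^ l ∧ y ^ l - x ^ l ≤ 2 * (y - x) * u ^ (l - 1) := by
  obtain ⟨c, hc, e⟩ := exists_hasDerivAt_eq_slope (fun t : ℝ => t ^ l) (fun t => l * t ^ (l - 1))
    hxy (continuous_id.rpow_const fun _ => Or.inr h0.le).continuousOn
    fun t ht => Real.hasDerivAt_rpow_const (Or.inl (by linarith [ht.1] : 0 < t).ne')
  have hd := sub_pos.2 hxy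
  rw [eq_div_iff hd.ne'] at e
  have hp := Real.rpow_pos_of_pos hu (l - 1)
  have hc0 : 0 < c := by linarith [hc.1]
  have t1 : (1 / 2 : ℝ) ≤ 2 ^ (l - 1) := by
    rw [one_div, ← Real.rpow_neg_one]
    exact Real.rpow_le_rpow_of_exponent_le one_le_two (by linarith)
  have a1 : 1 / 2 * u ^ (l - 1) ≤ c ^ (l - 1) :=
    (mul_le_mul_of_nonneg_right t1 hp.le).trans ((Real.mul_rpow zero_le_two hu.le).symm.trans_le
      (Real.rpow_le_rpow_of_nonpos hc0 (by linarith [hc.2]) (by linarith)))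
  have a2 : c ^ (l - 1) ≤ 2 * u ^ (l - 1) := by
    have h3 : (2 * c) ^ (l - 1) ≤ u ^ (l - 1) :=
      Real.rpow_le_rpow_of_nonpos hu (by linarith [hc.1]) (by linarith)
    rw [Real.mul_rpow zero_le_two hc0.le] at h3
    linarith [mul_le_mul_of_nonneg_right t1 (Real.rpow_pos_of_pos hc0 (l - 1)).le]
  rw [← e]
  constructor
  · nlinarith [mul_le_mul_of_nonneg_left a1 (mul_pos h0 hd).le]
  · nlinarith [mul_le_mul_of_nonneg_left a2 (mul_pos h0 hd).le,
      mul_pos (mul_pos (sub_pos.2 h1) hd) hp]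

lemma an_rpow (l : ℝ) {f : ℝ → ℝ} {x : ℝ} (hf : AnalyticAt ℝ f x) (h : 0 < f x) :
    AnalyticAt ℝ (fun t => f t ^ l) x := by
  refine (((hf.log h).mul (analyticAt_const (v := l))).rexp).congr ?_
  filter_upwards [hf.continuousAt.eventually (lt_mem_nhds h)] with t ht
  exact (Real.rpow_def_of_pos ht l).symm

lemma blow {k : ℕ} (hk : k ≤ 1) {b : ℝ} (hb : 0 < b) {f : ℝ → ℝ}
    (h : ∀ᶠ u in 𝓝[>] (0 : ℝ), b ≤ f u) :
    Tendsto (fun u => u ^ k * f u / u ^ 2) (𝓝[>] 0) atTop := by
  refine tendsto_atTop_mono' _ ?_ (tendsto_inv_nhdsGT_zero.const_mul_atTop hb)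
  filter_upwards [h, Ioo_mem_nhdsGT one_pos] with u hu h1
  have h2 : u ^ 1 ≤ u ^ k := pow_le_pow_of_le_one h1.1.le h1.2.le hk
  have h3 := h1.1
  rw [le_div_iff₀ (by positivity), show b * u⁻¹ * u ^ 2 = u ^ 1 * b by field_simp]
  exact mul_le_mul h2 hu hb.le (by positivity)

lemma cor (h0 : 0 < l) (h1 : l < 1) {k : ℕ} (hk : k ≤ 1) :
    Cor (l + k) (l - 1 + k) (fun a u => u ^ k * psi l (u - a))
      (fun a u => u ^ k * (u + a) ^ l) := by
  have k0 : (0 : ℝ) ≤ k := Nat.cast_nonneg k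
  have k1 : (k : ℝ) ≤ 1 := by exact_mod_cast hk
  have cp : Continuous (psi l) := (lineF_psi h0 h1.le).cont
  have cr : Continuous fun x : ℝ => x ^ l := continuous_id.rpow_const fun _ => Or.inr h0.le
  have hm := psi_mono h0
  have ep : ∀ (s u : ℝ), 0 < u → u ^ (s + k) = u ^ k * u ^ s := fun s u hu => by
    rw [Real.rpow_add_natCast hu.ne', mul_comm]
  have cL : ∀ u : ℝ, Continuous fun a => u ^ k * psi l (u - a) := fun u => by fun_prop
  refine ⟨by linarith, by linarith, by linarith, by linarith, fun a _ => ?_, fun a _ => ?_,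
    fun u _ => (cL u).continuousOn, fun u _ => ?_, fun u hu a _ b _ h => ?_,
    fun u hu a ha b _ h => ?_, fun a ha u hu => ?_, fun a ha u hu => ?_, fun a ha => ?_,
    fun c hc ε hε => ?_, fun a ha => ?_, fun a ha => ?_, fun U M => ?_, fun u hu ε hε => ?_,
    fun a ha => ?_, fun a ha u hu => ?_, fun a ha => Or.inr ⟨a, ha, fun u hu => ?_, ?_⟩⟩
  · exact Continuous.continuousOn (by fun_prop)
  · exact ((continuous_pow k).mul (cr.comp (continuous_add_const a))).continuousOn
  · exact (continuous_const.mul (cr.comp (continuous_const_add u))).continuousOn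
  · exact mul_lt_mul_of_pos_left (hm (by linarith)) (by positivity)
  · have : 0 < a := ha
    exact mul_lt_mul_of_pos_left (Real.rpow_lt_rpow (by linarith) (by linarith) h0) (by positivity)
  · rw [ep l u hu, ← psi_pos h0 hu.le]
    exact mul_lt_mul_of_pos_left (hm (by linarith)) (by positivity)
  · rw [ep l u hu]
    exact mul_lt_mul_of_pos_left (Real.rpow_lt_rpow hu.le (by linarith) h0) (by positivity)
  · refine ⟨l / 2 * a, 2 * a, max 1 (2 * a), by positivity, le_max_left _ _, fun u hu => ?_⟩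
    have h2 : 2 * a ≤ u := (le_max_right _ _).trans hu
    have hu0 : 0 < u := by linarith
    have m1 := mv h0 h1 hu0 (x := u - a) (y := u) (by linarith) (by linarith) (by linarith)
    have m2 := mv h0 h1 hu0 (x := u) (y := u + a) (by linarith) (by linarith) (by linarith)
    rw [sub_sub_cancel] at m1
    rw [add_sub_cancel_left] at m2
    have hp : 0 ≤ u ^ k := by positivity
    simp only [ep _ u hu0, psi_pos h0 (show 0 ≤ u - a by linarith), ← mul_sub,
      mul_left_comm _ (u ^ k)]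
    exact ⟨mul_le_mul_of_nonneg_left m1.1 hp, mul_le_mul_of_nonneg_left m1.2 hp,
      mul_le_mul_of_nonneg_left m2.1 hp, mul_le_mul_of_nonneg_left m2.2 hp⟩
  · obtain ⟨a, ha, hac, hd⟩ : ∃ a, 0 < a ∧ a < c ∧ 2 * (c - a) ≤ ε :=
      ⟨max (c / 2) (c - ε / 2), lt_max_of_lt_left (by linarith), max_lt (by linarith) (by linarith),
        by linarith [le_max_right (c / 2) (c - ε / 2)]⟩
    refine ⟨a, 2 * c, ha, hac, fun u hu => ?_⟩
    have hu0 : 0 < u := by linarith
    have m1 := (mv h0 h1 hu0 (x := u - c) (y := u - a) (by linarith) (by linarith) (by linarith)).2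
    have m2 := (mv h0 h1 hu0 (x := u + a) (y := u + c) (by linarith) (by linarith) (by linarith)).2
    have m3 := mul_le_mul_of_nonneg_right hd (Real.rpow_pos_of_pos hu0 (l - 1)).le
    rw [sub_sub_sub_cancel_left] at m1
    rw [add_sub_add_left_eq_sub] at m2
    have hp : 0 ≤ u ^ k := by positivity
    simp only [ep _ u hu0, psi_pos h0 (show 0 ≤ u - a by linarith),
      psi_pos h0 (show 0 ≤ u - c by linarith), ← mul_sub, mul_left_comm _ (u ^ k)]
    exact ⟨mul_le_mul_of_nonneg_left (m1.trans m3) hp, mul_le_mul_of_nonneg_left (m2.trans m3) hp⟩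
  · have := blow hk (Real.rpow_pos_of_pos (half_pos ha) l) (f := fun u => -psi l (u - a)) (by
      filter_upwards [Ioo_mem_nhdsGT (half_pos ha)] with u hu
      rw [le_neg, ← psi_neg h0 (half_pos ha).le]
      exact hm.monotone (by linarith [hu.2]))
    refine (tendsto_neg_atTop_atBot.comp this).congr fun u => ?_
    simp only [Function.comp, mul_neg, neg_div, neg_neg]
  · refine blow hk (Real.rpow_pos_of_pos ha l) ?_
    filter_upwards [self_mem_nhdsWithin] with u hu
    exact Real.rpow_le_rpow ha.le (le_add_of_nonneg_left (le_of_lt hu)) h0.le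
  · obtain ⟨T, hT⟩ : ∃ T, T = |M| * (|U| + U ^ 2) := ⟨_, rfl⟩
    have hT0 : 0 ≤ T := by rw [hT]; positivity
    have hb : 0 ≤ T ^ l⁻¹ := Real.rpow_nonneg hT0 _
    have hb' := Real.rpow_inv_rpow hT0 h0.ne'
    have hU := le_abs_self U
    have hU0 := abs_nonneg U
    refine ⟨|U| + T ^ l⁻¹ + 1, by positivity, fun u hu hU' => ?_⟩
    have hp : 0 ≤ u ^ k := by positivity
    have h2 : M * u ^ 2 ≤ u ^ k * T := by
      have h3 : u ^ 2 ≤ u ^ k * (|U| + U ^ 2) := by
        interval_cases k <;> nlinarith [mul_nonneg hu.le (sq_nonneg U)]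
      rw [hT, mul_left_comm]
      exact mul_le_mul (le_abs_self M) h3 (by positivity) (abs_nonneg M)
    have h4 : psi l (u - (|U| + T ^ l⁻¹ + 1)) ≤ -T := by
      conv_rhs => rw [← hb', ← psi_neg h0 hb]
      exact hm.monotone (by linarith)
    have h5 : T ≤ (u + (|U| + T ^ l⁻¹ + 1)) ^ l :=
      hb'.symm.trans_le (Real.rpow_le_rpow hb (by linarith) h0.le)
    exact ⟨by linarith [mul_le_mul_of_nonneg_left h4 hp],
      h2.trans (mul_le_mul_of_nonneg_left h5 hp)⟩
  · have h2 : ∀ᶠ a in 𝓝 (0 : ℝ), u ^ (l + k) - ε < u ^ k * psi l (u - a) :=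
      (cL u).continuousAt.eventually (lt_mem_nhds (by
        simp only [sub_zero, psi_pos h0 hu.le, ep l u hu]; linarith))
    obtain ⟨a, h3, h4⟩ := ((h2.filter_mono nhdsWithin_le_nhds).and
      (self_mem_nhdsWithin (s := Ioi 0))).exists
    exact ⟨a, h4, h3.le⟩
  · have hal := Real.rpow_pos_of_pos ha l
    refine ⟨a ^ l + 2 + a, fun u hu => ?_⟩
    have hp : 0 ≤ u ^ k := by positivity
    have h2 : -a ^ l ≤ psi l (u - a) := by
      rw [← psi_neg h0 ha.le]
      exact hm.monotone (by linarith)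
    have h3 : (u + a) ^ l ≤ 1 + (u + a) := by
      rcases le_total (u + a) 1 with h | h
      · linarith [Real.rpow_le_one (by linarith) h h0.le]
      · linarith [Real.rpow_le_self_of_one_le h h1.le]
    have h4 : u ^ k ≤ 1 + u ^ 2 ∧ u ^ k * u ≤ 1 + u ^ 2 := by
      interval_cases k <;> constructor <;> nlinarith [sq_nonneg (u - 1)]
    constructor
    · nlinarith [mul_le_mul_of_nonneg_left h2 hp, mul_le_mul_of_nonneg_left h4.1 hal.le,
        mul_pos ha (show 0 < 1 + u ^ 2 by positivity)]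
    · nlinarith [mul_le_mul_of_nonneg_left h3 hp, mul_le_mul_of_nonneg_left h4.1 ha.le,
        mul_pos hal (show 0 < 1 + u ^ 2 by positivity)]
  · exact (analyticAt_id.pow k).mul (an_rpow l (analyticAt_id.add analyticAt_const)
      (add_pos hu ha))
  · refine (analyticAt_id.pow k).mul ?_
    rcases lt_or_gt_of_ne (show u ≠ a from hu.2) with h | h
    · refine (an_rpow l (f := fun t => a - t) (by fun_prop) (sub_pos.2 h)).neg.congr ?_
      filter_upwards [gt_mem_nhds h] with t ht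
      rw [Pi.neg_apply, ← psi_neg h0 (sub_pos.2 ht).le, neg_sub]
    · refine (an_rpow l (f := fun t => t - a) (by fun_prop) (sub_pos.2 h)).congr ?_
      filter_upwards [lt_mem_nhds h] with t ht
      rw [psi_pos h0 (sub_pos.2 ht).le]
  · have h2 : Tendsto (fun u => u - a) (𝓝[>] a) (𝓝[>] 0) :=
      tendsto_nhdsWithin_iff.2 ⟨((continuous_sub_right a).tendsto' a 0 (sub_self a)).mono_left
        nhdsWithin_le_nhds, eventually_mem_nhdsWithin.mono fun u hu => mem_Ioi.2 (sub_pos.2 hu)⟩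
    have h3 : Tendsto (fun u : ℝ => u ^ k) (𝓝[>] a) (𝓝 (a ^ k)) :=
      ((continuous_pow k).tendsto a).mono_left nhdsWithin_le_nhds
    refine (h3.pos_mul_atTop (by positivity)
      ((tendsto_rpow_neg_nhdsGT_zero (sub_neg.2 h1)).comp h2)).congr' ?_
    filter_upwards [self_mem_nhdsWithin] with u hu
    have h4 : 0 < u - a := sub_pos.2 hu
    rw [Function.comp, sub_self, psi_pos h0 le_rfl, Real.zero_rpow h0.ne', mul_zero, sub_zero,
      psi_pos h0 h4.le, Real.rpow_sub_one h4.ne', mul_div_assoc]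

end CorPhiA

/-- The corridors of `phi` and `psi` satisfy the axioms. -/
theorem corPhi_stmt {l : ℝ} (h0 : 0 < l) (h1 : l < 1) :
    Cor l (l - 1) (fun a u => psi l (u - a)) (fun a u => (u + a) ^ l) ∧
    Cor (l + 1) l (fun a u => u * psi l (u - a)) (fun a u => u * (u + a) ^ l) :=
  ⟨by simpa using CorPhiA.cor h0 h1 zero_le_one, by simpa using CorPhiA.cor h0 h1 le_rfl⟩

end Pool.Agent.P.MP_7e6317_an
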