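import Pool.Agent.P.MP_7e6317_an.D.Cls
import Pool.Agent.P.MP_7e6317_an.Main

namespace Pool.Agent.P.MP_7e6317_an

open Filter Topology Set MeasureTheory Complex

namespace CT

variable {l : ℝ}

lemma psi_nn (h0 : 0 < l) {x : ℝ} (hx : 0 ≤ x) : psi l x = x ^ l := by
  rw [psi_eq h0, max_eq_left hx, max_eq_right (by linarith), Real.zero_rpow h0.ne', sub_zero]

lemma psi_np (h0 : 0 < l) {x : ℝ} (hx : x ≤ 0) : psi l x = -((-x) ^ l) := by
  rw [psi_eq h0, max_eq_right hx, max_eq_left (by linarith), Real.zero_rpow h0.ne', zero_sub]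

lemma psi_cont (h0 : 0 < l) : Continuous (psi l) := by
  rw [funext (psi_eq h0)]
  exact ((continuous_id.max continuous_const).rpow_const fun _ => Or.inr h0.le).sub
    ((continuous_neg.max continuous_const).rpow_const fun _ => Or.inr h0.le)

lemma psi_mono (h0 : 0 < l) : StrictMono (psi l) := by
  intro x y hxy
  rcases le_or_gt 0 x with hx | hx
  · rw [psi_nn h0 hx, psi_nn h0 (by linarith)]
    exact Real.rpow_lt_rpow hx hxy h0
  · rcases le_or_gt y 0 with hy | hy
    · rw [psi_np h0 hx.le, psi_np h0 hy]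
      exact neg_lt_neg (Real.rpow_lt_rpow (by linarith) (by linarith) h0)
    · rw [psi_np h0 hx.le, psi_nn h0 hy.le]
      have h1 : 0 < (-x) ^ l := Real.rpow_pos_of_pos (by linarith) _
      have h2 : 0 < y ^ l := Real.rpow_pos_of_pos hy _
      linarith

/-- Tangent line inequality. -/
lemma tang (h0 : 0 < l) (h1 : l < 1) {x y : ℝ} (hx : 0 < x) (hy : 0 ≤ y) :
    y ^ l ≤ x ^ l + l * (y - x) * x ^ (l - 1) := by
  have h := rpow_one_add_le_one_add_mul_self (s := y / x - 1)
    (by have := div_nonneg hy hx.le; linarith) h0.le h1.le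
  have e : 1 + (y / x - 1) = y / x := by ring
  rw [e, Real.div_rpow hy hx.le, div_le_iff₀ (Real.rpow_pos_of_pos hx _)] at h
  have e2 : x ^ (l - 1) = x ^ l / x := Real.rpow_sub_one hx.ne' l
  rw [e2]
  have e3 : (1 + l * (y / x - 1)) * x ^ l = x ^ l + l * (y - x) * (x ^ l / x) := by
    field_simp
  linarith

lemma half_le (h0 : 0 < l) (h1 : l < 1) {x y : ℝ} (hx : 0 < x) (hy : x / 2 ≤ y) :
    y ^ (l - 1) ≤ 2 * x ^ (l - 1) := by
  have hy0 : 0 < y := by linarith
  have h2 : y ^ (l - 1) ≤ (x / 2) ^ (l - 1) :=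
    Real.rpow_le_rpow_of_nonpos (by linarith) hy (by linarith)
  rw [Real.div_rpow hx.le (by norm_num)] at h2
  have h3 : (2 : ℝ) ^ (-1 : ℝ) ≤ 2 ^ (l - 1) :=
    Real.rpow_le_rpow_of_exponent_le (by norm_num) (by linarith)
  rw [Real.rpow_neg_one] at h3
  have h4 : 0 < x ^ (l - 1) := Real.rpow_pos_of_pos hx _
  have h5 : x ^ (l - 1) / 2 ^ (l - 1) ≤ x ^ (l - 1) / (2 : ℝ)⁻¹ :=
    div_le_div_of_nonneg_left h4.le (by norm_num) h3
  have h6 : x ^ (l - 1) / (2 : ℝ)⁻¹ = 2 * x ^ (l - 1) := by field_simp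
  linarith

lemma sq_l {u : ℝ} (hu : 0 < u) (p : ℝ) : u ^ (2 * p) = (u ^ 2) ^ p := by
  rw [sq_rpow, abs_of_pos hu]

lemma sq_l' {u : ℝ} (hu : 0 < u) : u ^ (2 * l - 2) = (u ^ 2) ^ (l - 1) := by
  rw [← sq_l hu]; congr 1; ring

lemma an_rpow {f : ℝ → ℝ} {x : ℝ} (hf : AnalyticAt ℝ f x) (hx : 0 < f x) (p : ℝ) :
    AnalyticAt ℝ (fun u => f u ^ p) x := by
  have h : AnalyticAt ℝ (fun u => Real.exp (Real.log (f u) * p)) x :=
    ((hf.log hx).mul analyticAt_const).rexp'
  refine h.congr ?_
  filter_upwards [hf.continuousAt.eventually (lt_mem_nhds hx)] with u hu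
  exact (Real.rpow_def_of_pos hu p).symm

lemma inv_sq : Tendsto (fun u : ℝ => (u ^ 2)⁻¹) (𝓝[>] 0) atTop := by
  have h : Tendsto (fun u : ℝ => u ^ 2) (𝓝[>] 0) (𝓝[>] 0) := by
    refine tendsto_nhdsWithin_iff.2 ⟨?_, ?_⟩
    · have : Tendsto (fun u : ℝ => u ^ 2) (𝓝 0) (𝓝 (0 ^ 2)) := (continuous_pow 2).tendsto 0
      simpa using this.mono_left nhdsWithin_le_nhds
    · filter_upwards [self_mem_nhdsWithin] with u hu
      exact pow_pos (show 0 < u from hu) 2
  exact tendsto_inv_nhdsGT_zero.comp h

lemma zero_bot {f : ℝ → ℝ} (hf : Continuous f) (h : f 0 < 0) :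
    Tendsto (fun u => f u / u ^ 2) (𝓝[>] 0) atBot := by
  simpa only [div_eq_mul_inv] using
    ((hf.tendsto 0).mono_left nhdsWithin_le_nhds).neg_mul_atTop h inv_sq

lemma zero_top {f : ℝ → ℝ} (hf : Continuous f) (h : 0 < f 0) :
    Tendsto (fun u => f u / u ^ 2) (𝓝[>] 0) atTop := by
  simpa only [div_eq_mul_inv] using
    ((hf.tendsto 0).mono_left nhdsWithin_le_nhds).pos_mul_atTop h inv_sq

lemma theta_cor (h0 : 0 < l) (h1 : l < 1) :
    Cor (2 * l) (2 * l - 2) (fun a u => psi l (u ^ 2 - 2 * a)) (fun a u => (u ^ 2 + 2 * a) ^ l) where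
  m0 := by linarith
  m2 := by linarith
  t0 := by linarith
  t1 := by linarith
  cuL a _ := ((psi_cont h0).comp ((continuous_pow 2).sub continuous_const)).continuousOn
  cuR a _ := (((continuous_pow 2).add continuous_const).rpow_const
    fun _ => Or.inr h0.le).continuousOn
  caL u _ := ((psi_cont h0).comp
    (continuous_const.sub (continuous_const.mul continuous_id))).continuousOn
  caR u _ := ((continuous_const.add (continuous_const.mul continuous_id)).rpow_const
    fun _ => Or.inr h0.le).continuousOn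
  monoL u _ a _ b _ hab := psi_mono h0 (by linarith)
  monoR u _ a ha b _ hab := Real.rpow_lt_rpow (by have : (0 : ℝ) < a := ha; positivity)
    (by linarith) h0
  insL a ha u hu := by
    rw [sq_l hu, ← psi_nn h0 (sq_nonneg u)]
    exact psi_mono h0 (by linarith)
  insR a ha u hu := by
    rw [sq_l hu]
    exact Real.rpow_lt_rpow (sq_nonneg u) (by linarith) h0
  width a ha := by
    refine ⟨l * a, 4 * l * a, 1 + 4 * a, by positivity, by linarith, fun u hu => ?_⟩
    have hu0 : 0 < u := by linarith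
    have hx : 4 * a ≤ u ^ 2 := by nlinarith
    rw [sq_l hu0, sq_l' hu0]
    set x := u ^ 2 with hxd
    have hx0 : 0 < x := by linarith
    have hp : 0 < x ^ (l - 1) := Real.rpow_pos_of_pos hx0 _
    have hla : 0 < l * a := by positivity
    have hL : psi l (x - 2 * a) = (x - 2 * a) ^ l := psi_nn h0 (by linarith)
    have t1 := tang h0 h1 hx0 (show 0 ≤ x - 2 * a by linarith)
    have t2 := tang h0 h1 (show 0 < x - 2 * a by linarith) hx0.le
    have t3 := tang h0 h1 hx0 (show 0 ≤ x + 2 * a by linarith)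
    have t4 := tang h0 h1 (show 0 < x + 2 * a by linarith) hx0.le
    have s1 := half_le h0 h1 hx0 (show x / 2 ≤ x - 2 * a by linarith)
    have s2 := half_le h0 h1 (show 0 < x + 2 * a by linarith)
      (show (x + 2 * a) / 2 ≤ x by linarith)
    simp only [hL]
    refine ⟨by nlinarith, by nlinarith, by nlinarith, by nlinarith⟩
  equi c hc ε hε := by
    refine ⟨c - min (c / 2) (ε / 4), 1 + 4 * c, ?_, ?_, fun u hu => ?_⟩
    · have := min_le_left (c / 2) (ε / 4); linarith
    · have : 0 < min (c / 2) (ε / 4) := lt_min (by linarith) (by linarith)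
      linarith
    have hd0 : 0 < min (c / 2) (ε / 4) := lt_min (by linarith) (by linarith)
    have hd1 := min_le_left (c / 2) (ε / 4)
    have hd2 := min_le_right (c / 2) (ε / 4)
    set d := min (c / 2) (ε / 4) with hdd
    have hu0 : 0 < u := by linarith
    have hx : 4 * c ≤ u ^ 2 := by nlinarith
    rw [sq_l' hu0]
    set x := u ^ 2 with hxd
    have hx0 : 0 < x := by linarith
    have hp : 0 < x ^ (l - 1) := Real.rpow_pos_of_pos hx0 _
    have hL1 : psi l (x - 2 * (c - d)) = (x - 2 * (c - d)) ^ l := psi_nn h0 (by linarith)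
    have hL2 : psi l (x - 2 * c) = (x - 2 * c) ^ l := psi_nn h0 (by linarith)
    have t1 := tang h0 h1 (show 0 < x - 2 * c by linarith)
      (show 0 ≤ x - 2 * (c - d) by linarith)
    have t2 := tang h0 h1 (show 0 < x + 2 * (c - d) by linarith)
      (show 0 ≤ x + 2 * c by linarith)
    have s1 := half_le h0 h1 hx0 (show x / 2 ≤ x - 2 * c by linarith)
    have s2 := half_le h0 h1 hx0 (show x / 2 ≤ x + 2 * (c - d) by linarith)
    have hld : 0 < l * d := by positivity
    have hld2 : 4 * (l * d) ≤ ε := by nlinarith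
    have k : 4 * (l * d) * x ^ (l - 1) ≤ ε * x ^ (l - 1) := mul_le_mul_of_nonneg_right hld2 hp.le
    simp only [hL1, hL2]
    refine ⟨by nlinarith, by nlinarith⟩
  zeroL a ha := by
    refine zero_bot (f := fun u => psi l (u ^ 2 - 2 * a))
      ((psi_cont h0).comp ((continuous_pow 2).sub continuous_const)) ?_
    have h := psi_mono h0 (show (0 : ℝ) ^ 2 - 2 * a < 0 by linarith)
    rwa [psi_nn h0 le_rfl, Real.zero_rpow h0.ne'] at h
  zeroR a ha := by
    refine zero_top (f := fun u => (u ^ 2 + 2 * a) ^ l)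
      (((continuous_pow 2).add continuous_const).rpow_const fun _ => Or.inr h0.le) ?_
    exact Real.rpow_pos_of_pos (by positivity) _
  big U M := by
    set K := |M| * U ^ 2 + 1 with hK
    have hK0 : 0 < K := by positivity
    set t := K ^ l⁻¹ with ht
    have ht0 : 0 < t := Real.rpow_pos_of_pos hK0 _
    have htl : t ^ l = K := Real.rpow_inv_rpow hK0.le h0.ne'
    refine ⟨(t + U ^ 2) / 2, by positivity, fun u hu huU => ?_⟩
    have h2 : u ^ 2 ≤ U ^ 2 := by nlinarith
    have h3 : M * u ^ 2 ≤ K := by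
      have : M * u ^ 2 ≤ |M| * U ^ 2 :=
        mul_le_mul (le_abs_self M) h2 (sq_nonneg u) (abs_nonneg M)
      linarith
    constructor
    · have h4 := (psi_mono h0).monotone (show u ^ 2 - 2 * ((t + U ^ 2) / 2) ≤ -t by linarith)
      rw [psi_np h0 (x := -t) (by linarith), neg_neg, htl] at h4
      linarith
    · have h4 : t ^ l ≤ (u ^ 2 + 2 * ((t + U ^ 2) / 2)) ^ l :=
        Real.rpow_le_rpow ht0.le (by nlinarith) h0.le
      linarith
  small u hu ε hε := by
    have hc : Continuous fun a : ℝ => psi l (u ^ 2 - 2 * a) :=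
      (psi_cont h0).comp (continuous_const.sub (continuous_const.mul continuous_id))
    have h0' : u ^ (2 * l) - ε < psi l (u ^ 2 - 2 * 0) := by
      rw [mul_zero, sub_zero, psi_nn h0 (sq_nonneg u), sq_l hu]; linarith
    have h2 : ∀ᶠ a in 𝓝[>] (0 : ℝ), u ^ (2 * l) - ε < psi l (u ^ 2 - 2 * a) :=
      ((hc.tendsto 0).eventually (lt_mem_nhds h0')).filter_mono nhdsWithin_le_nhds
    obtain ⟨a, ha1, ha2⟩ := (h2.and self_mem_nhdsWithin).exists
    exact ⟨a, ha2, ha1.le⟩
  bd a ha := by
    have hp : 0 < (2 * a) ^ l := Real.rpow_pos_of_pos (by linarith) _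
    refine ⟨1 + 2 * a + (2 * a) ^ l, fun u hu => ⟨?_, ?_⟩⟩
    · have h4 := (psi_mono h0).monotone
        (show -(2 * a) ≤ u ^ 2 - 2 * a by nlinarith)
      rw [psi_np h0 (x := -(2 * a)) (by linarith), neg_neg] at h4
      nlinarith [sq_nonneg u]
    · have t := tang h0 h1 one_pos (show 0 ≤ u ^ 2 + 2 * a by positivity)
      rw [Real.one_rpow, Real.one_rpow] at t
      nlinarith [sq_nonneg u, mul_nonneg hp.le (sq_nonneg u), mul_nonneg ha.le (sq_nonneg u),
        mul_nonneg (sub_nonneg.2 h1.le) (show 0 ≤ u ^ 2 + 2 * a by positivity)]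
  anR a ha u _ := by
    refine an_rpow (f := fun u => u ^ 2 + 2 * a) ((analyticAt_id.pow 2).add analyticAt_const) ?_ l
    positivity
  anL a ha := by
    right
    have hα : 0 < √(2 * a) := Real.sqrt_pos.2 (by linarith)
    have hα2 : √(2 * a) ^ 2 = 2 * a := Real.sq_sqrt (by linarith)
    set α := √(2 * a) with hαd
    refine ⟨α, hα, ?_, ?_⟩
    · intro u hu
      have hu0 : 0 < u := hu.1
      have hne : u ≠ α := hu.2
      have hf : AnalyticAt ℝ (fun u : ℝ => u ^ 2 - 2 * a) u :=
        (analyticAt_id.pow 2).sub analyticAt_const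
      rcases lt_or_gt_of_ne hne with h | h
      · have hneg : u ^ 2 - 2 * a < 0 := by nlinarith
        have h2 := (an_rpow (f := fun u : ℝ => -(u ^ 2 - 2 * a)) hf.neg (by simpa using hneg) l).neg
        refine h2.congr ?_
        filter_upwards [hf.continuousAt.eventually (gt_mem_nhds hneg)] with v hv
        exact (psi_np h0 hv.le).symm
      · have hpos : 0 < u ^ 2 - 2 * a := by nlinarith
        refine (an_rpow hf hpos l).congr ?_
        filter_upwards [hf.continuousAt.eventually (lt_mem_nhds hpos)] with v hv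
        exact (psi_nn h0 hv.le).symm
    · have hs : Tendsto (fun u : ℝ => u - α) (𝓝[>] α) (𝓝[>] 0) := by
        refine tendsto_nhdsWithin_iff.2 ⟨?_, ?_⟩
        · have : Tendsto (fun u : ℝ => u - α) (𝓝 α) (𝓝 (α - α)) :=
            (continuous_id.sub continuous_const).tendsto α
          simpa using this.mono_left nhdsWithin_le_nhds
        · filter_upwards [self_mem_nhdsWithin] with u hu
          exact sub_pos.2 (show α < u from hu)
      have h2 := ((tendsto_rpow_neg_nhdsGT_zero (show l - 1 < 0 by linarith)).comp hs).const_mul_atTop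
        (Real.rpow_pos_of_pos hα l)
      refine tendsto_atTop_mono' _ ?_ h2
      filter_upwards [self_mem_nhdsWithin] with u hu
      have hu' : α < u := hu
      have e1 : psi l (α ^ 2 - 2 * a) = 0 := by
        rw [hα2, sub_self, psi_nn h0 le_rfl, Real.zero_rpow h0.ne']
      have e2 : u ^ 2 - 2 * a = (u + α) * (u - α) := by rw [← hα2]; ring
      have e3 : psi l (u ^ 2 - 2 * a) = (u + α) ^ l * (u - α) ^ l := by
        rw [psi_nn h0 (by nlinarith), e2, Real.mul_rpow (by linarith) (by linarith)]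
      simp only [Function.comp, e1, e3, sub_zero]
      rw [mul_div_assoc, ← Real.rpow_sub_one (by linarith)]
      exact mul_le_mul_of_nonneg_right (Real.rpow_le_rpow hα.le (by linarith) h0.le)
        (Real.rpow_nonneg (by linarith) _)

lemma abs_cor {α : ℝ} (hα : 0 < α) :
    Cor 1 0 (fun a u => u - a - 2 * (a / α)) (fun a u => u + a) where
  m0 := by norm_num
  m2 := by norm_num
  t0 := by norm_num
  t1 := by norm_num
  cuL a _ := ((continuous_id.sub continuous_const).sub continuous_const).continuousOn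
  cuR a _ := (continuous_id.add continuous_const).continuousOn
  caL u _ := ((continuous_const.sub continuous_id).sub
    (continuous_const.mul (continuous_id.div_const α))).continuousOn
  caR u _ := (continuous_const.add continuous_id).continuousOn
  monoL u _ a _ b _ hab := by
    have : a / α < b / α := div_lt_div_of_pos_right hab hα
    simp only
    linarith
  monoR u _ a _ b _ hab := by simp only; linarith
  insL a ha u _ := by
    have : 0 < a / α := div_pos ha hα
    rw [Real.rpow_one]; linarith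
  insR a ha u _ := by rw [Real.rpow_one]; linarith
  width a ha := by
    have : 0 < a / α := div_pos ha hα
    refine ⟨a, a + 2 * (a / α), 1, ha, le_rfl, fun u _ => ?_⟩
    rw [Real.rpow_one, Real.rpow_zero]
    refine ⟨by linarith, by linarith, by linarith, by linarith⟩
  equi c hc ε hε := by
    have hk : 0 < 1 + 2 / α := by positivity
    have hd0 : 0 < min (c / 2) (ε / (1 + 2 / α)) := lt_min (by linarith) (div_pos hε hk)
    have hd1 := min_le_left (c / 2) (ε / (1 + 2 / α))
    have hd2 := min_le_right (c / 2) (ε / (1 + 2 / α))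
    set d := min (c / 2) (ε / (1 + 2 / α)) with hdd
    rw [le_div_iff₀ hk] at hd2
    refine ⟨c - d, 1, by linarith, by linarith, fun u _ => ?_⟩
    rw [Real.rpow_zero]
    have e : (c - d) / α = c / α - d / α := sub_div c d α
    have e2 : d * (1 + 2 / α) = d + 2 * (d / α) := by ring
    have : 0 < d / α := div_pos hd0 hα
    refine ⟨by linarith, by linarith⟩
  zeroL a ha := by
    have : 0 < a / α := div_pos ha hα
    exact zero_bot (f := fun u => u - a - 2 * (a / α))
      ((continuous_id.sub continuous_const).sub continuous_const) (by linarith)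
  zeroR a ha :=
    zero_top (f := fun u => u + a) (continuous_id.add continuous_const) (by linarith)
  big U M := by
    have ha : 0 < |M| * U ^ 2 + |U| + 1 := by positivity
    refine ⟨_, ha, fun u hu huU => ?_⟩
    have h2 : u ^ 2 ≤ U ^ 2 := by nlinarith
    have h3 : M * u ^ 2 ≤ |M| * U ^ 2 :=
      mul_le_mul (le_abs_self M) h2 (sq_nonneg u) (abs_nonneg M)
    have h4 := div_pos ha hα
    have h5 := le_abs_self U
    have h6 := abs_nonneg U
    refine ⟨by linarith, by linarith⟩
  small u _ ε hε := by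
    have hk : 0 < 1 + 2 / α := by positivity
    refine ⟨ε / (1 + 2 / α), div_pos hε hk, ?_⟩
    rw [Real.rpow_one]
    have e : ε / (1 + 2 / α) + 2 * (ε / (1 + 2 / α) / α) = ε := by field_simp
    linarith
  bd a ha := by
    have : 0 < a / α := div_pos ha hα
    refine ⟨1 + a + 2 * (a / α), fun u hu => ⟨?_, ?_⟩⟩
    · nlinarith [sq_nonneg u, mul_nonneg this.le (sq_nonneg u), mul_nonneg ha.le (sq_nonneg u)]
    · nlinarith [sq_nonneg (u - 1), mul_nonneg this.le (sq_nonneg u),
        mul_nonneg ha.le (sq_nonneg u)]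
  anR a _ u _ := analyticAt_id.add analyticAt_const
  anL a _ := Or.inl fun u _ => (analyticAt_id.sub analyticAt_const).sub analyticAt_const

end CT

/-- The corridors of `theta` and of the absolute value satisfy the axioms. -/
theorem corTheta_stmt :
    (∀ l : ℝ, 0 < l → l < 1 → Cor (2 * l) (2 * l - 2) (fun a u => psi l (u ^ 2 - 2 * a))
      (fun a u => (u ^ 2 + 2 * a) ^ l)) ∧
    ∀ α : ℝ, 0 < α → Cor 1 0 (fun a u => u - a - 2 * (a / α)) (fun a u => u + a) :=
  ⟨fun _ h0 h1 => CT.theta_cor h0 h1, fun _ hα => CT.abs_cor hα⟩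

end Pool.Agent.P.MP_7e6317_an
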