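import Pool.Agent.P.MP_7e6317_an.D.Cls

namespace Pool.Agent.P.MP_7e6317_an

open Filter Topology Set MeasureTheory Complex

lemma ple_axis {E : ℂ → ℂ} (hd : Differentiable ℂ E) (he : ∀ z, E (-z) = E z)
    (h2 : Tendsto (fun s : ℝ => E (s * I)) atTop (𝓝 0)) : ∃ M, ∀ s : ℝ, ‖E (s * I)‖ ≤ M := by
  obtain ⟨S, hS⟩ := eventually_atTop.1 (h2.norm.eventually (gt_mem_nhds (by simp : ‖(0 : ℂ)‖ < 1)))
  have hc : Continuous fun s : ℝ => E (s * I) := hd.continuous.comp (by fun_prop)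
  obtain ⟨M, hM⟩ := (isCompact_Icc (a := (0 : ℝ)) (b := S)).exists_bound_of_continuousOn
    hc.continuousOn
  have key : ∀ s : ℝ, 0 ≤ s → ‖E (s * I)‖ ≤ max M 1 := fun s hs => by
    rcases le_total s S with h | h
    · exact (hM s ⟨hs, h⟩).trans (le_max_left _ _)
    · exact (hS s h).le.trans (le_max_right _ _)
  refine ⟨max M 1, fun s => ?_⟩
  rcases le_total 0 s with h | h
  · exact key s h
  · have := key (-s) (by linarith)
    rwa [ofReal_neg, neg_mul, he] at this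

lemma ple_upper {E : ℂ → ℂ} (hd : Differentiable ℂ E) {C M : ℝ} (hC : 0 ≤ C)
    (h1 : ∀ z : ℂ, 1 ≤ z.im → ‖E z‖ ≤ C * (1 + ‖z‖) ^ 10 * Real.exp z.im)
    (hM : ∀ s : ℝ, ‖E (s * I)‖ ≤ M) {z : ℂ} (hz : 1 ≤ z.im) :
    ‖E z‖ ≤ C * 2 ^ 10 * Real.exp 1 * (1 + ‖z‖) ^ 10 := by
  set f : ℂ → ℂ := fun w => E (I * (w + 1)) / (w + 2) ^ 10 with hf
  have k1 : ∀ w : ℂ, 0 ≤ w.re → 1 ≤ ‖w + 2‖ := fun w hw =>
    le_trans (by simp; linarith) (Complex.re_le_norm (w + 2))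
  have k2 : ∀ w : ℂ, 0 ≤ w.re → ‖w + 1‖ ≤ ‖w + 2‖ := fun w hw => by
    refine (sq_le_sq₀ (norm_nonneg _) (norm_nonneg _)).1 ?_
    rw [Complex.sq_norm, Complex.sq_norm, Complex.normSq_apply, Complex.normSq_apply]
    simp
    nlinarith
  have hnorm : ∀ w : ℂ, ‖f w‖ = ‖E (I * (w + 1))‖ / ‖w + 2‖ ^ 10 := by
    intro w
    simp [hf]
  have hdiff : DifferentiableOn ℂ f {w | 0 ≤ w.re} := by
    intro w hw
    have e1 : DifferentiableAt ℂ (fun w => E (I * (w + 1))) w := (hd _).comp w (by fun_prop)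
    have e3 : DifferentiableAt ℂ (fun w : ℂ => (w + 2) ^ 10) w := by fun_prop
    exact (e1.div e3 (pow_ne_zero _
      (norm_pos_iff.1 (lt_of_lt_of_le one_pos (k1 w hw))))).differentiableWithinAt
  have hbd : ∀ w : ℂ, 0 ≤ w.re → ‖f w‖ ≤ C * 2 ^ 10 * Real.exp 1 * Real.exp w.re := by
    intro w hw
    have h2 := h1 (I * (w + 1)) (by simpa using hw)
    have h3 : (I * (w + 1)).im = 1 + w.re := by simp [add_comm]
    rw [norm_mul, Complex.norm_I, one_mul, h3, Real.exp_add] at h2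
    rw [hnorm, div_le_iff₀ (pow_pos (lt_of_lt_of_le one_pos (k1 w hw)) _)]
    refine h2.trans ?_
    have h4 : 1 + ‖w + 1‖ ≤ 2 * ‖w + 2‖ := by linarith [k1 w hw, k2 w hw]
    calc C * (1 + ‖w + 1‖) ^ 10 * (Real.exp 1 * Real.exp w.re)
        ≤ C * (2 * ‖w + 2‖) ^ 10 * (Real.exp 1 * Real.exp w.re) := by gcongr
      _ = _ := by ring
  have key := PhragmenLindelof.right_half_plane_of_bounded_on_real (f := f)
    (C := C * 2 ^ 10 * Real.exp 1) (z := -I * z - 1) (DifferentiableOn.diffContOnCl (by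
      rw [Complex.closure_setOfPred_lt_re]; exact hdiff)) ?_ ?_ ?_ (by simpa using hz)
  · have h3 : I * (-I * z - 1 + 1) = z := by rw [sub_add_cancel, ← mul_assoc]; simp
    rw [hnorm, h3, div_le_iff₀ (pow_pos (lt_of_lt_of_le one_pos (k1 _ (by simpa using hz))) _)]
      at key
    have h5 : ‖-I * z - 1 + 2‖ ≤ 1 + ‖z‖ := by
      rw [show -I * z - 1 + 2 = 1 + -I * z by ring]
      exact (norm_add_le _ _).trans (by simp)
    exact key.trans (by gcongr)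
  · refine ⟨1, by norm_num, 1, Asymptotics.IsBigO.of_bound (C * 2 ^ 10 * Real.exp 1) ?_⟩
    refine eventually_inf_principal.2 (Eventually.of_forall fun w hw => ?_)
    refine (hbd w (le_of_lt hw)).trans ?_
    rw [Real.rpow_one, Real.norm_of_nonneg (Real.exp_pos _).le, one_mul]
    gcongr
    exact Complex.re_le_norm w
  · refine ⟨M, eventually_map.2 ((eventually_ge_atTop 0).mono fun x hx => ?_)⟩
    rw [hnorm]
    refine (div_le_self (norm_nonneg _) (one_le_pow₀ (k1 x (by simpa using hx)))).trans ?_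
    have := hM (x + 1)
    rwa [ofReal_add, ofReal_one, mul_comm] at this
  · intro x
    simpa using hbd (x * I) (by simp)

lemma ple_rect {E : ℂ → ℂ} (hd : Differentiable ℂ E) {K M : ℝ} (hK : 0 ≤ K)
    (hM : ∀ s : ℝ, ‖E (s * I)‖ ≤ M)
    (h1 : ∀ z : ℂ, 1 ≤ |z.im| → ‖E z‖ ≤ K * (1 + ‖z‖) ^ 10)
    (h3 : ∀ X : ℝ, ∃ x : ℝ, X ≤ x ∧ ∀ v : ℝ, |v| ≤ 1 → ‖E (x + v * I)‖ ≤ K * (1 + |x|) ^ 10)
    {ε : ℝ} (hε : 0 < ε) {z : ℂ} (hz : 0 ≤ z.re) : ‖E z‖ ≤ (M + 1) * ‖1 + ε * z‖ ^ 11 := by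
  have hM0 : 0 ≤ M := (norm_nonneg _).trans (hM 0)
  obtain ⟨x, hx, hxE⟩ := h3 (max (max 1 ‖z‖) (K * 3 ^ 10 / ε ^ 11))
  have hx1 : 1 ≤ x := ((le_max_left _ _).trans (le_max_left _ _)).trans hx
  have hxz : ‖z‖ ≤ x := ((le_max_right _ _).trans (le_max_left _ _)).trans hx
  have hxK : K * 3 ^ 10 ≤ x * ε ^ 11 := by
    rw [← div_le_iff₀ (by positivity)]; exact (le_max_right _ _).trans hx
  set g : ℂ → ℂ := fun w => E w / (1 + ε * w) ^ 11 with hg
  have k1 : ∀ w : ℂ, 0 ≤ w.re → 1 ≤ ‖1 + ε * w‖ := fun w hw =>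
    le_trans (by simp; positivity) (Complex.re_le_norm (1 + ε * w))
  have hnorm : ∀ w : ℂ, ‖g w‖ = ‖E w‖ / ‖1 + ε * w‖ ^ 11 := by
    intro w
    simp [hg]
  have hcl : closure (Ioo 0 x ×ℂ Ioo (-x) x) = Icc 0 x ×ℂ Icc (-x) x := by
    rw [Complex.closure_reProdIm, closure_Ioo (by linarith), closure_Ioo (by linarith)]
  have hdiff : DifferentiableOn ℂ g (closure (Ioo 0 x ×ℂ Ioo (-x) x)) := by
    rw [hcl]
    intro w hw
    have e3 : DifferentiableAt ℂ (fun w : ℂ => (1 + ε * w) ^ 11) w := by fun_prop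
    exact ((hd w).div e3 (pow_ne_zero _
      (norm_pos_iff.1 (lt_of_lt_of_le one_pos (k1 w hw.1.1))))).differentiableWithinAt
  have far : ∀ w : ℂ, ‖E w‖ ≤ K * (3 * x) ^ 10 → ε * x ≤ ‖1 + ε * w‖ → ‖g w‖ ≤ M + 1 := by
    intro w a1 a2
    have hp : 0 < ε * x := by positivity
    rw [hnorm, div_le_iff₀ (pow_pos (hp.trans_le a2) _)]
    calc ‖E w‖ ≤ K * 3 ^ 10 * x ^ 10 := by rw [mul_assoc, ← mul_pow]; exact a1
      _ ≤ x * ε ^ 11 * x ^ 10 := by gcongr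
      _ = 1 * (ε * x) ^ 11 := by ring
      _ ≤ _ := by gcongr; linarith
  have big : ∀ w : ℂ, |w.re| ≤ x → |w.im| ≤ x → 1 ≤ |w.im| → ‖E w‖ ≤ K * (3 * x) ^ 10 := by
    intro w a1 a2 a3
    refine (h1 w a3).trans ?_
    have := Complex.norm_le_abs_re_add_abs_im w
    gcongr
    linarith
  have key := Complex.norm_le_of_forall_mem_frontier_norm_le (f := g)
    (U := Ioo 0 x ×ℂ Ioo (-x) x) ((Metric.isBounded_Ioo _ _).reProdIm (Metric.isBounded_Ioo _ _))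
    hdiff.diffContOnCl (C := M + 1) (z := z) ?_ (by
      rw [hcl]
      exact ⟨⟨hz, (Complex.re_le_norm z).trans hxz⟩,
        abs_le.1 ((Complex.abs_im_le_norm z).trans hxz)⟩)
  · rwa [hnorm, div_le_iff₀ (pow_pos (lt_of_lt_of_le one_pos (k1 _ hz)) _)] at key
  · intro w hw
    rw [(isOpen_Ioo.reProdIm isOpen_Ioo).frontier_eq, hcl] at hw
    obtain ⟨⟨⟨r0, r1⟩, ⟨i0, i1⟩⟩, hn⟩ := hw
    have hre : |w.re| ≤ x := abs_le.2 ⟨by linarith, r1⟩
    have him : |w.im| ≤ x := abs_le.2 ⟨i0, i1⟩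
    rcases r0.eq_or_lt with a | a
    · rw [hnorm]
      refine (div_le_self (norm_nonneg _) (one_le_pow₀ (k1 w r0))).trans ?_
      have e : w = w.im * I := Complex.ext (by simp [← a]) (by simp)
      rw [e]
      linarith [hM w.im]
    rcases r1.eq_or_lt with b | b
    · refine far w ?_ (le_trans (by simp [b]) (Complex.re_le_norm _))
      rcases le_total 1 |w.im| with c | c
      · exact big w hre him c
      · have e : w = x + w.im * I := Complex.ext (by simp [b]) (by simp)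
        rw [e]
        refine (hxE _ c).trans ?_
        rw [abs_of_pos (by linarith)]
        gcongr
        linarith
    have c : |w.im| = x := by
      refine le_antisymm him (not_lt.1 fun c => hn ⟨⟨a, b⟩, abs_lt.1 c⟩)
    refine far w (big w hre him (c ▸ hx1)) (le_trans ?_ (Complex.abs_im_le_norm _))
    simp [abs_mul, c, abs_of_pos hε]

/-- A Phragmen-Lindelof and Liouville argument (paper, 2 E). -/
theorem ple_stmt {E : ℂ → ℂ} (hd : Differentiable ℂ E) (he : ∀ z, E (-z) = E z) {C : ℝ}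
    (h1 : ∀ z : ℂ, 1 ≤ z.im → ‖E z‖ ≤ C * (1 + ‖z‖) ^ 10 * Real.exp z.im)
    (h2 : Tendsto (fun s : ℝ => E (s * I)) atTop (𝓝 0))
    (h3 : ∀ X : ℝ, ∃ x : ℝ, X ≤ x ∧ ∀ v : ℝ, |v| ≤ 1 → ‖E (x + v * I)‖ ≤ C * (1 + |x|) ^ 10) :
    ∀ z, E z = 0 := by
  have hC : 0 ≤ C := by
    have := (norm_nonneg _).trans (h1 I (by simp))
    by_contra hneg
    have h0 : C * (1 + ‖I‖) ^ 10 * Real.exp I.im < 0 :=
      mul_neg_of_neg_of_pos (mul_neg_of_neg_of_pos (not_le.1 hneg) (by positivity)) (Real.exp_pos _)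
    linarith
  obtain ⟨M, hM⟩ := ple_axis hd he h2
  have hCK : C ≤ C * 2 ^ 10 * Real.exp 1 := by
    have := Real.one_le_exp (zero_le_one (α := ℝ))
    nlinarith
  have k1 : ∀ z : ℂ, 1 ≤ |z.im| → ‖E z‖ ≤ C * 2 ^ 10 * Real.exp 1 * (1 + ‖z‖) ^ 10 := by
    intro z hz
    rcases le_abs.1 hz with h | h
    · exact ple_upper hd hC h1 hM h
    · have := ple_upper hd hC h1 hM (z := -z) (by simpa using h)
      rwa [he, norm_neg] at this
  have k2 : ∀ z : ℂ, 0 ≤ z.re → ‖E z‖ ≤ M + 1 := by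
    intro z hz
    have ht : Tendsto (fun ε : ℝ => (M + 1) * ‖1 + ε * z‖ ^ 11) (𝓝[>] 0) (𝓝 (M + 1)) :=
      Tendsto.mono_left (Continuous.tendsto' (by fun_prop) _ _ (by simp)) nhdsWithin_le_nhds
    refine ge_of_tendsto ht (eventually_nhdsWithin_of_forall fun ε hε => ?_)
    refine ple_rect hd (hC.trans hCK) hM k1 (fun X => ?_) hε hz
    obtain ⟨x, hx, hxE⟩ := h3 X
    exact ⟨x, hx, fun v hv => (hxE v hv).trans (by gcongr)⟩
  have k3 : ∀ z : ℂ, ‖E z‖ ≤ M + 1 := by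
    intro z
    rcases le_total 0 z.re with h | h
    · exact k2 z h
    · rw [← he]; exact k2 _ (by simpa using h)
  have hb : Bornology.IsBounded (range E) :=
    isBounded_iff_forall_norm_le.2 ⟨M + 1, by rintro _ ⟨z, rfl⟩; exact k3 z⟩
  intro z
  have : (fun s : ℝ => E (s * I)) = fun _ => E z :=
    funext fun s => hd.apply_eq_apply_of_bounded hb _ _
  rw [this] at h2
  exact tendsto_nhds_unique tendsto_const_nhds h2

end Pool.Agent.P.MP_7e6317_an
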