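import Pool.Agent.P.MP_7e6317_an.D.LB
import Pool.Agent.P.MP_7e6317_an.D.Quo
import Pool.Agent.P.MP_7e6317_an.D.PLE

namespace Pool.Agent.P.MP_7e6317_an

open Filter Topology Set MeasureTheory Complex

namespace RELem

variable {τ : ℝ} {y : ℕ → ℝ} {D : ℂ → ℂ}

lemma summable_coef (h : Adm τ y) (h2 : τ ≤ 2) (hD : Cls τ D) :
    Summable fun k => ‖(((-1) ^ k * wt y k : ℝ) : ℂ) * D (y k)‖ := by
  obtain ⟨M, M0, hM⟩ := hD.bd'
  have hw := (prodB_stmt h.nodes).1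
  refine Summable.of_nonneg_of_le (fun k => norm_nonneg _) (fun k => ?_)
    (h.2.2.2.1.mul_left (M * (1 + 1 / y 0) ^ 2))
  have hy := h.nodes.pos k
  have hy0 := h.1
  have hle : y 0 ≤ y k := h.2.1.monotone (Nat.zero_le k)
  have e1 : (1 + y k) ^ τ ≤ (1 + 1 / y 0) ^ 2 * y k ^ τ := by
    have e2 : 1 + y k = (1 + 1 / y k) * y k := by field_simp; ring
    have e3 : (1 : ℝ) ≤ 1 + 1 / y k := le_add_of_nonneg_right (by positivity)
    rw [e2, Real.mul_rpow (by positivity) hy.le]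
    refine mul_le_mul_of_nonneg_right ?_ (by positivity)
    calc (1 + 1 / y k) ^ τ ≤ (1 + 1 / y k) ^ (2 : ℝ) := Real.rpow_le_rpow_of_exponent_le e3 h2
      _ = (1 + 1 / y k) ^ 2 := Real.rpow_two _
      _ ≤ _ := by gcongr
  have e4 := hM (y k)
  rw [abs_of_pos hy] at e4
  rw [norm_mul, Complex.norm_real, Real.norm_eq_abs, abs_mul, abs_pow, abs_neg, abs_one, one_pow,
    one_mul, abs_of_pos (hw k)]
  calc wt y k * ‖D (y k)‖ ≤ wt y k * (M * ((1 + 1 / y 0) ^ 2 * y k ^ τ)) :=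
        mul_le_mul_of_nonneg_left (e4.trans (mul_le_mul_of_nonneg_left e1 M0)) (hw k).le
    _ = _ := by ring

lemma diff_sum (h : Nodes y) {c : ℕ → ℂ} (hc : Summable fun k => ‖c k‖) :
    Differentiable ℂ fun z => ∑' k, c k * cprodk y k z := by
  obtain ⟨-, -, a3, -, a5, -⟩ := prodA_stmt h
  have hm := (prodB_stmt h).2.2.2.2.2.2.2
  intro z
  have := differentiableOn_tsum_of_summable_norm (F := fun k w => c k * cprodk y k w)
    (U := Metric.ball 0 (‖z‖ + 1)) (hc.mul_right (iprod y (‖z‖ + 1)))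
    (fun k => ((a3 k).const_mul _).differentiableOn) Metric.isOpen_ball (fun k w hw => by
      rw [norm_mul]
      refine mul_le_mul_of_nonneg_left ((a5 k w).trans (hm (norm_nonneg w) ?_ ?_)) (norm_nonneg _)
      · exact (by positivity : (0 : ℝ) ≤ ‖z‖ + 1)
      · exact (mem_ball_zero_iff.1 hw).le)
  exact this.differentiableAt (Metric.isOpen_ball.mem_nhds (by simp))

lemma cprod_ne (h : Nodes y) {z : ℂ} (hz : ∀ k, z ^ 2 ≠ (y k : ℂ) ^ 2) : cprod y z ≠ 0 := by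
  obtain ⟨-, -, -, a4, -, -, a7, -⟩ := prodA_stmt h
  have h0 : ((y 0 : ℝ) : ℂ) ≠ 0 := by exact_mod_cast h.1.ne'
  rw [a4 0]
  refine mul_ne_zero ?_ (a7 0 z fun j _ => hz j)
  intro e
  apply hz 0
  field_simp at e
  linear_combination -e

lemma deriv_cprod_ne (h : Nodes y) {z : ℂ} {k : ℕ} (hz : z ^ 2 = (y k : ℂ) ^ 2) :
    deriv (cprod y) z ≠ 0 := by
  obtain ⟨-, -, a3, a4, -, -, a7, -⟩ := prodA_stmt h
  have h0 : ((y k : ℝ) : ℂ) ≠ 0 := by exact_mod_cast (h.pos k).ne'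
  have hz0 : z ≠ 0 := by
    rintro rfl
    exact pow_ne_zero 2 h0 (by rw [← hz]; simp)
  have h1 : HasDerivAt (fun w : ℂ => 1 - w ^ 2 / (y k : ℂ) ^ 2) (-(2 * z / (y k : ℂ) ^ 2)) z := by
    simpa using ((hasDerivAt_pow 2 z).div_const ((y k : ℂ) ^ 2)).const_sub 1
  have h3 := h1.mul (a3 k z).hasDerivAt
  have e : cprod y = (fun w : ℂ => 1 - w ^ 2 / (y k : ℂ) ^ 2) * cprodk y k := funext (a4 k)
  rw [e, h3.deriv, hz, div_self (pow_ne_zero 2 h0), sub_self, zero_mul, add_zero]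
  refine mul_ne_zero (neg_ne_zero.2 (div_ne_zero (mul_ne_zero two_ne_zero hz0)
    (pow_ne_zero 2 h0))) (a7 k z fun j hj e => hj ?_)
  rw [hz] at e
  have e2 : y k ^ 2 = y j ^ 2 := by exact_mod_cast e
  exact (h.2.1.injective ((pow_left_inj₀ (h.pos k).le (h.pos j).le two_ne_zero).1 e2)).symm

lemma sum_off (h : Nodes y) (c : ℕ → ℂ) {z : ℂ} (hz : ∀ k, z ^ 2 ≠ (y k : ℂ) ^ 2) :
    ∑' k, c k * cprodk y k z =
      cprod y z * ∑' k, c k * ((y k : ℂ) ^ 2 / ((y k : ℂ) ^ 2 - z ^ 2)) := by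
  obtain ⟨-, -, -, a4, -⟩ := prodA_stmt h
  rw [← tsum_mul_left]
  refine tsum_congr fun k => ?_
  have h0 : ((y k : ℝ) : ℂ) ≠ 0 := by exact_mod_cast (h.pos k).ne'
  have h1 : (y k : ℂ) ^ 2 - z ^ 2 ≠ 0 := sub_ne_zero.2 (hz k).symm
  rw [a4 k]
  field_simp

lemma exists_gap (h : Nodes y) (K : ℕ) : ∃ k, K ≤ k ∧ y k ^ 2 + 1 ≤ y (k + 1) ^ 2 := by
  by_contra hn
  push Not at hn
  have h1 : ∀ n : ℕ, y (n + K) ^ 2 ≤ y K ^ 2 + n := by
    intro n
    induction n with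
    | zero => simp
    | succ n ih =>
      have := hn (n + K) (Nat.le_add_left _ _)
      rw [show n + 1 + K = n + K + 1 by ring]
      push_cast
      linarith
  have h2 := ((summable_nat_add_iff K).2 h.2.2).mul_left (y K ^ 2 + 1)
  refine Real.not_summable_one_div_natCast ((summable_nat_add_iff 1).1
    (Summable.of_nonneg_of_le (fun n => by positivity) (fun n => ?_) h2))
  have h3 := h.pos (n + K)
  have h4 := h1 n
  rw [mul_one_div, div_le_div_iff₀ (by positivity) (by positivity)]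
  push_cast
  nlinarith [mul_nonneg (sq_nonneg (y K)) (Nat.cast_nonneg (α := ℝ) n)]

lemma norm_sq_diff (a : ℝ) (z : ℂ) : ‖(a : ℂ) ^ 2 - z ^ 2‖ = ‖a - z‖ * ‖a + z‖ := by
  rw [← norm_mul]; congr 1; ring

lemma exists_line (h : Nodes y) (X : ℝ) :
    ∃ x : ℝ, X ≤ x ∧ ∀ (v : ℝ) k, 1 / 2 ≤ ‖(y k : ℂ) ^ 2 - (x + v * I) ^ 2‖ := by
  obtain ⟨K, hK⟩ := eventually_atTop.1 ((prodA_stmt h).1.eventually_ge_atTop X)
  obtain ⟨k, hk, hg⟩ := exists_gap h K
  have hp := h.pos k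
  have hx : Real.sqrt ((y k ^ 2 + y (k + 1) ^ 2) / 2) ^ 2 = (y k ^ 2 + y (k + 1) ^ 2) / 2 :=
    Real.sq_sqrt (by positivity)
  refine ⟨Real.sqrt ((y k ^ 2 + y (k + 1) ^ 2) / 2),
    (hK k hk).trans (Real.le_sqrt_of_sq_le (by linarith)), fun v j => ?_⟩
  set x := Real.sqrt ((y k ^ 2 + y (k + 1) ^ 2) / 2)
  have e1 : |y j - x| ≤ ‖(y j : ℂ) - (x + v * I)‖ := by
    simpa using Complex.abs_re_le_norm ((y j : ℂ) - (x + v * I))
  have e2 : |y j + x| ≤ ‖(y j : ℂ) + (x + v * I)‖ := by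
    simpa using Complex.abs_re_le_norm ((y j : ℂ) + (x + v * I))
  rw [norm_sq_diff]
  refine le_trans ?_ (mul_le_mul e1 e2 (abs_nonneg _) (norm_nonneg _))
  rw [← abs_mul, show (y j - x) * (y j + x) = y j ^ 2 - x ^ 2 by ring, hx, le_abs]
  rcases le_or_gt j k with hj | hj
  · have := pow_le_pow_left₀ (h.pos j).le (h.2.1.monotone hj) 2
    exact Or.inr (by linarith)
  · have := pow_le_pow_left₀ (h.pos (k + 1)).le (h.2.1.monotone (Nat.succ_le_of_lt hj)) 2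
    exact Or.inl (by linarith)

lemma norm_sum_le {c : ℕ → ℂ} (hc : Summable fun k => ‖c k‖) {z : ℂ}
    (hz : ∀ k, 1 / 2 ≤ ‖(y k : ℂ) ^ 2 - z ^ 2‖) :
    ‖∑' k, c k * ((y k : ℂ) ^ 2 / ((y k : ℂ) ^ 2 - z ^ 2))‖ ≤ (∑' k, ‖c k‖) * (1 + 2 * ‖z‖ ^ 2) := by
  refine tsum_of_norm_bounded (hc.hasSum.mul_right _) fun k => ?_
  rw [norm_mul]
  refine mul_le_mul_of_nonneg_left ?_ (norm_nonneg _)
  have h1 := hz k
  have h2 := norm_add_le ((y k : ℂ) ^ 2 - z ^ 2) (z ^ 2)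
  rw [sub_add_cancel, norm_pow z] at h2
  rw [norm_div, div_le_iff₀ (by linarith)]
  nlinarith [sq_nonneg ‖z‖]

lemma tendsto_sum (h : Nodes y) {c : ℕ → ℂ} (hc : Summable fun k => ‖c k‖) :
    Tendsto (fun s : ℝ => ∑' k, c k * ((y k : ℂ) ^ 2 / ((y k : ℂ) ^ 2 - (s * I) ^ 2))) atTop
      (𝓝 0) := by
  have e : ∀ (s : ℝ) k, (y k : ℂ) ^ 2 / ((y k : ℂ) ^ 2 - (s * I) ^ 2) =
      ((y k ^ 2 / (y k ^ 2 + s ^ 2) : ℝ) : ℂ) := by
    intro s k
    rw [mul_pow, I_sq]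
    push_cast
    ring
  simp only [e]
  have := tendsto_tsum_of_dominated_convergence (𝓕 := atTop) (g := fun _ => (0 : ℂ))
    (f := fun (s : ℝ) k => c k * ((y k ^ 2 / (y k ^ 2 + s ^ 2) : ℝ) : ℂ)) hc (fun k => by
      have h1 : Tendsto (fun s : ℝ => y k ^ 2 / (y k ^ 2 + s ^ 2)) atTop (𝓝 0) :=
        tendsto_const_nhds.div_atTop
          (tendsto_atTop_add_const_left _ _ (tendsto_pow_atTop two_ne_zero))
      simpa using ((continuous_ofReal.tendsto 0).comp h1).const_mul (c k))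
    (Eventually.of_forall fun s k => by
      have h1 := h.pos k
      rw [norm_mul, Complex.norm_real, Real.norm_eq_abs, abs_of_nonneg (by positivity)]
      exact mul_le_of_le_one_right (norm_nonneg _)
        ((div_le_one (by positivity)).2 (le_add_of_nonneg_right (sq_nonneg s))))
  simpa using this

end RELem

open RELem

/-- Lagrange formula for functions of type less than one (paper, 2 E). -/
theorem elem_stmt {τ : ℝ} {y : ℕ → ℝ} (h : Adm τ y) (h0 : -2 < τ) (h2 : τ ≤ 2) {D : ℂ → ℂ}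
    (hD : Cls τ D) {θ C : ℝ} (hθ0 : 0 ≤ θ) (hθ : θ < 1)
    (hC : ∀ z, ‖D z‖ ≤ C * Real.exp (θ * ‖z‖)) (z : ℂ) :
    D z = ∑' k, (((-1) ^ k * wt y k : ℝ) : ℂ) * D (y k) * cprodk y k z := by
  have hN := h.nodes
  have hc := summable_coef h h2 hD
  set c : ℕ → ℂ := fun k => (((-1) ^ k * wt y k : ℝ) : ℂ) * D (y k) with hcdef
  obtain ⟨-, a2, -, -, -, -, -, a8, a9, a10, a11, -⟩ := prodA_stmt hN
  obtain ⟨b1, b2, -, -, -, b6, -⟩ := prodB_stmt hN
  set f : ℂ → ℂ := fun w => D w - ∑' k, c k * cprodk y k w with hf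
  have fd : Differentiable ℂ f := hD.diff.sub (diff_sum hN hc)
  have fe : ∀ w, f (-w) = f w := fun w => by simp only [hf, hD.even, a9]
  have fz : ∀ k, f (y k) = 0 := fun k => by
    have hw : ((wt y k : ℝ) : ℂ) ≠ 0 := by exact_mod_cast (b1 k).ne'
    have hs : ((-1 : ℂ) ^ k) * (-1) ^ k = 1 := by rw [← mul_pow]; simp
    simp only [hf]
    rw [tsum_eq_single k fun j hj => by rw [a8 j k hj.symm, mul_zero], b2 k, hcdef]
    push_cast
    field_simp
    linear_combination (-D (y k)) * hs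
  have hz : ∀ w, cprod y w = 0 → deriv (cprod y) w ≠ 0 ∧ f w = 0 := fun w hw => by
    obtain ⟨k, hk⟩ : ∃ k, w ^ 2 = (y k : ℂ) ^ 2 := by
      by_contra hn
      push Not at hn
      exact cprod_ne hN hn hw
    refine ⟨deriv_cprod_ne hN hk, ?_⟩
    rcases sq_eq_sq_iff_eq_or_eq_neg.1 hk with rfl | rfl
    · exact fz k
    · rw [fe, fz]
  obtain ⟨E, Ed, E1, E2⟩ := quo_stmt fd a2 hz
  have Ee : ∀ w, E (-w) = E w := fun w => by
    by_cases hw : cprod y w = 0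
    · have d1 : deriv (fun z => f (-z)) w = -deriv f (-w) := deriv_comp_neg f w
      have d2 : deriv (fun z => cprod y (-z)) w = -deriv (cprod y) (-w) := deriv_comp_neg _ w
      rw [funext fe] at d1
      rw [funext a10] at d2
      have e1 := E2 w hw
      have e2 := E2 (-w) (by rw [a10, hw])
      refine mul_right_cancel₀ (hz w hw).1 ?_
      rw [← e1, d1, e2, d2]
      ring
    · refine mul_right_cancel₀ hw ?_
      rw [← E1, ← a10 w, ← E1, fe]
  have Eo : ∀ w, (∀ k, w ^ 2 ≠ (y k : ℂ) ^ 2) → E w = D w / cprod y w -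
      ∑' k, c k * ((y k : ℂ) ^ 2 / ((y k : ℂ) ^ 2 - w ^ 2)) := fun w hw => by
    have e1 := E1 w
    have e2 := cprod_ne hN hw
    simp only [hf] at e1
    rw [sum_off hN c hw] at e1
    rw [eq_sub_iff_add_eq, eq_div_iff e2]
    linear_combination -e1
  obtain ⟨M, M0, hM⟩ := hD.bd'
  have hM2 : ∀ u : ℝ, ‖D u‖ ≤ 2 * M * (1 + u ^ 2) := fun u => by
    have e1 : (1 + |u|) ^ τ ≤ (1 + |u|) ^ (2 : ℝ) :=
      Real.rpow_le_rpow_of_exponent_le (le_add_of_nonneg_right (abs_nonneg u)) h2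
    rw [Real.rpow_two] at e1
    have e2 : (1 + |u|) ^ 2 ≤ 2 * (1 + u ^ 2) := by nlinarith [sq_abs u, sq_nonneg (1 - |u|)]
    calc ‖D u‖ ≤ M * (2 * (1 + u ^ 2)) :=
          (hM u).trans (mul_le_mul_of_nonneg_left (e1.trans e2) M0)
      _ = _ := by ring
  obtain ⟨c₀, c0, hc₀⟩ := lb_stmt h h0 (δ := 1 / 2) (by norm_num)
  have A0 : 0 ≤ ∑' k, ‖c k‖ := tsum_nonneg fun k => norm_nonneg _
  set A := ∑' k, ‖c k‖ with hA
  have Eb : ∀ w : ℂ, (∀ k, 1 / 2 ≤ ‖(y k : ℂ) ^ 2 - w ^ 2‖) →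
      ‖E w‖ ≤ (2 * M / c₀ + 3 * A) * (1 + ‖w‖) ^ 10 * Real.exp |w.im| := fun w hw => by
    have hw' : ∀ k, w ^ 2 ≠ (y k : ℂ) ^ 2 := fun k e => by
      have := hw k
      rw [e, sub_self, norm_zero] at this
      linarith
    have n0 := norm_nonneg w
    have p1 : (1 : ℝ) ≤ 1 + ‖w‖ := by linarith
    have x1 : 1 ≤ Real.exp |w.im| := Real.one_le_exp (abs_nonneg _)
    have e1 := pl_bound hD.diff hθ0 hC hM2 w
    have e2 : Real.exp (θ * |w.im|) ≤ Real.exp |w.im| :=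
      Real.exp_le_exp.2 (mul_le_of_le_one_left (abs_nonneg _) hθ.le)
    have e3 : c₀ ≤ (1 + ‖w‖) ^ 8 * ‖cprod y w‖ := (hc₀ w hw).trans (by
      gcongr; exact Complex.abs_re_le_norm w)
    have e4 : ‖D w / cprod y w‖ ≤ 2 * M / c₀ * (1 + ‖w‖) ^ 10 * Real.exp |w.im| := by
      rw [norm_div, div_le_iff₀ (norm_pos_iff.2 (cprod_ne hN hw'))]
      calc ‖D w‖ ≤ 2 * M * (1 + ‖w‖) ^ 2 * Real.exp |w.im| := e1.trans (by gcongr)
        _ = 2 * M / c₀ * (1 + ‖w‖) ^ 2 * Real.exp |w.im| * c₀ := by field_simp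
        _ ≤ 2 * M / c₀ * (1 + ‖w‖) ^ 2 * Real.exp |w.im| * ((1 + ‖w‖) ^ 8 * ‖cprod y w‖) := by
          gcongr
        _ = _ := by ring
    have e5 : 1 + 2 * ‖w‖ ^ 2 ≤ 3 * (1 + ‖w‖) ^ 10 * Real.exp |w.im| := by
      have e6 : (1 + ‖w‖) ^ 2 ≤ (1 + ‖w‖) ^ 10 := pow_le_pow_right₀ p1 (by norm_num)
      have e7 : (1 + ‖w‖) ^ 10 ≤ (1 + ‖w‖) ^ 10 * Real.exp |w.im| :=
        le_mul_of_one_le_right (by positivity) x1
      nlinarith
    have e8 := (norm_sum_le hc hw).trans (mul_le_mul_of_nonneg_left e5 A0)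
    rw [Eo w hw']
    refine (norm_sub_le _ _).trans ((add_le_add e4 e8).trans (le_of_eq ?_))
    ring
  have K0 : 0 ≤ 2 * M / c₀ + 3 * A := by positivity
  set K := 2 * M / c₀ + 3 * A with hK
  have E0 := ple_stmt Ed Ee (C := K * (2 ^ 10 * Real.exp 1)) (fun w hw => by
      have e1 : 0 ≤ w.im := by linarith
      have e2 := Eb w fun k => by
        have i1 : 1 ≤ ‖(y k : ℂ) - w‖ :=
          le_trans (by simpa [abs_of_nonneg e1] using hw) (Complex.abs_im_le_norm _)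
        have i2 : 1 ≤ ‖(y k : ℂ) + w‖ :=
          le_trans (by simpa [abs_of_nonneg e1] using hw) (Complex.abs_im_le_norm _)
        rw [norm_sq_diff]
        nlinarith
      rw [abs_of_nonneg e1] at e2
      refine e2.trans ?_
      have e3 : (1 : ℝ) ≤ 2 ^ 10 * Real.exp 1 := by nlinarith [Real.one_le_exp zero_le_one]
      gcongr
      exact le_mul_of_one_le_right K0 e3)
    (by
      have t1 : Tendsto (fun s : ℝ => D (s * I) / cprod y (s * I)) atTop (𝓝 0) := by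
        have t2 := (h.2.2.2.2 θ hθ).const_mul C
        rw [mul_zero] at t2
        refine squeeze_zero_norm' ?_ t2
        filter_upwards [eventually_ge_atTop 0] with s hs
        have p0 : 0 < iprod y s := lt_of_lt_of_le (by positivity) (b6 s)
        have p1 := hC (s * I)
        rw [norm_mul, norm_I, mul_one, Complex.norm_real, Real.norm_eq_abs, abs_of_nonneg hs] at p1
        rw [norm_div, a11, Complex.norm_real, Real.norm_eq_abs, abs_of_pos p0, ← mul_div_assoc]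
        exact div_le_div_of_nonneg_right p1 p0.le
      have t3 := t1.sub (tendsto_sum hN hc)
      rw [sub_zero] at t3
      refine t3.congr fun s => (Eo _ fun k e => ?_).symm
      rw [mul_pow, I_sq] at e
      have e2 : s ^ 2 * -1 = y k ^ 2 := by exact_mod_cast e
      nlinarith [hN.pos k, sq_nonneg s])
    (fun X => by
      obtain ⟨x, hx, hl⟩ := exists_line hN X
      refine ⟨x, hx, fun v hv => (Eb _ (hl v)).trans ?_⟩
      have e1 : ‖(x : ℂ) + v * I‖ ≤ |x| + 1 := (norm_add_le _ _).trans (by simpa using hv)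
      have e2 : 1 + ‖(x : ℂ) + v * I‖ ≤ 2 * (1 + |x|) := by linarith [abs_nonneg x]
      have e3 : |((x : ℂ) + v * I).im| ≤ 1 := by simpa using hv
      calc K * (1 + ‖(x : ℂ) + v * I‖) ^ 10 * Real.exp |((x : ℂ) + v * I).im|
          ≤ K * (2 * (1 + |x|)) ^ 10 * Real.exp 1 := by gcongr
        _ = _ := by ring)
  have := E1 z
  rw [E0, zero_mul] at this
  exact sub_eq_zero.1 this

end Pool.Agent.P.MP_7e6317_an
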