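import Pool.Agent.P.MP_7e6317_an.D.Cls

namespace Pool.Agent.P.MP_7e6317_an

open Filter Topology Set MeasureTheory Complex

lemma Exist_feas {m τ : ℝ} {L R : ℝ → ℝ → ℝ} (h : Cor m τ L R) :
    ∃ (a : ℝ) (F : ℂ → ℂ), 0 < a ∧ Feas L R a F := by
  obtain ⟨F, f1, f2, f3, f4⟩ := exists_isBase h.m0 h.m2
  obtain ⟨η, C, U, hη, hU, hw⟩ := h.width 1 one_pos
  have ht : 0 < τ + 2 := by linarith [h.t0]
  obtain ⟨V, hV⟩ := eventually_atTop.1
    (((tendsto_rpow_atTop ht).eventually_ge_atTop (12 ^ 4 / η)).and (eventually_ge_atTop U))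
  obtain ⟨M, -, hM⟩ := exists_sq_bound f1.1 f2 f3 V
  obtain ⟨a, ha, hb⟩ := h.big V M
  have ha1 : (0 : ℝ) < max a 1 := lt_max_of_lt_right one_pos
  refine ⟨max a 1, F, ha1, f1, f2, f3, fun u hu => ?_⟩
  rcases le_total u V with huV | huV
  · have e1 := hM u (by rwa [abs_of_pos hu])
    have e2 := abs_le.1 ((Complex.abs_re_le_norm (F u)).trans e1)
    have e3 := (h.monoL u hu).antitoneOn ha ha1 (le_max_left _ _)
    have e4 := (h.monoR u hu).monotoneOn ha ha1 (le_max_left _ _)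
    obtain ⟨e5, e6⟩ := hb u hu huV
    exact ⟨by linarith [e2.1], by linarith [e2.2]⟩
  · obtain ⟨e0, e1⟩ := hV u huV
    have e2 := abs_le.1 (f4 u (hU.trans e1))
    have e3 := (h.monoL u hu).antitoneOn (mem_Ioi.2 one_pos) ha1 (le_max_right a 1)
    have e4 := (h.monoR u hu).monotoneOn (mem_Ioi.2 one_pos) ha1 (le_max_right a 1)
    obtain ⟨e5, -, e6, -⟩ := hw u e1
    have e7 : 12 ^ 4 / u ^ 2 ≤ η * u ^ τ := by
      rw [Real.rpow_add hu, Real.rpow_two, div_le_iff₀ hη] at e0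
      rw [div_le_iff₀ (by positivity)]
      linarith
    exact ⟨by linarith [e2.2], by linarith [e2.1]⟩

lemma Exist_bound {L R : ℝ → ℝ → ℝ} {a C : ℝ} {F : ℂ → ℂ} (hF : Feas L R a F) (hC0 : 0 ≤ C)
    (hC : ∀ u, 0 < u → -(C * (1 + u ^ 2)) ≤ L a u ∧ R a u ≤ C * (1 + u ^ 2)) {η : ℝ}
    (hη : 0 < η) (z : ℂ) : ‖F z‖ ≤ C * (1 + ‖z‖) ^ 2 * Real.exp ((1 + η) * ‖z‖) := by
  obtain ⟨f1, f2, f3, f4⟩ := hF
  have hpos : ∀ u : ℝ, 0 < u → ‖F u‖ ≤ C * (1 + u ^ 2) := by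
    intro u hu
    have e1 : F u = ((F u).re : ℂ) := Complex.ext (by simp) (by simp [f1.2.1 u])
    rw [e1, Complex.norm_real, Real.norm_eq_abs, abs_le]
    exact ⟨(hC u hu).1.trans (f4 u hu).1, (f4 u hu).2.trans (hC u hu).2⟩
  have hall : ∀ u : ℝ, ‖F u‖ ≤ C * (1 + u ^ 2) := by
    intro u
    rcases lt_trichotomy u 0 with hu | rfl | hu
    · have := hpos (-u) (by linarith)
      rwa [ofReal_neg, f2, neg_sq] at this
    · rw [ofReal_zero, f3, norm_zero]; positivity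
    · exact hpos u hu
  obtain ⟨K, hK⟩ := f1.2.2 η hη
  refine (pl_bound f1.1 (by positivity) hK hall z).trans ?_
  exact mul_le_mul_of_nonneg_left (Real.exp_le_exp.2
    (mul_le_mul_of_nonneg_left (Complex.abs_im_le_norm z) (by positivity))) (by positivity)

/-- Existence of a minimiser of the corridor problem (paper, 4). -/
theorem exist_stmt {m τ : ℝ} {L R : ℝ → ℝ → ℝ} (h : Cor m τ L R) :
    ∃ (c : ℝ) (F : ℂ → ℂ), 0 < c ∧ Feas L R c F ∧ ∀ a G, 0 < a → Feas L R a G → c ≤ a := by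
  set S : Set ℝ := {a | 0 < a ∧ ∃ F, Feas L R a F} with hS
  have hne : S.Nonempty := by
    obtain ⟨a, F, ha, hF⟩ := Exist_feas h
    exact ⟨a, ha, F, hF⟩
  have hbd : BddBelow S := ⟨0, fun a ha => ha.1.le⟩
  obtain ⟨a, hanti, hlim, hmem⟩ := exists_seq_tendsto_sInf hne hbd
  have ha : ∀ n, 0 < a n := fun n => (hmem n).1
  choose F hF using fun n => (hmem n).2
  obtain ⟨C, hC⟩ := h.bd (a 0) (ha 0)
  have hC0 : (0 : ℝ) ≤ max C 0 := le_max_right _ _
  have hB : ∀ n, ∀ η : ℝ, 0 < η → ∀ z,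
      ‖F n z‖ ≤ max C 0 * (1 + ‖z‖) ^ 2 * Real.exp ((1 + η) * ‖z‖) := by
    intro n η hη z
    refine Exist_bound (hF n) hC0 (fun u hu => ?_) hη z
    have e3 := (h.monoL u hu).antitoneOn (ha n) (ha 0) (hanti (Nat.zero_le n))
    have e4 := (h.monoR u hu).monotoneOn (ha n) (ha 0) (hanti (Nat.zero_le n))
    have e5 : C * (1 + u ^ 2) ≤ max C 0 * (1 + u ^ 2) :=
      mul_le_mul_of_nonneg_right (le_max_left _ _) (by positivity)
    obtain ⟨e1, e2⟩ := hC u hu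
    exact ⟨by linarith, by linarith⟩
  have hB' : ∀ η : ℝ, 0 < η → ∃ K : ℝ, 0 ≤ K ∧ ∀ n z,
      ‖F n z‖ ≤ K * Real.exp ((1 + η) * ‖z‖) := by
    intro η hη
    obtain ⟨K, k0, hK⟩ := sq_le_exp (half_pos hη)
    refine ⟨max C 0 * K, by positivity, fun n z => (hB n _ (half_pos hη) z).trans ?_⟩
    have hz := norm_nonneg z
    have e1 : (1 + ‖z‖) ^ 2 ≤ (1 + ‖z‖) ^ 4 := pow_le_pow_right₀ (by linarith) (by norm_num)
    calc max C 0 * (1 + ‖z‖) ^ 2 * Real.exp ((1 + η / 2) * ‖z‖)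
        ≤ max C 0 * (K * Real.exp (η / 2 * ‖z‖)) * Real.exp ((1 + η / 2) * ‖z‖) :=
          mul_le_mul_of_nonneg_right (mul_le_mul_of_nonneg_left (e1.trans (hK _ hz)) hC0)
            (Real.exp_pos _).le
      _ = max C 0 * K * Real.exp ((1 + η) * ‖z‖) := by
          rw [show (1 + η) * ‖z‖ = η / 2 * ‖z‖ + (1 + η / 2) * ‖z‖ by ring, Real.exp_add]; ring
  obtain ⟨K1, k1, hK1⟩ := hB' 1 one_pos
  let U : Ultrafilter ℕ := Filter.hyperfilter ℕ
  have hU : (U : Filter ℕ) ≤ atTop := Nat.hyperfilter_le_atTop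
  obtain ⟨G, hG, hloc⟩ := montel U (F := F) (fun n => (hF n).1.1)
    (B := fun r => K1 * Real.exp ((1 + 1) * r))
    (fun x y hxy => mul_le_mul_of_nonneg_left (Real.exp_le_exp.2 (by linarith)) k1)
    (Eventually.of_forall fun n z => hK1 n z)
  have hpt : ∀ z, Tendsto (fun n => F n z) U (𝓝 (G z)) := fun z =>
    (hloc.tendstoLocallyUniformlyOn (s := univ)).tendsto_at (mem_univ z)
  have hre : ∀ z, Tendsto (fun n => (F n z).re) U (𝓝 (G z).re) := fun z =>
    (Complex.continuous_re.tendsto _).comp (hpt z)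
  have hlimU : Tendsto a U (𝓝 (sInf S)) := hlim.mono_left hU
  have g1 : TypeOne G := by
    refine ⟨hG, fun x => ?_, fun η hη => ?_⟩
    · have e1 : Tendsto (fun n => (F n x).im) U (𝓝 (G x).im) :=
        (Complex.continuous_im.tendsto _).comp (hpt x)
      have e2 : (fun n => (F n x).im) = fun _ => 0 := funext fun n => (hF n).1.2.1 x
      rw [e2] at e1
      exact tendsto_nhds_unique e1 tendsto_const_nhds
    · obtain ⟨K, -, hK⟩ := hB' η hη
      exact ⟨K, fun z => le_of_tendsto' (hpt z).norm fun n => hK n z⟩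
  have g2 : ∀ z, G (-z) = G z := by
    intro z
    have e1 := hpt (-z)
    have e2 : (fun n => F n (-z)) = fun n => F n z := funext fun n => (hF n).2.1 z
    rw [e2] at e1
    exact tendsto_nhds_unique e1 (hpt z)
  have g3 : G 0 = 0 := by
    have e1 := hpt 0
    have e2 : (fun n => F n 0) = fun _ => 0 := funext fun n => (hF n).2.2.1
    rw [e2] at e1
    exact tendsto_nhds_unique e1 tendsto_const_nhds
  have hc : 0 < sInf S := by
    by_contra hc
    have hc' := not_lt.1 hc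
    have e1 : ∀ u : ℝ, 0 < u → u ^ m ≤ (G u).re := by
      intro u hu
      refine le_of_forall_pos_le_add fun ε hε => ?_
      obtain ⟨b, hb, hb'⟩ := h.small u hu ε hε
      have e2 : L b u ≤ (G u).re := by
        refine ge_of_tendsto (hre u) ?_
        filter_upwards [hlimU.eventually (gt_mem_nhds (hc'.trans_lt hb))] with n hn
        exact ((h.monoL u hu).antitoneOn (ha n) hb hn.le).trans ((hF n).2.2.2 u hu).1
      linarith
    obtain ⟨M, -, hM⟩ := exists_sq_bound hG g2 g3 1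
    have t2 : Tendsto (fun u : ℝ => u ^ (m - 2)) (𝓝[>] 0) atTop :=
      tendsto_rpow_neg_nhdsGT_zero (by linarith [h.m2])
    have t3 : ∀ᶠ u : ℝ in 𝓝[>] 0, u ∈ Ioc (0 : ℝ) 1 := Ioc_mem_nhdsGT one_pos
    obtain ⟨u, hu1, hu2⟩ := ((t2.eventually_gt_atTop M).and t3).exists
    have e3 := (e1 u hu2.1).trans ((Complex.re_le_norm _).trans
      (hM u (by rw [abs_of_pos hu2.1]; exact hu2.2)))
    rw [Real.rpow_sub hu2.1, Real.rpow_two, lt_div_iff₀ (pow_pos hu2.1 2)] at hu1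
    linarith
  refine ⟨sInf S, G, hc, ⟨g1, g2, g3, fun u hu => ⟨?_, ?_⟩⟩,
    fun b H hb hH => csInf_le hbd ⟨hb, H, hH⟩⟩
  · exact le_of_tendsto_of_tendsto'
      (((h.caL u hu).continuousAt (Ioi_mem_nhds hc)).tendsto.comp hlimU) (hre u)
      fun n => ((hF n).2.2.2 u hu).1
  · exact le_of_tendsto_of_tendsto' (hre u)
      (((h.caR u hu).continuousAt (Ioi_mem_nhds hc)).tendsto.comp hlimU)
      fun n => ((hF n).2.2.2 u hu).2

end Pool.Agent.P.MP_7e6317_an
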