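import Pool.Agent.P.MP_7e6317_an.D.Cls

namespace Pool.Agent.P.MP_7e6317_an

open Filter Topology Set MeasureTheory Complex

lemma sym_neg {G : ℂ → ℂ} (hG : TypeOne G) : TypeOne fun z => G (-z) := by
  refine ⟨hG.1.comp differentiable_id.neg, fun x => ?_, fun η hη => ?_⟩
  · have := hG.2.1 (-x)
    rwa [ofReal_neg] at this
  · obtain ⟨C, hC⟩ := hG.2.2 η hη
    exact ⟨C, fun z => by simpa using hC (-z)⟩

lemma sym_lin {G H : ℂ → ℂ} (hG : TypeOne G) (hH : TypeOne H) (a b : ℝ) :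
    TypeOne fun z => a * G z + b * H z := by
  refine ⟨(hG.1.const_mul _).add (hH.1.const_mul _), fun x => ?_, fun η hη => ?_⟩
  · simp [hG.2.1 x, hH.2.1 x]
  · obtain ⟨C, hC⟩ := hG.2.2 η hη
    obtain ⟨C', hC'⟩ := hH.2.2 η hη
    refine ⟨|a| * C + |b| * C', fun z => (norm_add_le _ _).trans ?_⟩
    rw [norm_mul, norm_mul, Complex.norm_real, Complex.norm_real, Real.norm_eq_abs,
      Real.norm_eq_abs, add_mul, mul_assoc, mul_assoc]
    exact add_le_add (mul_le_mul_of_nonneg_left (hC z) (abs_nonneg _))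
      (mul_le_mul_of_nonneg_left (hC' z) (abs_nonneg _))

lemma sym_one : TypeOne fun _ => 1 := by
  refine ⟨differentiable_const _, fun x => by simp, fun η hη => ⟨1, fun z => ?_⟩⟩
  rw [norm_one, one_mul]
  exact Real.one_le_exp (by positivity)

lemma sym_mul {G : ℂ → ℂ} (hG : TypeOne G) : TypeOne fun z => z * G z := by
  refine ⟨differentiable_id.mul hG.1, fun x => ?_, fun η hη => ?_⟩
  · simp [hG.2.1 x]
  · obtain ⟨C, hC⟩ := hG.2.2 _ (half_pos hη)
    obtain ⟨K, k0, hK⟩ := sq_le_exp (half_pos hη)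
    refine ⟨K * C, fun z => ?_⟩
    have hz := norm_nonneg z
    have e1 : ‖z‖ ≤ (1 + ‖z‖) ^ 4 := by
      nlinarith [sq_nonneg ‖z‖, pow_nonneg hz 3, pow_nonneg hz 4]
    rw [norm_mul]
    calc ‖z‖ * ‖G z‖ ≤ (K * Real.exp (η / 2 * ‖z‖)) * (C * Real.exp ((1 + η / 2) * ‖z‖)) :=
          mul_le_mul (e1.trans (hK _ hz)) (hC z) (norm_nonneg _) (by positivity)
      _ = K * C * Real.exp ((1 + η) * ‖z‖) := by
          rw [show (1 + η) * ‖z‖ = η / 2 * ‖z‖ + (1 + η / 2) * ‖z‖ by ring, Real.exp_add]; ring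

lemma sym_div {G : ℂ → ℂ} (hG : TypeOne G) (h0 : G 0 = 0) :
    TypeOne (dslope G 0) ∧ ∀ z, G z = z * dslope G 0 z := by
  have hd := differentiable_dslope hG.1 0
  have he : ∀ z, G z = z * dslope G 0 z := by
    intro z
    have e1 := sub_smul_dslope G 0 z
    simp only [sub_zero, smul_eq_mul, h0] at e1
    exact e1.symm
  refine ⟨⟨hd, fun x => ?_, fun η hη => ?_⟩, he⟩
  · have hc : Continuous fun x : ℝ => (dslope G 0 x).im :=
      continuous_im.comp (hd.continuous.comp continuous_ofReal)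
    have hne : ∀ x : ℝ, x ≠ 0 → (dslope G 0 x).im = 0 := by
      intro x hx
      have e1 := hG.2.1 x
      rw [he, im_ofReal_mul] at e1
      exact (mul_eq_zero.1 e1).resolve_left hx
    have hcl : IsClosed {x : ℝ | (dslope G 0 x).im = 0} := isClosed_eq hc continuous_const
    have hden : Dense {x : ℝ | (dslope G 0 x).im = 0} :=
      (dense_compl_singleton (0 : ℝ)).mono fun x hx => hne x hx
    have := hden x
    rwa [hcl.closure_eq] at this
  · obtain ⟨C, hC⟩ := hG.2.2 η hη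
    refine ⟨C * Real.exp (1 + η), fun z => (norm_dslope_zero_le hG.1 h0 hC z).trans_eq ?_⟩
    rw [mul_assoc, ← Real.exp_add]
    congr 2
    ring

/-- Symmetrisation `G_even + b G_odd / z`, the odd part divided by `z`, and division of an even function by `z`. -/
theorem sym_stmt {G : ℂ → ℂ} (hG : TypeOne G) :
    (∃ O : ℂ → ℂ, TypeOne O ∧ (∀ z, O (-z) = O z) ∧ ∀ z, G z - G (-z) = 2 * z * O z) ∧
    TypeOne (fun z => (G z + G (-z)) / 2) ∧ TypeOne (fun z => z * G z) ∧
    TypeOne (fun z => G (-z)) ∧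
    (∀ H, TypeOne H → ∀ a b : ℝ, TypeOne fun z => a * G z + b * H z) ∧
    (∀ c : ℝ, TypeOne fun z => G z + c) ∧
    (G 0 = 0 → ∃ H : ℂ → ℂ, TypeOne H ∧ ∀ z, G z = z * H z) := by
  refine ⟨?_, ?_, sym_mul hG, sym_neg hG, fun H hH a b => sym_lin hG hH a b, fun c => ?_,
    fun h0 => ⟨_, sym_div hG h0⟩⟩
  · have h1 := sym_lin hG (sym_neg hG) (1 / 2) (-1 / 2)
    obtain ⟨h2, h3⟩ := sym_div h1 (by simp only [neg_zero]; push_cast; ring)
    set O := dslope (fun z => ((1 / 2 : ℝ) : ℂ) * G z + ((-1 / 2 : ℝ) : ℂ) * G (-z)) 0 with hO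
    have h4 : ∀ z, G z - G (-z) = 2 * z * O z := by
      intro z
      have := h3 z
      push_cast at this
      linear_combination 2 * this
    refine ⟨O, h2, fun z => ?_, h4⟩
    rcases eq_or_ne z 0 with rfl | hz
    · rw [neg_zero]
    · have e1 := h4 z
      have e2 := h4 (-z)
      rw [neg_neg] at e2
      have e3 : 2 * z * (O (-z) - O z) = 0 := by linear_combination e2 + e1
      have e4 := (mul_eq_zero.1 e3).resolve_left (mul_ne_zero two_ne_zero hz)
      exact sub_eq_zero.1 e4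
  · have h1 := sym_lin hG (sym_neg hG) (1 / 2) (1 / 2)
    have h2 : (fun z => ((1 / 2 : ℝ) : ℂ) * G z + ((1 / 2 : ℝ) : ℂ) * G (-z)) =
        fun z => (G z + G (-z)) / 2 := by
      funext z
      push_cast
      ring
    rwa [h2] at h1
  · have h1 := sym_lin hG sym_one 1 c
    simpa using h1

end Pool.Agent.P.MP_7e6317_an
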