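import Pool.Agent.P.MP_7e6317_an.D.CorMain
import Pool.Agent.P.MP_7e6317_an.D.CorTheta
import Pool.Agent.P.MP_7e6317_an.D.Sym

namespace Pool.Agent.P.MP_7e6317_an

open Filter Topology Set MeasureTheory Complex

lemma finAbs_dev (α a u : ℝ) (k : ℕ) :
    dev 1 (fun a u => u - a - 2 * (a / α)) (fun a u => u + a) a k u
      = a + (1 + (-1) ^ k) * (a / α) := by
  unfold dev
  rcases Nat.even_or_odd k with hk | hk
  · rw [if_pos hk, hk.neg_one_pow, Real.rpow_one]; ring
  · rw [if_neg (Nat.not_even_iff_odd.2 hk), hk.neg_one_pow, Real.rpow_one]; ring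

lemma finAbs_cls_one : Cls 0 fun _ => (1 : ℂ) where
  diff := differentiable_const _
  expT η hη := ⟨1, fun z => by
    rw [norm_one, one_mul]; exact Real.one_le_exp (by positivity)⟩
  even _ := rfl
  bd := ⟨1, fun u => by simp⟩

lemma finAbs_summable {y : ℕ → ℝ} (hy : Adm 0 y) : Summable (wt y) := by
  simpa using hy.2.2.2.1

lemma finAbs_alt {y : ℕ → ℝ} (hy : Adm 0 y) : HasSum (fun k => (-1) ^ k * wt y k) 1 := by
  have h := (interp_stmt hy (by norm_num) (by norm_num) finAbs_cls_one).2.1 0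
  have h1 := (prodA_stmt hy.nodes).2.2.2.2.2.2.2.2.2.2.2.2
  simp only [h1, mul_one] at h
  exact Complex.hasSum_ofReal.1 (by simpa only [ofReal_one] using h)

lemma finAbs_sum {α : ℝ} (hα : 0 < α) {y : ℕ → ℝ} (hy : Adm 0 y) (a : ℝ) :
    HasSum (fun k => wt y k * (a + (1 + (-1) ^ k) * (a / α)))
      (a * ((1 + α) * ∑' k, wt y k + 1) / α) := by
  have h := ((finAbs_summable hy).hasSum.mul_left (a + a / α)).add
    ((finAbs_alt hy).mul_left (a / α))
  have e1 : (fun k => wt y k * (a + (1 + (-1) ^ k) * (a / α))) =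
      fun k => (a + a / α) * wt y k + a / α * ((-1) ^ k * wt y k) := by
    funext k; ring
  have e2 : a * ((1 + α) * ∑' k, wt y k + 1) / α =
      (a + a / α) * ∑' k, wt y k + a / α * 1 := by
    field_simp; ring
  rw [e1, e2]; exact h

lemma finAbs_den {α : ℝ} (hα : 0 < α) {y : ℕ → ℝ} (hy : Adm 0 y) :
    0 < (1 + α) * ∑' k, wt y k + 1 := by
  have : 0 ≤ ∑' k, wt y k := tsum_nonneg fun k => ((prodB_stmt hy.nodes).1 k).le
  positivity

lemma finAbs_near {f : ℝ → ℝ} {c β : ℝ} (hc : 0 < c) (hβ : 0 < β) (hf : Continuous f)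
    (he : ∀ u, f (-u) = f u) (h0 : f 0 = 0) (hnn : ∀ u, 0 < u → 0 ≤ f u)
    (hb : ∀ u, 0 < u → u - c - 2 * β ≤ f u ∧ f u ≤ u + c) :
    (∀ x : ℝ, ∃ y : ℝ, |x - y| ≤ c ∧ abs (|x| - (f y + β)) ≤ β) ∧
      ∀ x : ℝ, ∃ y : ℝ, |x - y| ≤ c ∧ abs (f x + β - |y|) ≤ β := by
  have k1 : ∀ x : ℝ, 0 ≤ x → ∃ y : ℝ, |x - y| ≤ c ∧ abs (|x| - (f y + β)) ≤ β := by
    intro x hx
    rw [abs_of_nonneg hx]
    have h1 := hb (x + c) (by linarith)
    rcases le_total (f (x + c)) x with h2 | h2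
    · exact ⟨x + c, abs_le.2 ⟨by linarith, by linarith⟩, abs_le.2 ⟨by linarith, by linarith⟩⟩
    · have h3 : f (max (x - c) 0) ≤ x := by
        rcases le_or_gt (x - c) 0 with h | h
        · rw [max_eq_right h, h0]; exact hx
        · rw [max_eq_left h.le]; linarith [(hb _ h).2]
      have h4 : max (x - c) 0 ≤ x + c := max_le (by linarith) (by linarith)
      obtain ⟨y, hy, hfy⟩ := intermediate_value_Icc h4 hf.continuousOn ⟨h3, h2⟩
      have h5 := (le_max_left _ _).trans hy.1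
      exact ⟨y, abs_le.2 ⟨by linarith [hy.2], by linarith⟩, abs_le.2 ⟨by linarith, by linarith⟩⟩
  have k2 : ∀ x : ℝ, 0 ≤ x → ∃ y : ℝ, |x - y| ≤ c ∧ abs (f x + β - |y|) ≤ β := by
    intro x hx
    have h1 : x - c - 2 * β ≤ f x ∧ f x ≤ x + c ∧ 0 ≤ f x := by
      rcases hx.eq_or_lt with rfl | hx
      · rw [h0]; exact ⟨by linarith, by linarith, le_rfl⟩
      · exact ⟨(hb x hx).1, (hb x hx).2, hnn x hx⟩
    have h2 := le_max_left (f x) (x - c)
    have h3 := le_max_right (f x) (x - c)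
    have h4 : max (f x) (x - c) ≤ x + c := max_le h1.2.1 (by linarith)
    have h5 : max (f x) (x - c) ≤ f x + 2 * β := max_le (by linarith) (by linarith)
    refine ⟨max (f x) (x - c), abs_le.2 ⟨by linarith, by linarith⟩, ?_⟩
    rw [abs_of_nonneg (h1.2.2.trans h2)]
    exact abs_le.2 ⟨by linarith, by linarith⟩
  refine ⟨fun x => ?_, fun x => ?_⟩
  · rcases le_total 0 x with hx | hx
    · exact k1 x hx
    · obtain ⟨y, h1, h2⟩ := k1 (-x) (by linarith)
      refine ⟨-y, ?_, ?_⟩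
      · rwa [show x - -y = -(-x - y) by ring, abs_neg]
      · rwa [he, ← abs_neg x]
  · rcases le_total 0 x with hx | hx
    · exact k2 x hx
    · obtain ⟨y, h1, h2⟩ := k2 (-x) (by linarith)
      refine ⟨-y, ?_, ?_⟩
      · rwa [show x - -y = -(-x - y) by ring, abs_neg]
      · rwa [abs_neg y, ← he x]

lemma finAbs_phi (x : ℝ) : phi 1 x = |x| := by simp [phi]

/-- comparison of a competitor with the extremal function -/
lemma finAbs_cmp {α c a : ℝ} (hα : 0 < α) (hc : 0 < c) (hac : a ≤ c) {F G : ℂ → ℂ} {y : ℕ → ℝ}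
    (hF : Feas (fun a u => u - a - 2 * (a / α)) (fun a u => u + a) c F) (hy : Adm 0 y)
    (ht : ∀ k, (F (y k)).re = if Even k then y k - c - 2 * (c / α) else y k + c)
    (hp : ∀ u : ℝ, 0 < u → u ≤ y 0 → 0 < (F u).re) (hG : TypeOne G)
    (hN : Near (phi 1) G a (a / α)) : a = c ∧ ∀ z, G z = F z + (c / α : ℝ) := by
  obtain ⟨hF1, hFe, hF0, hFb⟩ := hF
  obtain ⟨⟨O, hO, hOe, hOz⟩, hE, -, -, -, -, -⟩ := sym_stmt hG
  have hβ : 0 < c / α := div_pos hc hα
  have hab : a / α ≤ c / α := div_le_div_of_nonneg_right hac hα.le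
  have hy0 : c + 2 * (c / α) < y 0 := by
    have h1 := hp (y 0) hy.1 le_rfl
    rw [ht 0, if_pos Even.zero] at h1
    linarith
  have hyk : ∀ k, y 0 ≤ y k := fun k => hy.2.1.monotone (Nat.zero_le k)
  have hGb : ∀ u : ℝ, |u| - a - a / α ≤ (G u).re ∧ (G u).re ≤ |u| + a + a / α := by
    intro u
    obtain ⟨v, h1, h2⟩ := hN.2 u
    rw [finAbs_phi] at h2
    have h3 := abs_le.1 ((abs_abs_sub_abs_le_abs_sub u v).trans h1)
    have h4 := abs_le.1 h2
    exact ⟨by linarith, by linarith⟩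
  obtain ⟨b, hb1, hb2⟩ := hN.1 0
  rw [zero_sub, abs_neg] at hb1
  rw [finAbs_phi, abs_zero, zero_sub, abs_neg] at hb2
  have hb3 := (abs_le.1 hb2).2
  have hb4 := abs_le.1 hb1
  have hOr : ∀ u : ℝ, (G u).re - (G (-u : ℝ)).re = 2 * u * (O u).re := by
    intro u
    have h1 := congrArg Complex.re (hOz u)
    rw [ofReal_neg]
    simpa [hO.2.1 u] using h1
  set D : ℂ → ℂ := fun z => (G z + G (-z)) / 2 + b * O z - F z - (c / α : ℝ) with hD
  have hDT : TypeOne D := by
    have h1 := (sym_stmt hE).2.2.2.2.1 O hO 1 b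
    have h2 := (sym_stmt h1).2.2.2.2.1 F hF1 1 (-1)
    have h3 := (sym_stmt h2).2.2.2.2.2.1 (-(c / α))
    convert h3 using 2 with z
    simp only [hD]
    push_cast
    ring
  have hDr : ∀ u : ℝ, (D u).re =
      ((G u).re + (G (-u : ℝ)).re) / 2 + b * (O u).re - (F u).re - c / α := by
    intro u
    simp only [hD, sub_re, add_re, ofReal_re, re_ofReal_mul, div_ofNat_re, ofReal_neg]
  have hmix : ∀ u : ℝ, |b| < u →
      u - a - a / α ≤ ((G u).re + (G (-u : ℝ)).re) / 2 + b * (O u).re ∧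
      ((G u).re + (G (-u : ℝ)).re) / 2 + b * (O u).re ≤ u + a + a / α := by
    intro u hu
    have hu0 : 0 < u := (abs_nonneg b).trans_lt hu
    have h1 := hGb u
    have h2 := hGb (-u)
    rw [abs_neg] at h2
    rw [abs_of_pos hu0] at h1 h2
    have h3 := hOr u
    have h4 := abs_lt.1 hu
    have h5 : 0 < u + b := by linarith
    have h6 : 0 < u - b := by linarith
    have h7 : 2 * u * (((G u).re + (G (-u : ℝ)).re) / 2 + b * (O u).re) =
        (u + b) * (G u).re + (u - b) * (G (-u : ℝ)).re := by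
      linear_combination (-b) * h3
    constructor
    · refine le_of_mul_le_mul_left ?_ (by linarith : 0 < 2 * u)
      rw [h7]
      nlinarith [mul_le_mul_of_nonneg_left h1.1 h5.le, mul_le_mul_of_nonneg_left h2.1 h6.le]
    · refine le_of_mul_le_mul_left ?_ (by linarith : 0 < 2 * u)
      rw [h7]
      nlinarith [mul_le_mul_of_nonneg_left h1.2 h5.le, mul_le_mul_of_nonneg_left h2.2 h6.le]
  have hDc : Cls 0 D := by
    refine Cls.of_large hDT.1 hDT.2.2 (fun z => ?_) (C := 2 * c + 2 * (c / α)) (U := c + 1)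
      fun u hu _ => ?_
    · simp only [hD, neg_neg, hOe, hFe, add_comm (G (-z))]
    · have h1 := hmix u (by linarith)
      have h2 := hFb u (by linarith)
      rw [hDT.norm_real, Real.rpow_zero, mul_one, hDr]
      exact abs_le.2 ⟨by linarith [h1.1, h2.2], by linarith [h1.2, h2.1]⟩
  have hsg : ∀ k, (c - a) + (c / α - a / α) ≤ (-1) ^ k * (D (y k)).re := by
    intro k
    have h1 := hmix (y k) (by linarith [hyk k])
    rw [hDr, ht k]
    rcases Nat.even_or_odd k with hk | hk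
    · rw [if_pos hk, hk.neg_one_pow]; linarith [h1.1]
    · rw [if_neg (Nat.not_even_iff_odd.2 hk), hk.neg_one_pow]; linarith [h1.2]
  have hFr : ∀ u : ℝ, (F (-u : ℝ)).re = (F u).re := fun u => by rw [ofReal_neg, hFe]
  have hFab : (F (|b| : ℝ)).re = (F b).re := by
    rcases abs_choice b with h | h <;> rw [h]
    exact hFr b
  have hFb0 : 0 ≤ (F b).re := by
    rcases eq_or_ne b 0 with rfl | h
    · simp [hF0]
    · rw [← hFab]; exact (hp _ (abs_pos.2 h) (by linarith)).le
  have hDb : (D b).re = (G b).re - (F b).re - c / α := by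
    rw [hDr]; linarith [hOr b]
  have hD0 : ∀ z, D z = 0 :=
    (interp_stmt hy (by norm_num) (by norm_num) hDc).2.2.2 hDT.2.1
      (fun k => le_trans (by linarith) (hsg k)) b (by linarith) (by rw [hDb]; linarith)
  have hac' : a = c := by
    have h1 := hsg 0
    rw [hD0, zero_re, mul_zero] at h1
    linarith
  subst hac'
  have hb0 : b = 0 := by
    by_contra h
    have h1 := hp _ (abs_pos.2 h) (by linarith)
    rw [hD0, zero_re] at hDb
    linarith
  subst hb0
  have hOk : ∀ k, O (y k) = 0 := by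
    intro k
    have hk0 : 0 < y k := hy.nodes.pos k
    have h1 := hGb (y k)
    have h2 := hGb (-y k)
    rw [abs_neg] at h2
    rw [abs_of_pos hk0] at h1 h2
    have h3 := hDr (y k)
    rw [hD0, zero_re, ht k, zero_mul] at h3
    have h4 : (G (y k)).re - (G (-y k : ℝ)).re = 0 := by
      split_ifs at h3 <;> linarith [h1.1, h1.2, h2.1, h2.2]
    rw [hOr] at h4
    exact Complex.ext ((mul_eq_zero.1 h4).resolve_left (by positivity)) (hO.2.1 _)
  have hOc : Cls 0 O := by
    refine Cls.of_large hO.1 hO.2.2 hOe (C := a + a / α) (U := 1) fun u hu _ => ?_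
    have hu0 : 0 < u := by linarith
    have h1 := hGb u
    have h2 := hGb (-u)
    rw [abs_neg] at h2
    have h3 := hOr u
    have h4 : |2 * u * (O u).re| ≤ 2 * (a + a / α) := by
      rw [← h3]; exact abs_le.2 ⟨by linarith [h1.1, h2.2], by linarith [h1.2, h2.1]⟩
    rw [abs_mul, abs_of_pos (by linarith : 0 < 2 * u)] at h4
    rw [hO.norm_real, Real.rpow_zero, mul_one]
    nlinarith [abs_nonneg (O u).re]
  have hO0 := (interp_stmt hy (by norm_num) (by norm_num) hOc).2.2.1 hOk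
  refine ⟨rfl, fun z => ?_⟩
  have h1 := hD0 z
  have h2 := hOz z
  simp only [hD, hO0, mul_zero] at h1 h2
  linear_combination h1 + h2 / 2

/-- Duality for the absolute value (paper, 7). -/
theorem abs_dual {α : ℝ} (hα : 0 < α) :
    ∃ c : ℝ, 0 < c ∧ IsLeast {a | ∃ G, TypeOne G ∧ Near (phi 1) G a (a / α)} c ∧
      IsGreatest {a | ∃ y, Adm 0 y ∧ a = α * mass 1 y / ((1 + α) * ∑' k, wt y k + 1)} c ∧
      ∃ (G : ℂ → ℂ) (y : ℕ → ℝ), TypeOne G ∧ Near (phi 1) G c (c / α) ∧
        (∀ G', TypeOne G' → Near (phi 1) G' c (c / α) → G' = G) ∧ Adm 0 y ∧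
        (∀ k, (G (y k)).re = y k - (-1) ^ k * (c + c / α)) ∧
        c = α * mass 1 y / ((1 + α) * ∑' k, wt y k + 1) ∧
        ∀ u : ℝ, 0 < u → (∀ k, u ≠ y k) →
          (G u).re = c / α + extr 1 y (fun k => c + (1 + (-1) ^ k) * (c / α)) u := by
  obtain ⟨c, F, y, hc, hF, hy, ht, hs, hp, hx, hmax⟩ := cor_main (corTheta_stmt.2 α hα)
  simp only [finAbs_dev] at hs hx hmax
  have hβ : 0 < c / α := div_pos hc hα
  have hGT : TypeOne fun z => F z + (c / α : ℝ) := (sym_stmt hF.1).2.2.2.2.2.1 (c / α)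
  have hy0 : c + 2 * (c / α) < y 0 := by
    have h1 := hp (y 0) hy.1 le_rfl
    rw [ht 0, if_pos Even.zero] at h1
    linarith
  have hGN : Near (phi 1) (fun z => F z + (c / α : ℝ)) c (c / α) := by
    have h := finAbs_near (f := fun u : ℝ => (F u).re) hc hβ hF.1.cont
      (fun u => by simp only [ofReal_neg, hF.2.1]) (by simp [hF.2.2.1])
      (fun u hu => by
        rcases le_total u (y 0) with h | h
        · exact (hp u hu h).le
        · linarith [(hF.2.2.2 u hu).1])
      hF.2.2.2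
    simpa only [Near, finAbs_phi, add_re, ofReal_re] using h
  have hcy : c = α * mass 1 y / ((1 + α) * ∑' k, wt y k + 1) := by
    rw [hs.unique (finAbs_sum hα hy c), eq_div_iff (finAbs_den hα hy).ne']
    field_simp
  refine ⟨c, hc, ⟨⟨_, hGT, hGN⟩, ?_⟩, ⟨⟨y, hy, hcy⟩, ?_⟩, _, y, hGT, hGN, ?_, hy, ?_, hcy, ?_⟩
  · rintro a ⟨G, hG, hN⟩
    rcases le_total a c with h | h
    · exact (finAbs_cmp hα hc h hF hy ht hp hG hN).1.ge
    · exact h
  · rintro a ⟨x, hxa, rfl⟩
    have hd := finAbs_den hα hxa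
    have hm := (pos_stmt one_pos (by norm_num) hxa.nodes).1
    refine hmax _ x (by positivity) hxa (le_of_eq ?_)
    rw [(finAbs_sum hα hxa _).tsum_eq]
    field_simp
  · intro G hG hN
    exact funext (finAbs_cmp hα hc le_rfl hF hy ht hp hG hN).2
  · intro k
    simp only [add_re, ofReal_re, ht k]
    rcases Nat.even_or_odd k with hk | hk
    · rw [if_pos hk, hk.neg_one_pow]; ring
    · rw [if_neg (Nat.not_even_iff_odd.2 hk), hk.neg_one_pow]; ring
  · intro u hu hk
    simp only [add_re, ofReal_re, hx u hu hk]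
    ring

end Pool.Agent.P.MP_7e6317_an
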