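import Pool.Agent.P.MP_7e6317_an.D.CorMain
import Pool.Agent.P.MP_7e6317_an.D.CorPhi
import Pool.Agent.P.MP_7e6317_an.D.Sym

namespace Pool.Agent.P.MP_7e6317_an

open Filter Topology Set MeasureTheory Complex

lemma finPhi_dev {l a x : ℝ} (h0 : 0 < l) (ha : 0 < a) (hx : a ≤ x) (k : ℕ) :
    dev l (fun a u => psi l (u - a)) (fun a u => (u + a) ^ l) a k x
      = |(x - (-1) ^ k * a) ^ l - x ^ l| := by
  have hx0 : 0 < x := ha.trans_le hx
  unfold dev
  beta_reduce
  rcases Nat.even_or_odd k with hk | hk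
  · rw [if_pos hk, hk.neg_one_pow, one_mul, CorPhiA.psi_pos h0 (sub_nonneg.2 hx),
      abs_of_nonpos (sub_nonpos.2 (Real.rpow_le_rpow (sub_nonneg.2 hx) (by linarith) h0.le))]
    ring
  · rw [if_neg (Nat.not_even_iff_odd.2 hk), hk.neg_one_pow, neg_one_mul, sub_neg_eq_add,
      abs_of_nonneg (sub_nonneg.2 (Real.rpow_le_rpow hx0.le (by linarith) h0.le))]

lemma finPhi_zero {l : ℝ} (h0 : 0 < l) : phi l 0 = 0 := by simp [phi, h0.ne']

lemma finPhi_pos {l x : ℝ} (hx : 0 ≤ x) : phi l x = x ^ l := by rw [phi, abs_of_nonneg hx]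

lemma finPhi_neg (l x : ℝ) : phi l (-x) = phi l x := by rw [phi, phi, abs_neg]

lemma finPhi_near {l : ℝ} (h0 : 0 < l) {f : ℝ → ℝ} {c : ℝ} (hc : 0 < c) (hf : Continuous f)
    (he : ∀ u, f (-u) = f u) (hf0 : f 0 = 0) (hnn : ∀ u, 0 < u → 0 ≤ f u)
    (hb : ∀ u, 0 < u → psi l (u - c) ≤ f u ∧ f u ≤ (u + c) ^ l) :
    (∀ x : ℝ, ∃ y : ℝ, |x - y| ≤ c ∧ |phi l x - f y| ≤ 0) ∧
      ∀ x : ℝ, ∃ y : ℝ, |x - y| ≤ c ∧ |f x - phi l y| ≤ 0 := by
  have hp : Continuous (phi l) := continuous_abs.rpow_const fun _ => Or.inr h0.le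
  have k1 : ∀ x : ℝ, 0 ≤ x → ∃ y : ℝ, |x - y| ≤ c ∧ |phi l x - f y| ≤ 0 := by
    intro x hx
    rw [finPhi_pos hx]
    have h1 := (hb (x + c) (by linarith)).1
    rw [add_sub_cancel_right, CorPhiA.psi_pos h0 hx] at h1
    have h3 : f (max (x - c) 0) ≤ x ^ l := by
      rcases le_or_gt (x - c) 0 with h | h
      · rw [max_eq_right h, hf0]; exact Real.rpow_nonneg hx l
      · rw [max_eq_left h.le]
        have := (hb _ h).2
        rwa [sub_add_cancel] at this
    have h4 : max (x - c) 0 ≤ x + c := max_le (by linarith) (by linarith)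
    obtain ⟨y, hy, hfy⟩ := intermediate_value_Icc h4 hf.continuousOn ⟨h3, h1⟩
    have h5 := (le_max_left _ _).trans hy.1
    exact ⟨y, abs_le.2 ⟨by linarith [hy.2], by linarith⟩, by rw [hfy, sub_self, abs_zero]⟩
  have k2 : ∀ x : ℝ, 0 ≤ x → ∃ y : ℝ, |x - y| ≤ c ∧ |f x - phi l y| ≤ 0 := by
    intro x hx
    have h1 : phi l (max (x - c) 0) ≤ f x := by
      rcases le_or_gt (x - c) 0 with h | h
      · rw [max_eq_right h, finPhi_zero h0]
        rcases hx.eq_or_lt with rfl | hx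
        · exact hf0.ge
        · exact hnn x hx
      · rw [max_eq_left h.le, finPhi_pos h.le, ← CorPhiA.psi_pos h0 h.le]
        exact (hb x (by linarith)).1
    have h2 : f x ≤ phi l (x + c) := by
      rw [finPhi_pos (by linarith : 0 ≤ x + c)]
      rcases hx.eq_or_lt with rfl | hx
      · rw [hf0]; exact Real.rpow_nonneg (by linarith) l
      · exact (hb x hx).2
    have h4 : max (x - c) 0 ≤ x + c := max_le (by linarith) (by linarith)
    obtain ⟨y, hy, hfy⟩ := intermediate_value_Icc h4 hp.continuousOn ⟨h1, h2⟩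
    have h5 := (le_max_left _ _).trans hy.1
    exact ⟨y, abs_le.2 ⟨by linarith [hy.2], by linarith⟩, by rw [hfy, sub_self, abs_zero]⟩
  refine ⟨fun x => ?_, fun x => ?_⟩
  · rcases le_total 0 x with hx | hx
    · exact k1 x hx
    · obtain ⟨y, h1, h2⟩ := k1 (-x) (by linarith)
      refine ⟨-y, ?_, ?_⟩
      · rwa [show x - -y = -(-x - y) by ring, abs_neg]
      · rwa [he, ← finPhi_neg l x]
  · rcases le_total 0 x with hx | hx
    · exact k2 x hx
    · obtain ⟨y, h1, h2⟩ := k2 (-x) (by linarith)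
      refine ⟨-y, ?_, ?_⟩
      · rwa [show x - -y = -(-x - y) by ring, abs_neg]
      · rwa [finPhi_neg, ← he x]

/-- comparison of a competitor with the extremal function -/
lemma finPhi_cmp {l c a : ℝ} (h0 : 0 < l) (h1 : l < 1) (hc : 0 < c) (hac : a ≤ c) {F G : ℂ → ℂ}
    {y : ℕ → ℝ} (hF : Feas (fun a u => psi l (u - a)) (fun a u => (u + a) ^ l) c F)
    (hy : Adm (l - 1) y)
    (ht : ∀ k, (F (y k)).re = if Even k then psi l (y k - c) else (y k + c) ^ l)
    (hp : ∀ u : ℝ, 0 < u → u ≤ y 0 → 0 < (F u).re) (hy0 : c < y 0) (hG : TypeOne G)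
    (hN : Near (phi l) G a 0) : a = c ∧ ∀ z, G z = F z := by
  obtain ⟨hF1, hFe, hF0, hFb⟩ := hF
  obtain ⟨⟨O, hO, hOe, hOz⟩, hE, -, -, -, -, -⟩ := sym_stmt hG
  obtain ⟨η, C, U, -, -, hw⟩ := (corPhi_stmt h0 h1).1.width c hc
  have hm := (CorPhiA.psi_mono h0).monotone
  have hyk : ∀ k, y 0 ≤ y k := fun k => hy.2.1.monotone (Nat.zero_le k)
  have hGa : ∀ u : ℝ, psi l (|u| - a) ≤ (G u).re ∧ (G u).re ≤ (|u| + c) ^ l := by
    intro u
    obtain ⟨v, e1, e2⟩ := hN.2 u
    have e3 : (G u).re = |v| ^ l := sub_eq_zero.1 (abs_nonpos_iff.1 e2)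
    have e4 := abs_le.1 ((abs_abs_sub_abs_le_abs_sub u v).trans e1)
    rw [e3]
    refine ⟨?_, Real.rpow_le_rpow (abs_nonneg v) (by linarith) h0.le⟩
    rw [← CorPhiA.psi_pos h0 (abs_nonneg v)]
    exact hm (by linarith)
  have hca : ∀ u : ℝ, psi l (u - c) ≤ psi l (u - a) := fun u => hm (by linarith)
  obtain ⟨b, hb1, hb2⟩ := hN.1 0
  rw [zero_sub, abs_neg] at hb1
  rw [finPhi_zero h0, zero_sub, abs_neg] at hb2
  have hb3 : (G b).re = 0 := abs_nonpos_iff.1 hb2
  have hOr : ∀ u : ℝ, (G u).re - (G (-u : ℝ)).re = 2 * u * (O u).re := by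
    intro u
    have e1 := congrArg Complex.re (hOz u)
    rw [ofReal_neg]
    simpa [hO.2.1 u] using e1
  set D : ℂ → ℂ := fun z => (G z + G (-z)) / 2 + b * O z - F z with hD
  have hDT : TypeOne D := by
    have e1 := sym_lin (sym_lin hE hO 1 b) hF1 1 (-1)
    have e2 : (fun z => ((1 : ℝ) : ℂ) * (((1 : ℝ) : ℂ) * ((G z + G (-z)) / 2) + (b : ℂ) * O z) +
        ((-1 : ℝ) : ℂ) * F z) = D := by
      funext z
      simp only [hD]
      push_cast
      ring
    rwa [e2] at e1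
  have hDr : ∀ u : ℝ, (D u).re =
      ((G u).re + (G (-u : ℝ)).re) / 2 + b * (O u).re - (F u).re := by
    intro u
    simp only [hD, sub_re, add_re, re_ofReal_mul, div_ofNat_re, ofReal_neg]
  have hmix : ∀ u : ℝ, |b| < u →
      psi l (u - a) ≤ ((G u).re + (G (-u : ℝ)).re) / 2 + b * (O u).re ∧
      ((G u).re + (G (-u : ℝ)).re) / 2 + b * (O u).re ≤ (u + c) ^ l := by
    intro u hu
    have hu0 : 0 < u := (abs_nonneg b).trans_lt hu
    have e1 := hGa u
    have e2 := hGa (-u)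
    rw [abs_neg] at e2
    rw [abs_of_pos hu0] at e1 e2
    have e3 := hOr u
    have e4 := abs_lt.1 hu
    have e5 : 0 < u + b := by linarith
    have e6 : 0 < u - b := by linarith
    have e7 : 2 * u * (((G u).re + (G (-u : ℝ)).re) / 2 + b * (O u).re) =
        (u + b) * (G u).re + (u - b) * (G (-u : ℝ)).re := by
      linear_combination (-b) * e3
    constructor
    · refine le_of_mul_le_mul_left ?_ (by linarith : 0 < 2 * u)
      rw [e7]
      nlinarith [mul_le_mul_of_nonneg_left e1.1 e5.le, mul_le_mul_of_nonneg_left e2.1 e6.le]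
    · refine le_of_mul_le_mul_left ?_ (by linarith : 0 < 2 * u)
      rw [e7]
      nlinarith [mul_le_mul_of_nonneg_left e1.2 e5.le, mul_le_mul_of_nonneg_left e2.2 e6.le]
  have hDc : Cls (l - 1) D := by
    refine Cls.of_large hDT.1 hDT.2.2 (fun z => ?_) (C := 2 * C) (U := max U (c + 1))
      fun u hu _ => ?_
    · simp only [hD, neg_neg, hOe, hFe, add_comm (G (-z))]
    · have hu1 := (le_max_right _ _).trans hu
      have e1 := hmix u (by linarith)
      have e2 := hFb u (by linarith)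
      obtain ⟨-, e3, -, e4⟩ := hw u ((le_max_left _ _).trans hu)
      have e5 := hca u
      rw [typeOne_norm hDT, hDr]
      exact abs_le.2 ⟨by linarith [e1.1, e2.2], by linarith [e1.2, e2.1]⟩
  have hsg : ∀ k, 0 ≤ (-1) ^ k * (D (y k)).re := by
    intro k
    have e1 := hmix (y k) (by linarith [hyk k])
    rw [hDr, ht k]
    rcases Nat.even_or_odd k with hk | hk
    · rw [if_pos hk, hk.neg_one_pow]; linarith [e1.1, hca (y k)]
    · rw [if_neg (Nat.not_even_iff_odd.2 hk), hk.neg_one_pow]; linarith [e1.2]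
  have hFr : ∀ u : ℝ, (F (-u : ℝ)).re = (F u).re := fun u => by rw [ofReal_neg, hFe]
  have hFab : (F (|b| : ℝ)).re = (F b).re := by
    rcases abs_choice b with h | h <;> rw [h]
    exact hFr b
  have hFb0 : 0 ≤ (F b).re := by
    rcases eq_or_ne b 0 with rfl | h
    · simp [hF0]
    · rw [← hFab]; exact (hp _ (abs_pos.2 h) (by linarith)).le
  have hDb : (D b).re = (G b).re - (F b).re := by
    rw [hDr]; linarith [hOr b]
  have hD0 : ∀ z, D z = 0 :=
    (interp_stmt hy (by linarith) (by linarith) hDc).2.2.2 hDT.2.1 hsg b (by linarith)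
      (by rw [hDb]; linarith)
  have hac' : a = c := by
    have e1 := (hmix (y 0) (by linarith)).1
    have e2 := hDr (y 0)
    rw [hD0, zero_re, ht 0, if_pos Even.zero] at e2
    have e3 : y 0 - a ≤ y 0 - c := (CorPhiA.psi_mono h0).le_iff_le.1 (by linarith)
    linarith
  subst hac'
  have hb0 : b = 0 := by
    by_contra h
    have e1 := hp _ (abs_pos.2 h) (by linarith)
    rw [hD0, zero_re] at hDb
    linarith
  subst hb0
  have hOk : ∀ k, O (y k) = 0 := by
    intro k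
    have hk0 : 0 < y k := hy.nodes.pos k
    have e1 := hGa (y k)
    have e2 := hGa (-y k)
    rw [abs_neg] at e2
    rw [abs_of_pos hk0] at e1 e2
    have e3 := hDr (y k)
    rw [hD0, zero_re, ht k, zero_mul] at e3
    have e4 : (G (y k)).re - (G (-y k : ℝ)).re = 0 := by
      split_ifs at e3 <;> linarith [e1.1, e1.2, e2.1, e2.2]
    rw [hOr] at e4
    exact Complex.ext ((mul_eq_zero.1 e4).resolve_left (by positivity)) (hO.2.1 _)
  have hOc : Cls (l - 1) O := by
    refine Cls.of_large hO.1 hO.2.2 hOe (C := C) (U := U) fun u hu hu1 => ?_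
    have hu0 : 0 < u := by linarith
    have e1 := hGa u
    have e2 := hGa (-u)
    rw [abs_neg] at e2
    rw [abs_of_pos hu0] at e1 e2
    have e3 := hOr u
    obtain ⟨-, e5, -, e6⟩ := hw u hu
    have e4 : |2 * u * (O u).re| ≤ 2 * (C * u ^ (l - 1)) := by
      rw [← e3]; exact abs_le.2 ⟨by linarith [e1.1, e2.2], by linarith [e1.2, e2.1]⟩
    rw [abs_mul, abs_of_pos (by linarith : 0 < 2 * u)] at e4
    rw [typeOne_norm hO]
    nlinarith [abs_nonneg (O u).re]
  have hO0 := (interp_stmt hy (by linarith) (by linarith) hOc).2.2.1 hOk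
  refine ⟨rfl, fun z => ?_⟩
  have e1 := hD0 z
  have e2 := hOz z
  simp only [hD, hO0, mul_zero] at e1 e2
  linear_combination e1 + e2 / 2

/-- Duality for `phi` (paper, 7). -/
theorem phi_dual {l : ℝ} (h0 : 0 < l) (h1 : l < 1) :
    ∃ c : ℝ, 0 < c ∧ IsLeast {a | ∃ G, TypeOne G ∧ Near (phi l) G a 0} c ∧
      IsGreatest {a | 0 < a ∧ ∃ y, Adm (l - 1) y ∧ a ≤ y 0 ∧
        ∑' k, wt y k * |(y k - (-1) ^ k * a) ^ l - y k ^ l| ≤ mass l y} c ∧
      ∃ (G : ℂ → ℂ) (y : ℕ → ℝ), TypeOne G ∧ Near (phi l) G c 0 ∧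
        (∀ G', TypeOne G' → Near (phi l) G' c 0 → G' = G) ∧ Adm (l - 1) y ∧ c ≤ y 0 ∧
        (∀ k, (G (y k)).re = (y k - (-1) ^ k * c) ^ l) ∧
        ∑' k, wt y k * |(y k - (-1) ^ k * c) ^ l - y k ^ l| = mass l y ∧
        ∀ u : ℝ, 0 < u → (∀ k, u ≠ y k) →
          (G u).re = extr l y (fun k => |(y k - (-1) ^ k * c) ^ l - y k ^ l|) u := by
  obtain ⟨c, F, y, hc, hF, hy, ht, hs, hp, hx, hmax⟩ := cor_main (corPhi_stmt h0 h1).1
  have hy0 : c < y 0 := by
    have e1 := hp (y 0) hy.1 le_rfl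
    rw [ht 0, if_pos Even.zero] at e1
    have e0 : psi l 0 = 0 := by simp [psi]
    rw [← e0] at e1
    linarith [(CorPhiA.psi_mono h0).lt_iff_lt.1 e1]
  have hyk : ∀ k, c ≤ y k := fun k => hy0.le.trans (hy.2.1.monotone (Nat.zero_le k))
  simp only [finPhi_dev h0 hc (hyk _)] at hs hx
  have hGN : Near (phi l) F c 0 :=
    finPhi_near h0 (f := fun u : ℝ => (F u).re) hc
      (continuous_re.comp (hF.1.1.continuous.comp continuous_ofReal))
      (fun u => by simp only [ofReal_neg, hF.2.1]) (by simp [hF.2.2.1])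
      (fun u hu => by
        rcases le_total u (y 0) with h | h
        · exact (hp u hu h).le
        · refine le_trans ?_ (hF.2.2.2 u hu).1
          show 0 ≤ psi l (u - c)
          rw [CorPhiA.psi_pos h0 (by linarith)]
          exact Real.rpow_nonneg (by linarith) l)
      hF.2.2.2
  refine ⟨c, hc, ⟨⟨_, hF.1, hGN⟩, ?_⟩, ⟨⟨hc, y, hy, hy0.le, hs.tsum_eq.le⟩, ?_⟩, F, y, hF.1, hGN,
    ?_, hy, hy0.le, ?_, hs.tsum_eq, hx⟩
  · rintro a ⟨G, hG, hN⟩
    rcases le_total a c with h | h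
    · exact (finPhi_cmp h0 h1 hc h hF hy ht hp hy0 hG hN).1.ge
    · exact h
  · rintro a ⟨ha, x, hxa, hx0, hle⟩
    refine hmax a x ha hxa ?_
    have hxk : ∀ k, a ≤ x k := fun k => hx0.trans (hxa.2.1.monotone (Nat.zero_le k))
    simpa only [finPhi_dev h0 ha (hxk _)] using hle
  · intro G hG hN
    exact funext (finPhi_cmp h0 h1 hc le_rfl hF hy ht hp hy0 hG hN).2
  · intro k
    rw [ht k]
    rcases Nat.even_or_odd k with hk | hk
    · rw [if_pos hk, hk.neg_one_pow, one_mul]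
      exact CorPhiA.psi_pos h0 (sub_nonneg.2 (hyk k))
    · rw [if_neg (Nat.not_even_iff_odd.2 hk), hk.neg_one_pow, neg_one_mul, sub_neg_eq_add]

end Pool.Agent.P.MP_7e6317_an
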