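import Pool.Agent.P.MP_7e6317_an.D.CorMain
import Pool.Agent.P.MP_7e6317_an.D.CorPhi
import Pool.Agent.P.MP_7e6317_an.D.Sym

namespace Pool.Agent.P.MP_7e6317_an

open Filter Topology Set MeasureTheory Complex

lemma FinPsi_mono {l : ℝ} (h0 : 0 < l) : Monotone (psi l) := by
  intro x y hxy
  rw [psi_eq h0, psi_eq h0]
  have e1 : max x 0 ^ l ≤ max y 0 ^ l :=
    Real.rpow_le_rpow (le_max_right _ _) (max_le_max hxy le_rfl) h0.le
  have e2 : max (-y) 0 ^ l ≤ max (-x) 0 ^ l :=
    Real.rpow_le_rpow (le_max_right _ _) (max_le_max (neg_le_neg hxy) le_rfl) h0.le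
  linarith

lemma FinPsi_neg (l x : ℝ) : psi l (-x) = -psi l x := by simp [psi, Real.sign_neg]

lemma FinPsi_near_of {l a : ℝ} (h0 : 0 < l) (h1 : l < 1) (ha : 0 ≤ a) {G : ℂ → ℂ}
    (hG : TypeOne G) (h : ∀ u : ℝ, psi l (u - a) ≤ (G u).re ∧ (G u).re ≤ psi l (u + a)) :
    Near (psi l) G a 0 := by
  have hc : Continuous fun u : ℝ => (G u).re :=
    continuous_re.comp (hG.1.continuous.comp continuous_ofReal)
  have hp := (lineF_psi h0 h1.le).cont
  constructor
  · intro x
    have e1 := (h (x - a)).2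
    have e2 := (h (x + a)).1
    rw [sub_add_cancel] at e1
    rw [add_sub_cancel_right] at e2
    obtain ⟨y, hy, e⟩ := intermediate_value_Icc (show x - a ≤ x + a by linarith)
      hc.continuousOn (⟨e1, e2⟩ : psi l x ∈ Icc _ _)
    refine ⟨y, abs_le.2 ⟨by linarith [hy.2], by linarith [hy.1]⟩, ?_⟩
    have e' : (G y).re = psi l x := e
    rw [e', sub_self, abs_zero]
  · intro x
    obtain ⟨y, hy, e⟩ := intermediate_value_Icc (show x - a ≤ x + a by linarith)
      hp.continuousOn (h x : (G x).re ∈ Icc _ _)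
    refine ⟨y, abs_le.2 ⟨by linarith [hy.2], by linarith [hy.1]⟩, ?_⟩
    rw [e, sub_self, abs_zero]

lemma FinPsi_of_near {l a : ℝ} (h0 : 0 < l) {G : ℂ → ℂ} (h : Near (psi l) G a 0) :
    0 ≤ a ∧ ∀ u : ℝ, psi l (u - a) ≤ (G u).re ∧ (G u).re ≤ psi l (u + a) := by
  refine ⟨?_, fun u => ?_⟩
  · obtain ⟨y, hy, -⟩ := h.2 0
    exact (abs_nonneg _).trans hy
  · obtain ⟨y, hy, e⟩ := h.2 u
    have e' : (G u).re = psi l y := sub_eq_zero.1 (abs_nonpos_iff.1 e)
    obtain ⟨h1, h2⟩ := abs_le.1 hy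
    rw [e']
    exact ⟨FinPsi_mono h0 (by linarith), FinPsi_mono h0 (by linarith)⟩

lemma FinPsi_dev {l a x : ℝ} (h0 : 0 < l) (h1 : l < 1) (ha : 0 < a) (hx : a ≤ x) (k : ℕ) :
    dev (l + 1) (fun a u => u * psi l (u - a)) (fun a u => u * (u + a) ^ l) a k x
      = x * |(x - (-1) ^ k * a) ^ l - x ^ l| := by
  have hx0 : 0 < x := ha.trans_le hx
  unfold dev
  beta_reduce
  rw [Real.rpow_add_one hx0.ne']
  rcases Nat.even_or_odd k with hk | hk
  · rw [if_pos hk, hk.neg_one_pow, one_mul, (lineF_psi h0 h1.le).pos _ (sub_nonneg.2 hx),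
      abs_of_nonpos (sub_nonpos.2 (Real.rpow_le_rpow (sub_nonneg.2 hx) (by linarith) h0.le))]
    ring
  · rw [if_neg (Nat.not_even_iff_odd.2 hk), hk.neg_one_pow, neg_one_mul, sub_neg_eq_add,
      abs_of_nonneg (sub_nonneg.2 (Real.rpow_le_rpow hx0.le (by linarith) h0.le))]
    ring

lemma FinPsi_norm {G : ℂ → ℂ} (hG : TypeOne G) (u : ℝ) : ‖G u‖ = |(G u).re| := by
  have : G u = ((G u).re : ℂ) := Complex.ext (by simp) (by simp [hG.2.1 u])
  rw [this, Complex.norm_real, Real.norm_eq_abs, ofReal_re]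

/-- Duality for `psi` (paper, 7). -/
theorem psi_dual {l : ℝ} (h0 : 0 < l) (h1 : l < 1) :
    ∃ c : ℝ, 0 < c ∧ IsLeast {a | ∃ G, TypeOne G ∧ Near (psi l) G a 0} c ∧
      IsGreatest {a | 0 < a ∧ ∃ y, Adm l y ∧ a ≤ y 0 ∧
        ∑' k, wt y k * (y k * |(y k - (-1) ^ k * a) ^ l - y k ^ l|) ≤ mass (l + 1) y} c ∧
      ∃ (G : ℂ → ℂ) (y : ℕ → ℝ), TypeOne G ∧ Near (psi l) G c 0 ∧
        (∀ G', TypeOne G' → Near (psi l) G' c 0 → G' = G) ∧ Adm l y ∧ c ≤ y 0 ∧
        (∀ k, (G (y k)).re = (y k - (-1) ^ k * c) ^ l) ∧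
        ∑' k, wt y k * (y k * |(y k - (-1) ^ k * c) ^ l - y k ^ l|) = mass (l + 1) y ∧
        ∀ u : ℝ, 0 < u → (∀ k, u ≠ y k) →
          u * (G u).re = extr (l + 1) y (fun k => y k * |(y k - (-1) ^ k * c) ^ l - y k ^ l|) u := by
  have hcor := (corPhi_stmt h0 h1).2
  obtain ⟨c, F, y, hc, ⟨hF, hev, hF0, hbd⟩, hadm, htouch, hsum, hpos, hextr, hdual⟩ :=
    cor_main hcor
  have hP := lineF_psi h0 h1.le
  have hy : ∀ k, 0 < y k := hadm.nodes.pos
  obtain ⟨G, hG, hFG⟩ := (sym_stmt hF).2.2.2.2.2.2 hF0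
  have hre : ∀ u : ℝ, (F u).re = u * (G u).re := fun u => by rw [hFG, re_ofReal_mul]
  have hodd : ∀ z, G (-z) = -G z := by
    have : (fun z => G (-z)) = fun z => -G z := by
      refine Continuous.ext_on (dense_compl_singleton (0 : ℂ))
        (hG.1.continuous.comp continuous_neg) hG.1.continuous.neg fun z hz => ?_
      have e := hev z
      rw [hFG, hFG] at e
      refine mul_left_cancel₀ (show z ≠ 0 from hz) ?_
      linear_combination -e
    exact congrFun this
  have hG0 : G 0 = 0 := by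
    have := hodd 0
    rw [neg_zero] at this
    linear_combination this / 2
  have hGp : ∀ u : ℝ, 0 < u → psi l (u - c) ≤ (G u).re ∧ (G u).re ≤ psi l (u + c) := by
    intro u hu
    obtain ⟨e1, e2⟩ := hbd u hu
    rw [hre] at e1 e2
    rw [hP.pos (u + c) (by linarith)]
    exact ⟨le_of_mul_le_mul_left e1 hu, le_of_mul_le_mul_left e2 hu⟩
  have hGb : ∀ u : ℝ, psi l (u - c) ≤ (G u).re ∧ (G u).re ≤ psi l (u + c) := by
    intro u
    rcases lt_trichotomy u 0 with hu | rfl | hu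
    · obtain ⟨e1, e2⟩ := hGp (-u) (by linarith)
      rw [ofReal_neg, hodd, neg_re] at e1 e2
      rw [show -u - c = -(u + c) by ring, FinPsi_neg] at e1
      rw [show -u + c = -(u - c) by ring, FinPsi_neg] at e2
      constructor <;> linarith
    · have e0 : psi l 0 = 0 := by simp [psi]
      rw [ofReal_zero, hG0, zero_re]
      constructor
      · rw [← e0]; exact FinPsi_mono h0 (by linarith)
      · rw [← e0]; exact FinPsi_mono h0 (by linarith)
    · exact hGp u hu
  have hnear : Near (psi l) G c 0 := FinPsi_near_of h0 h1 hc.le hG hGb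
  have hcy : c ≤ y 0 := by
    by_contra hlt
    have e1 := hpos (y 0) (hy 0) le_rfl
    rw [htouch 0, if_pos Even.zero] at e1
    have e2 : psi l (y 0 - c) ≤ psi l 0 := FinPsi_mono h0 (by linarith)
    have e0 : psi l 0 = 0 := by simp [psi]
    have e3 : y 0 * psi l (y 0 - c) ≤ 0 := mul_nonpos_of_nonneg_of_nonpos (hy 0).le (by linarith)
    exact absurd e1 (not_lt.2 e3)
  have hcyk : ∀ k, c ≤ y k := fun k => hcy.trans (hadm.2.1.monotone (Nat.zero_le k))
  have hGy : ∀ k, (G (y k)).re = if Even k then psi l (y k - c) else psi l (y k + c) := by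
    intro k
    have e := htouch k
    rw [hre] at e
    refine mul_left_cancel₀ (hy k).ne' ?_
    rw [e, hP.pos (y k + c) (by linarith [hy k])]
    split_ifs <;> rfl
  obtain ⟨η, C, U, -, hU, hw⟩ := hcor.width c hc
  have hwid : ∀ u : ℝ, U ≤ u → u * (psi l (u + c) - psi l (u - c)) ≤ 2 * C * u ^ l := by
    intro u hu
    obtain ⟨-, e1, -, e2⟩ := hw u hu
    rw [hP.pos (u + c) (by linarith)]
    linarith
  have key : ∀ (G' : ℂ → ℂ) (a : ℝ), TypeOne G' → a ≤ c →
      (∀ u : ℝ, psi l (u - a) ≤ (G' u).re ∧ (G' u).re ≤ psi l (u + a)) →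
      ∀ z, G' z - G' (-z) = 2 * G z := by
    intro G' a hG' hac hb
    have hb1 : ∀ u : ℝ, psi l (u - c) ≤ (G' u).re ∧ (G' u).re ≤ psi l (u + c) := fun u =>
      ⟨(FinPsi_mono h0 (by linarith)).trans (hb u).1,
        (hb u).2.trans (FinPsi_mono h0 (by linarith))⟩
    have hb2 : ∀ u : ℝ, psi l (u - c) ≤ -(G' (-u)).re ∧ -(G' (-u)).re ≤ psi l (u + c) := by
      intro u
      obtain ⟨e1, e2⟩ := hb1 (-u)
      rw [ofReal_neg] at e1 e2
      rw [show -u - c = -(u + c) by ring, FinPsi_neg] at e1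
      rw [show -u + c = -(u - c) by ring, FinPsi_neg] at e2
      constructor <;> linarith
    have t1 : TypeOne fun z => G' (-z) := (sym_stmt hG').2.2.2.1
    have t2 := (sym_stmt hG').2.2.2.2.1 _ t1 1 (-1)
    have t3 := (sym_stmt t2).2.2.2.2.1 _ hG 1 (-2)
    have t4 := (sym_stmt t3).2.2.1
    set D : ℂ → ℂ := fun z => z * (((1 : ℝ) : ℂ) * (((1 : ℝ) : ℂ) * G' z
      + ((-1 : ℝ) : ℂ) * G' (-z)) + ((-2 : ℝ) : ℂ) * G z) with hD
    have hD' : ∀ z, D z = z * (G' z - G' (-z) - 2 * G z) := by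
      intro z
      simp only [hD]
      push_cast
      ring
    have hDre : ∀ u : ℝ, (D u).re = u * ((G' u).re - (G' (-u)).re - 2 * (G u).re) := by
      intro u
      rw [hD', re_ofReal_mul]
      simp
    have hcls : Cls l D := by
      refine Cls.of_large t4.1 t4.2.2 (fun z => ?_) (C := 4 * C) (U := U) fun u hu hu1 => ?_
      · rw [hD', hD', neg_neg, hodd]
        ring
      · rw [FinPsi_norm t4, hDre]
        have e1 := hwid u hu
        obtain ⟨a1, a2⟩ := hb1 u
        obtain ⟨a3, a4⟩ := hb2 u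
        obtain ⟨a5, a6⟩ := hGb u
        have hu0 : 0 ≤ u := by linarith
        rw [abs_mul, abs_of_nonneg hu0]
        have e2 : |(G' u).re - (G' (-u)).re - 2 * (G u).re|
            ≤ 2 * (psi l (u + c) - psi l (u - c)) := abs_le.2 ⟨by linarith, by linarith⟩
        have e3 := mul_le_mul_of_nonneg_left e2 hu0
        linarith
    have hz := (interp_stmt hadm (by linarith) (by linarith) hcls).2.2.2 t4.2.1 (fun k => by
      rw [hDre, hGy]
      obtain ⟨a1, a2⟩ := hb1 (y k)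
      obtain ⟨a3, a4⟩ := hb2 (y k)
      rcases Nat.even_or_odd k with hk | hk
      · rw [if_pos hk, hk.neg_one_pow, one_mul]
        exact mul_nonneg (hy k).le (by linarith)
      · rw [if_neg (Nat.not_even_iff_odd.2 hk), hk.neg_one_pow, neg_one_mul, ← mul_neg]
        exact mul_nonneg (hy k).le (by linarith)) 0 (by rw [abs_zero]; exact hy 0)
      (by rw [hDre, zero_mul])
    intro z
    rcases eq_or_ne z 0 with rfl | hz0
    · rw [neg_zero, hG0, sub_self, mul_zero]
    · have e := hz z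
      rw [hD'] at e
      exact sub_eq_zero.1 ((mul_eq_zero.1 e).resolve_left hz0)
  have hdev : ∀ k, dev (l + 1) (fun a u => u * psi l (u - a)) (fun a u => u * (u + a) ^ l)
      c k (y k) = y k * |(y k - (-1) ^ k * c) ^ l - y k ^ l| :=
    fun k => FinPsi_dev h0 h1 hc (hcyk k) k
  simp only [hdev] at hsum hextr
  refine ⟨c, hc, ⟨⟨G, hG, hnear⟩, ?_⟩, ⟨⟨hc, y, hadm, hcy, hsum.tsum_eq.le⟩, ?_⟩, G, y, hG, hnear,
    ?_, hadm, hcy, ?_, hsum.tsum_eq, ?_⟩
  · rintro a ⟨G', hG', hn⟩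
    obtain ⟨ha0, hb⟩ := FinPsi_of_near h0 hn
    by_contra hlt
    have hac : a < c := not_le.1 hlt
    have e := congrArg re (key G' a hG' hac.le hb (y 1))
    have e1 := (hb (y 1)).2
    have e2 := (hb (-y 1)).1
    rw [ofReal_neg, show -y 1 - a = -(y 1 + a) by ring, FinPsi_neg] at e2
    have e3 := hGy 1
    rw [if_neg (by decide)] at e3
    have e4 : psi l (y 1 + a) < psi l (y 1 + c) := by
      rw [hP.pos _ (by linarith [hy 1]), hP.pos _ (by linarith [hy 1])]
      exact Real.rpow_lt_rpow (by linarith [hy 1]) (by linarith) h0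
    simp only [sub_re, mul_re, re_ofNat, im_ofNat, zero_mul, sub_zero] at e
    linarith
  · rintro a ⟨ha, x, hx, hax, hs⟩
    refine hdual a x ha hx ?_
    have e : ∀ k, dev (l + 1) (fun a u => u * psi l (u - a)) (fun a u => u * (u + a) ^ l)
        a k (x k) = x k * |(x k - (-1) ^ k * a) ^ l - x k ^ l| :=
      fun k => FinPsi_dev h0 h1 ha (hax.trans (hx.2.1.monotone (Nat.zero_le k))) k
    simp only [e]
    exact hs
  · intro G' hG' hn
    obtain ⟨-, hb1⟩ := FinPsi_of_near h0 hn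
    have hk := key G' c hG' le_rfl hb1
    have hb2 : ∀ u : ℝ, psi l (u - c) ≤ -(G' (-u)).re ∧ -(G' (-u)).re ≤ psi l (u + c) := by
      intro u
      obtain ⟨e1, e2⟩ := hb1 (-u)
      rw [ofReal_neg] at e1 e2
      rw [show -u - c = -(u + c) by ring, FinPsi_neg] at e1
      rw [show -u + c = -(u - c) by ring, FinPsi_neg] at e2
      constructor <;> linarith
    have t1 := (sym_stmt hG').2.1
    set E : ℂ → ℂ := fun z => (G' z + G' (-z)) / 2 with hE
    have hEre : ∀ u : ℝ, (E u).re = ((G' u).re + (G' (-u)).re) / 2 := by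
      intro u
      simp [hE]
    have hcls : Cls l E := by
      refine Cls.of_large t1.1 t1.2.2 (fun z => ?_) (C := C) (U := U) fun u hu hu1 => ?_
      · simp only [hE, neg_neg, add_comm]
      · rw [FinPsi_norm t1, hEre]
        have e1 := hwid u hu
        obtain ⟨a1, a2⟩ := hb1 u
        obtain ⟨a3, a4⟩ := hb2 u
        have e2 : psi l (u + c) - psi l (u - c) ≤ u * (psi l (u + c) - psi l (u - c)) :=
          le_mul_of_one_le_left (by linarith) hu1
        exact abs_le.2 ⟨by linarith, by linarith⟩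
    have hz := (interp_stmt hadm (by linarith) (by linarith) hcls).2.2.1 (fun k => by
      refine Complex.ext ?_ (t1.2.1 (y k))
      rw [hEre, zero_re]
      have e := congrArg re (hk (y k))
      simp only [sub_re, mul_re, re_ofNat, im_ofNat, zero_mul, sub_zero] at e
      obtain ⟨a1, a2⟩ := hb1 (y k)
      obtain ⟨a3, a4⟩ := hb2 (y k)
      have e3 := hGy k
      split_ifs at e3 <;> linarith)
    funext z
    have e1 := hz z
    have e2 := hk z
    simp only [hE] at e1
    linear_combination e1 + e2 / 2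
  · intro k
    rw [hGy]
    rcases Nat.even_or_odd k with hk | hk
    · rw [if_pos hk, hk.neg_one_pow, one_mul, hP.pos _ (sub_nonneg.2 (hcyk k))]
    · rw [if_neg (Nat.not_even_iff_odd.2 hk), hk.neg_one_pow, neg_one_mul, sub_neg_eq_add,
        hP.pos _ (by linarith [hy k])]
  · intro u hu hne
    rw [← hre]
    exact hextr u hu hne

end Pool.Agent.P.MP_7e6317_an
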