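import Pool.Agent.P.MP_7e6317_an.D.CorMain
import Pool.Agent.P.MP_7e6317_an.D.CorTheta
import Pool.Agent.P.MP_7e6317_an.D.Sym

namespace Pool.Agent.P.MP_7e6317_an

open Filter Topology Set MeasureTheory Complex

lemma ft_psi_of_nonneg {l x : ℝ} (h0 : 0 < l) (hx : 0 ≤ x) : psi l x = x ^ l := by
  rw [psi_eq h0, max_eq_left hx, max_eq_right (by linarith), Real.zero_rpow h0.ne', sub_zero]

lemma ft_psi_le {l : ℝ} (h0 : 0 < l) (x : ℝ) : psi l x ≤ max x 0 ^ l := by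
  rw [psi_eq h0]
  have : 0 ≤ max (-x) 0 ^ l := Real.rpow_nonneg (le_max_right _ _) _
  linarith

/-- A function in the corridor that vanishes at the origin is near `|w|^(2 l)`. -/
lemma ft_nearSq {l c : ℝ} (h0 : 0 < l) (hc : 0 ≤ c) {H : ℂ → ℂ} (hH : TypeOne H)
    (hz : H 0 = 0) (lo : ∀ u : ℝ, max (u ^ 2 - 2 * c) 0 ^ l ≤ (H u).re)
    (up : ∀ u : ℝ, (H u).re ≤ (u ^ 2 + 2 * c) ^ l) : NearSq l H c := by
  refine ⟨fun w => ?_, fun u => ?_⟩
  · have e1 := lo √(w ^ 2 + 2 * c)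
    rw [Real.sq_sqrt (by positivity), add_sub_cancel_right, max_eq_left (by positivity)] at e1
    have e2 : (H (√(max (w ^ 2 - 2 * c) 0) : ℝ)).re ≤ (w ^ 2) ^ l := by
      rcases le_total (w ^ 2 - 2 * c) 0 with h | h
      · rw [max_eq_right h, Real.sqrt_zero, ofReal_zero, hz, zero_re]
        positivity
      · have := up √(w ^ 2 - 2 * c)
        rw [Real.sq_sqrt h, sub_add_cancel] at this
        rwa [max_eq_left h]
    obtain ⟨v, hv, e⟩ := intermediate_value_Icc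
      (max_le (by linarith) (by positivity) : max (w ^ 2 - 2 * c) 0 ≤ w ^ 2 + 2 * c)
      (hH.cont.comp Real.continuous_sqrt).continuousOn ⟨e2, e1⟩
    have v0 : 0 ≤ v := (le_max_right _ _).trans hv.1
    refine ⟨√v, ?_, by rw [← sq_rpow]; exact e⟩
    rw [Real.sq_sqrt v0]
    exact abs_le.2 ⟨by linarith [hv.2], by linarith [hv.1, le_max_left (w ^ 2 - 2 * c) 0]⟩
  · obtain ⟨v, hv, e⟩ := intermediate_value_Icc
      (max_le (by linarith) (by positivity) : max (u ^ 2 - 2 * c) 0 ≤ u ^ 2 + 2 * c)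
      (Real.continuous_rpow_const h0.le).continuousOn ⟨lo u, up u⟩
    have v0 : 0 ≤ v := (le_max_right _ _).trans hv.1
    refine ⟨√v, ?_, by rw [abs_sqrt_rpow v0]; exact e.symm⟩
    rw [Real.sq_sqrt v0]
    exact abs_le.2 ⟨by linarith [hv.2], by linarith [hv.1, le_max_left (u ^ 2 - 2 * c) 0]⟩

/-- A function near `|w|^(2 l)` lies in the corridor and has a small zero. -/
lemma ft_of_nearSq {l a : ℝ} (h0 : 0 < l) {H : ℂ → ℂ} (h : NearSq l H a) :
    (∀ c, a ≤ c → ∀ u : ℝ, max (u ^ 2 - 2 * c) 0 ^ l ≤ (H u).re ∧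
      (H u).re ≤ (u ^ 2 + 2 * c) ^ l) ∧ ∃ b : ℝ, b ^ 2 ≤ 2 * a ∧ (H b).re = 0 := by
  refine ⟨fun c hc u => ?_, ?_⟩
  · obtain ⟨w, e1, e2⟩ := h.2 u
    rw [abs_le] at e1
    rw [e2, ← sq_rpow]
    exact ⟨Real.rpow_le_rpow (le_max_right _ _) (max_le (by linarith [e1.2]) (sq_nonneg w)) h0.le,
      Real.rpow_le_rpow (sq_nonneg w) (by linarith [e1.1]) h0.le⟩
  · obtain ⟨b, e1, e2⟩ := h.1 0
    rw [abs_le] at e1
    refine ⟨b, by nlinarith [e1.1], ?_⟩
    rw [e2, abs_zero, Real.zero_rpow (by linarith)]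

/-- The deviation of the corridor of `theta` at the nodes. -/
lemma ft_dev {l : ℝ} (h0 : 0 < l) (h1 : l < 1) {a : ℝ} (ha : 0 < a) {x : ℕ → ℝ} (hx : Nodes x)
    (h2 : 2 * a ≤ x 0 ^ 2) (k : ℕ) :
    dev (2 * l) (fun a u => psi l (u ^ 2 - 2 * a)) (fun a u => (u ^ 2 + 2 * a) ^ l) a k (x k) =
      |(x k ^ 2 - (-1) ^ k * (2 * a)) ^ l - x k ^ (2 * l)| := by
  have hp := (corTheta_stmt.1 l h0 h1).dev_pos ha k (hx.pos k)
  have hk : x 0 ≤ x k := hx.2.1.monotone (Nat.zero_le k)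
  have h3 : 0 ≤ x k ^ 2 - 2 * a := by nlinarith [hx.1]
  unfold dev at hp ⊢
  beta_reduce at hp ⊢
  rcases Nat.even_or_odd k with he | he
  · rw [if_pos he, ft_psi_of_nonneg h0 h3] at hp ⊢
    rw [he.neg_one_pow, one_mul, abs_of_neg (by linarith), neg_sub]
  · rw [if_neg (Nat.not_even_iff_odd.2 he)] at hp ⊢
    rw [he.neg_one_pow, neg_one_mul, sub_neg_eq_add, abs_of_pos hp]

/-- Duality for `theta` (paper, 7). -/
theorem theta_dual {l : ℝ} (h0 : 0 < l) (h1 : l < 1) :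
    ∃ c : ℝ, 0 < c ∧
      IsLeast {a | ∃ H, TypeOne H ∧ (∀ z, H (-z) = H z) ∧ NearSq l H a} c ∧
      IsGreatest {a | 0 < a ∧ ∃ y, Adm (2 * l - 2) y ∧ 2 * a ≤ y 0 ^ 2 ∧
        ∑' k, wt y k * |(y k ^ 2 - (-1) ^ k * (2 * a)) ^ l - y k ^ (2 * l)| ≤ mass (2 * l) y} c ∧
      ∃ (H : ℂ → ℂ) (y : ℕ → ℝ), TypeOne H ∧ (∀ z, H (-z) = H z) ∧ NearSq l H c ∧
        (∀ H', TypeOne H' → (∀ z, H' (-z) = H' z) → NearSq l H' c → H' = H) ∧
        Adm (2 * l - 2) y ∧ 2 * c ≤ y 0 ^ 2 ∧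
        (∀ k, (H (y k)).re = (y k ^ 2 - (-1) ^ k * (2 * c)) ^ l) ∧
        ∑' k, wt y k * |(y k ^ 2 - (-1) ^ k * (2 * c)) ^ l - y k ^ (2 * l)| = mass (2 * l) y ∧
        ∀ u : ℝ, 0 < u → (∀ k, u ≠ y k) → (H u).re =
          extr (2 * l) y (fun k => |(y k ^ 2 - (-1) ^ k * (2 * c)) ^ l - y k ^ (2 * l)|) u := by
  have hC := corTheta_stmt.1 l h0 h1
  obtain ⟨c, F, y, hc, hF, hy, halt, hsum, hpos, hextr, hweak⟩ := cor_main hC
  have hy0 : 0 < y 0 := hy.1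
  have h2c : 2 * c < y 0 ^ 2 := by
    by_contra hcon
    have e1 := hpos (y 0) hy0 le_rfl
    have e2 := halt 0
    rw [if_pos Even.zero] at e2
    have e3 := ft_psi_le h0 (y 0 ^ 2 - 2 * c)
    rw [max_eq_right (by linarith), Real.zero_rpow h0.ne'] at e3
    linarith
  have hval : ∀ k, (F (y k)).re = (y k ^ 2 - (-1) ^ k * (2 * c)) ^ l := by
    intro k
    have hk : y 0 ≤ y k := hy.2.1.monotone (Nat.zero_le k)
    rw [halt k]
    rcases Nat.even_or_odd k with he | he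
    · rw [if_pos he, he.neg_one_pow, one_mul, ft_psi_of_nonneg h0 (by nlinarith)]
    · rw [if_neg (Nat.not_even_iff_odd.2 he), he.neg_one_pow, neg_one_mul, sub_neg_eq_add]
  have hcor0 : ∀ u : ℝ, 0 < u → max (u ^ 2 - 2 * c) 0 ^ l ≤ (F u).re ∧
      (F u).re ≤ (u ^ 2 + 2 * c) ^ l := by
    intro u hu
    obtain ⟨e1, e2⟩ := hF.2.2.2 u hu
    refine ⟨?_, e2⟩
    rcases le_total (u ^ 2 - 2 * c) 0 with h | h
    · rw [max_eq_right h, Real.zero_rpow h0.ne']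
      refine (hpos u hu ?_).le
      by_contra hcon
      nlinarith
    · rw [max_eq_left h, ← ft_psi_of_nonneg h0 h]
      exact e1
  have hcor : ∀ u : ℝ, max (u ^ 2 - 2 * c) 0 ^ l ≤ (F u).re ∧
      (F u).re ≤ (u ^ 2 + 2 * c) ^ l := by
    intro u
    rcases lt_trichotomy u 0 with hu | rfl | hu
    · have := hcor0 (-u) (by linarith)
      rwa [ofReal_neg, hF.2.1, neg_sq] at this
    · rw [ofReal_zero, hF.2.2.1, zero_re, max_eq_right (by linarith), Real.zero_rpow h0.ne']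
      exact ⟨le_rfl, by positivity⟩
    · exact hcor0 u hu
  have hnear : NearSq l F c :=
    ft_nearSq h0 hc.le hF.1 hF.2.2.1 (fun u => (hcor u).1) fun u => (hcor u).2
  have huniq : ∀ a, a ≤ c → ∀ H', TypeOne H' → (∀ z, H' (-z) = H' z) → NearSq l H' a →
      H' = F := by
    intro a hac H' hH' he' hn'
    obtain ⟨hb', b, hb1, hb2⟩ := ft_of_nearSq h0 hn'
    have hT : TypeOne fun z => H' z - F z := by
      have := (sym_stmt hH').2.2.2.2.1 F hF.1 1 (-1)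
      simpa [sub_eq_add_neg] using this
    obtain ⟨η, C, U, -, -, hw⟩ := hC.width c hc
    have hD : Cls (2 * l - 2) fun z => H' z - F z := by
      refine Cls.of_large hT.1 hT.2.2 (fun z => by rw [he', hF.2.1]) (C := 2 * C) (U := U)
        fun u hu h1u => ?_
      obtain ⟨-, e1, -, e2⟩ := hw u hu
      obtain ⟨e3, e4⟩ := hb' c hac u
      obtain ⟨e5, e6⟩ := hcor u
      have e7 := ft_psi_le h0 (u ^ 2 - 2 * c)
      have e8 := typeOne_norm hT u
      simp only [sub_re] at e8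
      rw [e8, abs_le]
      constructor <;> linarith
    have hz := (interp_stmt hy (by linarith) (by linarith) hD).2.2.2 hT.2.1 (fun k => ?_) b
      (abs_lt_of_sq_lt_sq (by linarith) hy0.le) (by
        have e1 := (hcor b).1
        have e2 : 0 ≤ max (b ^ 2 - 2 * c) 0 ^ l := Real.rpow_nonneg (le_max_right _ _) _
        simp only [sub_re]
        linarith)
    · exact funext fun z => sub_eq_zero.1 (hz z)
    · obtain ⟨e3, e4⟩ := hb' c hac (y k)
      have hk : y 0 ≤ y k := hy.2.1.monotone (Nat.zero_le k)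
      simp only [sub_re]
      rw [hval k]
      rcases Nat.even_or_odd k with he | he
      · rw [max_eq_left (by nlinarith)] at e3
        rw [he.neg_one_pow, one_mul, one_mul]
        linarith
      · rw [he.neg_one_pow, neg_one_mul, neg_one_mul, sub_neg_eq_add]
        linarith
  have hdev := ft_dev h0 h1 hc hy.nodes h2c.le
  simp only [hdev] at hsum hextr
  refine ⟨c, hc, ⟨⟨F, hF.1, hF.2.1, hnear⟩, ?_⟩, ⟨⟨hc, y, hy, h2c.le, hsum.tsum_eq.le⟩, ?_⟩,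
    F, y, hF.1, hF.2.1, hnear, huniq c le_rfl, hy, h2c.le, hval, hsum.tsum_eq, hextr⟩
  · rintro a ⟨H', hH', he', hn'⟩
    by_contra hcon
    push Not at hcon
    obtain rfl := huniq a hcon.le H' hH' he' hn'
    obtain ⟨hb', b, hb1, -⟩ := ft_of_nearSq h0 hn'
    have e1 := (hb' a le_rfl (y 1)).2
    rw [hval 1, pow_one, neg_one_mul, sub_neg_eq_add] at e1
    have e2 : (y 1 ^ 2 + 2 * a) ^ l < (y 1 ^ 2 + 2 * c) ^ l :=
      Real.rpow_lt_rpow (by nlinarith [sq_nonneg b, sq_nonneg (y 1)]) (by linarith) h0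
    linarith
  · rintro a ⟨ha, x, hx, h2a, hle⟩
    refine hweak a x ha hx ?_
    simp only [ft_dev h0 h1 ha hx.nodes h2a]
    exact hle

end Pool.Agent.P.MP_7e6317_an
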