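import Pool.Agent.P.MP_7e6317_an.D.Cls

namespace Pool.Agent.P.MP_7e6317_an

open Filter Topology Set MeasureTheory Complex

namespace RHB

open BoundedContinuousFunction

variable {ι : Type} [TopologicalSpace ι] [DiscreteTopology ι] [DecidableEq ι]

/-- The indicator function of a point. -/
noncomputable def ee (i : ι) : ι →ᵇ ℝ :=
  ofNormedAddCommGroupDiscrete (Pi.single i 1) 1 fun j => by
    rw [Pi.single_apply]
    split_ifs <;> simp

theorem ee_apply (i j : ι) : ee i j = if j = i then 1 else 0 := Pi.single_apply i 1 j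

theorem sum_ee (F : Finset ι) (c : ι → ℝ) (j : ι) :
    (∑ i ∈ F, c i • ee i) j = if j ∈ F then c j else 0 := by
  simp [BoundedContinuousFunction.sum_apply, ee_apply]

theorem hasSum_ee (φ : ι →ᵇ ℝ) (h : Tendsto φ cofinite (𝓝 0)) :
    HasSum (fun i => φ i • ee i) φ := by
  refine Metric.tendsto_nhds.2 fun ε hε => ?_
  have h1 : {i | ¬ dist (φ i) 0 < ε / 2}.Finite := Metric.tendsto_nhds.1 h _ (half_pos hε)
  filter_upwards [eventually_ge_atTop h1.toFinset] with F hF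
  refine ((dist_le (half_pos hε).le).2 fun j => ?_).trans_lt (half_lt_self hε)
  rw [sum_ee]
  split_ifs with hj
  · simpa using (half_pos hε).le
  · rw [dist_comm]
    exact (not_not.1 fun h2 => hj (hF (h1.mem_toFinset.2 h2))).le

theorem main (V : Submodule ℝ (ι → ℝ)) (hV : ∀ v ∈ V, Tendsto v cofinite (𝓝 0))
    (s δ : ι → ℝ) (hs : ∀ i, s i = 1 ∨ s i = -1) {η : ℝ} (hη : 0 < η)
    (hδ : ∀ᶠ i in cofinite, s i * δ i ≤ -η) (hno : ∀ v ∈ V, ∃ i, s i * (v i - δ i) ≤ 0) :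
    ∃ ν : ι → ℝ, ν ≠ 0 ∧ Summable ν ∧ (∀ i, 0 ≤ s i * ν i) ∧ ∀ v ∈ V, ∑' i, ν i * v i = 0 := by
  have s2 : ∀ i, s i * s i = 1 := fun i => by rcases hs i with h | h <;> simp [h]
  have sa : ∀ i, |s i| = 1 := fun i => by rcases hs i with h | h <;> simp [h]
  let U : Set (ι →ᵇ ℝ) := {φ | ∃ ε : ℝ, 0 < ε ∧ ∀ i, ε ≤ s i * (φ i - δ i)}
  let W : Set (ι →ᵇ ℝ) := {φ | (φ : ι → ℝ) ∈ V}
  have cU : Convex ℝ U := by
    rintro x ⟨ε, hε, hx⟩ y ⟨ε', hε', hy⟩ a b ha hb hab
    refine ⟨min ε ε', lt_min hε hε', fun i => ?_⟩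
    have e : s i * ((a • x + b • y) i - δ i) =
        a * (s i * (x i - δ i)) + b * (s i * (y i - δ i)) := by
      simp only [BoundedContinuousFunction.add_apply, BoundedContinuousFunction.smul_apply,
        smul_eq_mul]
      linear_combination (s i * δ i) * hab
    have h1 := mul_le_mul_of_nonneg_left ((min_le_left ε ε').trans (hx i)) ha
    have h2 := mul_le_mul_of_nonneg_left ((min_le_right ε ε').trans (hy i)) hb
    rw [e]
    calc min ε ε' = a * min ε ε' + b * min ε ε' := by rw [← add_mul, hab, one_mul]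
      _ ≤ _ := add_le_add h1 h2
  have oU : IsOpen U := by
    refine Metric.isOpen_iff.2 fun x ⟨ε, hε, hx⟩ => ⟨ε / 2, half_pos hε, fun y hy => ?_⟩
    refine ⟨ε / 2, half_pos hε, fun i => ?_⟩
    have h1 : |s i * (y i - x i)| ≤ ε / 2 := by
      rw [abs_mul, sa, one_mul]
      exact (dist_coe_le_dist i).trans (le_of_lt hy)
    have := hx i
    have := (abs_le.1 h1).1
    linarith
  have cW : Convex ℝ W := fun x hx y hy a b _ _ _ =>
    V.add_mem (V.smul_mem a hx) (V.smul_mem b hy)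
  have dis : Disjoint U W := Set.disjoint_left.2 fun φ ⟨ε, hε, h⟩ hW => by
    obtain ⟨i, hi⟩ := hno _ hW
    linarith [h i]
  obtain ⟨f, u, h1, h2⟩ := geometric_hahn_banach_open cU oU cW dis
  have u0 : u ≤ 0 := by simpa using h2 0 V.zero_mem
  have fW : ∀ φ ∈ W, f φ = 0 := fun φ hφ => by
    by_contra hne
    have := h2 (((u - 1) / f φ) • φ) (V.smul_mem _ hφ)
    rw [map_smul, smul_eq_mul, div_mul_cancel₀ _ hne] at this
    linarith
  have hF : {i | ¬ s i * δ i ≤ -η}.Finite := hδ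
  set φ0 : ι →ᵇ ℝ := ∑ i ∈ hF.toFinset, (δ i + s i * η) • ee i with hφ0
  have h0 : ∀ i, η ≤ s i * (φ0 i - δ i) := fun i => by
    rw [hφ0, sum_ee]
    split_ifs with hi
    · rw [add_sub_cancel_left, ← mul_assoc, s2, one_mul]
    · have := not_not.1 fun h => hi (hF.mem_toFinset.2 h)
      linarith
  have hpos : ∀ i, 0 ≤ s i * -f (ee i) := fun i => by
    by_contra hn
    have hn : 0 < s i * f (ee i) := by linarith
    have ht : 0 ≤ (u - f φ0) / (s i * f (ee i)) :=
      div_nonneg (sub_nonneg.2 (h1 φ0 ⟨η, hη, h0⟩).le) hn.le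
    have := h1 (φ0 + ((u - f φ0) / (s i * f (ee i)) * s i) • ee i) ⟨η, hη, fun j => by
      have := h0 j
      simp only [BoundedContinuousFunction.add_apply, BoundedContinuousFunction.smul_apply,
        smul_eq_mul, ee_apply]
      split_ifs with hj
      · subst hj
        nlinarith [s2 j]
      · linarith⟩
    rw [map_add, map_smul, smul_eq_mul, mul_assoc, div_mul_cancel₀ _ hn.ne'] at this
    linarith
  refine ⟨fun i => -f (ee i), fun h => ?_, ?_, hpos, fun v hv => ?_⟩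
  · have h3 := h1 φ0 ⟨η, hη, h0⟩
    have h4 : ∀ i, f (ee i) = 0 := fun i => neg_eq_zero.1 (congrFun h i)
    simp only [hφ0, map_sum, map_smul, h4, smul_zero, Finset.sum_const_zero] at h3
    linarith
  · refine Summable.of_abs (summable_of_sum_le (c := ‖f‖) (fun _ => abs_nonneg _) fun F => ?_)
    have e : ∑ i ∈ F, |-f (ee i)| = f (∑ i ∈ F, (-s i) • ee i) := by
      rw [map_sum]
      refine Finset.sum_congr rfl fun i _ => ?_
      rw [← one_mul |_|, ← sa i, ← abs_mul, abs_of_nonneg (hpos i), map_smul, smul_eq_mul]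
      ring
    rw [e]
    refine (le_abs_self _).trans (f.unit_le_opNorm _ ((norm_le zero_le_one).2 fun j => ?_))
    rw [sum_ee]
    split_ifs <;> simp [sa]
  · obtain ⟨C, hC⟩ := (hV v hv).norm.bddAbove_range_of_cofinite
    let φ : ι →ᵇ ℝ := ofNormedAddCommGroupDiscrete v C fun i => hC ⟨i, rfl⟩
    have h3 := (f.hasSum (hasSum_ee φ (hV v hv))).neg
    rw [fW φ hv, neg_zero] at h3
    rw [← h3.tsum_eq]
    refine tsum_congr fun i => ?_
    rw [map_smul, smul_eq_mul, neg_mul, mul_comm]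
    rfl

end RHB

/-- Hahn-Banach separation in the space of bounded functions (paper, 5 HB). -/
theorem hb_stmt {ι : Type} (V : Submodule ℝ (ι → ℝ)) (hV : ∀ v ∈ V, Tendsto v cofinite (𝓝 0))
    (s δ : ι → ℝ) (hs : ∀ i, s i = 1 ∨ s i = -1) {η : ℝ} (hη : 0 < η)
    (hδ : ∀ᶠ i in cofinite, s i * δ i ≤ -η) (hno : ∀ v ∈ V, ∃ i, s i * (v i - δ i) ≤ 0) :
    ∃ ν : ι → ℝ, ν ≠ 0 ∧ Summable ν ∧ (∀ i, 0 ≤ s i * ν i) ∧ ∀ v ∈ V, ∑' i, ν i * v i = 0 := by
  classical
  let _ : TopologicalSpace ι := ⊥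
  have : DiscreteTopology ι := ⟨rfl⟩
  exact RHB.main V hV s δ hs hη hδ hno

end Pool.Agent.P.MP_7e6317_an
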