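import Pool.Agent.P.MP_7e6317_an.D.ProdB

namespace Pool.Agent.P.MP_7e6317_an

open Filter Topology Set MeasureTheory Complex

lemma LB_geo {U : Finset ℕ} {p q r : ℕ → ℝ} {v w a b t m : ℝ} (hv : 0 ≤ v) (hw : 0 ≤ w)
    (h1 : v + w = 1) (ha : 0 ≤ a) (hb : 0 ≤ b) (ht : v * a + w * b ≤ t) (hp : ∀ j, 0 ≤ p j)
    (hq : ∀ j, 0 ≤ q j) (hr : ∀ j ∈ U, v * p j + w * q j ≤ r j) (hm : 0 ≤ m)
    (m1 : m ≤ a * a * ∏ j ∈ U, p j) (m2 : m ≤ b * b * ∏ j ∈ U, q j) :
    m ≤ t * t * ∏ j ∈ U, r j := by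
  have hP : 0 ≤ ∏ j ∈ U, p j := Finset.prod_nonneg fun j _ => hp j
  have hQ : 0 ≤ ∏ j ∈ U, q j := Finset.prod_nonneg fun j _ => hq j
  have e1 : a ^ v * b ^ w ≤ t := (Real.geom_mean_le_arith_mean2_weighted hv hw ha hb h1).trans ht
  have e2 : (∏ j ∈ U, p j) ^ v * (∏ j ∈ U, q j) ^ w ≤ ∏ j ∈ U, r j := by
    rw [← Real.finsetProd_rpow _ _ fun j _ => hp j, ← Real.finsetProd_rpow _ _ fun j _ => hq j,
      ← Finset.prod_mul_distrib]
    exact Finset.prod_le_prod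
      (fun j _ => mul_nonneg (Real.rpow_nonneg (hp j) _) (Real.rpow_nonneg (hq j) _))
      fun j hj => (Real.geom_mean_le_arith_mean2_weighted hv hw (hp j) (hq j) h1).trans (hr j hj)
  have e0 : 0 ≤ a ^ v * b ^ w := by positivity
  calc m = m ^ v * m ^ w := by rw [← Real.rpow_add_of_nonneg hm hv hw, h1, Real.rpow_one]
    _ ≤ (a * a * ∏ j ∈ U, p j) ^ v * (b * b * ∏ j ∈ U, q j) ^ w := by gcongr
    _ = (a ^ v * b ^ w) * (a ^ v * b ^ w) * ((∏ j ∈ U, p j) ^ v * (∏ j ∈ U, q j) ^ w) := by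
        rw [Real.mul_rpow (mul_nonneg ha ha) hP, Real.mul_rpow (mul_nonneg hb hb) hQ,
          Real.mul_rpow ha ha, Real.mul_rpow hb hb]
        ring
    _ ≤ _ := mul_le_mul (mul_le_mul e1 e1 e0 (e0.trans e1)) e2 (by positivity)
        (mul_self_nonneg t)

lemma LB_fin {T r : ℕ → ℝ} (hT : ∀ j, 0 < T j) (hm : StrictMono T) {δ t : ℝ} (hδ : 0 < δ)
    (hr : ∀ j, |1 - t / T j| ≤ r j) (hr' : ∀ j, δ / T j ≤ r j) {k : ℕ} (h1 : T k ≤ t)
    (h2 : t ≤ T (k + 1)) {S : Finset ℕ} (hk : k ∈ S) (hk' : k + 1 ∈ S) :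
    δ ^ 2 * min (T k * (T k * ∏ j ∈ S, if j = k then 1 else |1 - T k / T j|))
      (T k * (T (k + 1) * ∏ j ∈ S, if j = k + 1 then 1 else |1 - T (k + 1) / T j|)) ≤
      t ^ 3 * (δ + t) * ∏ j ∈ S, r j := by
  set U := (S.erase k).erase (k + 1) with hU
  have split : ∀ f : ℕ → ℝ, ∏ j ∈ S, f j = f k * (f (k + 1) * ∏ j ∈ U, f j) := fun f => by
    rw [hU, Finset.mul_prod_erase _ f (Finset.mem_erase.2 ⟨by omega, hk'⟩),
      Finset.mul_prod_erase _ f hk]
  have hj : ∀ j ∈ U, j ≠ k ∧ j ≠ k + 1 := fun j hj =>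
    ⟨(Finset.mem_erase.1 (Finset.mem_erase.1 hj).2).1, (Finset.mem_erase.1 hj).1⟩
  set a := T k with ha
  set b := T (k + 1) with hb
  have a0 : 0 < a := hT k
  have hab : a < b := hm (Nat.lt_succ_self k)
  have b0 : 0 < b := hT (k + 1)
  have t0 : 0 < t := a0.trans_le h1
  set P := ∏ j ∈ U, |1 - a / T j| with hP
  set Q := ∏ j ∈ U, |1 - b / T j| with hQ
  have P0 : 0 ≤ P := Finset.prod_nonneg fun _ _ => abs_nonneg _
  have Q0 : 0 ≤ Q := Finset.prod_nonneg fun _ _ => abs_nonneg _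
  have e1 : (∏ j ∈ S, if j = k then 1 else |1 - a / T j|) = (1 - a / b) * P := by
    rw [split, if_pos rfl, if_neg (by omega), one_mul, ← hb,
      abs_of_nonneg (sub_nonneg.2 ((div_le_one b0).2 hab.le))]
    exact congrArg _ (Finset.prod_congr rfl fun j h => if_neg (hj j h).1)
  have e2 : (∏ j ∈ S, if j = k + 1 then 1 else |1 - b / T j|) = (b / a - 1) * Q := by
    rw [split, if_pos rfl, if_neg (by omega), one_mul, ← ha, abs_sub_comm,
      abs_of_nonneg (sub_nonneg.2 ((one_le_div a0).2 hab.le))]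
    exact congrArg _ (Finset.prod_congr rfl fun j h => if_neg (hj j h).2)
  rw [e1, e2, split r]
  have hba : 0 < b - a := sub_pos.2 hab
  have f1 : 0 ≤ 1 - a / b := sub_nonneg.2 ((div_le_one b0).2 hab.le)
  have f2 : 0 ≤ b / a - 1 := sub_nonneg.2 ((one_le_div a0).2 hab.le)
  have hvw : (b - t) / (b - a) + (t - a) / (b - a) = 1 := by field_simp; ring
  have hc : (b - t) / (b - a) * a + (t - a) / (b - a) * b = t := by field_simp; ring
  have key : min (a * (a * ((1 - a / b) * P))) (a * (b * ((b / a - 1) * Q))) ≤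
      t * t * ∏ j ∈ U, r j := by
    refine LB_geo (v := (b - t) / (b - a)) (w := (t - a) / (b - a)) (a := a) (b := b)
      (p := fun j => |1 - a / T j|) (q := fun j => |1 - b / T j|)
      (div_nonneg (sub_nonneg.2 h2) hba.le) (div_nonneg (sub_nonneg.2 h1) hba.le) hvw a0.le b0.le
      hc.le (fun _ => abs_nonneg _) (fun _ => abs_nonneg _) (fun j hjU => ?_)
      (le_min (by positivity) (by positivity)) ((min_le_left _ _).trans ?_)
      ((min_le_right _ _).trans ?_)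
    · refine le_trans (le_of_eq ?_) (hr j)
      have j0 := hT j
      have hd : t / T j = (b - t) / (b - a) * (a / T j) + (t - a) / (b - a) * (b / T j) := by
        rw [← mul_div_assoc, ← mul_div_assoc, ← add_div, hc]
      rcases lt_or_gt_of_ne (hj j hjU).1 with h | h
      · have h3 : T j ≤ a := (hm h).le
        rw [abs_of_nonpos (sub_nonpos.2 ((one_le_div j0).2 h3)),
          abs_of_nonpos (sub_nonpos.2 ((one_le_div j0).2 (h3.trans hab.le))),
          abs_of_nonpos (sub_nonpos.2 ((one_le_div j0).2 (h3.trans h1))), hd]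
        linear_combination -hvw
      · have h3 : b ≤ T j := hm.monotone h
        rw [abs_of_nonneg (sub_nonneg.2 ((div_le_one j0).2 h3)),
          abs_of_nonneg (sub_nonneg.2 ((div_le_one j0).2 (hab.le.trans h3))),
          abs_of_nonneg (sub_nonneg.2 ((div_le_one j0).2 (h2.trans h3))), hd]
        linear_combination hvw
    · have : 0 ≤ a * a * (a / b * P) := by positivity
      nlinarith
    · have h3 : a * (b * ((b / a - 1) * Q)) = b * b * Q - a * b * Q := by field_simp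
      have : 0 ≤ a * b * Q := by positivity
      linarith
  have g1 : δ ≤ t * r k := by
    have := hr' k
    rw [← ha, div_le_iff₀ a0] at this
    have r0 : 0 ≤ r k := (abs_nonneg _).trans (hr k)
    nlinarith
  have g2 : δ ≤ (δ + t) * r (k + 1) := by
    have r0 : 0 ≤ r (k + 1) := (abs_nonneg _).trans (hr _)
    rcases le_total b (δ + t) with h | h
    · have := hr' (k + 1)
      rw [← hb, div_le_iff₀ b0] at this
      nlinarith
    · have h3 := (le_abs_self _).trans (hr (k + 1))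
      rw [← hb] at h3
      have h4 : t / b ≤ t / (δ + t) := div_le_div_of_nonneg_left t0.le (by positivity) h
      have h5 : (δ + t) * (1 - t / (δ + t)) = δ := by field_simp; ring
      nlinarith
  have R0 : 0 ≤ ∏ j ∈ U, r j := Finset.prod_nonneg fun j _ => (abs_nonneg _).trans (hr j)
  calc _ ≤ δ * δ * (t * t * ∏ j ∈ U, r j) := by rw [sq]; gcongr
    _ ≤ (t * r k) * ((δ + t) * r (k + 1)) * (t * t * ∏ j ∈ U, r j) := by
        gcongr
        exact hδ.le.trans g1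
    _ = _ := by ring

lemma LB_fin0 {T r : ℕ → ℝ} (hT : ∀ j, 0 < T j) (hm : StrictMono T) {δ t : ℝ}
    (hr : ∀ j, |1 - t / T j| ≤ r j) (hr' : ∀ j, δ / T j ≤ r j) (h1 : t ≤ T 0)
    {S : Finset ℕ} (hk : 0 ∈ S) :
    δ / T 0 * (∏ j ∈ S, if j = 0 then 1 else |1 - T 0 / T j|) ≤ ∏ j ∈ S, r j := by
  rw [← Finset.mul_prod_erase _ r hk, ← Finset.mul_prod_erase _ _ hk, if_pos rfl, one_mul]
  refine mul_le_mul (hr' 0) (Finset.prod_le_prod (fun j _ => by positivity) fun j hj => ?_)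
    (Finset.prod_nonneg fun j _ => by positivity) ((abs_nonneg _).trans (hr 0))
  have j0 := hT j
  rw [if_neg (Finset.mem_erase.1 hj).1,
    abs_of_nonneg (sub_nonneg.2 ((div_le_one j0).2 (hm.monotone (Nat.zero_le j))))]
  refine le_trans ?_ ((le_abs_self _).trans (hr j))
  gcongr

lemma LB_norm (y : ℝ) (z : ℂ) : |y ^ 2 - z.re ^ 2| ≤ ‖(y : ℂ) ^ 2 - z ^ 2‖ := by
  rw [sq_sub_sq, sq_sub_sq, abs_mul, norm_mul]
  exact mul_le_mul (by simpa using abs_re_le_norm (y + z)) (by simpa using abs_re_le_norm (y - z))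
    (abs_nonneg _) (norm_nonneg _)

lemma LB_lim {y : ℕ → ℝ} (h : Nodes y) (z : ℂ) :
    Tendsto (fun n => ∏ j ∈ Finset.range n, ‖1 - z ^ 2 / (y j : ℂ) ^ 2‖) atTop
      (𝓝 ‖cprod y z‖) := by
  have h1 : Summable fun j => -(z ^ 2) * ((1 / y j ^ 2 : ℝ) : ℂ) :=
    (Complex.summable_ofReal.2 h.2.2).mul_left _
  have h2 : Multipliable fun j => 1 - z ^ 2 / (y j : ℂ) ^ 2 :=
    (Complex.multipliable_one_add_of_summable h1).congr fun j => by push_cast; ring
  exact h2.hasProd.norm.tendsto_prod_nat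

lemma LB_lim' {y : ℕ → ℝ} (h : Nodes y) (k : ℕ) :
    Tendsto (fun n => ∏ j ∈ Finset.range n, if j = k then 1 else |1 - y k ^ 2 / y j ^ 2|) atTop
      (𝓝 (wt y k)⁻¹) := by
  have h1 : Summable fun j => if j = k then 0 else -(y k ^ 2) * (1 / y j ^ 2) :=
    (h.2.2.mul_left (-(y k ^ 2))).congr_cofinite
      ((Set.finite_singleton k).subset fun j hj => by
        by_contra hc
        exact hj (if_neg hc).symm)
  have h2 : Multipliable fun j => if j = k then 1 else |1 - y k ^ 2 / y j ^ 2| :=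
    (Real.multipliable_one_add_of_summable h1).norm.congr fun j => by
      split_ifs
      · simp
      · rw [Real.norm_eq_abs]; congr 1; ring
  rw [wt, inv_inv]
  exact h2.hasProd.tendsto_prod_nat

/-- Lower bound for the canonical product away from the nodes (paper, 2 LB). -/
theorem lb_stmt {τ : ℝ} {y : ℕ → ℝ} (h : Adm τ y) (hτ : -2 < τ) {δ : ℝ} (hδ : 0 < δ) :
    ∃ c : ℝ, 0 < c ∧ ∀ z : ℂ, (∀ k, δ ≤ ‖(y k : ℂ) ^ 2 - z ^ 2‖) →
      c ≤ (1 + |z.re|) ^ 8 * ‖cprod y z‖ := by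
  have hN := h.nodes
  have hy := hN.pos
  have hw := (prodB_stmt hN).1
  have hT : ∀ j, 0 < y j ^ 2 := fun j => pow_pos (hy j) 2
  have hm : StrictMono fun j => y j ^ 2 := fun i j hij =>
    pow_lt_pow_left₀ (h.2.1 hij) (hy i).le two_ne_zero
  obtain ⟨c0, hc0, hc⟩ : ∃ c0 : ℝ, 0 < c0 ∧ ∀ k, c0 ≤ y k ^ 2 * (wt y k)⁻¹ := by
    have hA : ∀ k, wt y k * y k ^ τ ≤ ∑' k, wt y k * y k ^ τ := fun k =>
      h.2.2.2.1.le_tsum k fun j _ => (mul_pos (hw j) (Real.rpow_pos_of_pos (hy j) _)).le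
    have A0 : 0 < ∑' k, wt y k * y k ^ τ :=
      (mul_pos (hw 0) (Real.rpow_pos_of_pos (hy 0) _)).trans_le (hA 0)
    refine ⟨1 / ((∑' k, wt y k * y k ^ τ) * y 0 ^ (-(τ + 2))),
      one_div_pos.2 (mul_pos A0 (Real.rpow_pos_of_pos (hy 0) _)), fun k => ?_⟩
    have e1 : y k ^ (-(τ + 2)) ≤ y 0 ^ (-(τ + 2)) :=
      Real.rpow_le_rpow_of_nonpos (hy 0) (h.2.1.monotone (Nat.zero_le k)) (by linarith)
    have e2 : y k ^ τ * y k ^ (-(τ + 2)) * y k ^ 2 = 1 := by
      rw [← Real.rpow_two, ← Real.rpow_add (hy k), ← Real.rpow_add (hy k)]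
      rw [show τ + -(τ + 2) + 2 = 0 by ring, Real.rpow_zero]
    rw [← div_eq_mul_inv, div_le_div_iff₀ (mul_pos A0 (Real.rpow_pos_of_pos (hy 0) _)) (hw k)]
    calc 1 * wt y k = y k ^ 2 * (wt y k * y k ^ τ * y k ^ (-(τ + 2))) := by
          linear_combination (-wt y k) * e2
      _ ≤ _ := mul_le_mul_of_nonneg_left
          (mul_le_mul (hA k) e1 (Real.rpow_pos_of_pos (hy k) _).le A0.le) (hT k).le
  refine ⟨min (δ / y 0 ^ 2 * (wt y 0)⁻¹) (δ ^ 2 * (y 0 ^ 2 * c0) / (δ + 1)),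
    lt_min (mul_pos (div_pos hδ (hT 0)) (inv_pos.2 (hw 0)))
      (div_pos (mul_pos (pow_pos hδ 2) (mul_pos (hT 0) hc0)) (by linarith)), fun z hz => ?_⟩
  have hn : ∀ j, ‖1 - z ^ 2 / (y j : ℂ) ^ 2‖ = ‖(y j : ℂ) ^ 2 - z ^ 2‖ / y j ^ 2 := fun j => by
    have : (y j : ℂ) ≠ 0 := by exact_mod_cast (hy j).ne'
    rw [one_sub_div (pow_ne_zero 2 this), norm_div, norm_pow, Complex.norm_real, Real.norm_eq_abs,
      sq_abs]
  have hr : ∀ j, |1 - z.re ^ 2 / y j ^ 2| ≤ ‖1 - z ^ 2 / (y j : ℂ) ^ 2‖ := fun j => by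
    rw [hn, one_sub_div (hT j).ne', abs_div, abs_of_pos (hT j)]
    exact div_le_div_of_nonneg_right (LB_norm _ _) (hT j).le
  have hr' : ∀ j, δ / y j ^ 2 ≤ ‖1 - z ^ 2 / (y j : ℂ) ^ 2‖ := fun j => by
    rw [hn]; exact div_le_div_of_nonneg_right (hz j) (hT j).le
  have x0 := abs_nonneg z.re
  have x1 : 1 ≤ 1 + |z.re| := by linarith
  rcases le_or_gt (z.re ^ 2) (y 0 ^ 2) with h0 | h0
  · refine (min_le_left _ _).trans (le_trans ?_
      (le_mul_of_one_le_left (norm_nonneg _) (one_le_pow₀ x1)))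
    refine le_of_tendsto_of_tendsto ((LB_lim' hN 0).const_mul _) (LB_lim hN z) ?_
    filter_upwards [eventually_ge_atTop 1] with n hn
    exact LB_fin0 hT hm hr hr' h0 (Finset.mem_range.2 hn)
  · have hex : ∃ n, z.re ^ 2 < y n ^ 2 :=
      (((tendsto_pow_atTop two_ne_zero).comp (prodA_stmt hN).1).eventually_gt_atTop _).exists
    obtain ⟨k, hk⟩ : ∃ k, Nat.find hex = k + 1 :=
      Nat.exists_eq_succ_of_ne_zero fun e => h0.not_gt (e ▸ Nat.find_spec hex)
    have k1 : y k ^ 2 ≤ z.re ^ 2 := not_lt.1 (Nat.find_min hex (by omega))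
    have k2 : z.re ^ 2 ≤ y (k + 1) ^ 2 := (hk ▸ Nat.find_spec hex).le
    have key : δ ^ 2 * min (y k ^ 2 * (y k ^ 2 * (wt y k)⁻¹))
        (y k ^ 2 * (y (k + 1) ^ 2 * (wt y (k + 1))⁻¹)) ≤
        (z.re ^ 2) ^ 3 * (δ + z.re ^ 2) * ‖cprod y z‖ := by
      refine le_of_tendsto_of_tendsto (((((LB_lim' hN k).const_mul _).const_mul _).min
        (((LB_lim' hN (k + 1)).const_mul _).const_mul _)).const_mul _)
        ((LB_lim hN z).const_mul _) ?_
      filter_upwards [eventually_ge_atTop (k + 2)] with n hn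
      exact LB_fin hT hm hδ hr hr' k1 k2 (Finset.mem_range.2 (by omega))
        (Finset.mem_range.2 (by omega))
    have k0 : y 0 ^ 2 ≤ y k ^ 2 := hm.monotone (Nat.zero_le k)
    refine (min_le_right _ _).trans ?_
    rw [div_le_iff₀ (by linarith)]
    have s1 : z.re ^ 2 ≤ (1 + |z.re|) ^ 2 := by
      rw [← sq_abs]; exact pow_le_pow_left₀ x0 (by linarith) 2
    have s2 : 1 ≤ (1 + |z.re|) ^ 2 := one_le_pow₀ x1
    calc δ ^ 2 * (y 0 ^ 2 * c0) ≤ _ := mul_le_mul_of_nonneg_left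
          (le_min (mul_le_mul k0 (hc _) hc0.le (hT k).le) (mul_le_mul k0 (hc _) hc0.le (hT k).le))
          (sq_nonneg δ)
      _ ≤ _ := key
      _ ≤ ((1 + |z.re|) ^ 2) ^ 3 * ((δ + 1) * (1 + |z.re|) ^ 2) * ‖cprod y z‖ := by
          gcongr ?_ * ?_ * _
          · gcongr
          · nlinarith
      _ = _ := by ring

end Pool.Agent.P.MP_7e6317_an
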