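import Pool.Agent.P.MP_7e6317_an.D.Cls

namespace Pool.Agent.P.MP_7e6317_an

open Filter Topology Set MeasureTheory Complex

/-- The general product `∏ (1 - a_j z^2)`. -/
noncomputable def gprod (a : ℕ → ℝ) (z : ℂ) : ℂ := ∏' j, (1 + -((a j : ℂ) * z ^ 2))

section

variable {a : ℕ → ℝ}

lemma gprod_summable (ha : Summable a) (z : ℂ) :
    Summable fun j => ‖-((a j : ℂ) * z ^ 2)‖ := by
  simpa [norm_mul] using (ha.abs.mul_right (‖z‖ ^ 2))

lemma gprod_mult (ha : Summable a) (z : ℂ) :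
    Multipliable fun j => 1 + -((a j : ℂ) * z ^ 2) :=
  multipliable_one_add_of_summable (gprod_summable ha z)

lemma gprod_diff (ha : Summable a) : Differentiable ℂ (gprod a) := by
  intro z
  have hz : z ∈ Metric.ball (0 : ℂ) (‖z‖ + 1) := by simp
  have h := Summable.hasProdLocallyUniformlyOn_nat_one_add
    (f := fun j (w : ℂ) => -((a j : ℂ) * w ^ 2)) (K := Metric.ball (0 : ℂ) (‖z‖ + 1))
    Metric.isOpen_ball (ha.abs.mul_right ((‖z‖ + 1) ^ 2))
    (Eventually.of_forall fun j w hw => by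
      have : ‖w‖ ≤ ‖z‖ + 1 := by simpa using (mem_ball_zero_iff.1 hw).le
      rw [norm_neg, norm_mul, norm_pow, Complex.norm_real, Real.norm_eq_abs]
      gcongr) (fun j => by fun_prop)
  have h2 := h.differentiableOn (.of_forall fun _ => by
    simpa [Finset.prod_fn] using DifferentiableOn.finsetProd (fun _ _ => by fun_prop))
    Metric.isOpen_ball
  exact h2.differentiableAt (Metric.isOpen_ball.mem_nhds hz)

lemma gprod_norm_le {b : ℕ → ℝ} (ha : Summable a) (hb : Summable b) (hab : ∀ j, |a j| ≤ b j)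
    (z : ℂ) : ‖gprod a z‖ ≤ ∏' j, (1 + b j * ‖z‖ ^ 2) := by
  have h1 := (gprod_mult ha z).hasProd.norm
  have h2 := (Real.multipliable_one_add_of_summable (hb.mul_right (‖z‖ ^ 2))).hasProd
  refine le_of_tendsto_of_tendsto' h1 h2 fun s => ?_
  refine Finset.prod_le_prod (fun _ _ => norm_nonneg _) fun j _ => ?_
  refine (norm_add_le _ _).trans ?_
  rw [norm_one, norm_neg, norm_mul, norm_pow, Complex.norm_real, Real.norm_eq_abs]
  gcongr
  exact hab j

lemma gprod_real (ha : Summable a) (t : ℝ) {z : ℂ} (hz : z ^ 2 = t) :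
    gprod a z = ((∏' j, (1 + -(a j * t)) : ℝ) : ℂ) := by
  have h2 := (Real.multipliable_one_add_of_summable (ha.mul_right t).neg).hasProd
  have h3 := h2.map Complex.ofRealHom Complex.continuous_ofReal
  refine HasProd.tprod_eq ?_
  convert h3 using 2 with j
  · simp [hz]
  · rfl

end

lemma cprod_eq (y : ℕ → ℝ) : cprod y = gprod fun j => 1 / y j ^ 2 := by
  funext z
  refine tprod_congr fun j => ?_
  push_cast
  ring

lemma cprodk_eq (y : ℕ → ℝ) (k : ℕ) :
    cprodk y k = gprod fun j => if j = k then 0 else 1 / y j ^ 2 := by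
  funext z
  refine tprod_congr fun j => ?_
  beta_reduce
  split_ifs
  · simp
  · push_cast
    ring

lemma summable_ite {y : ℕ → ℝ} (h : Nodes y) (k : ℕ) :
    Summable fun j => if j = k then (0 : ℝ) else 1 / y j ^ 2 :=
  h.2.2.of_nonneg_of_le (fun j => by split_ifs <;> positivity)
    fun j => by split_ifs <;> first | positivity | rfl

lemma iprod_eq (y : ℕ → ℝ) (s : ℝ) : iprod y s = ∏' j, (1 + 1 / y j ^ 2 * s ^ 2) :=
  tprod_congr fun j => by ring

lemma Nodes.tendsto {y : ℕ → ℝ} (h : Nodes y) : Tendsto y atTop atTop := by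
  refine tendsto_atTop_atTop_of_monotone h.2.1.monotone fun b => ?_
  by_contra hb
  push Not at hb
  have h1 := h.2.2.tendsto_atTop_zero
  have hb0 : 0 < b := (h.pos 0).trans (hb 0)
  have h2 : (1 : ℝ) / b ^ 2 ≤ 0 := ge_of_tendsto' h1 fun n => by
    have := h.pos n
    have := (hb n).le
    gcongr
  have : (0 : ℝ) < 1 / b ^ 2 := by positivity
  linarith

/-- Complex canonical products: analyticity, factorisation, bounds. -/
theorem prodA_stmt {y : ℕ → ℝ} (h : Nodes y) :
    Tendsto y atTop atTop ∧ Differentiable ℂ (cprod y) ∧ (∀ k, Differentiable ℂ (cprodk y k)) ∧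
    (∀ k z, cprod y z = (1 - z ^ 2 / (y k : ℂ) ^ 2) * cprodk y k z) ∧
    (∀ k z, ‖cprodk y k z‖ ≤ iprod y ‖z‖) ∧ (∀ z, ‖cprod y z‖ ≤ iprod y ‖z‖) ∧
    (∀ k z, (∀ j, j ≠ k → z ^ 2 ≠ (y j : ℂ) ^ 2) → cprodk y k z ≠ 0) ∧
    (∀ k j, j ≠ k → cprodk y k (y j) = 0) ∧
    (∀ k z, cprodk y k (-z) = cprodk y k z) ∧ (∀ z, cprod y (-z) = cprod y z) ∧
    (∀ s : ℝ, cprod y (s * I) = iprod y s) ∧ (∀ u : ℝ, cprod y u = rprod y u) ∧
    (∀ k, cprodk y k 0 = 1) := by
  have hm : ∀ z : ℂ, Multipliable fun j => 1 - z ^ 2 / (y j : ℂ) ^ 2 := fun z =>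
    (gprod_mult h.2.2 z).congr fun j => by push_cast; ring
  have hmk : ∀ k (z : ℂ), Multipliable fun j =>
      if j = k then (1 : ℂ) else 1 - z ^ 2 / (y j : ℂ) ^ 2 := fun k z =>
    (gprod_mult (summable_ite h k) z).congr fun j => by
      split_ifs
      · simp
      · push_cast; ring
  refine ⟨h.tendsto, cprod_eq y ▸ gprod_diff h.2.2,
    fun k => cprodk_eq y k ▸ gprod_diff (summable_ite h k), fun k z => ?_, fun k z => ?_,
    fun z => ?_, fun k z hz => ?_, fun k j hj => ?_, fun k z => ?_, fun z => ?_, fun s => ?_,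
    fun u => ?_, fun k => ?_⟩
  · refine Multipliable.tprod_eq_mul_tprod_ite' k ((hmk k z).congr fun j => ?_)
    rw [Function.update_apply]
  · rw [cprodk_eq, iprod_eq]
    refine gprod_norm_le (summable_ite h k) h.2.2 (fun j => ?_) z
    split_ifs
    · rw [abs_zero]; positivity
    · rw [abs_of_nonneg (by positivity)]
  · rw [cprod_eq, iprod_eq]
    exact gprod_norm_le h.2.2 h.2.2 (fun j => (abs_of_nonneg (by positivity)).le) z
  · rw [cprodk_eq]
    refine tprod_one_add_ne_zero_of_summable (fun j => ?_) (gprod_summable (summable_ite h k) z)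
    beta_reduce
    split_ifs with hj
    · simp
    · intro h0
      have hy : (y j : ℂ) ≠ 0 := ofReal_ne_zero.2 (h.pos j).ne'
      refine hz j hj ?_
      push_cast at h0
      field_simp at h0
      linear_combination -h0
  · refine tprod_of_exists_eq_zero ⟨j, ?_⟩
    have hy : (y j : ℂ) ≠ 0 := ofReal_ne_zero.2 (h.pos j).ne'
    rw [if_neg hj, div_self (pow_ne_zero 2 hy), sub_self]
  · simp only [cprodk, neg_sq]
  · simp only [cprod, neg_sq]
  · rw [cprod_eq, gprod_real h.2.2 (-s ^ 2) (by rw [mul_pow, I_sq]; push_cast; ring), iprod]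
    congr 1
    exact tprod_congr fun j => by ring
  · rw [cprod_eq, gprod_real h.2.2 (u ^ 2) (by push_cast; ring), rprod]
    congr 1
    exact tprod_congr fun j => by ring
  · simp [cprodk]

end Pool.Agent.P.MP_7e6317_an
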