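import Pool.Agent.P.MP_7e6317_an.Defs

/-!
Real sequences of nodes and the explicit quantities built from them.
-/

namespace Pool.Agent.P.MP_7e6317_an

open Filter Topology Set MeasureTheory

/-- The weight `1 / ∏_{j ≠ k} |1 - y_k^2 / y_j^2|`. -/
noncomputable def wt (y : ℕ → ℝ) (k : ℕ) : ℝ :=
  (∏' j, if j = k then 1 else |1 - y k ^ 2 / y j ^ 2|)⁻¹

/-- The product `∏_j (1 + s^2 / y_j^2)`. -/
noncomputable def iprod (y : ℕ → ℝ) (s : ℝ) : ℝ := ∏' j, (1 + s ^ 2 / y j ^ 2)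

/-- The product `∏_j (1 - u^2 / y_j^2)`. -/
noncomputable def rprod (y : ℕ → ℝ) (u : ℝ) : ℝ := ∏' j, (1 - u ^ 2 / y j ^ 2)

/-- Admissible node sequences: `0 < y_0 < y_1 < ...`, the series `∑ y_k^(-2)` and
`∑ wt_k y_k^τ` converge, and `∏_j (1 + s^2 / y_j^2)` grows faster than `exp (θ s)` for every
`θ < 1`. -/
def Adm (τ : ℝ) (y : ℕ → ℝ) : Prop :=
  0 < y 0 ∧ StrictMono y ∧ Summable (fun k => 1 / y k ^ 2) ∧
    Summable (fun k => wt y k * y k ^ τ) ∧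
    ∀ θ : ℝ, θ < 1 → Tendsto (fun s => Real.exp (θ * s) / iprod y s) atTop (𝓝 0)

/-- `(2 / π) sin (π m / 2) ∫_0^∞ s^(m-1) / ∏_j (1 + s^2 / y_j^2) ds`. -/
noncomputable def mass (m : ℝ) (y : ℕ → ℝ) : ℝ :=
  2 / Real.pi * Real.sin (Real.pi * m / 2) * ∫ s in Ioi (0 : ℝ), s ^ (m - 1) / iprod y s

/-- The explicit function determined by the nodes `y` and the deviations `d` from `u^m`. -/
noncomputable def extr (m : ℝ) (y d : ℕ → ℝ) (u : ℝ) : ℝ :=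
  u ^ m - u ^ 2 * rprod y u * (∑' k, wt y k * d k / (y k ^ 2 - u ^ 2) +
    2 / Real.pi * Real.sin (Real.pi * m / 2) *
      ∫ s in Ioi (0 : ℝ), s ^ (m - 1) / (iprod y s * (u ^ 2 + s ^ 2)))

end Pool.Agent.P.MP_7e6317_an
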